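import Mathlib

/-!
# Universal subshifts over groups with a co-amenable free subgroup (MP_35fb4b_lc): definitions
-/

set_option autoImplicit false

namespace Pool.Agent.Lib.MP_35fb4b_lc.SR

open scoped Classical

noncomputable section

/-- the free group of rank 2 -/
abbrev F2 : Type := FreeGroup (Fin 2)

/-- real positive semidefinite kernels -/
def PSD {X : Type} (k : X → X → ℝ) : Prop :=
  (∀ x y, k x y = k y x) ∧
    ∀ (n : ℕ) (z : Fin n → X) (a : Fin n → ℝ), 0 ≤ ∑ i, ∑ j, a i * a j * k (z i) (z j)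

/-- `z'` lies in the orbit of `z` -/
def Orb (G : Type) {K : Type} [Group G] [MulAction G K] (z z' : K) : Prop := ∃ g : G, z' = g • z

/-- the stabilizer of `z` is trivial -/
def FreeAt (G : Type) {K : Type} [Group G] [MulAction G K] (z : K) : Prop :=
  ∀ g : G, g • z = z → g = 1

/-- a family of positive semidefinite kernels on the orbits of an action of `G`, tending to `1` on
every orbit when `r → 1`, and small off a finite part of the orbit when `r` is fixed; `ρ` measures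
how uniform the last statement is -/
structure OrbKer (G : Type) [Group G] (ℓ : G → ℕ) (K : Type) [MeasurableSpace K]
    [MulAction G K] where
  ρ : K → ℕ
  k : ℝ → K → K → ℝ
  meas_ρ : Measurable ρ
  meas_k : ∀ r, 0 < r → r < 1 → Measurable (fun z : K × K => k r z.1 z.2)
  nonneg : ∀ r, 0 < r → r < 1 → ∀ z z', 0 ≤ k r z z'
  le_one : ∀ r, 0 < r → r < 1 → ∀ z z', k r z z' ≤ 1
  off : ∀ r, 0 < r → r < 1 → ∀ z z', ¬ Orb G z z' → k r z z' = 0
  lower : ∀ r, 0 < r → r < 1 → ∀ z (g : G), r ^ ℓ g ≤ k r z (g • z)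
  psd : ∀ r, 0 < r → r < 1 → PSD (k r)
  proper : ∀ r, 0 < r → r < 1 → ∀ δ, 0 < δ → ∀ M : ℕ, ∃ E : Finset G, ∀ z z',
    ρ z ≤ M → ρ z' ≤ M → δ ≤ k r z z' → ∃ g ∈ E, z' = g • z

/-- the orbit relation of `Γ` on `K` has kernels as in `OrbKer`, in the form used for pull-backs -/
def Haag (Γ K : Type) [Group Γ] [MeasurableSpace K] [MulAction Γ K] : Prop :=
  ∀ (F : Finset Γ) (ε : ℝ), 0 < ε → ∃ ρ D : K → ℕ, Measurable ρ ∧ Measurable D ∧
    ∀ r : ℝ, 0 < r → r < 1 → ∃ κ : K → K → ℝ, Measurable (fun z : K × K => κ z.1 z.2) ∧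
      (∀ y y', 0 ≤ κ y y') ∧ (∀ y y', κ y y' ≤ 1) ∧ PSD κ ∧
      (∀ g ∈ F, ∀ y, r ^ D y * (1 - ε) ≤ κ y (g • y)) ∧
      ∀ M : ℕ, ∃ E : Finset Γ, ∀ y y', ρ y ≤ M → ρ y' ≤ M → 1 / 2 ≤ κ y y' → ∃ g ∈ E, y' = g • y

section kernel
variable {Γ K : Type} [Group Γ] [MulAction Γ K] (H : Subgroup Γ)

/-- the point `s(c)⁻¹ y`, where `s(c)` is the representative of the coset `c` -/
def zc (y : K) (c : Γ ⧸ H) : K := (Quotient.out c : Γ)⁻¹ • y

/-- the weight of the `H`-orbit of `zc y c` -/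
def lam (C : Finset (Γ ⧸ H)) (p : Γ ⧸ H → ℝ) (y : K) (c : Γ ⧸ H) : ℝ :=
  ∑ c' ∈ C, if Orb H (zc H y c) (zc H y c') then p c' else 0

/-- the normalized weights -/
def wt (C : Finset (Γ ⧸ H)) (p : Γ ⧸ H → ℝ) (y : K) (c : Γ ⧸ H) : ℝ :=
  p c / Real.sqrt (lam H C p y c)

/-- the kernel of the big group -/
def kap (C : Finset (Γ ⧸ H)) (p : Γ ⧸ H → ℝ) (k : K → K → ℝ) (y y' : K) : ℝ :=
  ∑ c ∈ C, ∑ c' ∈ C, wt H C p y c * wt H C p y' c' * k (zc H y c) (zc H y' c')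

end kernel

end

end Pool.Agent.Lib.MP_35fb4b_lc.SR
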