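import Pool.Agent.Lib.MP_35fb4b_lc.Defs
import Pool.Agent.Lib.MP_35fb4b_lc.SR.Defs

/-!
# Module B1 of board SR: the Bernoulli measure on `Δ → Bool`
-/

set_option autoImplicit false

namespace Pool.Agent.Lib.MP_35fb4b_lc.SR

open scoped Classical
open MeasureTheory

noncomputable section

/-- the fair coin -/
private def b1_coin : Measure Bool := (2⁻¹ : ENNReal) • Measure.count

private theorem b1_coin_single (b : Bool) : b1_coin {b} = 2⁻¹ := by
  unfold b1_coin
  rw [Measure.smul_apply, Measure.count_singleton, smul_eq_mul, mul_one]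

private instance b1_coin_prob : IsProbabilityMeasure b1_coin := by
  refine ⟨?_⟩
  unfold b1_coin
  rw [Measure.smul_apply, Measure.count_univ, smul_eq_mul]
  have h : ENat.card Bool = 2 := by simp
  rw [h]
  exact ENNReal.inv_mul_cancel (by norm_num) (by norm_num)

/-- the product measure -/
private def b1_mu (Δ : Type) : Measure (Δ → Bool) := Measure.infinitePi fun _ : Δ => b1_coin

private instance b1_mu_prob (Δ : Type) : IsProbabilityMeasure (b1_mu Δ) := by
  unfold b1_mu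
  infer_instance

private theorem b1_act_meas {Δ : Type} [Group Δ] (δ : Δ) :
    Measurable (act δ : (Δ → Bool) → (Δ → Bool)) :=
  measurable_pi_lambda _ fun g => measurable_pi_apply (g * δ)

private theorem b1_inv {Δ : Type} [Group Δ] (δ : Δ) : (b1_mu Δ).map (act δ) = b1_mu Δ := by
  have h := Measure.map_infinitePi_infinitePi_of_inj (P := fun _ : Δ => b1_coin)
    (f := fun i : Δ => i * δ) (mul_left_injective δ)
  exact h

private theorem b1_atom {Δ : Type} [Group Δ] [Infinite Δ] (x : Δ → Bool) : b1_mu Δ {x} = 0 := by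
  have h1 : ∀ n : ℕ, b1_mu Δ {x} ≤ (2⁻¹ : ENNReal) ^ n := by
    intro n
    obtain ⟨s, hs⟩ := Infinite.exists_subset_card_eq Δ n
    have h2 : ({x} : Set (Δ → Bool)) ⊆ Set.pi s fun i => {x i} := by
      rintro y rfl i _
      rfl
    refine (measure_mono h2).trans ?_
    unfold b1_mu
    rw [Measure.infinitePi_pi _ (fun i _ => measurableSet_singleton _)]
    rw [Finset.prod_congr rfl fun i _ => b1_coin_single (x i), Finset.prod_const, hs]
  have h3 : Filter.Tendsto (fun n : ℕ => (2⁻¹ : ENNReal) ^ n) Filter.atTop (nhds 0) :=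
    ENNReal.tendsto_pow_atTop_nhds_zero_of_lt_one (by simp)
  exact le_antisymm (ge_of_tendsto' h3 h1) zero_le

private theorem b1_cylm {Δ : Type} (I : Finset Δ) (S : Set (∀ _ : I, Bool))
    (hS : MeasurableSet S) : MeasurableSet (cylinder (α := fun _ : Δ => Bool) I S) :=
  MeasurableSet.cylinder I hS

private theorem b1_cyl {Δ : Type} [Group Δ] (I J : Finset Δ) (S : Set (∀ _ : I, Bool))
    (T : Set (∀ _ : J, Bool)) (hS : MeasurableSet S) (hT : MeasurableSet T) (δ : Δ)
    (hd : Disjoint (I.image fun i => i * δ) J) :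
    b1_mu Δ (act δ ⁻¹' cylinder I S ∩ cylinder J T) = b1_mu Δ (cylinder I S) * b1_mu Δ (cylinder J T) := by
  obtain ⟨I', hI'⟩ : ∃ I' : Finset Δ, I' = I.image fun i => i * δ := ⟨_, rfl⟩
  rw [← hI'] at hd
  have hmem : ∀ i : I, (i : Δ) * δ ∈ I' := fun i => by
    rw [hI']
    exact Finset.mem_image_of_mem _ i.2
  have hind : ProbabilityTheory.iIndepFun (fun (i : Δ) (x : Δ → Bool) => x i) (b1_mu Δ) :=
    ProbabilityTheory.iIndepFun_infinitePi (P := fun _ : Δ => b1_coin) (X := fun _ x => x)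
      (fun _ => measurable_id)
  have h1 := hind.indepFun_finset I' J hd (fun i => measurable_pi_apply i)
  have hS' : MeasurableSet {y : ∀ _ : I', Bool | (fun i : I => y ⟨(i : Δ) * δ, hmem i⟩) ∈ S} :=
    (measurable_pi_lambda _ fun i => measurable_pi_apply _) hS
  have h2 := h1.measure_inter_preimage_eq_mul _ _ hS' hT
  have e1 : act δ ⁻¹' cylinder I S = (fun (x : Δ → Bool) (i : I') => x i) ⁻¹'
      {y : ∀ _ : I', Bool | (fun i : I => y ⟨(i : Δ) * δ, hmem i⟩) ∈ S} := by
    ext x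
    rfl
  have e2 : cylinder J T = (fun (x : Δ → Bool) (i : J) => x i) ⁻¹' T := by
    ext x
    rfl
  rw [← e1, ← e2] at h2
  rw [h2]
  congr 1
  have hc : MeasurableSet (cylinder (α := fun _ : Δ => Bool) I S) := b1_cylm I S hS
  conv_rhs => rw [← b1_inv δ]
  rw [Measure.map_apply (b1_act_meas δ) hc]

private theorem b1_approx {Δ : Type} (A : Set (Δ → Bool)) (hA : MeasurableSet A) (ε : ℝ)
    (hε : 0 < ε) : ∃ (I : Finset Δ) (S : Set (∀ _ : I, Bool)), MeasurableSet S ∧
      (b1_mu Δ).real (symmDiff A (cylinder I S)) < ε := by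
  have halg : IsSetAlgebra (measurableCylinders fun _ : Δ => Bool) :=
    ⟨empty_mem_measurableCylinders _, fun s hs => compl_mem_measurableCylinders hs,
      fun s t hs ht => union_mem_measurableCylinders hs ht⟩
  have hd : (b1_mu Δ).MeasureDense (measurableCylinders fun _ : Δ => Bool) :=
    Measure.MeasureDense.of_generateFrom_isSetAlgebra_finite (b1_mu Δ) halg
      generateFrom_measurableCylinders.symm
  obtain ⟨t, ht, h1⟩ := hd.approx A hA (measure_ne_top _ _) ε hε
  obtain ⟨I, S, hS, rfl⟩ := (mem_measurableCylinders t).1 ht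
  refine ⟨I, S, hS, ?_⟩
  unfold Measure.real
  exact (ENNReal.toReal_lt_of_lt_ofReal h1)

private theorem b1_diff {X : Type} [MeasurableSpace X] (μ : Measure X) [IsProbabilityMeasure μ]
    (A B : Set X) : |μ.real A - μ.real B| ≤ μ.real (symmDiff A B) := by
  have h1 : μ.real A ≤ μ.real B + μ.real (symmDiff A B) := by
    refine (measureReal_mono ?_).trans (measureReal_union_le B (symmDiff A B))
    intro x hx
    by_cases hb : x ∈ B
    · exact Or.inl hb
    · exact Or.inr (Or.inl ⟨hx, hb⟩)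
  have h2 : μ.real B ≤ μ.real A + μ.real (symmDiff A B) := by
    refine (measureReal_mono ?_).trans (measureReal_union_le A (symmDiff A B))
    intro x hx
    by_cases ha : x ∈ A
    · exact Or.inl ha
    · exact Or.inr (Or.inr ⟨hx, ha⟩)
  rw [abs_le]
  constructor <;> linarith

theorem bernoulli (Δ : Type) [Group Δ] [Countable Δ] [Infinite Δ] :
    ∃ μ : Measure (Δ → Bool), IsProbabilityMeasure μ ∧ (∀ δ : Δ, μ.map (act δ) = μ) ∧
      (∀ x, μ {x} = 0) ∧ ∀ A B : Set (Δ → Bool), MeasurableSet A → MeasurableSet B →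
        ∀ ε : ℝ, 0 < ε → ∃ E : Finset Δ, ∀ δ ∉ E,
          |μ.real (act δ ⁻¹' A ∩ B) - μ.real A * μ.real B| ≤ ε := by
  refine ⟨b1_mu Δ, inferInstance, b1_inv, b1_atom, fun A B hA hB ε hε => ?_⟩
  obtain ⟨I, S, hS, h1⟩ := b1_approx A hA (ε / 4) (by linarith)
  obtain ⟨J, T, hT, h2⟩ := b1_approx B hB (ε / 4) (by linarith)
  refine ⟨(I ×ˢ J).image fun z => z.1⁻¹ * z.2, fun δ hδ => ?_⟩
  have hd : Disjoint (I.image fun i => i * δ) J := by
    rw [Finset.disjoint_left]
    intro a ha hj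
    obtain ⟨i, hi, rfl⟩ := Finset.mem_image.1 ha
    refine hδ (Finset.mem_image.2 ⟨(i, i * δ), Finset.mem_product.2 ⟨hi, hj⟩, ?_⟩)
    show i⁻¹ * (i * δ) = δ
    rw [inv_mul_cancel_left]
  have h3 : (b1_mu Δ).real (act δ ⁻¹' cylinder I S ∩ cylinder J T) =
      (b1_mu Δ).real (cylinder I S) * (b1_mu Δ).real (cylinder J T) := by
    unfold Measure.real
    rw [b1_cyl I J S T hS hT δ hd, ENNReal.toReal_mul]
  have hAm : MeasurableSet (symmDiff A (cylinder I S)) := hA.symmDiff (b1_cylm I S hS)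
  have h4 : (b1_mu Δ).real (act δ ⁻¹' symmDiff A (cylinder I S)) =
      (b1_mu Δ).real (symmDiff A (cylinder I S)) := by
    unfold Measure.real
    rw [← Measure.map_apply (b1_act_meas δ) hAm, b1_inv]
  have h5 : |(b1_mu Δ).real (act δ ⁻¹' A ∩ B) -
      (b1_mu Δ).real (act δ ⁻¹' cylinder I S ∩ cylinder J T)| ≤ ε / 4 + ε / 4 := by
    refine (b1_diff _ _ _).trans ?_
    have h6 : symmDiff (act δ ⁻¹' A ∩ B) (act δ ⁻¹' cylinder I S ∩ cylinder J T) ⊆
        (act δ ⁻¹' symmDiff A (cylinder I S)) ∪ symmDiff B (cylinder J T) := by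
      rintro x (⟨⟨hx1, hx2⟩, hx3⟩ | ⟨⟨hx1, hx2⟩, hx3⟩)
      · by_cases hc : x ∈ act δ ⁻¹' cylinder I S
        · exact Or.inr (Or.inl ⟨hx2, fun hx => hx3 ⟨hc, hx⟩⟩)
        · exact Or.inl (Or.inl ⟨hx1, hc⟩)
      · by_cases hc : x ∈ act δ ⁻¹' A
        · exact Or.inr (Or.inr ⟨hx2, fun hx => hx3 ⟨hc, hx⟩⟩)
        · exact Or.inl (Or.inr ⟨hx1, hc⟩)
    refine (measureReal_mono h6).trans ((measureReal_union_le _ _).trans ?_)
    rw [h4]
    linarith
  have h7 := (b1_diff (b1_mu Δ) A (cylinder I S)).trans h1.le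
  have h8 := (b1_diff (b1_mu Δ) B (cylinder J T)).trans h2.le
  have h9 : 0 ≤ (b1_mu Δ).real A := measureReal_nonneg
  have h10 : (b1_mu Δ).real A ≤ 1 := measureReal_le_one
  have h11 : 0 ≤ (b1_mu Δ).real (cylinder J T) := measureReal_nonneg
  have h12 : (b1_mu Δ).real (cylinder J T) ≤ 1 := measureReal_le_one
  rw [h3] at h5
  rw [abs_le] at h5 h7 h8 ⊢
  obtain ⟨h5a, h5b⟩ := h5
  obtain ⟨h7a, h7b⟩ := h7
  obtain ⟨h8a, h8b⟩ := h8
  constructor <;> nlinarith

end

end Pool.Agent.Lib.MP_35fb4b_lc.SR
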