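import Pool.Agent.Lib.MP_35fb4b_lc.SR.T1

/-!
# C1: the pull-back of the kernels is close to `1`
-/

set_option autoImplicit false

namespace Pool.Agent.Lib.MP_35fb4b_lc.SR

open scoped Classical
open MeasureTheory

noncomputable section

theorem c1_directed {X : Type} [MeasurableSpace X] (μ : Measure X) (hμ1 : IsProbabilityMeasure μ)
    {ι : Type} [Countable ι] (s : ι → Set X) (hd : Directed (· ⊆ ·) s)
    (hu : ⋃ i, s i = Set.univ) (e : ℝ) (he : 0 < e) : ∃ i, 1 - e ≤ μ.real (s i) := by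
  by_contra hc
  push Not at hc
  have h1 : μ (⋃ i, s i) = ⨆ i, μ (s i) := hd.measure_iUnion
  rw [hu, measure_univ] at h1
  have h2 : (⨆ i, μ (s i)) ≤ ENNReal.ofReal (1 - e) := by
    refine iSup_le fun i => ?_
    rw [← ENNReal.ofReal_toReal (measure_ne_top μ (s i))]
    exact ENNReal.ofReal_le_ofReal (hc i).le
  rw [← h1] at h2
  have h3 : (1 : ℝ) ≤ 1 - e := ENNReal.one_le_ofReal.mp h2
  linarith

theorem c1_inter {X : Type} [MeasurableSpace X] (μ : Measure X) (hμ1 : IsProbabilityMeasure μ)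
    (A B : Set X) (hB : MeasurableSet B) :
    μ.real A + μ.real B - 1 ≤ μ.real (A ∩ B) := by
  have h1 := measureReal_union_add_inter (μ := μ) (s := A) (t := B) hB
  have h2 : μ.real (A ∪ B) ≤ 1 := measureReal_le_one
  linarith

theorem c1_integrable {X : Type} [MeasurableSpace X] (μ : Measure X)
    (hμ1 : IsProbabilityMeasure μ) (u : X → ℝ) (hu : Measurable u) (h0 : ∀ x, 0 ≤ u x)
    (h1 : ∀ x, u x ≤ 1) : Integrable u μ :=
  Integrable.of_mem_Icc 0 1 hu.aemeasurable (Filter.Eventually.of_forall fun x => ⟨h0 x, h1 x⟩)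

theorem c1_pow (N : ℕ) (e : ℝ) (he : 0 < e) (he1 : e < 1) :
    ∃ r : ℝ, 0 < r ∧ r < 1 ∧ 1 - e ≤ r ^ N := by
  have hN : (0 : ℝ) < (N : ℝ) + 1 := by positivity
  have hx : 0 < e / ((N : ℝ) + 1) := div_pos he hN
  have hx1 : e / ((N : ℝ) + 1) ≤ e := by
    rw [div_le_iff₀ hN]
    have : 0 ≤ (N : ℝ) := Nat.cast_nonneg N
    nlinarith
  refine ⟨1 - e / ((N : ℝ) + 1), by linarith, by linarith, ?_⟩
  have h := one_add_mul_le_pow (a := -(e / ((N : ℝ) + 1))) (by linarith) N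
  have h2 : (N : ℝ) * (e / ((N : ℝ) + 1)) ≤ e := by
    rw [mul_div_assoc', div_le_iff₀ hN]
    have : 0 ≤ (N : ℝ) := Nat.cast_nonneg N
    nlinarith
  calc 1 - e ≤ 1 + (N : ℝ) * -(e / ((N : ℝ) + 1)) := by linarith
    _ ≤ (1 + -(e / ((N : ℝ) + 1))) ^ N := h
    _ = (1 - e / ((N : ℝ) + 1)) ^ N := by rw [sub_eq_add_neg]

/-- Markov: a function with values in `[0, 1]` and mean at least `1 - η` is at least `1 / 2` outside
a set of measure at most `2 η` -/
theorem c1_markov {X : Type} [MeasurableSpace X] (μ : Measure X)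
    (hμ1 : IsProbabilityMeasure μ) (u : X → ℝ) (hu : Measurable u) (h0 : ∀ x, 0 ≤ u x)
    (h1 : ∀ x, u x ≤ 1) (η : ℝ) (hη : 1 - η ≤ ∫ x, u x ∂μ) :
    1 - 2 * η ≤ μ.real {x | 1 / 2 ≤ u x} := by
  have hS : MeasurableSet {x | 1 / 2 ≤ u x} := measurableSet_le measurable_const hu
  have hi := c1_integrable μ hμ1 u hu h0 h1
  have hi2 : Integrable (fun x => Set.indicator {x | 1 / 2 ≤ u x} (fun _ => (1 / 2 : ℝ)) x + 1 / 2)
      μ := ((integrable_const _).indicator hS).add (integrable_const _)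
  have hle : ∫ x, u x ∂μ ≤
      ∫ x, (Set.indicator {x | 1 / 2 ≤ u x} (fun _ => (1 / 2 : ℝ)) x + 1 / 2) ∂μ := by
    refine integral_mono hi hi2 fun x => ?_
    by_cases hx : 1 / 2 ≤ u x
    · have : x ∈ {x | 1 / 2 ≤ u x} := hx
      simp only [Set.indicator_of_mem this]
      linarith [h1 x]
    · have : x ∉ {x | 1 / 2 ≤ u x} := hx
      simp only [Set.indicator_of_notMem this]
      push Not at hx
      linarith
  rw [integral_add ((integrable_const _).indicator hS) (integrable_const _),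
    integral_indicator_const _ hS, integral_const] at hle
  simp only [smul_eq_mul, probReal_univ, one_mul] at hle
  linarith

/-- the pull-back of the kernel, as a function on the group -/
def c1_phi {Δ X K : Type} [Group Δ] [MeasurableSpace X] (T : Δ → X → X) (μ : Measure X)
    (f : X → K) (κ : K → K → ℝ) (δ : Δ) : ℝ := ∫ x, κ (f x) (f (T δ⁻¹ x)) ∂μ

section
variable {Δ X Γ K : Type} [Group Δ] [MeasurableSpace X] (T : Δ → X → X)
    (hT1 : ∀ x, T 1 x = x) (hTm : ∀ a b x, T (a * b) x = T a (T b x))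
    (hT : ∀ δ, Measurable (T δ)) (μ : Measure X) (hμ1 : IsProbabilityMeasure μ)
    (hμ : ∀ δ, μ.map (T δ) = μ) [MeasurableSpace K] (f : X → K)
    (hf : Measurable f) (κ : K → K → ℝ) (hκm : Measurable (fun z : K × K => κ z.1 z.2))
    (hκ0 : ∀ y y', 0 ≤ κ y y') (hκ1 : ∀ y y', κ y y' ≤ 1)

omit [Group Δ] in
include hT hf hκm in
theorem c1_meas (a b : Δ) : Measurable fun x => κ (f (T a x)) (f (T b x)) :=
  hκm.comp ((hf.comp (hT a)).prodMk (hf.comp (hT b)))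

include hT1 hT hf hκm in
theorem c1_meas' (b : Δ) : Measurable fun x => κ (f x) (f (T b x)) := by
  have h := c1_meas T hT f hf κ hκm 1 b
  simpa only [hT1] using h

include hT1 hTm hT hμ hf hκm in
theorem c1_phi_eq (g h : Δ) : c1_phi T μ f κ (g⁻¹ * h) =
    ∫ x, κ (f (T g⁻¹ x)) (f (T h⁻¹ x)) ∂μ := by
  unfold c1_phi
  have hme := c1_meas' T hT1 hT f hf κ hκm (g⁻¹ * h)⁻¹
  have h1 : ∫ x, κ (f x) (f (T (g⁻¹ * h)⁻¹ x)) ∂(μ.map (T g⁻¹)) =
      ∫ x, κ (f (T g⁻¹ x)) (f (T (g⁻¹ * h)⁻¹ (T g⁻¹ x))) ∂μ :=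
    integral_map (hT g⁻¹).aemeasurable hme.aestronglyMeasurable
  rw [hμ g⁻¹] at h1
  rw [h1]
  refine integral_congr_ae (Filter.Eventually.of_forall fun x => ?_)
  show κ (f (T g⁻¹ x)) (f (T (g⁻¹ * h)⁻¹ (T g⁻¹ x))) = κ (f (T g⁻¹ x)) (f (T h⁻¹ x))
  rw [← hTm, show (g⁻¹ * h)⁻¹ * g⁻¹ = h⁻¹ by group]

include hT1 hTm hT hμ1 hμ hf hκm hκ0 hκ1 in
theorem c1_psd (hκ : PSD κ) : PSD fun g h : Δ => c1_phi T μ f κ (g⁻¹ * h) := by
  constructor
  · intro g h
    show c1_phi T μ f κ (g⁻¹ * h) = c1_phi T μ f κ (h⁻¹ * g)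
    rw [c1_phi_eq T hT1 hTm hT μ hμ f hf κ hκm, c1_phi_eq T hT1 hTm hT μ hμ f hf κ hκm]
    refine integral_congr_ae (Filter.Eventually.of_forall fun x => ?_)
    exact hκ.1 _ _
  · intro n z a
    have hint : ∀ i j, Integrable (fun x => a i * a j * κ (f (T (z i)⁻¹ x)) (f (T (z j)⁻¹ x))) μ :=
      fun i j => (c1_integrable μ hμ1 _ (c1_meas T hT f hf κ hκm _ _) (fun x => hκ0 _ _)
        (fun x => hκ1 _ _)).const_mul _
    have h1 : ∑ i, ∑ j, a i * a j * c1_phi T μ f κ ((z i)⁻¹ * z j) =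
        ∫ x, ∑ i, ∑ j, a i * a j * κ (f (T (z i)⁻¹ x)) (f (T (z j)⁻¹ x)) ∂μ := by
      rw [integral_finsetSum _ (fun i _ => integrable_finsetSum _ fun j _ => hint i j)]
      refine Finset.sum_congr rfl fun i _ => ?_
      rw [integral_finsetSum _ (fun j _ => hint i j)]
      refine Finset.sum_congr rfl fun j _ => ?_
      rw [c1_phi_eq T hT1 hTm hT μ hμ f hf κ hκm, integral_const_mul]
    rw [h1]
    refine integral_nonneg fun x => ?_
    exact hκ.2 n (fun i => f (T (z i)⁻¹ x)) a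

end

theorem near_one {Δ X Γ K : Type} [Group Δ] [MeasurableSpace X] (T : Δ → X → X)
    (hT1 : ∀ x, T 1 x = x) (hTm : ∀ a b x, T (a * b) x = T a (T b x))
    (hT : ∀ δ, Measurable (T δ)) (μ : Measure X) (hμ1 : IsProbabilityMeasure μ)
    (hμ : ∀ δ, μ.map (T δ) = μ) (x : ZMod 7 → Δ)
    (hx : ∀ j, x j * x (j + 1) * x (j + 3) = 1) (hgen : Subgroup.closure (Set.range x) = ⊤)
    [Group Γ] [Countable Γ] [MeasurableSpace K] [StandardBorelSpace K] [MulAction Γ K]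
    (hm : ∀ γ : Γ, Measurable fun y : K => γ • y) (hH : Haag Γ K) (f : X → K)
    (hf : Measurable f) (hfT : ∀ δ x, ∃ γ : Γ, f (T δ x) = γ • f x) :
    ∃ E : Finset Γ, ∀ δ : Δ, 1 / 2 ≤ μ.real {x | ∃ g ∈ E, f (T δ x) = g • f x} := by
  -- the finite set of group elements used by the generators
  have hF : ∀ j : ZMod 7, ∃ F : Finset Γ,
      1 - 1 / 50000 ≤ μ.real {u | ∃ g ∈ F, f (T (x j)⁻¹ u) = g • f u} := by
    intro j
    refine c1_directed μ hμ1 (fun F : Finset Γ => {u | ∃ g ∈ F, f (T (x j)⁻¹ u) = g • f u}) ?_ ?_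
      (1 / 50000) (by norm_num)
    · intro F G
      exact ⟨F ∪ G, fun u ⟨g, hg, h⟩ => ⟨g, Finset.mem_union_left _ hg, h⟩,
        fun u ⟨g, hg, h⟩ => ⟨g, Finset.mem_union_right _ hg, h⟩⟩
    · rw [Set.eq_univ_iff_forall]
      intro u
      obtain ⟨g, hg⟩ := hfT (x j)⁻¹ u
      exact Set.mem_iUnion.mpr ⟨{g}, g, Finset.mem_singleton_self g, hg⟩
  choose Fj hFj using hF
  obtain ⟨ρ, D, hρ, hD, hHr⟩ := hH (Finset.univ.biUnion Fj) (1 / 50000) (by norm_num)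
  -- the bound for `D`
  obtain ⟨N, hN⟩ : ∃ N : ℕ, 1 - 1 / 50000 ≤ μ.real {u | D (f u) ≤ N} := by
    refine c1_directed μ hμ1 (fun N : ℕ => {u | D (f u) ≤ N}) ?_ ?_ (1 / 50000) (by norm_num)
    · exact (monotone_nat_of_le_succ fun n u hu => Nat.le_succ_of_le hu).directed_le
    · rw [Set.eq_univ_iff_forall]
      exact fun u => Set.mem_iUnion.mpr ⟨D (f u), le_refl (D (f u))⟩
  obtain ⟨M, hM⟩ : ∃ M : ℕ, 1 - 1 / 20 ≤ μ.real {u | ρ (f u) ≤ M} := by
    refine c1_directed μ hμ1 (fun M : ℕ => {u | ρ (f u) ≤ M}) ?_ ?_ (1 / 20) (by norm_num)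
    · exact (monotone_nat_of_le_succ fun n u hu => Nat.le_succ_of_le hu).directed_le
    · rw [Set.eq_univ_iff_forall]
      exact fun u => Set.mem_iUnion.mpr ⟨ρ (f u), le_refl (ρ (f u))⟩
  obtain ⟨r, hr0, hr1, hrN⟩ := c1_pow N (1 / 50000) (by norm_num) (by norm_num)
  obtain ⟨κ, hκm, hκ0, hκ1, hκp, hκF, hκE⟩ := hHr r hr0 hr1
  have hmeas' := c1_meas' T hT1 hT f hf κ hκm
  have hDm : MeasurableSet {u | D (f u) ≤ N} :=
    measurableSet_le (hD.comp hf) measurable_const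
  have hρm : MeasurableSet {u | ρ (f u) ≤ M} :=
    measurableSet_le (hρ.comp hf) measurable_const
  have hpsd := c1_psd T hT1 hTm hT μ hμ1 hμ f hf κ hκm hκ0 hκ1 hκp
  -- lower bound on the generators
  have hgen1 : ∀ j, 1 - 4 / 50000 ≤ c1_phi T μ f κ (x j) := by
    intro j
    have hAm : MeasurableSet {u | ∃ g ∈ Fj j, f (T (x j)⁻¹ u) = g • f u} := by
      have : {u | ∃ g ∈ Fj j, f (T (x j)⁻¹ u) = g • f u} =
          ⋃ g ∈ Fj j, {u | f (T (x j)⁻¹ u) = g • f u} := by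
        ext u
        simp only [Set.mem_ofPred_eq, Set.mem_iUnion, exists_prop]
      rw [this]
      exact Finset.measurableSet_biUnion _ fun g _ =>
        measurableSet_eq_fun (hf.comp (hT _)) ((hm g).comp hf)
    have hSm := hAm.inter hDm
    have hS : 1 - 2 / 50000 ≤ μ.real ({u | ∃ g ∈ Fj j, f (T (x j)⁻¹ u) = g • f u} ∩
        {u | D (f u) ≤ N}) := by
      have h1 := c1_inter μ hμ1 {u | ∃ g ∈ Fj j, f (T (x j)⁻¹ u) = g • f u} {u | D (f u) ≤ N} hDm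
      have h2 := hFj j
      linarith
    set S := {u | ∃ g ∈ Fj j, f (T (x j)⁻¹ u) = g • f u} ∩ {u | D (f u) ≤ N} with hSdef
    have hle : ∫ u, Set.indicator S (fun _ => ((1 - 1 / 50000) * (1 - 1 / 50000) : ℝ)) u ∂μ ≤
        ∫ u, κ (f u) (f (T (x j)⁻¹ u)) ∂μ := by
      refine integral_mono ((integrable_const _).indicator hSm)
        (c1_integrable μ hμ1 _ (hmeas' _) (fun u => hκ0 _ _) (fun u => hκ1 _ _)) fun u => ?_
      by_cases hu : u ∈ S
      · simp only [Set.indicator_of_mem hu]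
        obtain ⟨⟨g, hg, hgu⟩, hDu⟩ := hu
        have h1 := hκF g (Finset.mem_biUnion.mpr ⟨j, Finset.mem_univ j, hg⟩) (f u)
        rw [← hgu] at h1
        refine le_trans ?_ h1
        refine mul_le_mul_of_nonneg_right ?_ (by norm_num)
        exact hrN.trans (pow_le_pow_of_le_one hr0.le hr1.le hDu)
      · simp only [Set.indicator_of_notMem hu]
        exact hκ0 _ _
    rw [integral_indicator_const _ hSm, smul_eq_mul] at hle
    have hfin : 1 - 4 / 50000 ≤ μ.real S * ((1 - 1 / 50000) * (1 - 1 / 50000)) := by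
      have h3 := mul_le_mul_of_nonneg_right hS
        (show (0 : ℝ) ≤ (1 - 1 / 50000) * (1 - 1 / 50000) by norm_num)
      refine le_trans ?_ h3
      norm_num
    exact hfin.trans hle
  have hphi1 : c1_phi T μ f κ 1 ≤ 1 := by
    unfold c1_phi
    have h1 := integral_mono (c1_integrable μ hμ1 _ (hmeas' (1 : Δ)⁻¹) (fun u => hκ0 _ _)
      (fun u => hκ1 _ _)) (integrable_const (1 : ℝ)) (fun u => hκ1 (f u) (f (T (1 : Δ)⁻¹ u)))
    rw [integral_const] at h1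
    simpa using h1
  have hphi1' : 1 - 4 / 50000 ≤ c1_phi T μ f κ 1 := by
    have h1 := hpsd.2 2 ![1, x 0] ![1, -1]
    have h2 := hpsd.1 1 (x 0)
    simp only [Fin.sum_univ_two, Matrix.cons_val_zero, Matrix.cons_val_one, inv_one, one_mul,
      mul_one, inv_mul_cancel, neg_mul, mul_neg, neg_neg] at h1 h2
    have h3 := hgen1 0
    linarith
  have hall : ∀ δ : Δ, 1 - 7748 / 50000 ≤ c1_phi T μ f κ δ := by
    intro δ
    have h1 := fano_T x hx (c1_phi T μ f κ) hpsd (4 / 50000)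
      (fun j => by linarith [hgen1 j]) δ (by rw [hgen]; trivial)
    linarith
  obtain ⟨E, hE⟩ := hκE M
  refine ⟨E, fun δ => ?_⟩
  have h1 := hall δ⁻¹
  unfold c1_phi at h1
  rw [inv_inv] at h1
  have h2 := c1_markov μ hμ1 (fun u => κ (f u) (f (T δ u))) (hmeas' δ) (fun u => hκ0 _ _)
    (fun u => hκ1 _ _) (7748 / 50000) h1
  have h3 : μ.real {u | ρ (f (T δ u)) ≤ M} = μ.real {u | ρ (f u) ≤ M} := by
    have h4 : μ.map (T δ) {u | ρ (f u) ≤ M} = μ (T δ ⁻¹' {u | ρ (f u) ≤ M}) :=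
      Measure.map_apply (hT δ) hρm
    rw [hμ δ] at h4
    unfold Measure.real
    rw [h4]
    rfl
  have hρm' : MeasurableSet {u | ρ (f (T δ u)) ≤ M} :=
    measurableSet_le (hρ.comp (hf.comp (hT δ))) measurable_const
  have h5 := c1_inter μ hμ1 {u | 1 / 2 ≤ κ (f u) (f (T δ u))} {u | ρ (f u) ≤ M} hρm
  have h6 := c1_inter μ hμ1 ({u | 1 / 2 ≤ κ (f u) (f (T δ u))} ∩ {u | ρ (f u) ≤ M})
    {u | ρ (f (T δ u)) ≤ M} hρm'
  have h7 : μ.real (({u | 1 / 2 ≤ κ (f u) (f (T δ u))} ∩ {u | ρ (f u) ≤ M}) ∩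
      {u | ρ (f (T δ u)) ≤ M}) ≤ μ.real {u | ∃ g ∈ E, f (T δ u) = g • f u} := by
    refine measureReal_mono ?_ (measure_ne_top μ _)
    rintro u ⟨⟨hu1, hu2⟩, hu3⟩
    exact hE (f u) (f (T δ u)) hu2 hu3 hu1
  rw [h3] at h6
  linarith

end

end Pool.Agent.Lib.MP_35fb4b_lc.SR
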