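import Pool.Agent.Lib.MP_35fb4b_lc.Defs
import Pool.Agent.Lib.MP_35fb4b_lc.SR.Defs

/-!
# C2: a mixing action and a null closed relation
-/

set_option autoImplicit false

namespace Pool.Agent.Lib.MP_35fb4b_lc.SR

open scoped Classical
open MeasureTheory

noncomputable section

private lemma c2_finite {Δ Y : Type} [Group Δ] [Countable Δ] [MeasurableSpace Y]
    [MeasurableSingletonClass Y]
    (μ : Measure (Δ → Bool)) (hμ1 : IsProbabilityMeasure μ)
    (hmix : ∀ A B : Set (Δ → Bool), MeasurableSet A → MeasurableSet B →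
        ∀ ε : ℝ, 0 < ε → ∃ E : Finset Δ, ∀ δ ∉ E,
          |μ.real (act δ ⁻¹' A ∩ B) - μ.real A * μ.real B| ≤ ε)
    (g : (Δ → Bool) → Y) (hg : Measurable g) (A : Finset (Y × Y)) (ε : ℝ) (hε : 0 < ε) :
    ∃ E : Finset Δ, ∀ δ ∉ E, μ.real {x | (g x, g (act δ x)) ∈ A} ≤
      (μ.prod μ).real {z | (g z.1, g z.2) ∈ A} + ε := by
  have hB : ∀ y, MeasurableSet (g ⁻¹' {y}) := fun y => hg (measurableSet_singleton y)
  have hε' : 0 < ε / ((A.card : ℝ) + 1) := by positivity
  have hE := fun p : Y × Y => hmix (g ⁻¹' {p.2}) (g ⁻¹' {p.1}) (hB _) (hB _) _ hε'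
  choose E hE using hE
  refine ⟨A.biUnion E, ?_⟩
  intro δ hδ
  have h1 : {x | (g x, g (act δ x)) ∈ A} ⊆
      ⋃ p ∈ A, (act δ ⁻¹' (g ⁻¹' {p.2}) ∩ g ⁻¹' {p.1}) := by
    intro x hx
    rw [Set.mem_iUnion₂]
    exact ⟨_, hx, rfl, rfl⟩
  have h2 : {z : (Δ → Bool) × (Δ → Bool) | (g z.1, g z.2) ∈ A} =
      ⋃ p ∈ A, ((g ⁻¹' {p.1}) ×ˢ (g ⁻¹' {p.2})) := by
    ext z
    rw [Set.mem_iUnion₂]
    constructor
    · intro hz
      exact ⟨_, hz, rfl, rfl⟩
    · rintro ⟨p, hp, h3, h4⟩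
      have h5 : g z.1 = p.1 := h3
      have h6 : g z.2 = p.2 := h4
      show (g z.1, g z.2) ∈ A
      rw [h5, h6]
      exact hp
  have h3 : (μ.prod μ).real {z : (Δ → Bool) × (Δ → Bool) | (g z.1, g z.2) ∈ A} =
      ∑ p ∈ A, μ.real (g ⁻¹' {p.1}) * μ.real (g ⁻¹' {p.2}) := by
    rw [h2, measureReal_biUnion_finset]
    · refine Finset.sum_congr rfl fun p _ => ?_
      rw [measureReal_prod_prod]
    · intro p _ q _ hpq
      rw [Function.onFun, Set.disjoint_left]
      rintro z ⟨h4, h5⟩ ⟨h6, h7⟩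
      apply hpq
      have a1 : g z.1 = p.1 := h4
      have a2 : g z.2 = p.2 := h5
      have a3 : g z.1 = q.1 := h6
      have a4 : g z.2 = q.2 := h7
      exact Prod.ext (a1.symm.trans a3) (a2.symm.trans a4)
    · intro p _
      exact (hB _).prod (hB _)
  calc μ.real {x | (g x, g (act δ x)) ∈ A}
      ≤ μ.real (⋃ p ∈ A, (act δ ⁻¹' (g ⁻¹' {p.2}) ∩ g ⁻¹' {p.1})) :=
        measureReal_mono h1 (measure_ne_top _ _)
    _ ≤ ∑ p ∈ A, μ.real (act δ ⁻¹' (g ⁻¹' {p.2}) ∩ g ⁻¹' {p.1}) :=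
        measureReal_biUnion_finset_le _ _
    _ ≤ ∑ p ∈ A, (μ.real (g ⁻¹' {p.1}) * μ.real (g ⁻¹' {p.2}) + ε / ((A.card : ℝ) + 1)) := by
        refine Finset.sum_le_sum fun p hp => ?_
        have h4 : δ ∉ E p := fun h5 => hδ (Finset.mem_biUnion.mpr ⟨p, hp, h5⟩)
        have h6 := (abs_le.mp (hE p δ h4)).2
        linarith
    _ = (μ.prod μ).real {z | (g z.1, g z.2) ∈ A} + (A.card : ℝ) * (ε / ((A.card : ℝ) + 1)) := by
        rw [h3, Finset.sum_add_distrib, Finset.sum_const, nsmul_eq_mul]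
    _ ≤ (μ.prod μ).real {z | (g z.1, g z.2) ∈ A} + ε := by
        have h5 : (A.card : ℝ) * (ε / ((A.card : ℝ) + 1)) ≤ ε := by
          rw [mul_div_assoc', div_le_iff₀ (by positivity)]
          nlinarith
        linarith

/-- the pairs which agree on the window `I` with an element of `W` -/
private def c2_V {Γ : Type} (W : Set ((Γ → Bool) × (Γ → Bool))) (I : Finset Γ) :
    Set ((Γ → Bool) × (Γ → Bool)) :=
  {z | ∃ w ∈ W, (∀ i ∈ I, w.1 i = z.1 i) ∧ ∀ i ∈ I, w.2 i = z.2 i}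

private def c2_A {Γ : Type} (W : Set ((Γ → Bool) × (Γ → Bool))) (I : Finset Γ) :
    Finset ((I → Bool) × (I → Bool)) :=
  Finset.univ.filter fun p => ∃ w ∈ W, (∀ i : I, w.1 i = p.1 i) ∧ ∀ i : I, w.2 i = p.2 i

private lemma c2_V_iff {Γ : Type} (W : Set ((Γ → Bool) × (Γ → Bool))) (I : Finset Γ)
    (y y' : Γ → Bool) : (y, y') ∈ c2_V W I ↔
      ((fun i : I => y i, fun i : I => y' i) : (I → Bool) × (I → Bool)) ∈ c2_A W I := by
  unfold c2_V c2_A
  simp only [Set.mem_ofPred_eq, Finset.mem_filter, Finset.mem_univ, true_and]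
  constructor
  · rintro ⟨w, hw, h1, h2⟩
    exact ⟨w, hw, fun i => h1 i i.2, fun i => h2 i i.2⟩
  · rintro ⟨w, hw, h1, h2⟩
    exact ⟨w, hw, fun i hi => h1 ⟨i, hi⟩, fun i hi => h2 ⟨i, hi⟩⟩

private lemma c2_restr {Γ : Type} (I : Finset Γ) :
    Measurable fun (y : Γ → Bool) (i : I) => y i :=
  measurable_pi_iff.mpr fun i => measurable_pi_apply (i : Γ)

theorem mixing_closed {Δ Γ : Type} [Group Δ] [Countable Δ] [Infinite Δ] [Countable Γ]
    (μ : Measure (Δ → Bool)) (hμ1 : IsProbabilityMeasure μ) (hμ : ∀ δ : Δ, μ.map (act δ) = μ)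
    (hmix : ∀ A B : Set (Δ → Bool), MeasurableSet A → MeasurableSet B →
        ∀ ε : ℝ, 0 < ε → ∃ E : Finset Δ, ∀ δ ∉ E,
          |μ.real (act δ ⁻¹' A ∩ B) - μ.real A * μ.real B| ≤ ε)
    (f : (Δ → Bool) → (Γ → Bool)) (hf : Measurable f) (W : Set ((Γ → Bool) × (Γ → Bool)))
    (hW : IsClosed W) (hnull : ∀ x, μ {x' | (f x, f x') ∈ W} = 0) (ε : ℝ) (hε : 0 < ε) :
    ∃ δ : Δ, μ.real {x | (f x, f (act δ x)) ∈ W} < ε := by
  have hfG : Measurable fun z : (Δ → Bool) × (Δ → Bool) => (f z.1, f z.2) :=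
    (hf.comp measurable_fst).prodMk (hf.comp measurable_snd)
  -- windows
  obtain ⟨e, he⟩ : ∃ e : ℕ → Option Γ, Function.Surjective e := exists_surjective_nat _
  let I : ℕ → Finset Γ := fun n => (Finset.range n).biUnion fun k => (e k).toFinset
  have hI : Monotone I := by
    intro a b hab
    exact Finset.biUnion_subset_biUnion_of_subset_left _ (Finset.range_mono hab)
  have hIe : ∀ γ : Γ, ∃ n, γ ∈ I n := by
    intro γ
    obtain ⟨k, hk⟩ := he (some γ)
    refine ⟨k + 1, Finset.mem_biUnion.mpr ⟨k, Finset.mem_range.mpr (by omega), ?_⟩⟩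
    rw [hk]
    simp
  -- measurability of the sets `V n`
  have hVm : ∀ n, MeasurableSet (c2_V W (I n)) := by
    intro n
    have h1 : Measurable fun z : (Γ → Bool) × (Γ → Bool) =>
        ((fun i : I n => z.1 i, fun i : I n => z.2 i) : (I n → Bool) × (I n → Bool)) :=
      ((c2_restr (I n)).comp measurable_fst).prodMk ((c2_restr (I n)).comp measurable_snd)
    have h2 : c2_V W (I n) = (fun z : (Γ → Bool) × (Γ → Bool) =>
        ((fun i : I n => z.1 i, fun i : I n => z.2 i) : (I n → Bool) × (I n → Bool))) ⁻¹'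
        (c2_A W (I n) : Set _) := by
      ext z
      exact c2_V_iff W (I n) z.1 z.2
    rw [h2]
    exact h1 (Finset.measurableSet _)
  have hWV : ∀ n, W ⊆ c2_V W (I n) := fun n w hw => ⟨w, hw, fun _ _ => rfl, fun _ _ => rfl⟩
  have hVanti : Antitone fun n => c2_V W (I n) := by
    intro a b hab z hz
    obtain ⟨w, hw, h1, h2⟩ := hz
    exact ⟨w, hw, fun i hi => h1 i (hI hab hi), fun i hi => h2 i (hI hab hi)⟩
  have hVW : ⋂ n, c2_V W (I n) = W := by
    apply Set.Subset.antisymm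
    · intro z hz
      rw [Set.mem_iInter] at hz
      choose w hw h1 h2 using hz
      apply hW.mem_of_tendsto (b := Filter.atTop) (f := w)
      · rw [Prod.tendsto_iff]
        constructor
        · rw [tendsto_pi_nhds]
          intro γ
          obtain ⟨n0, hn0⟩ := hIe γ
          refine tendsto_const_nhds.congr' ?_
          filter_upwards [Filter.eventually_ge_atTop n0] with n hn
          exact (h1 n γ (hI hn hn0)).symm
        · rw [tendsto_pi_nhds]
          intro γ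
          obtain ⟨n0, hn0⟩ := hIe γ
          refine tendsto_const_nhds.congr' ?_
          filter_upwards [Filter.eventually_ge_atTop n0] with n hn
          exact (h2 n γ (hI hn hn0)).symm
      · exact Filter.Eventually.of_forall hw
    · exact Set.subset_iInter hWV
  -- the product measure of the preimage of `W` vanishes
  have hWm : MeasurableSet W := by
    rw [← hVW]
    exact MeasurableSet.iInter hVm
  have h0 : (μ.prod μ) ((fun z : (Δ → Bool) × (Δ → Bool) => (f z.1, f z.2)) ⁻¹' W) = 0 := by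
    rw [Measure.measure_prod_null (hfG hWm)]
    exact Filter.Eventually.of_forall fun x => hnull x
  have hanti : Antitone fun n => (fun z : (Δ → Bool) × (Δ → Bool) => (f z.1, f z.2)) ⁻¹'
      c2_V W (I n) := fun a b hab => Set.preimage_mono (hVanti hab)
  have hlim := tendsto_measure_iInter_atTop (μ := μ.prod μ)
    (fun n => (hfG (hVm n)).nullMeasurableSet) hanti ⟨0, measure_ne_top _ _⟩
  have hint : ⋂ n, (fun z : (Δ → Bool) × (Δ → Bool) => (f z.1, f z.2)) ⁻¹' c2_V W (I n) =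
      (fun z : (Δ → Bool) × (Δ → Bool) => (f z.1, f z.2)) ⁻¹' W := by
    rw [← Set.preimage_iInter, hVW]
  rw [hint, h0] at hlim
  have hev : ∀ᶠ n in Filter.atTop, (μ.prod μ)
      ((fun z : (Δ → Bool) × (Δ → Bool) => (f z.1, f z.2)) ⁻¹' c2_V W (I n)) <
      ENNReal.ofReal (ε / 2) :=
    hlim.eventually (gt_mem_nhds (ENNReal.ofReal_pos.mpr (by positivity)))
  obtain ⟨n, hn⟩ := hev.exists
  have hn' : (μ.prod μ).real ((fun z : (Δ → Bool) × (Δ → Bool) => (f z.1, f z.2)) ⁻¹'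
      c2_V W (I n)) < ε / 2 := by
    unfold Measure.real
    exact (ENNReal.lt_ofReal_iff_toReal_lt (measure_ne_top _ _)).mp hn
  -- mixing for the window
  obtain ⟨E, hE⟩ := c2_finite μ hμ1 hmix (fun x (i : I n) => f x i)
    ((c2_restr (I n)).comp hf) (c2_A W (I n)) (ε / 2) (by positivity)
  obtain ⟨δ, hδ⟩ := Infinite.exists_notMem_finset E
  refine ⟨δ, ?_⟩
  have h5 := hE δ hδ
  have h6 : {z : (Δ → Bool) × (Δ → Bool) | ((fun i : I n => f z.1 i, fun i : I n => f z.2 i) :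
      (I n → Bool) × (I n → Bool)) ∈ c2_A W (I n)} =
      (fun z : (Δ → Bool) × (Δ → Bool) => (f z.1, f z.2)) ⁻¹' c2_V W (I n) := by
    ext z
    exact (c2_V_iff W (I n) (f z.1) (f z.2)).symm
  have h7 : {x | (f x, f (act δ x)) ∈ W} ⊆ {x : Δ → Bool |
      ((fun i : I n => f x i, fun i : I n => f (act δ x) i) :
      (I n → Bool) × (I n → Bool)) ∈ c2_A W (I n)} := by
    intro x hx
    exact (c2_V_iff W (I n) (f x) (f (act δ x))).mp (hWV n hx)
  have h8 := measureReal_mono (μ := μ) h7 (measure_ne_top _ _)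
  rw [h6] at h5
  linarith

end

end Pool.Agent.Lib.MP_35fb4b_lc.SR
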