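import Pool.Agent.Lib.MP_35fb4b_lc.Defs
import Pool.Agent.Lib.MP_35fb4b_lc.SR.Defs

/-! # SR, module D1a: a height function excludes an invariant mean -/

set_option autoImplicit false

namespace Pool.Agent.Lib.MP_35fb4b_lc.SR

open scoped Classical
open MeasureTheory

noncomputable section

/-- a finitely additive measure of the fibres -/
theorem d1_fiber {X α : Type} (m : Set X → ℝ) (h0 : m ∅ = 0)
    (hadd : ∀ A B, Disjoint A B → m (A ∪ B) = m A + m B) (U : X → α) (s : Finset α) :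
    m {x | U x ∈ s} = ∑ v ∈ s, m {x | U x = v} := by
  induction s using Finset.induction_on with
  | empty => simp [h0]
  | insert a s ha ih =>
    rw [Finset.sum_insert ha, ← ih, ← hadd]
    · congr 1
      ext x
      simp
    · rw [Set.disjoint_left]
      intro x hx hx'
      have hx1 : U x = a := hx
      have hx2 : U x ∈ s := hx'
      rw [hx1] at hx2
      exact ha hx2

/-- a height function excludes an invariant mean -/
theorem d1_no_height {Γ X : Type} [Group Γ] [MulAction Γ X] (h : HasMean Γ X) (A : Ht Γ X) :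
    False := by
  obtain ⟨m, m0, m1, madd, minv⟩ := h
  have me : m ∅ = 0 := by
    have h1 := madd ∅ ∅ (by simp)
    rw [Set.union_empty] at h1
    linarith
  have hc : (0 : ℝ) < A.S.card := by
    exact_mod_cast Finset.card_pos.mpr ⟨1, A.one_mem⟩
  obtain ⟨N, hN⟩ := exists_nat_gt (((A.S.card : ℝ) + 1) / (A.S.card * A.κ))
  have hN' : (A.S.card : ℝ) + 1 ≤ N * (A.S.card * A.κ) := by
    rw [div_lt_iff₀ (mul_pos hc A.κ_pos)] at hN
    exact hN.le
  have hN0 : (0 : ℝ) ≤ N := Nat.cast_nonneg N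
  obtain ⟨J, hJ⟩ : ∃ J : X → ℤ, ∀ x, J x = ⌊(N : ℝ) * A.h x⌋ := ⟨_, fun _ => rfl⟩
  have hJ1 : ∀ x, (J x : ℝ) ≤ N * A.h x := fun x => by
    rw [hJ]
    exact Int.floor_le _
  have hJ2 : ∀ x, (N : ℝ) * A.h x < J x + 1 := fun x => by
    rw [hJ]
    exact Int.lt_floor_add_one _
  obtain ⟨u, hu⟩ : ∃ u : Γ → X → ℤ, ∀ s x, u s x = J (s • x) - J x := ⟨_, fun _ _ => rfl⟩
  obtain ⟨B, hB⟩ : ∃ B : ℤ, ∀ s ∈ A.S, ∀ x, -B ≤ u s x ∧ u s x ≤ B := by
    obtain ⟨B, hB⟩ := exists_int_gt ((N : ℝ) * A.H + 1)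
    refine ⟨B, fun s hs x => ?_⟩
    have h1 := abs_le.1 (A.lip s hs x)
    have h2 := hJ1 x
    have h3 := hJ2 x
    have h4 := hJ1 (s • x)
    have h5 := hJ2 (s • x)
    have h6 : (N : ℝ) * (A.h (s • x) - A.h x) ≤ N * A.H := mul_le_mul_of_nonneg_left h1.2 hN0
    have h7 : (N : ℝ) * (-A.H) ≤ N * (A.h (s • x) - A.h x) := mul_le_mul_of_nonneg_left h1.1 hN0
    constructor
    · have h8 : (-B : ℝ) ≤ (u s x : ℝ) := by
        rw [hu]
        push_cast
        linarith
      exact_mod_cast h8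
    · have h8 : (u s x : ℝ) ≤ (B : ℝ) := by
        rw [hu]
        push_cast
        linarith
      exact_mod_cast h8
  have hsum : ∀ x, (1 : ℝ) ≤ ∑ s ∈ A.S, (u s x : ℝ) := by
    intro x
    have h1 := A.sub x
    have h2 : ∀ s ∈ A.S, (N : ℝ) * A.h (s • x) - 1 - N * A.h x ≤ (u s x : ℝ) := by
      intro s _
      have h3 := hJ1 x
      have h5 := hJ2 (s • x)
      rw [hu]
      push_cast
      linarith
    refine le_trans ?_ (Finset.sum_le_sum h2)
    rw [Finset.sum_sub_distrib, Finset.sum_sub_distrib, ← Finset.mul_sum, Finset.sum_const,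
      Finset.sum_const, nsmul_eq_mul, nsmul_eq_mul]
    have h6 : (N : ℝ) * (A.S.card * (A.h x + A.κ)) ≤ N * ∑ s ∈ A.S, A.h (s • x) :=
      mul_le_mul_of_nonneg_left h1 hN0
    nlinarith
  -- the means of the functions `u s`
  obtain ⟨E, hE⟩ : ∃ E : Γ → ℝ, ∀ s, E s = ∑ k ∈ Finset.Icc (-B) B, (k : ℝ) * m {x | u s x = k} :=
    ⟨_, fun _ => rfl⟩
  have hE1 : ∀ s, E s⁻¹ = -E s := by
    intro s
    rw [hE, hE, ← Finset.sum_neg_distrib]
    refine Finset.sum_bij' (fun k _ => -k) (fun k _ => -k) ?_ ?_ ?_ ?_ ?_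
    · intro k hk
      rw [Finset.mem_Icc] at hk ⊢
      omega
    · intro k hk
      rw [Finset.mem_Icc] at hk ⊢
      omega
    · intro k _
      exact neg_neg k
    · intro k _
      exact neg_neg k
    · intro k _
      have h1 : m {x | u s⁻¹ x = k} = m {x | u s x = -k} := by
        rw [← minv s {x | u s x = -k}]
        congr 1
        ext y
        simp only [Set.mem_setOf_eq, Set.mem_image]
        constructor
        · intro hy
          refine ⟨s⁻¹ • y, ?_, smul_inv_smul s y⟩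
          rw [hu] at hy ⊢
          rw [smul_inv_smul]
          omega
        · rintro ⟨x, hx, rfl⟩
          rw [hu] at hx ⊢
          rw [inv_smul_smul]
          omega
      rw [h1]
      push_cast
      ring
  have hE0 : ∑ s ∈ A.S, E s = 0 := by
    have h1 : ∑ s ∈ A.S, E s = ∑ s ∈ A.S, E s⁻¹ := by
      refine Finset.sum_bij' (fun s _ => s⁻¹) (fun s _ => s⁻¹) ?_ ?_ ?_ ?_ ?_
      · exact fun s hs => A.inv_mem s hs
      · exact fun s hs => A.inv_mem s hs
      · exact fun s _ => inv_inv s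
      · exact fun s _ => inv_inv s
      · intro s _
        rw [inv_inv]
    have h2 : ∑ s ∈ A.S, E s⁻¹ = -∑ s ∈ A.S, E s := by
      rw [← Finset.sum_neg_distrib]
      exact Finset.sum_congr rfl fun s _ => hE1 s
    linarith
  -- the joint distribution
  obtain ⟨V, hV⟩ : ∃ V : Finset (A.S → ℤ), V = Fintype.piFinset fun _ => Finset.Icc (-B) B :=
    ⟨_, rfl⟩
  obtain ⟨U, hU⟩ : ∃ U : X → (A.S → ℤ), ∀ x s, U x s = u s x := ⟨fun x s => u s x, fun _ _ => rfl⟩
  have hUV : ∀ x, U x ∈ V := by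
    intro x
    rw [hV, Fintype.mem_piFinset]
    intro s
    rw [hU, Finset.mem_Icc]
    exact hB s s.2 x
  have h1 : ∑ v ∈ V, m {x | U x = v} = 1 := by
    rw [← d1_fiber m me madd, ← m1]
    congr 1
    ext x
    simp [hUV]
  have h2 : ∀ s : A.S, ∑ v ∈ V, (v s : ℝ) * m {x | U x = v} = E s := by
    intro s
    rw [← Finset.sum_fiberwise_of_maps_to (s := V) (t := Finset.Icc (-B) B) (g := fun v => v s)
      (fun v hv => by
        rw [hV, Fintype.mem_piFinset] at hv
        exact hv s), hE]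
    refine Finset.sum_congr rfl fun k hk => ?_
    have h3 : m {x | u s x = k} = ∑ v ∈ V.filter (fun v => v s = k), m {x | U x = v} := by
      rw [← d1_fiber m me madd]
      congr 1
      ext x
      simp [hUV, hU]
    rw [h3, Finset.mul_sum]
    refine Finset.sum_congr rfl fun v hv => ?_
    rw [(Finset.mem_filter.1 hv).2]
  have h4 : ∑ v ∈ V, (∑ s : A.S, (v s : ℝ)) * m {x | U x = v} = ∑ s ∈ A.S, E s := by
    rw [← Finset.sum_coe_sort A.S E, ← Finset.sum_congr rfl fun s _ => h2 s, Finset.sum_comm]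
    refine Finset.sum_congr rfl fun v _ => ?_
    rw [Finset.sum_mul]
  have h5 : ∑ v ∈ V, m {x | U x = v} ≤ ∑ v ∈ V, (∑ s : A.S, (v s : ℝ)) * m {x | U x = v} := by
    refine Finset.sum_le_sum fun v _ => ?_
    by_cases hne : ∃ x, U x = v
    · obtain ⟨x, rfl⟩ := hne
      have h6 := hsum x
      rw [← Finset.sum_coe_sort A.S fun s => (u s x : ℝ)] at h6
      have h7 : ∑ s : A.S, (U x s : ℝ) = ∑ s : A.S, (u s x : ℝ) :=
        Finset.sum_congr rfl fun s _ => by rw [hU]
      rw [h7]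
      have h8 := m0 {y | U y = U x}
      nlinarith
    · have h6 : {x | U x = v} = ∅ := by
        ext x
        simp only [Set.mem_setOf_eq, Set.mem_empty_iff_false, iff_false]
        exact fun hx => hne ⟨x, hx⟩
      rw [h6, me, mul_zero]
  linarith

/-- a height function excludes an invariant mean -/
theorem not_hasMean_of_ht {Γ X : Type} [Group Γ] [MulAction Γ X] (A : Ht Γ X) : ¬ HasMean Γ X :=
  fun h => d1_no_height h A

end

end Pool.Agent.Lib.MP_35fb4b_lc.SR
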