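import Pool.Agent.Lib.MP_35fb4b_lc.M1
import Pool.Agent.Lib.MP_35fb4b_lc.M2
import Pool.Agent.Lib.MP_35fb4b_lc.SR.D1a

/-! # SR, module D1: an invariant mean gives almost invariant densities of finite support -/

set_option autoImplicit false

namespace Pool.Agent.Lib.MP_35fb4b_lc.SR

open scoped Classical
open MeasureTheory

noncomputable section

/-! ### D1 -/
theorem almost_invariant {Γ X : Type} [Group Γ] [MulAction Γ X] [Countable Γ] [Countable X]
    (h : HasMean Γ X) (F : Finset Γ) (ε : ℝ) (hε : 0 < ε) :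
    ∃ (C : Finset X) (p : X → ℝ), (∀ c, 0 ≤ p c) ∧ (∀ c, c ∉ C → p c = 0) ∧ ∑ c ∈ C, p c = 1 ∧
      ∀ g ∈ F, ∀ T : Finset X, ∑ c ∈ T, |p (g • c) - p c| ≤ ε := by
  obtain ⟨ξ, hξ, hN, hF⟩ : ∃ ξ : X → ℝ, Summable (fun x => ξ x ^ 2) ∧ 0 < ∑' x, ξ x ^ 2 ∧
      ∀ s ∈ F, ∑' x, (ξ (s • x) - ξ x) ^ 2 ≤ (ε / 12) ^ 2 * ∑' x, ξ x ^ 2 := by
    by_contra hcon
    have hA : Nonempty (Ht Γ X) := by
      refine exists_height (insert 1 F) ((ε / 12) ^ 2) (by positivity) fun ξ hξ => ?_
      by_contra h2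
      push Not at h2
      apply hcon
      refine ⟨ξ, hξ, ?_, fun s hs => (h2 s (Finset.mem_insert_of_mem hs)).le⟩
      have h3 := h2 1 (Finset.mem_insert_self _ _)
      simp only [one_smul, sub_self, ne_eq, OfNat.ofNat_ne_zero, not_false_eq_true, zero_pow,
        tsum_zero] at h3
      exact pos_of_mul_pos_right h3 (by positivity)
    obtain ⟨A⟩ := hA
    exact d1_no_height h A
  obtain ⟨N, hNd⟩ : ∃ N : ℝ, N = ∑' x, ξ x ^ 2 := ⟨_, rfl⟩
  rw [← hNd] at hN hF
  obtain ⟨q, hq⟩ : ∃ q : X → ℝ, ∀ x, q x = ξ x ^ 2 / N := ⟨_, fun _ => rfl⟩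
  have hq0 : ∀ x, 0 ≤ q x := fun x => by
    rw [hq]
    exact div_nonneg (sq_nonneg _) hN.le
  have hqs : Summable q := by
    have h1 := hξ.div_const N
    refine h1.congr fun x => ?_
    rw [hq]
  have hq1 : ∑' x, q x = 1 := by
    rw [tsum_congr hq, tsum_div_const, ← hNd, div_self hN.ne']
  have hT1 : ∀ T : Finset X, ∑ c ∈ T, q c ≤ 1 := by
    intro T
    rw [← hq1]
    exact hqs.sum_le_tsum T fun x _ => hq0 x
  have hdiff : ∀ g ∈ F, ∀ T : Finset X, ∑ c ∈ T, |q (g • c) - q c| ≤ ε / 4 := by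
    intro g hg T
    have hF' := hF g hg
    rw [hNd] at hF'
    obtain ⟨h1, h2⟩ := m1_l1_bound ξ hξ g (ε / 12) (by positivity) hF'
    rw [← hNd] at h2
    have h3 : ∑ c ∈ T, |ξ (g • c) ^ 2 - ξ c ^ 2| ≤ 3 * (ε / 12) * N :=
      (h1.sum_le_tsum T fun x _ => abs_nonneg _).trans h2
    have h4 : ∑ c ∈ T, |q (g • c) - q c| = (∑ c ∈ T, |ξ (g • c) ^ 2 - ξ c ^ 2|) / N := by
      rw [Finset.sum_div]
      refine Finset.sum_congr rfl fun c _ => ?_
      rw [hq, hq, ← sub_div, abs_div, abs_of_pos hN]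
    rw [h4, div_le_iff₀ hN]
    linarith
  -- truncation
  obtain ⟨C, hC⟩ : ∃ C : Finset X, 1 - min (1 / 2) (ε / 8) < ∑ c ∈ C, q c := by
    have h1 : HasSum q 1 := hq1 ▸ hqs.hasSum
    have h2 : 1 - min (1 / 2) (ε / 8) < 1 := by
      have : 0 < min (1 / 2) (ε / 8) := lt_min (by norm_num) (by positivity)
      linarith
    exact ((tendsto_order.1 h1).1 _ h2).exists
  have hm1 := min_le_left (1 / 2) (ε / 8)
  have hm2 := min_le_right (1 / 2) (ε / 8)
  obtain ⟨Q, hQ⟩ : ∃ Q : ℝ, Q = ∑ c ∈ C, q c := ⟨_, rfl⟩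
  rw [← hQ] at hC
  have hQ0 : 1 / 2 < Q := by linarith
  have hQ00 : 0 < Q := by linarith
  obtain ⟨r, hr⟩ : ∃ r : X → ℝ, ∀ x, r x = if x ∈ C then 0 else q x := ⟨_, fun _ => rfl⟩
  have hr0 : ∀ x, 0 ≤ r x := by
    intro x
    rw [hr]
    split_ifs
    · exact le_rfl
    · exact hq0 x
  have hrT : ∀ T : Finset X, ∑ c ∈ T, r c ≤ ε / 8 := by
    intro T
    have h1 : ∑ c ∈ T, r c = ∑ c ∈ T.filter (fun c => c ∉ C), q c := by
      rw [Finset.sum_filter]
      refine Finset.sum_congr rfl fun c _ => ?_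
      rw [hr]
      by_cases hc : c ∈ C
      · simp [hc]
      · simp [hc]
    have h2 : Disjoint (T.filter (fun c => c ∉ C)) C := by
      rw [Finset.disjoint_left]
      intro c hc
      exact (Finset.mem_filter.1 hc).2
    have h3 := hT1 (T.filter (fun c => c ∉ C) ∪ C)
    rw [Finset.sum_union h2, ← hQ] at h3
    rw [h1]
    linarith
  refine ⟨C, fun x => if x ∈ C then q x / Q else 0, ?_, ?_, ?_, ?_⟩
  · intro c
    dsimp only
    split_ifs
    · exact div_nonneg (hq0 c) hQ00.le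
    · exact le_rfl
  · intro c hc
    simp [hc]
  · have h1 : ∑ c ∈ C, (if c ∈ C then q c / Q else 0) = ∑ c ∈ C, q c / Q :=
      Finset.sum_congr rfl fun c hc => if_pos hc
    show ∑ c ∈ C, (if c ∈ C then q c / Q else 0) = 1
    rw [h1, ← Finset.sum_div, ← hQ, div_self hQ00.ne']
  · intro g hg T
    have hpt : ∀ c, |(if g • c ∈ C then q (g • c) / Q else 0) - (if c ∈ C then q c / Q else 0)| ≤
        2 * (|q (g • c) - q c| + r (g • c) + r c) := by
      intro c
      have e1 : ∀ x, (if x ∈ C then q x / Q else 0) = (q x - r x) / Q := by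
        intro x
        rw [hr]
        split_ifs
        · rw [sub_zero]
        · rw [sub_self, zero_div]
      rw [e1, e1, ← sub_div, abs_div, abs_of_pos hQ00, div_le_iff₀ hQ00]
      have h1 : |q (g • c) - r (g • c) - (q c - r c)| ≤ |q (g • c) - q c| + r (g • c) + r c := by
        have h2 : q (g • c) - r (g • c) - (q c - r c) = (q (g • c) - q c) + (r c - r (g • c)) := by
          ring
        rw [h2]
        refine (abs_add_le _ _).trans ?_
        have h3 : |r c - r (g • c)| ≤ r (g • c) + r c := by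
          rw [abs_le]
          have := hr0 c
          have := hr0 (g • c)
          constructor <;> linarith
        linarith
      have h4 : 0 ≤ |q (g • c) - q c| + r (g • c) + r c := le_trans (abs_nonneg _) h1
      nlinarith
    refine (Finset.sum_le_sum fun c _ => hpt c).trans ?_
    rw [← Finset.mul_sum, Finset.sum_add_distrib, Finset.sum_add_distrib]
    have h1 := hdiff g hg T
    have h2 := hrT T
    have h3 : ∑ c ∈ T, r (g • c) ≤ ε / 8 := by
      have h4 := hrT (T.image fun c => g • c)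
      rw [Finset.sum_image fun a _ b _ hab => MulAction.injective g hab] at h4
      exact h4
    linarith

end

end Pool.Agent.Lib.MP_35fb4b_lc.SR
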