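import Pool.Agent.Lib.MP_35fb4b_lc.SR.Defs

/-!
# SR-K1: the Haagerup kernel of the free group is positive semidefinite

`|g⁻¹ h| = |g| + |h| - 2 m` where `m` is the length of the longest common prefix of the reduced
words, and `r⁻²ᵐ = 1 + (r⁻² - 1) ∑_{t < m} r⁻²ᵗ`, where `t < m` iff the prefixes of length `t + 1`
exist and are equal.
-/

set_option autoImplicit false

namespace Pool.Agent.Lib.MP_35fb4b_lc.SR

open scoped Classical

noncomputable section

/-- length of the longest common prefix -/
def k1_cp : List (Fin 2 × Bool) → List (Fin 2 × Bool) → ℕ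
  | a :: l, b :: l' => if a = b then k1_cp l l' + 1 else 0
  | _, _ => 0

private theorem k1_cp_nil (l : List (Fin 2 × Bool)) : k1_cp [] l = 0 := by
  cases l <;> rfl

private theorem k1_cp_nil' (l : List (Fin 2 × Bool)) : k1_cp l [] = 0 := by
  cases l <;> rfl

private theorem k1_cp_cons (a b : Fin 2 × Bool) (l l' : List (Fin 2 × Bool)) :
    k1_cp (a :: l) (b :: l') = if a = b then k1_cp l l' + 1 else 0 := rfl

private theorem k1_take : ∀ (l l' : List (Fin 2 × Bool)) (t : ℕ),
    t ≤ k1_cp l l' ↔ (t ≤ l.length ∧ t ≤ l'.length ∧ l.take t = l'.take t)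
  | [], l', t => by
    rw [k1_cp_nil]
    constructor
    · intro h
      have : t = 0 := by omega
      subst this
      simp
    · rintro ⟨h, -, -⟩
      simpa using h
  | a :: l, [], t => by
    rw [k1_cp_nil']
    constructor
    · intro h
      have : t = 0 := by omega
      subst this
      simp
    · rintro ⟨-, h, -⟩
      simpa using h
  | a :: l, b :: l', 0 => by simp
  | a :: l, b :: l', t + 1 => by
    rw [k1_cp_cons]
    by_cases hab : a = b
    · subst hab
      simp only [if_true, List.length_cons, List.take_succ_cons, List.cons.injEq, true_and]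
      have := k1_take l l' t
      constructor
      · intro h
        have h1 := this.1 (by omega)
        exact ⟨by omega, by omega, h1.2.2⟩
      · rintro ⟨h1, h2, h3⟩
        have := this.2 ⟨by omega, by omega, h3⟩
        omega
    · simp [hab]

private theorem k1_norm_mk {l : List (Fin 2 × Bool)} (h : FreeGroup.IsReduced l) :
    FreeGroup.norm (FreeGroup.mk l) = l.length := by
  rw [FreeGroup.norm, FreeGroup.toWord_mk, h.reduce_eq]

private theorem k1_norm : ∀ (l l' : List (Fin 2 × Bool)), FreeGroup.IsReduced l →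
    FreeGroup.IsReduced l' →
    FreeGroup.norm ((FreeGroup.mk l)⁻¹ * FreeGroup.mk l') + 2 * k1_cp l l' = l.length + l'.length
  | [], l', _, h' => by
    rw [k1_cp_nil, ← FreeGroup.one_eq_mk, inv_one, one_mul, k1_norm_mk h']
    simp
  | a :: l, [], h, _ => by
    rw [k1_cp_nil', ← FreeGroup.one_eq_mk, mul_one, FreeGroup.norm_inv_eq, k1_norm_mk h]
    simp
  | a :: l, b :: l', h, h' => by
    rw [k1_cp_cons]
    by_cases hab : a = b
    · subst hab
      have h1 : (FreeGroup.mk (a :: l))⁻¹ * FreeGroup.mk (a :: l') =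
          (FreeGroup.mk l)⁻¹ * FreeGroup.mk l' := by
        have h2 : ∀ x : List (Fin 2 × Bool), FreeGroup.mk (a :: x) =
            FreeGroup.mk [a] * FreeGroup.mk x := by
          intro x
          rw [FreeGroup.mul_mk]
          rfl
        rw [h2 l, h2 l', mul_inv_rev, mul_assoc, inv_mul_cancel_left]
      have h3 := k1_norm l l' (List.IsChain.tail h) (List.IsChain.tail h')
      rw [h1, if_pos rfl]
      simp only [List.length_cons]
      omega
    · have hr : FreeGroup.IsReduced (FreeGroup.invRev (a :: l) ++ (b :: l')) := by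
        have hinv : FreeGroup.IsReduced (FreeGroup.invRev (a :: l)) := by
          rw [FreeGroup.isReduced_iff_reduce_eq, FreeGroup.reduce_invRev, h.reduce_eq]
        unfold FreeGroup.IsReduced at hinv h' ⊢
        rw [List.isChain_append]
        refine ⟨hinv, h', ?_⟩
        intro x hx y hy
        have hx' : x = (a.1, !a.2) := by
          rw [FreeGroup.invRev_cons] at hx
          simpa [FreeGroup.invRev, eq_comm] using hx
        have hy' : y = b := by simpa [eq_comm] using hy
        subst hx' hy'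
        intro h1
        dsimp only at h1 ⊢
        by_contra h2
        apply hab
        ext
        · rw [h1]
        · revert h2
          cases a.2 <;> cases y.2 <;> simp
      rw [if_neg hab, FreeGroup.inv_mk, FreeGroup.mul_mk, k1_norm_mk hr]
      simp [FreeGroup.invRev_length]

private theorem k1_eqker {n : ℕ} {β : Type} (P : Fin n → Prop) (f : Fin n → β)
    (c : Fin n → ℝ) :
    0 ≤ ∑ i, ∑ j, c i * c j * (if P i ∧ P j ∧ f i = f j then (1 : ℝ) else 0) := by
  have h : ∑ i, ∑ j, c i * c j * (if P i ∧ P j ∧ f i = f j then (1 : ℝ) else 0) =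
      ∑ u ∈ Finset.univ.image f, (∑ i, if P i ∧ f i = u then c i else 0) ^ 2 := by
    simp_rw [sq, Finset.sum_mul_sum]
    rw [Finset.sum_comm (s := Finset.univ.image f)]
    refine Finset.sum_congr rfl (fun i _ => ?_)
    rw [Finset.sum_comm (s := Finset.univ.image f)]
    refine Finset.sum_congr rfl (fun j _ => ?_)
    rw [Finset.sum_eq_single (f i)]
    · by_cases h3 : f i = f j
      · by_cases h1 : P i <;> by_cases h2 : P j <;> simp [h1, h2, h3]
      · have h4 : ¬ f j = f i := fun h => h3 h.symm
        simp [h3, h4]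
    · intro u _ hu
      rw [if_neg (fun h => hu h.2.symm), zero_mul]
    · intro h1
      exact absurd (Finset.mem_image_of_mem f (Finset.mem_univ i)) h1
  rw [h]
  exact Finset.sum_nonneg (fun u _ => sq_nonneg _)

private theorem k1_pow (r : ℝ) (h0 : 0 < r) (g h : F2) (N : ℕ)
    (hN : g.toWord.length ≤ N) :
    r ^ FreeGroup.norm (g⁻¹ * h) = r ^ g.toWord.length * r ^ h.toWord.length *
      (1 + ((r ^ 2)⁻¹ - 1) * ∑ t ∈ Finset.range N, ((r ^ 2)⁻¹) ^ t *
        (if (t + 1 ≤ g.toWord.length ∧ t + 1 ≤ h.toWord.length ∧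
          g.toWord.take (t + 1) = h.toWord.take (t + 1)) then (1 : ℝ) else 0)) := by
  set m := k1_cp g.toWord h.toWord with hm
  have h1 : FreeGroup.norm (g⁻¹ * h) + 2 * m = g.toWord.length + h.toWord.length := by
    have := k1_norm g.toWord h.toWord FreeGroup.isReduced_toWord FreeGroup.isReduced_toWord
    rwa [FreeGroup.mk_toWord, FreeGroup.mk_toWord] at this
  have hmN : m ≤ N := by
    have := ((k1_take g.toWord h.toWord m).1 (le_refl _)).1
    omega
  have h2 : ∑ t ∈ Finset.range N, ((r ^ 2)⁻¹) ^ t *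
        (if (t + 1 ≤ g.toWord.length ∧ t + 1 ≤ h.toWord.length ∧
          g.toWord.take (t + 1) = h.toWord.take (t + 1)) then (1 : ℝ) else 0) =
      ∑ t ∈ Finset.range m, ((r ^ 2)⁻¹) ^ t := by
    rw [← Finset.sum_subset (Finset.range_mono hmN)]
    · refine Finset.sum_congr rfl (fun t ht => ?_)
      rw [if_pos ((k1_take g.toWord h.toWord (t + 1)).1
        (Nat.succ_le_of_lt (Finset.mem_range.1 ht))), mul_one]
    · intro t _ ht
      rw [if_neg, mul_zero]
      intro h3
      exact ht (Finset.mem_range.2 ((k1_take g.toWord h.toWord (t + 1)).2 h3))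
  rw [h2, mul_comm ((r ^ 2)⁻¹ - 1), geom_sum_mul, add_sub_cancel, ← pow_add, ← h1, pow_add,
    mul_assoc, pow_mul, ← mul_pow, mul_inv_cancel₀ (pow_ne_zero 2 h0.ne'), one_pow, mul_one]

theorem haagerup_psd (r : ℝ) (h0 : 0 < r) (h1 : r < 1) :
    PSD fun g h : F2 => r ^ FreeGroup.norm (g⁻¹ * h) := by
  refine ⟨fun x y => ?_, fun n z a => ?_⟩
  · change r ^ FreeGroup.norm (x⁻¹ * y) = r ^ FreeGroup.norm (y⁻¹ * x)
    rw [← FreeGroup.norm_inv_eq (x := x⁻¹ * y), mul_inv_rev, inv_inv]
  · set N := Finset.univ.sup (fun i => (z i).toWord.length) with hN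
    have hNi : ∀ i, (z i).toWord.length ≤ N := fun i =>
      Finset.le_sup (f := fun i => (z i).toWord.length) (Finset.mem_univ i)
    set c : Fin n → ℝ := fun i => a i * r ^ (z i).toWord.length with hc
    have hx : 0 ≤ (r ^ 2)⁻¹ - 1 := by
      have h2 : r ^ 2 ≤ 1 := pow_le_one₀ h0.le h1.le
      have h3 : 1 ≤ (r ^ 2)⁻¹ := (one_le_inv₀ (pow_pos h0 2)).2 h2
      linarith
    have key : ∑ i, ∑ j, a i * a j * r ^ FreeGroup.norm ((z i)⁻¹ * z j) =
        (∑ i, c i) ^ 2 + ((r ^ 2)⁻¹ - 1) * ∑ t ∈ Finset.range N, ((r ^ 2)⁻¹) ^ t *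
          ∑ i, ∑ j, c i * c j * (if (t + 1 ≤ (z i).toWord.length ∧ t + 1 ≤ (z j).toWord.length ∧
          (z i).toWord.take (t + 1) = (z j).toWord.take (t + 1)) then (1 : ℝ) else 0) := by
      have e1 : ∀ i j, a i * a j * r ^ FreeGroup.norm ((z i)⁻¹ * z j) = c i * c j +
          ∑ t ∈ Finset.range N, ((r ^ 2)⁻¹ - 1) * (((r ^ 2)⁻¹) ^ t * (c i * c j *
            (if (t + 1 ≤ (z i).toWord.length ∧ t + 1 ≤ (z j).toWord.length ∧
            (z i).toWord.take (t + 1) = (z j).toWord.take (t + 1)) then (1 : ℝ) else 0))) := by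
        intro i j
        rw [k1_pow r h0 (z i) (z j) N (hNi i), hc, mul_add, mul_one]
        simp only [Finset.mul_sum, mul_add]
        congr 1
        · ring
        · refine Finset.sum_congr rfl (fun t _ => ?_)
          ring
      simp_rw [e1, Finset.sum_add_distrib]
      congr 1
      · rw [sq, Finset.sum_mul_sum]
      · simp only [Finset.mul_sum]
        rw [Finset.sum_comm' (s := Finset.range N) (t := fun _ => Finset.univ)
          (t' := Finset.univ) (s' := fun _ => Finset.range N) (by simp)]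
        refine Finset.sum_congr rfl (fun i _ => ?_)
        rw [Finset.sum_comm]
    rw [key]
    refine add_nonneg (sq_nonneg _) (mul_nonneg hx (Finset.sum_nonneg (fun t _ => ?_)))
    refine mul_nonneg (pow_nonneg (inv_nonneg.2 (sq_nonneg r)) t) ?_
    refine le_of_le_of_eq (k1_eqker (fun i => t + 1 ≤ (z i).toWord.length)
      (fun i => (z i).toWord.take (t + 1)) c) ?_
    refine Finset.sum_congr rfl (fun i _ => Finset.sum_congr rfl (fun j _ => ?_))
    congr!

end

end Pool.Agent.Lib.MP_35fb4b_lc.SR
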