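import Pool.Agent.Lib.MP_35fb4b_lc.SR.Defs

/-!
# Module K2: elements of `F2` have finitely many fixed points on `F2 ⧸ C`, `C` commutative
-/

set_option autoImplicit false

namespace Pool.Agent.Lib.MP_35fb4b_lc.SR

open scoped Classical

noncomputable section

private theorem k2_center {α : Type} (a b : α) (hab : a ≠ b) (w : FreeGroup α)
    (hw : ∀ x : FreeGroup α, x * w = w * x) : w = 1 := by
  by_contra hne
  have hne' : w.toWord ≠ [] := fun h => hne (FreeGroup.toWord_eq_nil_iff.1 h)
  obtain ⟨p, L, hL⟩ := List.exists_cons_of_ne_nil hne'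
  obtain ⟨c, hc⟩ : ∃ c : α, c ≠ p.1 := by
    by_cases h : a = p.1
    · exact ⟨b, fun h' => hab (h.trans h'.symm)⟩
    · exact ⟨a, h⟩
  have hred : FreeGroup.IsReduced w.toWord := FreeGroup.isReduced_toWord
  have h1 : (FreeGroup.of c * w).toWord = (c, true) :: w.toWord := by
    rw [FreeGroup.toWord_mul, FreeGroup.toWord_of]
    apply FreeGroup.IsReduced.reduce_eq
    rw [hL, List.singleton_append, FreeGroup.isReduced_cons_cons]
    rw [hL] at hred
    exact ⟨fun h => absurd h hc, hred⟩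
  have h2 : (w * FreeGroup.of c).toWord.Sublist (w.toWord ++ [(c, true)]) := by
    have h := FreeGroup.toWord_mul_sublist w (FreeGroup.of c)
    rwa [FreeGroup.toWord_of] at h
  have h3 : (w * FreeGroup.of c).toWord = w.toWord ++ [(c, true)] := by
    apply h2.eq_of_length
    rw [← hw, h1]
    simp
  rw [← hw, h1, hL] at h3
  simp only [List.cons_append, List.cons.injEq] at h3
  exact hc (congrArg Prod.fst h3.1)

private theorem k2_cyc (w : F2) (hw : w ≠ 1) :
    ∃ z : F2, z * w = w * z ∧ ∀ x : F2, x * w = w * x → ∃ n : ℤ, x = z ^ n := by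
  let Z : Subgroup F2 := Subgroup.centralizer {w}
  have hmem : ∀ x : F2, x ∈ Z ↔ x * w = w * x := by
    intro x
    rw [Subgroup.mem_centralizer_iff]
    constructor
    · intro h
      exact (h w rfl).symm
    · intro h y hy
      rw [Set.mem_singleton_iff.1 hy]
      exact h.symm
  have hfree : IsFreeGroup Z := subgroupIsFreeOfIsFree Z
  let e : Z ≃* FreeGroup (IsFreeGroup.Generators Z) := IsFreeGroup.toFreeGroup Z
  let w' : Z := ⟨w, (hmem w).2 rfl⟩
  have hw' : e w' ≠ 1 := by
    intro h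
    rw [map_eq_one_iff e e.injective] at h
    exact hw (congrArg Subtype.val h)
  have hc : ∀ x : FreeGroup (IsFreeGroup.Generators Z), x * e w' = e w' * x := by
    intro x
    obtain ⟨y, rfl⟩ := e.surjective x
    rw [← map_mul, ← map_mul]
    congr 1
    exact Subtype.ext ((hmem y.1).1 y.2)
  have hsub : Subsingleton (IsFreeGroup.Generators Z) := by
    constructor
    intro a b
    by_contra hab
    exact hw' (k2_center a b hab _ hc)
  have hnon : Nonempty (IsFreeGroup.Generators Z) := by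
    by_contra hemp
    rw [not_nonempty_iff] at hemp
    exact hw' (Subsingleton.elim _ _)
  obtain ⟨a⟩ := hnon
  refine ⟨(e.symm (FreeGroup.of a)).1, (hmem _).1 (e.symm (FreeGroup.of a)).2, fun x hx => ?_⟩
  have hx' : x ∈ Z := (hmem x).2 hx
  have htop : e ⟨x, hx'⟩ ∈ Subgroup.closure (Set.range (FreeGroup.of : _ →
      FreeGroup (IsFreeGroup.Generators Z))) := by
    rw [FreeGroup.closure_range_of]
    trivial
  have hr : Set.range (FreeGroup.of : _ → FreeGroup (IsFreeGroup.Generators Z)) =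
      {FreeGroup.of a} := by
    ext y
    constructor
    · rintro ⟨b, rfl⟩
      rw [Subsingleton.elim b a]
      rfl
    · intro hy
      exact ⟨a, (Set.mem_singleton_iff.1 hy).symm⟩
  rw [hr, Subgroup.mem_closure_singleton] at htop
  obtain ⟨n, hn⟩ := htop
  refine ⟨n, ?_⟩
  have h := congrArg e.symm hn
  rw [map_zpow, MulEquiv.symm_apply_apply] at h
  have h' := congrArg Subtype.val h
  simpa using h'.symm

private theorem k2_trans (w a b : F2) (hw : w ≠ 1) (ha : a * w = w * a) (hb : b * w = w * b) :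
    a * b = b * a := by
  obtain ⟨z, -, hz⟩ := k2_cyc w hw
  obtain ⟨m, rfl⟩ := hz a ha
  obtain ⟨n, rfl⟩ := hz b hb
  rw [← zpow_add, ← zpow_add, add_comm]

private theorem k2_pow_ne (z : F2) (hz : z ≠ 1) (n : ℤ) (hn : n ≠ 0) : z ^ n ≠ 1 := by
  intro h
  exact hz ((IsMulTorsionFree.zpow_eq_one_iff_left hn).1 h)

private theorem k2_pow_inj (z : F2) (hz : z ≠ 1) (m n : ℤ) (h : z ^ m = z ^ n) : m = n := by
  by_contra hne
  apply k2_pow_ne z hz (m - n) (sub_ne_zero.2 hne)
  rw [zpow_sub, h, mul_inv_cancel]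

/-- conjugating `z` into the powers of `z` in both directions -/
private theorem k2_conj (z u : F2) (hz : z ≠ 1) (i j : ℤ) (hi : u * z * u⁻¹ = z ^ i)
    (hj : u⁻¹ * z * u = z ^ j) : u * z = z * u := by
  have h1 : z = z ^ (j * i) := by
    calc z = u⁻¹ * (u * z * u⁻¹) * u := by group
      _ = u⁻¹ * z ^ i * u := by rw [hi]
      _ = (u⁻¹ * z * u) ^ i := by
          have := conj_zpow (a := u⁻¹) (b := z) (i := i)
          rw [inv_inv] at this
          exact this.symm
      _ = z ^ (j * i) := by rw [hj, zpow_mul]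
  have h2 : (1 : ℤ) = j * i := by
    apply k2_pow_inj z hz
    rw [zpow_one]
    exact h1
  have h3 : i = 1 ∨ i = -1 := by
    have : i ∣ 1 := ⟨j, by rw [h2, mul_comm]⟩
    exact Int.isUnit_iff.1 (isUnit_of_dvd_one this)
  rcases h3 with h3 | h3
  · rw [h3, zpow_one] at hi
    calc u * z = (u * z * u⁻¹) * u := by group
      _ = z * u := by rw [hi]
  · exfalso
    rw [h3, zpow_neg_one] at hi
    have h4 : u * z = z⁻¹ * u := by
      calc u * z = (u * z * u⁻¹) * u := by group
        _ = z⁻¹ * u := by rw [hi]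
    have h4' : u * z⁻¹ = z * u := by
      calc u * z⁻¹ = (u * z * u⁻¹)⁻¹ * u := by group
        _ = z * u := by rw [hi, inv_inv]
    have h5 : z * (u * u) = (u * u) * z := by
      calc z * (u * u) = (z * u) * u := by group
        _ = u * z⁻¹ * u := by rw [h4']
        _ = u * (z⁻¹ * u) := by group
        _ = u * (u * z) := by rw [h4]
        _ = (u * u) * z := by group
    have hu : u ≠ 1 := by
      intro hu
      rw [hu, one_mul, mul_one] at h4
      apply k2_pow_ne z hz 2 (by norm_num)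
      have : z * z = 1 := by
        calc z * z = z⁻¹ * z := by rw [← h4]
          _ = 1 := inv_mul_cancel z
      calc z ^ (2 : ℤ) = z * z := by rw [zpow_ofNat, pow_two]
        _ = 1 := this
    have huu : u * u ≠ 1 := by
      intro h
      apply k2_pow_ne u hu 2 (by norm_num)
      calc u ^ (2 : ℤ) = u * u := by rw [zpow_ofNat, pow_two]
        _ = 1 := h
    have h6 : z * u = u * z := k2_trans (u * u) z u huu h5 (by group)
    have h7 : z * u = z⁻¹ * u := h6.trans h4
    have h8 : z = z⁻¹ := mul_right_cancel h7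
    apply k2_pow_ne z hz 2 (by norm_num)
    calc z ^ (2 : ℤ) = z * z := by rw [zpow_ofNat, pow_two]
      _ = z⁻¹ * z := by rw [← h8]
      _ = 1 := inv_mul_cancel z

theorem finite_fixed (C : Subgroup F2) (hC : ∀ a ∈ C, ∀ b ∈ C, a * b = b * a) (h : F2)
    (hh : h ≠ 1) : {x : F2 ⧸ C | h • x = x}.Finite := by
  by_cases hfix : ∃ g₀ : F2, h • (g₀ : F2 ⧸ C) = (g₀ : F2 ⧸ C)
  swap
  · push Not at hfix
    have : {x : F2 ⧸ C | h • x = x} = ∅ := by
      ext x
      induction x using QuotientGroup.induction_on with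
      | H g => simpa using hfix g
    rw [this]
    exact Set.finite_empty
  obtain ⟨g₀, hg₀⟩ := hfix
  have key : ∀ g : F2, h • (g : F2 ⧸ C) = (g : F2 ⧸ C) → g⁻¹ * h * g ∈ C := by
    intro g hg
    have h1 : ((h * g : F2) : F2 ⧸ C) = (g : F2 ⧸ C) := hg
    have h2 := QuotientGroup.eq.1 h1.symm
    rwa [← mul_assoc] at h2
  have hwC := key g₀ hg₀
  set w : F2 := g₀⁻¹ * h * g₀ with hwdef
  have hw1 : w ≠ 1 := by
    intro hw1
    apply hh
    calc h = g₀ * w * g₀⁻¹ := by rw [hwdef]; group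
      _ = 1 := by rw [hw1]; group
  obtain ⟨z, hzw, hz⟩ := k2_cyc w hw1
  obtain ⟨k, hk⟩ := hz w rfl
  have hz1 : z ≠ 1 := by
    rintro rfl
    rw [one_zpow] at hk
    exact hw1 hk
  have hk0 : k ≠ 0 := by
    rintro rfl
    rw [zpow_zero] at hk
    exact hw1 hk
  -- the finite set of candidates
  have hsub : {x : F2 ⧸ C | h • x = x} ⊆
      (fun n : ℤ => ((g₀ * z ^ n : F2) : F2 ⧸ C)) '' (Set.Ico (0 : ℤ) |k|) := by
    intro x hx
    induction x using QuotientGroup.induction_on with
    | H g =>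
      have hw'C := key g hx
      set u : F2 := g₀⁻¹ * g with hudef
      have hw'u : g⁻¹ * h * g = u⁻¹ * w * u := by
        rw [hudef, hwdef]; group
      rw [hw'u] at hw'C
      have hcomm : (u⁻¹ * w * u) * w = w * (u⁻¹ * w * u) := hC _ hw'C _ hwC
      have hw'1 : u⁻¹ * w * u ≠ 1 := by
        intro h1
        apply hw1
        calc w = u * (u⁻¹ * w * u) * u⁻¹ := by group
          _ = 1 := by rw [h1]; group
      -- `z` commutes with `w' = u⁻¹ w u`
      have hzw' : z * (u⁻¹ * w * u) = (u⁻¹ * w * u) * z :=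
        k2_trans w z (u⁻¹ * w * u) hw1 hzw hcomm
      -- `u⁻¹ z u` commutes with `w'`
      have h1 : (u⁻¹ * z * u) * (u⁻¹ * w * u) = (u⁻¹ * w * u) * (u⁻¹ * z * u) := by
        calc (u⁻¹ * z * u) * (u⁻¹ * w * u) = u⁻¹ * (z * w) * u := by group
          _ = u⁻¹ * (w * z) * u := by rw [hzw]
          _ = (u⁻¹ * w * u) * (u⁻¹ * z * u) := by group
      -- hence with `w`
      have h2 : (u⁻¹ * z * u) * w = w * (u⁻¹ * z * u) :=
        k2_trans (u⁻¹ * w * u) (u⁻¹ * z * u) w hw'1 h1 hcomm.symm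
      -- `u w u⁻¹` commutes with `w`
      have h3 : (u * w * u⁻¹) * w = w * (u * w * u⁻¹) := by
        calc (u * w * u⁻¹) * w = u * (w * (u⁻¹ * w * u)) * u⁻¹ := by group
          _ = u * ((u⁻¹ * w * u) * w) * u⁻¹ := by rw [hcomm]
          _ = w * (u * w * u⁻¹) := by group
      have h3' : u * w * u⁻¹ ≠ 1 := by
        intro h1
        apply hw1
        calc w = u⁻¹ * (u * w * u⁻¹) * u := by group
          _ = 1 := by rw [h1]; group
      have h4 : (u * z * u⁻¹) * (u * w * u⁻¹) = (u * w * u⁻¹) * (u * z * u⁻¹) := by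
        calc (u * z * u⁻¹) * (u * w * u⁻¹) = u * (z * w) * u⁻¹ := by group
          _ = u * (w * z) * u⁻¹ := by rw [hzw]
          _ = (u * w * u⁻¹) * (u * z * u⁻¹) := by group
      have h5 : (u * z * u⁻¹) * w = w * (u * z * u⁻¹) :=
        k2_trans (u * w * u⁻¹) (u * z * u⁻¹) w h3' h4 h3.symm
      obtain ⟨i, hi⟩ := hz _ h5
      obtain ⟨j, hj⟩ := hz _ h2
      have huz : u * z = z * u := k2_conj z u hz1 i j hi hj
      have huw : u * w = w * u := by
        rw [hk]
        exact (Commute.zpow_right (show Commute u z from huz) k).eq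
      obtain ⟨n, hn⟩ := hz u huw
      refine ⟨n % |k|, ⟨Int.emod_nonneg _ (abs_ne_zero.2 hk0),
        Int.emod_lt_of_pos _ (abs_pos.2 hk0)⟩, ?_⟩
      show ((g₀ * z ^ (n % |k|) : F2) : F2 ⧸ C) = (g : F2 ⧸ C)
      rw [QuotientGroup.eq]
      have hg : g = g₀ * z ^ n := by
        rw [← hn, hudef]; group
      obtain ⟨q, hq⟩ : ∃ q : ℤ, n = n % |k| + k * q := by
        have h6 := Int.emod_add_mul_ediv n |k|
        rcases abs_choice k with h7 | h7
        · exact ⟨n / |k|, by rw [h7] at h6 ⊢; linarith⟩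
        · refine ⟨-(n / |k|), ?_⟩
          have : |k| * (n / |k|) = k * -(n / |k|) := by
            rw [h7]; ring
          linarith
      have h8 : (g₀ * z ^ (n % |k|))⁻¹ * g = w ^ q := by
        rw [hg, hk, ← zpow_mul]
        calc (g₀ * z ^ (n % |k|))⁻¹ * (g₀ * z ^ n) = (z ^ (n % |k|))⁻¹ * z ^ n := by group
          _ = (z ^ (n % |k|))⁻¹ * z ^ (n % |k| + k * q) := by rw [← hq]
          _ = z ^ (k * q) := by rw [zpow_add, inv_mul_cancel_left]
      rw [h8]
      exact C.zpow_mem hwC q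
  exact (Set.Finite.image _ (Set.finite_Ico _ _)).subset hsub

end

end Pool.Agent.Lib.MP_35fb4b_lc.SR
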