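import Pool.Agent.Lib.MP_35fb4b_lc.SR.Defs
import Pool.Agent.Lib.MP_35fb4b_lc.SR.K2

/-!
# K3: a measurable bound for the distance to a canonical finite subset of a non-free orbit

`e m` is the first element `≠ 1` of the free group (in an enumeration) which fixes a point of the orbit
of `z`. It fixes only finitely many points of the orbit (K2), and this finite set depends only on the
orbit. `ρ z` is the least `n` such that all of them are of the form `e i • z`, `i ≤ n`.
-/

set_option autoImplicit false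

namespace Pool.Agent.Lib.MP_35fb4b_lc.SR

open scoped Classical
open MeasureTheory

noncomputable section

section
variable {K : Type} [MulAction F2 K] (e : ℕ → F2)

private def k3P (z : K) (m : ℕ) : Prop := e m ≠ 1 ∧ ∃ g : F2, e m • (g • z) = g • z

private def k3L (z : K) (m : ℕ) : Prop := k3P e z m ∧ ∀ m' : ℕ, m' < m → ¬ k3P e z m'

private def k3R (z : K) (m n : ℕ) : Prop :=
  ∀ g : F2, e m • (g • z) = g • z → ∃ i : ℕ, i ≤ n ∧ g • z = e i • z

private def k3Q (z : K) (n : ℕ) : Prop := ∀ m : ℕ, k3L e z m → k3R e z m n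

private theorem k3P_orb (z : K) (g : F2) (m : ℕ) : k3P e (g • z) m ↔ k3P e z m := by
  unfold k3P
  constructor
  · rintro ⟨h1, a, h2⟩
    exact ⟨h1, a * g, by rw [mul_smul]; exact h2⟩
  · rintro ⟨h1, a, h2⟩
    refine ⟨h1, a * g⁻¹, ?_⟩
    rw [mul_smul, inv_smul_smul]
    exact h2

private theorem k3L_orb (z : K) (g : F2) (m : ℕ) : k3L e (g • z) m ↔ k3L e z m := by
  unfold k3L
  rw [k3P_orb]
  refine and_congr_right fun _ => forall_congr' fun m' => ?_
  rw [k3P_orb]

private theorem k3L_unique (z : K) (m m' : ℕ) (h : k3L e z m) (h' : k3L e z m') : m = m' := by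
  rcases lt_trichotomy m m' with h1 | h1 | h1
  · exact absurd h.1 (h'.2 m h1)
  · exact h1
  · exact absurd h'.1 (h.2 m' h1)

private theorem k3_fin (z : K) (hst : ∀ (a b : F2), a • z = z → b • z = z → a * b = b * a)
    (h : F2) (hh : h ≠ 1) : {w : K | (∃ g : F2, w = g • z) ∧ h • w = w}.Finite := by
  have h1 := finite_fixed (MulAction.stabilizer F2 z)
    (fun a ha b hb => hst a b (MulAction.mem_stabilizer_iff.1 ha) (MulAction.mem_stabilizer_iff.1 hb))
    h hh
  refine (h1.image (MulAction.ofQuotientStabilizer F2 z)).subset ?_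
  rintro w ⟨⟨g, rfl⟩, hw⟩
  refine ⟨(QuotientGroup.mk g : F2 ⧸ MulAction.stabilizer F2 z), ?_, ?_⟩
  · show h • (QuotientGroup.mk g : F2 ⧸ MulAction.stabilizer F2 z) = QuotientGroup.mk g
    rw [MulAction.Quotient.smul_mk, QuotientGroup.eq, MulAction.mem_stabilizer_iff]
    have h2 : (h * g) • z = g • z := by rw [mul_smul]; exact hw
    rw [smul_eq_mul, mul_smul, ← h2, inv_smul_smul]
  · exact MulAction.ofQuotientStabilizer_mk F2 z g

private theorem k3Q_ex (he : Function.Surjective e) (z : K)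
    (hst : ∀ (a b : F2), a • z = z → b • z = z → a * b = b * a) : ∃ n, k3Q e z n := by
  by_cases hL : ∃ m, k3L e z m
  · obtain ⟨m, hm⟩ := hL
    have hf := k3_fin z hst (e m) hm.1.1
    have hi : ∀ w : K, ∃ i : ℕ, (∃ g : F2, w = g • z) → w = e i • z := by
      intro w
      by_cases hw : ∃ g : F2, w = g • z
      · obtain ⟨g, hg⟩ := hw
        obtain ⟨i, hi⟩ := he g
        exact ⟨i, fun _ => by rw [hi]; exact hg⟩
      · exact ⟨0, fun h => absurd h hw⟩
    choose i hi using hi
    refine ⟨hf.toFinset.sup i, ?_⟩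
    intro m' hm' g hg
    rw [k3L_unique e z m' m hm' hm] at hg
    refine ⟨i (g • z), ?_, hi (g • z) ⟨g, rfl⟩⟩
    exact Finset.le_sup (f := i) (hf.mem_toFinset.2 ⟨⟨g, rfl⟩, hg⟩)
  · exact ⟨0, fun m hm => absurd ⟨m, hm⟩ hL⟩

private theorem k3P_meas [MeasurableSpace K] [StandardBorelSpace K]
    (hm : ∀ h : F2, Measurable fun z : K => h • z) (m : ℕ) : Measurable fun z : K => k3P e z m := by
  unfold k3P
  refine Measurable.and measurable_const (Measurable.exists fun g => ?_)
  rw [← measurableSet_setOfPred]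
  exact measurableSet_eq_fun ((hm (e m)).comp (hm g)) (hm g)

private theorem k3L_meas [MeasurableSpace K] [StandardBorelSpace K]
    (hm : ∀ h : F2, Measurable fun z : K => h • z) (m : ℕ) : Measurable fun z : K => k3L e z m := by
  unfold k3L
  refine Measurable.and (k3P_meas e hm m) (Measurable.forall fun m' => ?_)
  exact Measurable.imp measurable_const (Measurable.not (k3P_meas e hm m'))

private theorem k3R_meas [MeasurableSpace K] [StandardBorelSpace K]
    (hm : ∀ h : F2, Measurable fun z : K => h • z) (m n : ℕ) :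
    Measurable fun z : K => k3R e z m n := by
  unfold k3R
  refine Measurable.forall fun g => Measurable.imp ?_ (Measurable.exists fun i => ?_)
  · rw [← measurableSet_setOfPred]
    exact measurableSet_eq_fun ((hm (e m)).comp (hm g)) (hm g)
  · refine Measurable.and measurable_const ?_
    rw [← measurableSet_setOfPred]
    exact measurableSet_eq_fun (hm g) (hm (e i))

private theorem k3Q_meas [MeasurableSpace K] [StandardBorelSpace K]
    (hm : ∀ h : F2, Measurable fun z : K => h • z) (n : ℕ) : MeasurableSet {z : K | k3Q e z n} := by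
  rw [measurableSet_setOfPred]
  unfold k3Q
  exact Measurable.forall fun m => Measurable.imp (k3L_meas e hm m) (k3R_meas e hm m n)

end

theorem exists_rho {K : Type} [MeasurableSpace K] [StandardBorelSpace K] [MulAction F2 K]
    (hm : ∀ h : F2, Measurable fun z : K => h • z)
    (hst : ∀ (z : K) (a b : F2), a • z = z → b • z = z → a * b = b * a) :
    ∃ ρ : K → ℕ, Measurable ρ ∧ ∀ M : ℕ, ∃ E : Finset F2, ∀ z z', ¬ FreeAt F2 z → Orb F2 z z' →
      ρ z ≤ M → ρ z' ≤ M → ∃ h ∈ E, z' = h • z := by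
  obtain ⟨e, he⟩ := exists_surjective_nat F2
  have hex : ∀ z : K, ∃ n, k3Q e z n := fun z => k3Q_ex e he z (hst z)
  refine ⟨fun z => Nat.find (hex z), measurable_find hex (fun n => k3Q_meas e hm n), fun M => ?_⟩
  refine ⟨(Finset.range (M + 1) ×ˢ Finset.range (M + 1)).image fun p => (e p.2)⁻¹ * e p.1, ?_⟩
  rintro z z' hz ⟨g, rfl⟩ h1 h2
  have hP : ∃ m, k3P e z m := by
    unfold FreeAt at hz
    push Not at hz
    obtain ⟨h, hh1, hh2⟩ := hz
    obtain ⟨m, hm⟩ := he h
    refine ⟨m, ?_, 1, ?_⟩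
    · rw [hm]; exact hh2
    · rw [hm, one_smul]; exact hh1
  have hL : k3L e z (Nat.find hP) := ⟨Nat.find_spec hP, fun m' hm' => Nat.find_min hP hm'⟩
  have hL' : k3L e (g • z) (Nat.find hP) := (k3L_orb e z g _).2 hL
  obtain ⟨g0, hg0⟩ := hL.1.2
  obtain ⟨i, hi1, hi2⟩ := Nat.find_spec (hex z) _ hL g0 hg0
  have hg0' : e (Nat.find hP) • ((g0 * g⁻¹) • (g • z)) = (g0 * g⁻¹) • (g • z) := by
    rw [mul_smul, inv_smul_smul]
    exact hg0
  obtain ⟨j, hj1, hj2⟩ := Nat.find_spec (hex (g • z)) _ hL' (g0 * g⁻¹) hg0'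
  refine ⟨(e j)⁻¹ * e i, Finset.mem_image.2 ⟨(i, j), ?_, rfl⟩, ?_⟩
  · rw [Finset.mem_product, Finset.mem_range, Finset.mem_range]
    exact ⟨Nat.lt_succ_of_le (hi1.trans h1), Nat.lt_succ_of_le (hj1.trans h2)⟩
  · rw [mul_smul g0, inv_smul_smul] at hj2
    rw [mul_smul, ← hi2, hj2, inv_smul_smul]

end

end Pool.Agent.Lib.MP_35fb4b_lc.SR
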