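import Pool.Agent.Lib.MP_35fb4b_lc.SR.Defs
import Pool.Agent.Lib.MP_35fb4b_lc.SR.K1
import Pool.Agent.Lib.MP_35fb4b_lc.SR.K3

/-!
# SR-K4: kernels on the orbits of an action of the free group of rank 2

`k r z z' = 0` off the orbits; on an orbit it is `1` if the stabilizers are not trivial and `r ^ |h|`, `z' = h z`, if they
are.
-/

set_option autoImplicit false

namespace Pool.Agent.Lib.MP_35fb4b_lc.SR

open scoped Classical
open MeasureTheory

noncomputable section

section basic
variable {K : Type} [MulAction F2 K]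

private theorem k4_orb_symm {z z' : K} (h : Orb F2 z z') : Orb F2 z' z := by
  obtain ⟨g, rfl⟩ := h
  exact ⟨g⁻¹, by rw [inv_smul_smul]⟩

private theorem k4_orb_trans {z z' z'' : K} (h : Orb F2 z z') (h' : Orb F2 z' z'') :
    Orb F2 z z'' := by
  obtain ⟨g, rfl⟩ := h
  obtain ⟨g', rfl⟩ := h'
  exact ⟨g' * g, by rw [mul_smul]⟩

private theorem k4_free_orb {z z' : K} (h : Orb F2 z z') (hf : FreeAt F2 z) : FreeAt F2 z' := by
  obtain ⟨g, rfl⟩ := h
  intro a ha
  have h1 : (g⁻¹ * a * g) • z = z := by
    rw [mul_smul, mul_smul, ha, inv_smul_smul]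
  have h2 := hf _ h1
  have h3 : a = g * (g⁻¹ * a * g) * g⁻¹ := by group
  rw [h3, h2]
  group

private theorem k4_free_unique {z : K} (hf : FreeAt F2 z) {g h : F2} (e : g • z = h • z) :
    g = h := by
  have h1 : (h⁻¹ * g) • z = z := by rw [mul_smul, e, inv_smul_smul]
  have h2 := hf _ h1
  exact (inv_mul_eq_one.mp h2).symm

/-- the code of a pair of points: `0` in different orbits, `1` in an orbit with non-trivial
stabilizers, `|h| + 2` if `z' = h z` in an orbit with trivial stabilizers -/
private def k4code (z z' : K) : ℕ :=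
  if h : Orb F2 z z' then (if FreeAt F2 z then FreeGroup.norm h.choose + 2 else 1) else 0

/-- the values of the kernel on the codes -/
private def k4val (r : ℝ) : ℕ → ℝ
  | 0 => 0
  | 1 => 1
  | n + 2 => r ^ n

private theorem k4code_off {z z' : K} (h : ¬ Orb F2 z z') : k4code z z' = 0 := by
  unfold k4code
  rw [dif_neg h]

private theorem k4code_nonfree {z z' : K} (h : Orb F2 z z') (hf : ¬ FreeAt F2 z) :
    k4code z z' = 1 := by
  unfold k4code
  rw [dif_pos h, if_neg hf]

private theorem k4code_free {z : K} (hf : FreeAt F2 z) (g : F2) :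
    k4code z (g • z) = FreeGroup.norm g + 2 := by
  have h : Orb F2 z (g • z) := ⟨g, rfl⟩
  unfold k4code
  rw [dif_pos h, if_pos hf]
  have h1 : g = h.choose := k4_free_unique hf h.choose_spec
  rw [← h1]

private theorem k4_zero_iff {z z' : K} : k4code z z' = 0 ↔ ¬ Orb F2 z z' := by
  constructor
  · intro h ho
    by_cases hf : FreeAt F2 z
    · obtain ⟨g, rfl⟩ := ho
      rw [k4code_free hf] at h
      omega
    · rw [k4code_nonfree ho hf] at h
      omega
  · exact k4code_off

private theorem k4_one_iff {z z' : K} : k4code z z' = 1 ↔ Orb F2 z z' ∧ ¬ FreeAt F2 z := by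
  constructor
  · intro h
    by_cases ho : Orb F2 z z'
    · refine ⟨ho, fun hf => ?_⟩
      obtain ⟨g, rfl⟩ := ho
      rw [k4code_free hf] at h
      omega
    · rw [k4code_off ho] at h
      omega
  · rintro ⟨ho, hf⟩
    exact k4code_nonfree ho hf

private theorem k4_add_iff {z z' : K} {n : ℕ} : k4code z z' = n + 2 ↔
    FreeAt F2 z ∧ ∃ g : F2, FreeGroup.norm g = n ∧ z' = g • z := by
  constructor
  · intro h
    by_cases ho : Orb F2 z z'
    · by_cases hf : FreeAt F2 z
      · obtain ⟨g, rfl⟩ := ho
        rw [k4code_free hf] at h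
        exact ⟨hf, g, by omega, rfl⟩
      · rw [k4code_nonfree ho hf] at h
        omega
    · rw [k4code_off ho] at h
      omega
  · rintro ⟨hf, g, rfl, rfl⟩
    exact k4code_free hf g

end basic

private theorem k4val_nonneg {r : ℝ} (h0 : 0 < r) : ∀ n, 0 ≤ k4val r n
  | 0 => le_refl _
  | 1 => zero_le_one
  | n + 2 => (pow_pos h0 n).le

private theorem k4val_le_one {r : ℝ} (h0 : 0 < r) (h1 : r < 1) : ∀ n, k4val r n ≤ 1
  | 0 => zero_le_one
  | 1 => le_refl _
  | _ + 2 => pow_le_one₀ h0.le h1.le

section meas
variable {K : Type} [MeasurableSpace K] [StandardBorelSpace K] [MulAction F2 K]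

private theorem k4_meas_eq (hm : ∀ h : F2, Measurable fun z : K => h • z) (g : F2) :
    MeasurableSet {p : K × K | p.2 = g • p.1} :=
  measurableSet_eq_fun measurable_snd ((hm g).comp measurable_fst)

private theorem k4_meas_orb (hm : ∀ h : F2, Measurable fun z : K => h • z) :
    MeasurableSet {p : K × K | Orb F2 p.1 p.2} := by
  have h : {p : K × K | Orb F2 p.1 p.2} = ⋃ g : F2, {p : K × K | p.2 = g • p.1} := by
    ext p
    simp only [Set.mem_ofPred_eq, Set.mem_iUnion, Orb]
  rw [h]
  exact MeasurableSet.iUnion fun g => k4_meas_eq hm g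

private theorem k4_meas_free (hm : ∀ h : F2, Measurable fun z : K => h • z) :
    MeasurableSet {z : K | FreeAt F2 z} := by
  have h : {z : K | FreeAt F2 z} = ⋂ g : F2, {z : K | g • z = z → g = 1} := by
    ext z
    simp only [Set.mem_ofPred_eq, Set.mem_iInter, FreeAt]
  rw [h]
  refine MeasurableSet.iInter fun g => ?_
  by_cases hg : g = 1
  · have : {z : K | g • z = z → g = 1} = Set.univ := by
      ext z
      simp only [Set.mem_ofPred_eq, Set.mem_univ, iff_true]
      exact fun _ => hg
    rw [this]
    exact MeasurableSet.univ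
  · have : {z : K | g • z = z → g = 1} = {z : K | g • z = z}ᶜ := by
      ext z
      simp only [Set.mem_ofPred_eq, Set.mem_compl_iff]
      exact ⟨fun h1 h2 => hg (h1 h2), fun h1 h2 => absurd h2 h1⟩
    rw [this]
    exact (measurableSet_eq_fun (hm g) measurable_id).compl

private theorem k4_meas_code (hm : ∀ h : F2, Measurable fun z : K => h • z) :
    Measurable fun p : K × K => k4code p.1 p.2 := by
  refine measurable_to_countable' fun n => ?_
  have hfree : MeasurableSet {p : K × K | FreeAt F2 p.1} := measurable_fst (k4_meas_free hm)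
  match n with
  | 0 =>
    have h : (fun p : K × K => k4code p.1 p.2) ⁻¹' {0} = {p : K × K | Orb F2 p.1 p.2}ᶜ := by
      ext p
      simp only [Set.mem_preimage, Set.mem_singleton_iff, Set.mem_compl_iff, Set.mem_ofPred_eq]
      exact k4_zero_iff
    rw [h]
    exact (k4_meas_orb hm).compl
  | 1 =>
    have h : (fun p : K × K => k4code p.1 p.2) ⁻¹' {1} =
        {p : K × K | Orb F2 p.1 p.2} ∩ {p : K × K | FreeAt F2 p.1}ᶜ := by
      ext p
      simp only [Set.mem_preimage, Set.mem_singleton_iff, Set.mem_inter_iff, Set.mem_compl_iff,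
        Set.mem_ofPred_eq]
      exact k4_one_iff
    rw [h]
    exact (k4_meas_orb hm).inter hfree.compl
  | n + 2 =>
    have h : (fun p : K × K => k4code p.1 p.2) ⁻¹' {n + 2} =
        {p : K × K | FreeAt F2 p.1} ∩
          ⋃ g : {g : F2 // FreeGroup.norm g = n}, {p : K × K | p.2 = g.1 • p.1} := by
      ext p
      simp only [Set.mem_preimage, Set.mem_singleton_iff, Set.mem_inter_iff, Set.mem_iUnion,
        Set.mem_ofPred_eq, Subtype.exists, exists_prop]
      exact k4_add_iff
    rw [h]
    exact hfree.inter (MeasurableSet.iUnion fun g => k4_meas_eq hm g.1)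

end meas

section psd
variable {K : Type} [MulAction F2 K]

private theorem k4_symm (r : ℝ) (z z' : K) : k4val r (k4code z z') = k4val r (k4code z' z) := by
  by_cases ho : Orb F2 z z'
  · by_cases hf : FreeAt F2 z
    · obtain ⟨g, rfl⟩ := ho
      have h1 : z = g⁻¹ • (g • z) := by rw [inv_smul_smul]
      have h2 : k4code (g • z) z = FreeGroup.norm g⁻¹ + 2 := by
        conv_lhs => rw [h1]
        rw [smul_inv_smul]
        exact k4code_free (k4_free_orb ⟨g, rfl⟩ hf) g⁻¹
      rw [k4code_free hf, h2, FreeGroup.norm_inv_eq]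
    · rw [k4code_nonfree ho hf, k4code_nonfree (k4_orb_symm ho)
        (fun h => hf (k4_free_orb (k4_orb_symm ho) h))]
  · rw [k4code_off ho, k4code_off fun h => ho (k4_orb_symm h)]

/-- the orbit relation -/
private def k4setoid (K : Type) [MulAction F2 K] : Setoid K where
  r := Orb F2
  iseqv := ⟨fun z => ⟨1, by rw [one_smul]⟩, k4_orb_symm, k4_orb_trans⟩

private theorem k4_psd {r : ℝ} (h0 : 0 < r) (h1 : r < 1) :
    PSD fun z z' : K => k4val r (k4code z z') := by
  refine ⟨k4_symm r, fun n z a => ?_⟩
  -- base points of the orbits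
  let b : K → K := fun z => (Quotient.mk (k4setoid K) z).out
  have hb : ∀ z, Orb F2 (b z) z := fun z => Quotient.exact (Quotient.out_eq (Quotient.mk (k4setoid K) z))
  have hb2 : ∀ z z', Orb F2 z z' ↔ b z = b z' := by
    intro z z'
    constructor
    · intro h
      have : Quotient.mk (k4setoid K) z = Quotient.mk (k4setoid K) z' := Quotient.sound h
      show (Quotient.mk (k4setoid K) z).out = (Quotient.mk (k4setoid K) z').out
      rw [this]
    · intro h
      have h1 := hb z
      rw [h] at h1
      exact k4_orb_trans (k4_orb_symm h1) (hb z')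
  choose g hg using hb
  -- the kernel in terms of the base points
  have key : ∀ i j, a i * a j * k4val r (k4code (z i) (z j)) =
      ∑ β ∈ Finset.univ.image (fun i => b (z i)),
        (if b (z i) = β then a i else 0) * (if b (z j) = β then a j else 0) *
          (if FreeAt F2 β then r ^ FreeGroup.norm (((g (z i))⁻¹)⁻¹ * (g (z j))⁻¹) else 1) := by
    intro i j
    rw [Finset.sum_eq_single (b (z i))]
    · rw [if_pos rfl]
      by_cases hij : b (z j) = b (z i)
      · rw [if_pos hij]
        have ho : Orb F2 (z i) (z j) := (hb2 _ _).mpr hij.symm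
        by_cases hf : FreeAt F2 (b (z i))
        · rw [if_pos hf]
          have hf' : FreeAt F2 (z i) := k4_free_orb ⟨g (z i), hg (z i)⟩ hf
          have hz : z j = (g (z j) * (g (z i))⁻¹) • z i := by
            have e1 : (g (z i))⁻¹ • z i = b (z i) := by
              rw [inv_smul_eq_iff]
              exact hg (z i)
            rw [mul_smul, e1, ← hij]
            exact hg (z j)
          have hc : k4code (z i) (z j) = FreeGroup.norm (g (z j) * (g (z i))⁻¹) + 2 := by
            conv_lhs => rw [hz]
            exact k4code_free hf' _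
          rw [hc]
          have hn : FreeGroup.norm (((g (z i))⁻¹)⁻¹ * (g (z j))⁻¹) =
              FreeGroup.norm (g (z j) * (g (z i))⁻¹) := by
            rw [← FreeGroup.norm_inv_eq (x := g (z j) * (g (z i))⁻¹)]
            congr 1
            group
          rw [hn]
          rfl
        · rw [if_neg hf]
          have hf' : ¬ FreeAt F2 (z i) := fun h => hf (k4_free_orb (k4_orb_symm ⟨g (z i), hg (z i)⟩) h)
          rw [k4code_nonfree ho hf']
          rfl
      · rw [if_neg hij]
        have ho : ¬ Orb F2 (z i) (z j) := fun h => hij ((hb2 _ _).mp h).symm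
        rw [k4code_off ho]
        show a i * a j * 0 = a i * 0 * _
        ring
    · intro β _ hβ
      rw [if_neg (Ne.symm hβ)]
      ring
    · intro h
      exact absurd (Finset.mem_image_of_mem _ (Finset.mem_univ i)) h
  simp_rw [key]
  have e : ∑ i, ∑ j, ∑ β ∈ Finset.univ.image (fun i => b (z i)),
        (if b (z i) = β then a i else 0) * (if b (z j) = β then a j else 0) *
          (if FreeAt F2 β then r ^ FreeGroup.norm (((g (z i))⁻¹)⁻¹ * (g (z j))⁻¹) else 1) =
      ∑ β ∈ Finset.univ.image (fun i => b (z i)), ∑ i, ∑ j,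
        (if b (z i) = β then a i else 0) * (if b (z j) = β then a j else 0) *
          (if FreeAt F2 β then r ^ FreeGroup.norm (((g (z i))⁻¹)⁻¹ * (g (z j))⁻¹) else 1) := by
    rw [Finset.sum_comm]
    simp_rw [Finset.sum_comm (s := Finset.univ) (t := Finset.univ.image (fun i => b (z i)))]
    refine Finset.sum_congr rfl fun β _ => ?_
    rw [Finset.sum_comm]
  rw [e]
  refine Finset.sum_nonneg fun β _ => ?_
  by_cases hf : FreeAt F2 β
  · simp only [if_pos hf]
    exact (haagerup_psd r h0 h1).2 n (fun i => (g (z i))⁻¹) (fun i => if b (z i) = β then a i else 0)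
  · simp only [if_neg hf, mul_one]
    rw [← Finset.sum_mul_sum]
    exact mul_self_nonneg _

end psd

private theorem k4_ball (N : ℕ) : {g : F2 | FreeGroup.norm g ≤ N}.Finite := by
  have h := List.finite_length_le (Fin 2 × Bool) N
  refine Set.Finite.of_finite_image (f := FreeGroup.toWord) (h.subset ?_)
    (FreeGroup.toWord_injective.injOn)
  rintro _ ⟨g, hg, rfl⟩
  exact hg

theorem exists_orbKer {K : Type} [MeasurableSpace K] [StandardBorelSpace K] [MulAction F2 K]
    (hm : ∀ h : F2, Measurable fun z : K => h • z)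
    (hst : ∀ (z : K) (a b : F2), a • z = z → b • z = z → a * b = b * a) :
    Nonempty (OrbKer F2 FreeGroup.norm K) := by
  obtain ⟨ρ, hρ, hE⟩ := exists_rho hm hst
  refine ⟨{ ρ := ρ
            k := fun r z z' => k4val r (k4code z z')
            meas_ρ := hρ
            meas_k := fun r _ _ => (measurable_of_countable (k4val r)).comp (k4_meas_code hm)
            nonneg := fun r h0 _ z z' => k4val_nonneg h0 _
            le_one := fun r h0 h1 z z' => k4val_le_one h0 h1 _
            off := fun r _ _ z z' h => by rw [k4code_off h]; rfl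
            lower := fun r h0 h1 z g => ?_
            psd := fun r h0 h1 => k4_psd h0 h1
            proper := fun r h0 h1 δ hδ M => ?_ }⟩
  · by_cases hf : FreeAt F2 z
    · rw [k4code_free hf]
      exact le_refl _
    · rw [k4code_nonfree ⟨g, rfl⟩ hf]
      exact pow_le_one₀ h0.le h1.le
  · obtain ⟨E, hE⟩ := hE M
    obtain ⟨N, hN⟩ := exists_pow_lt_of_lt_one hδ h1
    refine ⟨E ∪ (k4_ball N).toFinset, fun z z' hz hz' hk => ?_⟩
    by_cases ho : Orb F2 z z'
    · by_cases hf : FreeAt F2 z
      · obtain ⟨g, rfl⟩ := ho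
        refine ⟨g, Finset.mem_union_right _ ?_, rfl⟩
        rw [Set.Finite.mem_toFinset]
        show FreeGroup.norm g ≤ N
        rw [k4code_free hf] at hk
        by_contra hcon
        have h2 : r ^ FreeGroup.norm g ≤ r ^ N := pow_le_pow_of_le_one h0.le h1.le (by omega)
        have h3 : δ ≤ r ^ FreeGroup.norm g := hk
        linarith
      · obtain ⟨h, hh, e⟩ := hE z z' hf ho hz hz'
        exact ⟨h, Finset.mem_union_left _ hh, e⟩
    · exfalso
      have hk' : δ ≤ k4val r (k4code z z') := hk
      rw [k4code_off ho] at hk'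
      have : k4val r 0 = 0 := rfl
      linarith

end

end Pool.Agent.Lib.MP_35fb4b_lc.SR
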