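import Pool.Agent.Lib.MP_35fb4b_lc.SR.Defs

/-!
# The kernel of the big group is positive semidefinite, nonnegative and at most one
-/

set_option autoImplicit false

namespace Pool.Agent.Lib.MP_35fb4b_lc.SR

open scoped Classical
open MeasureTheory

noncomputable section

theorem l1_psd_fintype {X : Type} {k : X → X → ℝ} (hk : PSD k) {ι : Type*} [Fintype ι]
    (z : ι → X) (a : ι → ℝ) : 0 ≤ ∑ i, ∑ j, a i * a j * k (z i) (z j) := by
  have e := Fintype.equivFin ι
  have h := hk.2 (Fintype.card ι) (fun i => z (e.symm i)) (fun i => a (e.symm i))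
  have h1 : ∑ i, ∑ j, a (e.symm i) * a (e.symm j) * k (z (e.symm i)) (z (e.symm j)) =
      ∑ i, ∑ j, a i * a j * k (z i) (z j) := by
    rw [← Equiv.sum_comp e.symm]
    apply Finset.sum_congr rfl
    intro i _
    rw [← Equiv.sum_comp e.symm]
  rwa [h1] at h

theorem l1_orb_refl {G K : Type} [Group G] [MulAction G K] (z : K) : Orb G z z :=
  ⟨1, by simp⟩

theorem l1_orb_symm {G K : Type} [Group G] [MulAction G K] {z z' : K} (h : Orb G z z') :
    Orb G z' z := by
  obtain ⟨g, rfl⟩ := h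
  exact ⟨g⁻¹, by simp⟩

theorem l1_orb_trans {G K : Type} [Group G] [MulAction G K] {z z' z'' : K} (h : Orb G z z')
    (h' : Orb G z' z'') : Orb G z z'' := by
  obtain ⟨g, rfl⟩ := h
  obtain ⟨g', rfl⟩ := h'
  exact ⟨g' * g, by rw [mul_smul]⟩

section kernel
variable {Γ K : Type} [Group Γ] [MulAction Γ K] (H : Subgroup Γ)

theorem kap_psd (C : Finset (Γ ⧸ H)) (p : Γ ⧸ H → ℝ) (k : K → K → ℝ) (hk : PSD k) :
    PSD (kap H C p k : K → K → ℝ) := by
  refine ⟨?_, ?_⟩
  · intro x y
    unfold kap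
    rw [Finset.sum_comm]
    apply Finset.sum_congr rfl
    intro c _
    apply Finset.sum_congr rfl
    intro c' _
    rw [hk.1 (zc H x c') (zc H y c)]
    ring
  · intro n z a
    have h := l1_psd_fintype hk (ι := Fin n × {c // c ∈ C}) (fun q => zc H (z q.1) q.2.1)
      (fun q => a q.1 * wt H C p (z q.1) q.2.1)
    have h1 : ∀ i j : Fin n, a i * a j * kap H C p k (z i) (z j) =
        ∑ c : {c // c ∈ C}, ∑ c' : {c // c ∈ C}, a i * wt H C p (z i) c.1 *
          (a j * wt H C p (z j) c'.1) * k (zc H (z i) c.1) (zc H (z j) c'.1) := by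
      intro i j
      unfold kap
      rw [Finset.mul_sum, ← Finset.sum_coe_sort C]
      apply Finset.sum_congr rfl
      intro c _
      rw [Finset.mul_sum, ← Finset.sum_coe_sort C]
      apply Finset.sum_congr rfl
      intro c' _
      ring
    have h2 : ∑ i, ∑ j, a i * a j * kap H C p k (z i) (z j) =
        ∑ q : Fin n × {c // c ∈ C}, ∑ q' : Fin n × {c // c ∈ C},
          a q.1 * wt H C p (z q.1) q.2.1 * (a q'.1 * wt H C p (z q'.1) q'.2.1) *
            k (zc H (z q.1) q.2.1) (zc H (z q'.1) q'.2.1) := by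
      rw [Fintype.sum_prod_type]
      apply Finset.sum_congr rfl
      intro i _
      simp_rw [h1, Fintype.sum_prod_type]
      rw [Finset.sum_comm]
    rw [h2]
    exact h

theorem l1_lam_nonneg (C : Finset (Γ ⧸ H)) (p : Γ ⧸ H → ℝ) (hp : ∀ c, 0 ≤ p c) (y : K)
    (c : Γ ⧸ H) : 0 ≤ lam H C p y c := by
  unfold lam
  apply Finset.sum_nonneg
  intro c' _
  split_ifs
  · exact hp c'
  · exact le_rfl

theorem l1_wt_nonneg (C : Finset (Γ ⧸ H)) (p : Γ ⧸ H → ℝ) (hp : ∀ c, 0 ≤ p c) (y : K)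
    (c : Γ ⧸ H) : 0 ≤ wt H C p y c :=
  div_nonneg (hp c) (Real.sqrt_nonneg _)

theorem kap_nonneg (C : Finset (Γ ⧸ H)) (p : Γ ⧸ H → ℝ) (hp : ∀ c, 0 ≤ p c) (k : K → K → ℝ)
    (hk : ∀ z z', 0 ≤ k z z') (y y' : K) : 0 ≤ kap H C p k y y' := by
  unfold kap
  apply Finset.sum_nonneg
  intro c _
  apply Finset.sum_nonneg
  intro c' _
  exact mul_nonneg (mul_nonneg (l1_wt_nonneg H C p hp y c) (l1_wt_nonneg H C p hp y' c'))
    (hk _ _)

/-- the weights of the points of one orbit, divided by their sum -/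
theorem l1_orbit_sum (C : Finset (Γ ⧸ H)) (p : Γ ⧸ H → ℝ) (z y : K) :
    ∑ c ∈ C, (if Orb H z (zc H y c) then p c / lam H C p y c else 0) ≤ 1 := by
  set S := ∑ c ∈ C, if Orb H z (zc H y c) then p c else 0 with hS
  have h1 : ∀ c ∈ C, (if Orb H z (zc H y c) then p c / lam H C p y c else 0) =
      (if Orb H z (zc H y c) then p c else 0) / S := by
    intro c _
    split_ifs with h
    · congr 1
      rw [hS]
      unfold lam
      apply Finset.sum_congr rfl
      intro c' _
      have : Orb H (zc H y c) (zc H y c') ↔ Orb H z (zc H y c') :=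
        ⟨fun h' => l1_orb_trans h h', fun h' => l1_orb_trans (l1_orb_symm h) h'⟩
      simp only [this]
    · simp
  rw [Finset.sum_congr rfl h1, ← Finset.sum_div]
  exact div_self_le_one S

theorem l1_pair (P P' l l' : ℝ) (hP : 0 ≤ P) (hP' : 0 ≤ P') (hl : 0 ≤ l) (hl' : 0 ≤ l') :
    P / Real.sqrt l * (P' / Real.sqrt l') ≤ (P' * (P / l) + P * (P' / l')) / 2 := by
  have h1 : (1 / Real.sqrt l) ^ 2 = 1 / l := by
    rw [div_pow, one_pow, Real.sq_sqrt hl]
  have h2 : (1 / Real.sqrt l') ^ 2 = 1 / l' := by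
    rw [div_pow, one_pow, Real.sq_sqrt hl']
  have h3 : P / Real.sqrt l * (P' / Real.sqrt l') =
      P * P' * ((1 / Real.sqrt l) * (1 / Real.sqrt l')) := by ring
  have h4 : (P' * (P / l) + P * (P' / l')) / 2 = P * P' * ((1 / l + 1 / l') / 2) := by ring
  rw [h3, h4, ← h1, ← h2]
  apply mul_le_mul_of_nonneg_left _ (mul_nonneg hP hP')
  nlinarith [sq_nonneg (1 / Real.sqrt l - 1 / Real.sqrt l')]

theorem kap_le_one (C : Finset (Γ ⧸ H)) (p : Γ ⧸ H → ℝ) (hp : ∀ c, 0 ≤ p c)
    (hp1 : ∑ c ∈ C, p c = 1) (k : K → K → ℝ) (hk0 : ∀ z z', 0 ≤ k z z')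
    (hk1 : ∀ z z', k z z' ≤ 1) (hk : ∀ z z', ¬ Orb H z z' → k z z' = 0) (hk2 : PSD k) (y y' : K) :
    kap H C p k y y' ≤ 1 := by
  have _ := hk2
  have _ := hk0
  have key : ∀ c ∈ C, ∀ c' ∈ C,
      wt H C p y c * wt H C p y' c' * k (zc H y c) (zc H y' c') ≤
        (p c' * (if Orb H (zc H y' c') (zc H y c) then p c / lam H C p y c else 0) +
          p c * (if Orb H (zc H y c) (zc H y' c') then p c' / lam H C p y' c' else 0)) / 2 := by
    intro c _ c' _
    by_cases h : Orb H (zc H y c) (zc H y' c')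
    · rw [if_pos (l1_orb_symm h), if_pos h]
      have h1 : wt H C p y c * wt H C p y' c' * k (zc H y c) (zc H y' c') ≤
          wt H C p y c * wt H C p y' c' * 1 :=
        mul_le_mul_of_nonneg_left (hk1 _ _)
          (mul_nonneg (l1_wt_nonneg H C p hp y c) (l1_wt_nonneg H C p hp y' c'))
      rw [mul_one] at h1
      exact h1.trans (l1_pair _ _ _ _ (hp c) (hp c') (l1_lam_nonneg H C p hp y c)
        (l1_lam_nonneg H C p hp y' c'))
    · have h' : ¬ Orb H (zc H y' c') (zc H y c) := fun h' => h (l1_orb_symm h')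
      rw [hk _ _ h, if_neg h, if_neg h']
      simp
  unfold kap
  refine (Finset.sum_le_sum fun c hc => Finset.sum_le_sum fun c' hc' => key c hc c' hc').trans ?_
  have h1 : ∑ c ∈ C, ∑ c' ∈ C,
      (p c' * (if Orb H (zc H y' c') (zc H y c) then p c / lam H C p y c else 0) +
        p c * (if Orb H (zc H y c) (zc H y' c') then p c' / lam H C p y' c' else 0)) / 2 =
      (∑ c' ∈ C, p c' * ∑ c ∈ C,
        (if Orb H (zc H y' c') (zc H y c) then p c / lam H C p y c else 0)) / 2 +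
      (∑ c ∈ C, p c * ∑ c' ∈ C,
        (if Orb H (zc H y c) (zc H y' c') then p c' / lam H C p y' c' else 0)) / 2 := by
    simp_rw [add_div, Finset.sum_add_distrib, Finset.mul_sum, Finset.sum_div]
    congr 1
    rw [Finset.sum_comm]
  rw [h1]
  have h2 : ∑ c' ∈ C, p c' * ∑ c ∈ C,
      (if Orb H (zc H y' c') (zc H y c) then p c / lam H C p y c else 0) ≤ 1 := by
    rw [← hp1]
    apply Finset.sum_le_sum
    intro c' _
    have := mul_le_mul_of_nonneg_left (l1_orbit_sum H C p (zc H y' c') y) (hp c')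
    rwa [mul_one] at this
  have h3 : ∑ c ∈ C, p c * ∑ c' ∈ C,
      (if Orb H (zc H y c) (zc H y' c') then p c' / lam H C p y' c' else 0) ≤ 1 := by
    rw [← hp1]
    apply Finset.sum_le_sum
    intro c _
    have := mul_le_mul_of_nonneg_left (l1_orbit_sum H C p (zc H y c) y') (hp c)
    rwa [mul_one] at this
  linarith

end kernel

end

end Pool.Agent.Lib.MP_35fb4b_lc.SR
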