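import Pool.Agent.Lib.MP_35fb4b_lc.SR.Defs

/-!
# L2: measurability of the kernel of the big group
-/

set_option autoImplicit false

namespace Pool.Agent.Lib.MP_35fb4b_lc.SR

open scoped Classical
open MeasureTheory

noncomputable section

section kernel
variable {Γ K : Type} [Group Γ] [MulAction Γ K] (H : Subgroup Γ)

theorem l2_zc [MeasurableSpace K] (hm : ∀ γ : Γ, Measurable fun y : K => γ • y) (c : Γ ⧸ H) :
    Measurable fun y : K => zc H y c := by
  unfold zc
  exact hm _

theorem l2_orb [Countable Γ] [MeasurableSpace K] [StandardBorelSpace K]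
    (hm : ∀ γ : Γ, Measurable fun y : K => γ • y) (c c' : Γ ⧸ H) :
    MeasurableSet {y : K | Orb H (zc H y c) (zc H y c')} := by
  have h1 : {y : K | Orb H (zc H y c) (zc H y c')} =
      ⋃ g : H, {y : K | zc H y c' = (g : Γ) • zc H y c} := by
    ext y
    simp only [Set.mem_ofPred_eq, Set.mem_iUnion]
    exact Iff.rfl
  rw [h1]
  refine MeasurableSet.iUnion fun g => ?_
  exact measurableSet_eq_fun (l2_zc H hm c') ((hm (g : Γ)).comp (l2_zc H hm c))

theorem l2_lam [Countable Γ] [MeasurableSpace K] [StandardBorelSpace K]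
    (hm : ∀ γ : Γ, Measurable fun y : K => γ • y) (C : Finset (Γ ⧸ H)) (p : Γ ⧸ H → ℝ)
    (c : Γ ⧸ H) : Measurable fun y : K => lam H C p y c := by
  unfold lam
  refine Finset.measurable_sum _ fun c' _ => ?_
  exact Measurable.ite (l2_orb H hm c c') measurable_const measurable_const

theorem l2_wt [Countable Γ] [MeasurableSpace K] [StandardBorelSpace K]
    (hm : ∀ γ : Γ, Measurable fun y : K => γ • y) (C : Finset (Γ ⧸ H)) (p : Γ ⧸ H → ℝ)
    (c : Γ ⧸ H) : Measurable fun y : K => wt H C p y c := by
  unfold wt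
  exact measurable_const.div (Real.continuous_sqrt.measurable.comp (l2_lam H hm C p c))

/-! ### L2 -/
theorem kap_measurable [Countable Γ] [MeasurableSpace K] [StandardBorelSpace K]
    (hm : ∀ γ : Γ, Measurable fun y : K => γ • y) (C : Finset (Γ ⧸ H)) (p : Γ ⧸ H → ℝ)
    (k : K → K → ℝ) (hk : Measurable fun z : K × K => k z.1 z.2) :
    Measurable fun z : K × K => kap H C p k z.1 z.2 := by
  unfold kap
  refine Finset.measurable_sum _ fun c _ => Finset.measurable_sum _ fun c' _ => ?_
  refine ((((l2_wt H hm C p c).comp measurable_fst)).mul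
    ((l2_wt H hm C p c').comp measurable_snd)).mul ?_
  exact hk.comp (((l2_zc H hm c).comp measurable_fst).prodMk
    ((l2_zc H hm c').comp measurable_snd))

end kernel

end

end Pool.Agent.Lib.MP_35fb4b_lc.SR
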