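import Pool.Agent.Lib.MP_35fb4b_lc.SR.Defs

/-!
SR-L3: the lower bound for the kernel of the big group.

For an `H`-orbit `O` let `L y O` be the sum of the weights `p c` over the cosets `c` with
`s(c)⁻¹ y ∈ O`. The sum of the normalized weights over these `c` is the square root of `L y O`, and
`L (g y) O` differs from `L y O` at most by the displacement of `p` under `g`.
-/

set_option autoImplicit false

namespace Pool.Agent.Lib.MP_35fb4b_lc.SR

open scoped Classical
open MeasureTheory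

noncomputable section

section kernel
variable {Γ K : Type} [Group Γ] [MulAction Γ K] (H : Subgroup Γ)

/-- the orbit of `zc y c` -/
private def l3_o (y : K) (c : Γ ⧸ H) : MulAction.orbitRel.Quotient H K :=
  Quotient.mk (MulAction.orbitRel H K) (zc H y c)

private theorem l3_mk_eq (z z' : K) :
    (Quotient.mk (MulAction.orbitRel H K) z = Quotient.mk (MulAction.orbitRel H K) z') ↔
      Orb H z z' := by
  rw [Quotient.eq]
  change z ∈ MulAction.orbit H z' ↔ _
  constructor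
  · rintro ⟨h, hh⟩
    refine ⟨h⁻¹, ?_⟩
    simp only at hh
    rw [← hh, inv_smul_smul]
  · rintro ⟨h, hh⟩
    refine ⟨h⁻¹, ?_⟩
    simp only
    rw [hh, inv_smul_smul]

private theorem l3_o_eq (y y' : K) (c c' : Γ ⧸ H) :
    l3_o H y c = l3_o H y' c' ↔ Orb H (zc H y c) (zc H y' c') := l3_mk_eq H _ _

/-- the weight of an orbit -/
private def l3_L (C : Finset (Γ ⧸ H)) (p : Γ ⧸ H → ℝ) (y : K)
    (O : MulAction.orbitRel.Quotient H K) : ℝ := ∑ c ∈ C, if l3_o H y c = O then p c else 0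

private theorem l3_lam (C : Finset (Γ ⧸ H)) (p : Γ ⧸ H → ℝ) (y : K) (c : Γ ⧸ H) :
    lam H C p y c = l3_L H C p y (l3_o H y c) := by
  unfold lam l3_L
  refine Finset.sum_congr rfl fun c' _ => ?_
  have : Orb H (zc H y c) (zc H y c') ↔ l3_o H y c' = l3_o H y c := by
    rw [← l3_o_eq]
    exact eq_comm
  simp only [this]

private theorem l3_L_nonneg (C : Finset (Γ ⧸ H)) (p : Γ ⧸ H → ℝ) (hp : ∀ c, 0 ≤ p c) (y : K)
    (O : MulAction.orbitRel.Quotient H K) : 0 ≤ l3_L H C p y O := by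
  refine Finset.sum_nonneg fun c _ => ?_
  split_ifs
  · exact hp c
  · exact le_refl _

private theorem l3_wt_nonneg (C : Finset (Γ ⧸ H)) (p : Γ ⧸ H → ℝ) (hp : ∀ c, 0 ≤ p c) (y : K)
    (c : Γ ⧸ H) : 0 ≤ wt H C p y c := div_nonneg (hp c) (Real.sqrt_nonneg _)

private theorem l3_sum_wt (C : Finset (Γ ⧸ H)) (p : Γ ⧸ H → ℝ) (y : K)
    (O : MulAction.orbitRel.Quotient H K) :
    ∑ c ∈ C, (if l3_o H y c = O then wt H C p y c else 0) = Real.sqrt (l3_L H C p y O) := by
  have h1 : ∀ c ∈ C, (if l3_o H y c = O then wt H C p y c else 0) =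
      (if l3_o H y c = O then p c else 0) / Real.sqrt (l3_L H C p y O) := by
    intro c _
    split_ifs with h
    · unfold wt
      rw [l3_lam, h]
    · rw [zero_div]
  rw [Finset.sum_congr rfl h1, ← Finset.sum_div]
  exact Real.div_sqrt

private theorem l3_shift (g : Γ) (y : K) (c : Γ ⧸ H) :
    l3_o H (g • y) (g • c) = l3_o H y c := by
  rw [l3_o_eq]
  have h1 : ((Quotient.out (g • c) : Γ) : Γ ⧸ H) = ((g * (Quotient.out c : Γ) : Γ) : Γ ⧸ H) := by
    have e1 : ((Quotient.out (g • c) : Γ) : Γ ⧸ H) = g • c := Quotient.out_eq' (g • c)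
    have e2 : ((Quotient.out c : Γ) : Γ ⧸ H) = c := Quotient.out_eq' c
    rw [e1]
    conv_lhs => rw [← e2]
    rfl
  have h2 : (Quotient.out (g • c) : Γ)⁻¹ * (g * (Quotient.out c : Γ)) ∈ H := QuotientGroup.eq.mp h1
  refine ⟨⟨_, H.inv_mem h2⟩, ?_⟩
  unfold zc
  rw [Subgroup.smul_def, ← mul_smul, ← mul_smul]
  congr 1
  simp only [mul_inv_rev, inv_inv]
  group

/-- the weight of an orbit at `g • y` -/
private theorem l3_L_smul (C : Finset (Γ ⧸ H)) (p : Γ ⧸ H → ℝ) (hpC : ∀ c, c ∉ C → p c = 0)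
    (g : Γ) (y : K) (O : MulAction.orbitRel.Quotient H K) (T : Finset (Γ ⧸ H))
    (hT : ∀ c, g • c ∈ C → c ∈ T) :
    l3_L H C p (g • y) O = ∑ c ∈ T, if l3_o H y c = O then p (g • c) else 0 := by
  unfold l3_L
  have h1 : ∑ c ∈ C, (if l3_o H (g • y) c = O then p c else 0) =
      ∑ c ∈ T.image (fun c => g • c), if l3_o H (g • y) c = O then p c else 0 := by
    refine Finset.sum_subset ?_ ?_
    · intro c hc
      rw [Finset.mem_image]
      refine ⟨g⁻¹ • c, hT _ ?_, smul_inv_smul g c⟩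
      rw [smul_inv_smul]
      exact hc
    · intro c _ hc
      rw [hpC c hc, ite_self]
  rw [h1, Finset.sum_image fun a _ b _ hab => smul_left_cancel g hab]
  refine Finset.sum_congr rfl fun c _ => ?_
  rw [l3_shift]

private theorem l3_L_self (C : Finset (Γ ⧸ H)) (p : Γ ⧸ H → ℝ) (hpC : ∀ c, c ∉ C → p c = 0)
    (y : K) (O : MulAction.orbitRel.Quotient H K) (T : Finset (Γ ⧸ H)) (hT : C ⊆ T) :
    l3_L H C p y O = ∑ c ∈ T, if l3_o H y c = O then p c else 0 := by
  refine Finset.sum_subset hT fun c _ hc => ?_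
  rw [hpC c hc, ite_self]

private theorem l3_sum_L (C : Finset (Γ ⧸ H)) (p : Γ ⧸ H → ℝ) (hp1 : ∑ c ∈ C, p c = 1) (y : K)
    (S : Finset (MulAction.orbitRel.Quotient H K)) (hS : ∀ c ∈ C, l3_o H y c ∈ S) :
    ∑ O ∈ S, l3_L H C p y O = 1 := by
  unfold l3_L
  rw [Finset.sum_comm, ← hp1]
  refine Finset.sum_congr rfl fun c hc => ?_
  rw [Finset.sum_ite_eq, if_pos (hS c hc)]

private theorem l3_main (C : Finset (Γ ⧸ H)) (p : Γ ⧸ H → ℝ) (hp : ∀ c, 0 ≤ p c)
    (hpC : ∀ c, c ∉ C → p c = 0) (hp1 : ∑ c ∈ C, p c = 1) (g : Γ) (ε : ℝ)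
    (hpF : ∀ T : Finset (Γ ⧸ H), ∑ c ∈ T, |p (g • c) - p c| ≤ ε) (y : K) :
    1 - ε ≤ ∑ c ∈ C, ∑ c' ∈ C, if Orb H (zc H y c) (zc H (g • y) c') then
      wt H C p y c * wt H C p (g • y) c' else 0 := by
  set S : Finset (MulAction.orbitRel.Quotient H K) :=
    C.image (l3_o H y) ∪ C.image (l3_o H (g • y)) with hS
  have hS1 : ∀ c ∈ C, l3_o H y c ∈ S := fun c hc =>
    Finset.mem_union_left _ (Finset.mem_image_of_mem _ hc)
  have hS2 : ∀ c ∈ C, l3_o H (g • y) c ∈ S := fun c hc =>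
    Finset.mem_union_right _ (Finset.mem_image_of_mem _ hc)
  -- the sum as a sum over orbits
  have h1 : (∑ c ∈ C, ∑ c' ∈ C, if Orb H (zc H y c) (zc H (g • y) c') then
      wt H C p y c * wt H C p (g • y) c' else 0) =
      ∑ O ∈ S, Real.sqrt (l3_L H C p y O) * Real.sqrt (l3_L H C p (g • y) O) := by
    have e1 : ∀ O, Real.sqrt (l3_L H C p y O) * Real.sqrt (l3_L H C p (g • y) O) =
        ∑ c ∈ C, ∑ c' ∈ C, (if l3_o H y c = O then wt H C p y c else 0) *
          (if l3_o H (g • y) c' = O then wt H C p (g • y) c' else 0) := by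
      intro O
      rw [← l3_sum_wt, ← l3_sum_wt, Finset.sum_mul_sum]
    have e3 : ∑ O ∈ S, Real.sqrt (l3_L H C p y O) * Real.sqrt (l3_L H C p (g • y) O) =
        ∑ O ∈ S, ∑ c ∈ C, ∑ c' ∈ C, (if l3_o H y c = O then wt H C p y c else 0) *
          (if l3_o H (g • y) c' = O then wt H C p (g • y) c' else 0) :=
      Finset.sum_congr rfl (fun O _ => e1 O)
    have e4 : ∑ O ∈ S, ∑ c ∈ C, ∑ c' ∈ C, (if l3_o H y c = O then wt H C p y c else 0) *
          (if l3_o H (g • y) c' = O then wt H C p (g • y) c' else 0) =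
        ∑ c ∈ C, ∑ c' ∈ C, ∑ O ∈ S, (if l3_o H y c = O then wt H C p y c else 0) *
          (if l3_o H (g • y) c' = O then wt H C p (g • y) c' else 0) := by
      rw [Finset.sum_comm]
      refine Finset.sum_congr rfl fun c _ => ?_
      rw [Finset.sum_comm]
    rw [e3, e4]
    refine Finset.sum_congr rfl fun c hc => ?_
    refine Finset.sum_congr rfl fun c' _ => ?_
    have e2 : ∀ O ∈ S, (if l3_o H y c = O then wt H C p y c else 0) *
          (if l3_o H (g • y) c' = O then wt H C p (g • y) c' else 0) =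
        if l3_o H y c = O then wt H C p y c *
          (if l3_o H (g • y) c' = l3_o H y c then wt H C p (g • y) c' else 0) else 0 := by
      intro O _
      by_cases h : l3_o H y c = O
      · rw [if_pos h, if_pos h, h]
      · rw [if_neg h, if_neg h, zero_mul]
    rw [Finset.sum_congr rfl e2, Finset.sum_ite_eq, if_pos (hS1 c hc)]
    by_cases h : Orb H (zc H y c) (zc H (g • y) c')
    · rw [if_pos h, if_pos ((l3_o_eq H y (g • y) c c').mpr h).symm]
    · rw [if_neg h, if_neg fun h' => h ((l3_o_eq H y (g • y) c c').mp h'.symm), mul_zero]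
  rw [h1]
  -- the displacement
  have h2 : ∑ O ∈ S, |l3_L H C p (g • y) O - l3_L H C p y O| ≤ ε := by
    set T : Finset (Γ ⧸ H) := C ∪ C.image (fun c => g⁻¹ • c) with hT
    have hT1 : C ⊆ T := Finset.subset_union_left
    have hT2 : ∀ c, g • c ∈ C → c ∈ T := fun c hc =>
      Finset.mem_union_right _ (Finset.mem_image.mpr ⟨g • c, hc, inv_smul_smul g c⟩)
    refine le_trans ?_ (hpF T)
    have e1 : ∀ O ∈ S, |l3_L H C p (g • y) O - l3_L H C p y O| ≤
        ∑ c ∈ T, if l3_o H y c = O then |p (g • c) - p c| else 0 := by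
      intro O _
      rw [l3_L_smul H C p hpC g y O T hT2, l3_L_self H C p hpC y O T hT1, ← Finset.sum_sub_distrib]
      refine le_trans (Finset.abs_sum_le_sum_abs _ _) (Finset.sum_le_sum fun c _ => ?_)
      split_ifs
      · exact le_refl _
      · rw [sub_zero, abs_zero]
    refine le_trans (Finset.sum_le_sum e1) ?_
    rw [Finset.sum_comm]
    refine Finset.sum_le_sum fun c _ => ?_
    rw [Finset.sum_ite_eq]
    split_ifs
    · exact le_refl _
    · exact abs_nonneg _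
  have hε : 0 ≤ ε := by simpa using hpF ∅
  have h3 : ∀ O ∈ S, (l3_L H C p y O + l3_L H C p (g • y) O
      - |l3_L H C p (g • y) O - l3_L H C p y O|) / 2 ≤
      Real.sqrt (l3_L H C p y O) * Real.sqrt (l3_L H C p (g • y) O) := by
    intro O _
    set a := l3_L H C p y O with ha
    set b := l3_L H C p (g • y) O with hb
    have ha0 : 0 ≤ a := l3_L_nonneg H C p hp y O
    have hb0 : 0 ≤ b := l3_L_nonneg H C p hp (g • y) O
    rcases le_total a b with hab | hab
    · rw [abs_of_nonneg (by linarith : 0 ≤ b - a)]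
      have : a = Real.sqrt a * Real.sqrt a := (Real.mul_self_sqrt ha0).symm
      have h4 : Real.sqrt a * Real.sqrt a ≤ Real.sqrt a * Real.sqrt b :=
        mul_le_mul_of_nonneg_left (Real.sqrt_le_sqrt hab) (Real.sqrt_nonneg _)
      linarith
    · rw [abs_of_nonpos (by linarith : b - a ≤ 0)]
      have : b = Real.sqrt b * Real.sqrt b := (Real.mul_self_sqrt hb0).symm
      have h4 : Real.sqrt b * Real.sqrt b ≤ Real.sqrt a * Real.sqrt b :=
        mul_le_mul_of_nonneg_right (Real.sqrt_le_sqrt hab) (Real.sqrt_nonneg _)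
      linarith
  refine le_trans ?_ (Finset.sum_le_sum h3)
  rw [← Finset.sum_div, Finset.sum_sub_distrib, Finset.sum_add_distrib,
    l3_sum_L H C p hp1 y S hS1, l3_sum_L H C p hp1 (g • y) S hS2]
  linarith

/-- the needed length for one triple -/
private theorem l3_exists (ℓ : H → ℕ) (g : Γ) (c c' : Γ ⧸ H) (y : K) :
    ∃ n : ℕ, ¬ Orb H (zc H y c) (zc H (g • y) c') ∨
      ∃ h : H, ℓ h ≤ n ∧ zc H (g • y) c' = h • zc H y c := by
  by_cases h : Orb H (zc H y c) (zc H (g • y) c')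
  · obtain ⟨h', hh⟩ := h
    exact ⟨ℓ h', Or.inr ⟨h', le_refl _, hh⟩⟩
  · exact ⟨0, Or.inl h⟩

private theorem l3_meas_eq [MeasurableSpace K] [StandardBorelSpace K]
    (hm : ∀ γ : Γ, Measurable fun y : K => γ • y) (g : Γ) (c c' : Γ ⧸ H) (h : H) :
    MeasurableSet {y : K | zc H (g • y) c' = h • zc H y c} := by
  refine measurableSet_eq_fun ?_ ?_
  · exact (hm _).comp (hm g)
  · exact (hm (h : Γ)).comp (hm _)

theorem kap_lower [Countable Γ] [MeasurableSpace K] [StandardBorelSpace K]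
    (hm : ∀ γ : Γ, Measurable fun y : K => γ • y) (ℓ : H → ℕ) (F : Finset Γ) (ε : ℝ)
    (C : Finset (Γ ⧸ H)) (p : Γ ⧸ H → ℝ) (hp : ∀ c, 0 ≤ p c) (hpC : ∀ c, c ∉ C → p c = 0)
    (hp1 : ∑ c ∈ C, p c = 1) (hpF : ∀ g ∈ F, ∀ T : Finset (Γ ⧸ H),
      ∑ c ∈ T, |p (g • c) - p c| ≤ ε) :
    ∃ D : K → ℕ, Measurable D ∧ ∀ (r : ℝ) (k : K → K → ℝ), 0 < r → r < 1 →
      (∀ z z', 0 ≤ k z z') → (∀ z (h : H), r ^ ℓ h ≤ k z (h • z)) →
        ∀ g ∈ F, ∀ y, r ^ D y * (1 - ε) ≤ kap H C p k y (g • y) := by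
  set d : Γ → (Γ ⧸ H) → (Γ ⧸ H) → K → ℕ := fun g c c' y => Nat.find (l3_exists H ℓ g c c' y) with hd
  have hdm : ∀ g c c', Measurable (d g c c') := by
    intro g c c'
    refine measurable_find _ fun n => ?_
    have e1 : MeasurableSet {y : K | Orb H (zc H y c) (zc H (g • y) c')} := by
      have : {y : K | Orb H (zc H y c) (zc H (g • y) c')} =
          ⋃ h : H, {y : K | zc H (g • y) c' = h • zc H y c} := by
        ext y
        simp [Orb]
      rw [this]
      exact MeasurableSet.iUnion fun h => l3_meas_eq H hm g c c' h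
    have e2 : MeasurableSet {y : K | ∃ h : H, ℓ h ≤ n ∧ zc H (g • y) c' = h • zc H y c} := by
      have : {y : K | ∃ h : H, ℓ h ≤ n ∧ zc H (g • y) c' = h • zc H y c} =
          ⋃ h : H, {y : K | ℓ h ≤ n ∧ zc H (g • y) c' = h • zc H y c} := by
        ext y
        simp
      rw [this]
      refine MeasurableSet.iUnion fun h => ?_
      by_cases hh : ℓ h ≤ n
      · simpa [hh] using l3_meas_eq H hm g c c' h
      · simp [hh]
    exact e1.compl.union e2
  refine ⟨fun y => ∑ g ∈ F, ∑ c ∈ C, ∑ c' ∈ C, d g c c' y, ?_, ?_⟩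
  · refine Finset.measurable_sum _ fun g _ => Finset.measurable_sum _ fun c _ =>
      Finset.measurable_sum _ fun c' _ => hdm g c c'
  intro r k hr0 hr1 hk0 hk1 g hg y
  set D : ℕ := ∑ g ∈ F, ∑ c ∈ C, ∑ c' ∈ C, d g c c' y with hD
  have hdD : ∀ c ∈ C, ∀ c' ∈ C, d g c c' y ≤ D := by
    intro c hc c' hc'
    calc d g c c' y ≤ ∑ c' ∈ C, d g c c' y :=
          Finset.single_le_sum (f := fun c' => d g c c' y) (fun _ _ => Nat.zero_le _) hc'
      _ ≤ ∑ c ∈ C, ∑ c' ∈ C, d g c c' y :=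
          Finset.single_le_sum (f := fun c => ∑ c' ∈ C, d g c c' y) (fun _ _ => Nat.zero_le _) hc
      _ ≤ D := Finset.single_le_sum (f := fun g => ∑ c ∈ C, ∑ c' ∈ C, d g c c' y)
          (fun _ _ => Nat.zero_le _) hg
  have hmain := l3_main H C p hp hpC hp1 g ε (hpF g hg) y
  have hrD : 0 ≤ r ^ D := pow_nonneg hr0.le _
  refine le_trans (mul_le_mul_of_nonneg_left hmain hrD) ?_
  unfold kap
  rw [Finset.mul_sum]
  refine Finset.sum_le_sum fun c hc => ?_
  rw [Finset.mul_sum]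
  refine Finset.sum_le_sum fun c' hc' => ?_
  have hw : 0 ≤ wt H C p y c * wt H C p (g • y) c' :=
    mul_nonneg (l3_wt_nonneg H C p hp y c) (l3_wt_nonneg H C p hp (g • y) c')
  by_cases h : Orb H (zc H y c) (zc H (g • y) c')
  · rw [if_pos h, mul_comm]
    refine mul_le_mul_of_nonneg_left ?_ hw
    rcases Nat.find_spec (l3_exists H ℓ g c c' y) with h1 | ⟨h', h2, h3⟩
    · exact absurd h h1
    · rw [h3]
      refine le_trans ?_ (hk1 (zc H y c) h')
      exact pow_le_pow_of_le_one hr0.le hr1.le (le_trans h2 (hdD c hc c' hc'))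
  · rw [if_neg h, mul_zero]
    exact mul_nonneg hw (hk0 _ _)

end kernel

end

end Pool.Agent.Lib.MP_35fb4b_lc.SR
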