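import Pool.Agent.Lib.MP_35fb4b_lc.SR.Defs

/-!
# SR-L4: the kernel of the big group is small off a finite part of the orbits
-/

set_option autoImplicit false

namespace Pool.Agent.Lib.MP_35fb4b_lc.SR

open scoped Classical
open MeasureTheory

noncomputable section

section kernel
variable {Γ K : Type} [Group Γ] [MulAction Γ K] (H : Subgroup Γ)

private theorem l4_lam_ge (C : Finset (Γ ⧸ H)) (p : Γ ⧸ H → ℝ) (hp : ∀ c, 0 ≤ p c) (y : K)
    (c : Γ ⧸ H) (hc : c ∈ C) : p c ≤ lam H C p y c := by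
  unfold lam
  have h1 : (if Orb H (zc H y c) (zc H y c) then p c else 0) = p c := by
    rw [if_pos]
    exact ⟨1, (one_smul H (zc H y c)).symm⟩
  calc p c = (if Orb H (zc H y c) (zc H y c) then p c else 0) := h1.symm
    _ ≤ ∑ c' ∈ C, if Orb H (zc H y c) (zc H y c') then p c' else 0 := by
        apply Finset.single_le_sum (f := fun c' => if Orb H (zc H y c) (zc H y c') then p c' else 0)
          _ hc
        intro c' _
        split_ifs
        · exact hp c'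
        · exact le_rfl

private theorem l4_wt_nonneg (C : Finset (Γ ⧸ H)) (p : Γ ⧸ H → ℝ) (hp : ∀ c, 0 ≤ p c) (y : K)
    (c : Γ ⧸ H) : 0 ≤ wt H C p y c :=
  div_nonneg (hp c) (Real.sqrt_nonneg _)

private theorem l4_wt_le (C : Finset (Γ ⧸ H)) (p : Γ ⧸ H → ℝ) (hp : ∀ c, 0 ≤ p c)
    (hp1 : ∑ c ∈ C, p c = 1) (y : K) (c : Γ ⧸ H) (hc : c ∈ C) : wt H C p y c ≤ 1 := by
  have hle : p c ≤ 1 := by
    rw [← hp1]
    exact Finset.single_le_sum (f := p) (fun c' _ => hp c') hc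
  have hge := l4_lam_ge H C p hp y c hc
  unfold wt
  rcases (hp c).eq_or_lt with h0 | h0
  · rw [← h0, zero_div]
    exact zero_le_one
  · have hl : 0 < lam H C p y c := lt_of_lt_of_le h0 hge
    rw [div_le_one (Real.sqrt_pos.mpr hl)]
    calc p c = Real.sqrt (p c) * Real.sqrt (p c) := (Real.mul_self_sqrt h0.le).symm
      _ ≤ 1 * Real.sqrt (lam H C p y c) := by
          apply mul_le_mul
          · exact Real.sqrt_le_one.mpr hle
          · exact Real.sqrt_le_sqrt hge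
          · exact Real.sqrt_nonneg _
          · exact zero_le_one
      _ = Real.sqrt (lam H C p y c) := one_mul _

theorem kap_proper [Countable Γ] [MeasurableSpace K] [StandardBorelSpace K]
    (hm : ∀ γ : Γ, Measurable fun y : K => γ • y) (C : Finset (Γ ⧸ H)) (p : Γ ⧸ H → ℝ)
    (hp : ∀ c, 0 ≤ p c) (hp1 : ∑ c ∈ C, p c = 1) (ρ : K → ℕ) (hρ : Measurable ρ) :
    ∃ ρ' : K → ℕ, Measurable ρ' ∧ ∀ k : K → K → ℝ, (∀ z z', 0 ≤ k z z') → (∀ z z', k z z' ≤ 1) →
      (∀ δ, 0 < δ → ∀ M : ℕ, ∃ E : Finset H, ∀ z z', ρ z ≤ M → ρ z' ≤ M → δ ≤ k z z' →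
        ∃ h ∈ E, z' = h • z) →
      ∀ M : ℕ, ∃ E : Finset Γ, ∀ y y', ρ' y ≤ M → ρ' y' ≤ M → 1 / 2 ≤ kap H C p k y y' →
        ∃ g ∈ E, y' = g • y := by
  refine ⟨fun y => ∑ c ∈ C, ρ (zc H y c), ?_, ?_⟩
  · apply Finset.measurable_fun_sum
    intro c _
    exact hρ.comp (hm _)
  intro k hk0 hk1 hk M
  have hCne : C.Nonempty := by
    rw [Finset.nonempty_iff_ne_empty]
    rintro rfl
    simp at hp1
  have hN : (0 : ℝ) < (C.card : ℝ) := by exact_mod_cast hCne.card_pos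
  have hδ : (0 : ℝ) < 1 / (4 * (C.card : ℝ) ^ 2) := by positivity
  obtain ⟨E, hE⟩ := hk _ hδ M
  refine ⟨(C ×ˢ (C ×ˢ E)).image
    (fun q => (Quotient.out q.2.1 : Γ) * (q.2.2 : Γ) * (Quotient.out q.1 : Γ)⁻¹), ?_⟩
  intro y y' hy hy' hkap
  have hex : ∃ c ∈ C, ∃ c' ∈ C, 1 / (4 * (C.card : ℝ) ^ 2) ≤ k (zc H y c) (zc H y' c') := by
    by_contra hcon
    push Not at hcon
    have hb : kap H C p k y y' ≤ ∑ c ∈ C, ∑ c' ∈ C, 1 / (4 * (C.card : ℝ) ^ 2) := by
      unfold kap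
      apply Finset.sum_le_sum
      intro c hc
      apply Finset.sum_le_sum
      intro c' hc'
      have h1 := l4_wt_le H C p hp hp1 y c hc
      have h2 := l4_wt_le H C p hp hp1 y' c' hc'
      have h3 := l4_wt_nonneg H C p hp y c
      have h4 := l4_wt_nonneg H C p hp y' c'
      have h5 : wt H C p y c * wt H C p y' c' ≤ 1 := mul_le_one₀ h1 h4 h2
      have h6 := hk0 (zc H y c) (zc H y' c')
      calc wt H C p y c * wt H C p y' c' * k (zc H y c) (zc H y' c')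
          ≤ 1 * k (zc H y c) (zc H y' c') := mul_le_mul_of_nonneg_right h5 h6
        _ = k (zc H y c) (zc H y' c') := one_mul _
        _ ≤ _ := (hcon c hc c' hc').le
    have hs : (∑ c ∈ C, ∑ c' ∈ C, 1 / (4 * (C.card : ℝ) ^ 2)) = 1 / 4 := by
      simp only [Finset.sum_const, nsmul_eq_mul]
      field_simp
    rw [hs] at hb
    linarith
  obtain ⟨c, hc, c', hc', hkk⟩ := hex
  have hr : ρ (zc H y c) ≤ M :=
    le_trans (Finset.single_le_sum (f := fun c => ρ (zc H y c)) (fun _ _ => Nat.zero_le _) hc) hy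
  have hr' : ρ (zc H y' c') ≤ M :=
    le_trans (Finset.single_le_sum (f := fun c => ρ (zc H y' c)) (fun _ _ => Nat.zero_le _) hc') hy'
  obtain ⟨h, hh, hz⟩ := hE _ _ hr hr' hkk
  refine ⟨(Quotient.out c' : Γ) * (h : Γ) * (Quotient.out c : Γ)⁻¹, ?_, ?_⟩
  · rw [Finset.mem_image]
    exact ⟨(c, c', h), by simp [hc, hc', hh], rfl⟩
  · have h1 : (Quotient.out c' : Γ) • zc H y' c' = y' := by
      unfold zc
      rw [smul_inv_smul]
    rw [← h1, hz, Subgroup.smul_def]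
    unfold zc
    simp only [smul_smul, mul_assoc]

end kernel

end

end Pool.Agent.Lib.MP_35fb4b_lc.SR
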