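import Pool.Agent.Lib.MP_35fb4b_lc.Defs
import Pool.Agent.Lib.MP_35fb4b_lc.SR.Defs
import Pool.Agent.Lib.MP_35fb4b_lc.SR.D1
import Pool.Agent.Lib.MP_35fb4b_lc.SR.K4
import Pool.Agent.Lib.MP_35fb4b_lc.SR.L1
import Pool.Agent.Lib.MP_35fb4b_lc.SR.L2
import Pool.Agent.Lib.MP_35fb4b_lc.SR.L3
import Pool.Agent.Lib.MP_35fb4b_lc.SR.L4

/-!
# Module L5: the orbit relation has Haagerup kernels (MP_35fb4b_lc)
-/

set_option autoImplicit false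

namespace Pool.Agent.Lib.MP_35fb4b_lc.SR

open scoped Classical
open MeasureTheory

noncomputable section

/-- the case of an action of `F2` through an isomorphism onto the subgroup `H` -/
theorem l5_haag {Γ K : Type} [Group Γ] [Countable Γ] [MeasurableSpace K]
    [StandardBorelSpace K] [MulAction Γ K] (hm : ∀ γ : Γ, Measurable fun y : K => γ • y)
    (H : Subgroup Γ) (hmean : HasMean Γ (Γ ⧸ H)) (ℓ : H → ℕ) (ρ : K → ℕ) (k : ℝ → K → K → ℝ)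
    (meas_ρ : Measurable ρ)
    (meas_k : ∀ r, 0 < r → r < 1 → Measurable (fun z : K × K => k r z.1 z.2))
    (nonneg : ∀ r, 0 < r → r < 1 → ∀ z z', 0 ≤ k r z z')
    (le_one : ∀ r, 0 < r → r < 1 → ∀ z z', k r z z' ≤ 1)
    (off : ∀ r, 0 < r → r < 1 → ∀ z z', ¬ Orb H z z' → k r z z' = 0)
    (lower : ∀ r, 0 < r → r < 1 → ∀ z (g : H), r ^ ℓ g ≤ k r z (g • z))
    (psd : ∀ r, 0 < r → r < 1 → PSD (k r))
    (proper : ∀ r, 0 < r → r < 1 → ∀ δ, 0 < δ → ∀ M : ℕ, ∃ E : Finset H, ∀ z z',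
      ρ z ≤ M → ρ z' ≤ M → δ ≤ k r z z' → ∃ g ∈ E, z' = g • z) : Haag Γ K := by
  intro F ε hε
  have hcnt : Countable (Γ ⧸ H) := QuotientGroup.mk_surjective.countable
  obtain ⟨C, p, hp, hpC, hp1, hpF⟩ := almost_invariant hmean F ε hε
  obtain ⟨D, mD, hD⟩ := kap_lower H hm ℓ F ε C p hp hpC hp1 hpF
  obtain ⟨ρ', mρ', hρ'⟩ := kap_proper H hm C p hp hp1 ρ meas_ρ
  refine ⟨ρ', D, mρ', mD, fun r h0 h1 => ⟨kap H C p (k r), ?_, ?_, ?_, ?_, ?_, ?_⟩⟩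
  · exact kap_measurable H hm C p (k r) (meas_k r h0 h1)
  · exact kap_nonneg H C p hp (k r) (nonneg r h0 h1)
  · exact kap_le_one H C p hp hp1 (k r) (nonneg r h0 h1) (le_one r h0 h1) (off r h0 h1)
      (psd r h0 h1)
  · exact kap_psd H C p (k r) (psd r h0 h1)
  · exact hD r (k r) h0 h1 (nonneg r h0 h1) (lower r h0 h1)
  · exact hρ' (k r) (nonneg r h0 h1) (le_one r h0 h1) (proper r h0 h1)

theorem haag_of_mean {Γ K : Type} [Group Γ] [Countable Γ] [MeasurableSpace K]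
    [StandardBorelSpace K] [MulAction Γ K] (hm : ∀ γ : Γ, Measurable fun y : K => γ • y)
    (φ : F2 →* Γ) (hφ : Function.Injective φ) (hmean : HasMean Γ (Γ ⧸ φ.range))
    (hst : ∀ (y : K) (a b : F2), φ a • y = y → φ b • y = y → a * b = b * a) : Haag Γ K := by
  obtain ⟨e, he⟩ : ∃ e : F2 ≃* φ.range, ∀ a, ((e a : φ.range) : Γ) = φ a :=
    ⟨MonoidHom.ofInjective hφ, fun a => rfl⟩
  have hsm : ∀ (a : F2) (y : K), (e a) • y = φ a • y := by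
    intro a y
    rw [Subgroup.smul_def, he]
  have key : ∃ (ρ : K → ℕ) (k : ℝ → K → K → ℝ), Measurable ρ ∧
      (∀ r, 0 < r → r < 1 → Measurable (fun z : K × K => k r z.1 z.2)) ∧
      (∀ r, 0 < r → r < 1 → ∀ z z', 0 ≤ k r z z') ∧
      (∀ r, 0 < r → r < 1 → ∀ z z', k r z z' ≤ 1) ∧
      (∀ r, 0 < r → r < 1 → ∀ z z', ¬ (∃ a : F2, z' = φ a • z) → k r z z' = 0) ∧
      (∀ r, 0 < r → r < 1 → ∀ z (a : F2), r ^ FreeGroup.norm a ≤ k r z (φ a • z)) ∧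
      (∀ r, 0 < r → r < 1 → PSD (k r)) ∧
      (∀ r, 0 < r → r < 1 → ∀ δ, 0 < δ → ∀ M : ℕ, ∃ E : Finset F2, ∀ z z',
        ρ z ≤ M → ρ z' ≤ M → δ ≤ k r z z' → ∃ a ∈ E, z' = φ a • z) := by
    letI : MulAction F2 K := MulAction.compHom K φ
    obtain ⟨O⟩ := exists_orbKer (K := K) (fun h => hm (φ h)) (fun z a b h1 h2 => hst z a b h1 h2)
    exact ⟨O.ρ, O.k, O.meas_ρ, O.meas_k, O.nonneg, O.le_one, fun r h0 h1 z z' h =>
      O.off r h0 h1 z z' h, fun r h0 h1 z a => O.lower r h0 h1 z a, O.psd,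
      fun r h0 h1 δ hδ M => O.proper r h0 h1 δ hδ M⟩
  obtain ⟨ρ, k, m1, m2, h1, h2, h3, h4, h5, h6⟩ := key
  refine l5_haag hm φ.range hmean (fun g => FreeGroup.norm (e.symm g)) ρ k m1 m2 h1 h2 ?_ ?_ h5 ?_
  · intro r r0 r1 z z' hz
    refine h3 r r0 r1 z z' fun ⟨a, ha⟩ => hz ⟨e a, ?_⟩
    rw [hsm, ha]
  · intro r r0 r1 z g
    have h := h4 r r0 r1 z (e.symm g)
    rwa [← hsm, e.apply_symm_apply] at h
  · intro r r0 r1 δ hδ M
    obtain ⟨E, hE⟩ := h6 r r0 r1 δ hδ M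
    refine ⟨E.image e, fun z z' hz hz' hk => ?_⟩
    obtain ⟨a, ha, haz⟩ := hE z z' hz hz' hk
    exact ⟨e a, Finset.mem_image_of_mem e ha, by rw [hsm, haz]⟩

end

end Pool.Agent.Lib.MP_35fb4b_lc.SR
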