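import Pool.Agent.Lib.MP_35fb4b_lc.Final
import Pool.Agent.Lib.MP_35fb4b_lc.SR.Defs

/-!
# SR-S1: two non-commuting elements of `F2` generate a subgroup which contains a copy of `F2`
-/

set_option autoImplicit false

namespace Pool.Agent.Lib.MP_35fb4b_lc.SR

open scoped Classical
open MeasureTheory

noncomputable section

private theorem s1_comm {α : Type*} (hα : ∀ x y : α, x = y) (z w : FreeGroup α) :
    z * w = w * z := by
  have h1 : ∀ x : α, ∀ w : FreeGroup α, Commute (FreeGroup.of x) w := by
    intro x w
    induction w using FreeGroup.induction_on with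
    | C1 => exact Commute.one_right _
    | of y => rw [hα x y]
    | inv_of y _ => rw [hα x y]; exact (Commute.refl _).inv_right
    | mul a b ha hb => exact ha.mul_right hb
  have h2 : Commute z w := by
    induction z using FreeGroup.induction_on with
    | C1 => exact Commute.one_left _
    | of y => exact h1 y w
    | inv_of y _ => exact (h1 y w).inv_left
    | mul a b ha hb => exact ha.mul_left hb
  exact h2

theorem free_of_noncomm (a b : F2) (h : a * b ≠ b * a) :
    ∃ ψ : F2 →* F2, Function.Injective ψ ∧ ∀ g, ψ g ∈ Subgroup.closure {a, b} := by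
  obtain ⟨H, hH⟩ : ∃ H : Subgroup F2, H = Subgroup.closure {a, b} := ⟨_, rfl⟩
  rw [← hH]
  have ha : a ∈ H := by rw [hH]; exact Subgroup.subset_closure (by simp)
  have hb : b ∈ H := by rw [hH]; exact Subgroup.subset_closure (by simp)
  let e : H ≃* FreeGroup (IsFreeGroup.Generators H) := IsFreeGroup.toFreeGroup H
  have h2 : ∃ x y : IsFreeGroup.Generators H, x ≠ y := by
    by_contra hcon
    push Not at hcon
    apply h
    have h3 := s1_comm hcon (e ⟨a, ha⟩) (e ⟨b, hb⟩)
    rw [← map_mul, ← map_mul] at h3
    have h4 := e.injective h3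
    exact congrArg Subtype.val h4
  obtain ⟨x, y, hxy⟩ := h2
  let ι : Fin 2 → IsFreeGroup.Generators H := ![x, y]
  have hι : Function.Injective ι := by
    intro i j hij
    fin_cases i <;> fin_cases j
    · rfl
    · exact absurd hij hxy
    · exact absurd hij.symm hxy
    · rfl
  refine ⟨H.subtype.comp (e.symm.toMonoidHom.comp (FreeGroup.map ι)), ?_, ?_⟩
  · intro u v huv
    exact FreeGroup.map_injective hι (e.symm.injective (Subtype.ext huv))
  · intro g
    exact (e.symm (FreeGroup.map ι g)).2

end

end Pool.Agent.Lib.MP_35fb4b_lc.SR
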