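import Pool.Agent.Lib.MP_35fb4b_lc.SR.Defs

/-!
# SR-T2: an infinite countable group with seven generators, one for each point of the Fano plane,
and the relations `x j * x (j + 1) * x (j + 3) = 1`
-/

set_option autoImplicit false

namespace Pool.Agent.Lib.MP_35fb4b_lc.SR

open scoped Classical

noncomputable section

/-- the matrices of the linear representation -/
private def t2_X {R : Type} [CommRing R] (r q c : R) : Matrix (Fin 3) (Fin 3) R :=
  !![q, q * c, 0; 0, q, q * c ^ 2; q * c ^ 4 * (1 + r ^ 3), 0, q]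

private theorem t2_w7 {R : Type} [CommRing R] (h2 : (2 : R) = 0) (w : R)
    (hw : w ^ 3 = w + 1) : w ^ 7 = 1 := by
  linear_combination (w ^ 4 + w ^ 2 + w + 1) * hw + (w ^ 2 + w) * h2

private theorem t2_prod {R : Type} [CommRing R] (h2 : (2 : R) = 0) (r q w c : R) (hq : r * q = 1)
    (hw : w ^ 3 = w + 1) (hc : c ^ 7 = 1) :
    t2_X r q c * t2_X r q (c * w) * t2_X r q (c * w ^ 3) = 1 := by
  have hw7 : w ^ 7 = 1 := t2_w7 h2 w hw
  have hA : 1 + w + w ^ 3 = 0 := by linear_combination hw + (w + 1) * h2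
  have hw6 : w ^ 6 = w ^ 2 + 1 := by
    linear_combination (w ^ 3 + w + 1) * hw + w * h2
  have hB : w ^ 2 + w ^ 6 + w ^ 7 = 0 := by
    linear_combination hw6 + hw7 + (w ^ 2 + 1) * h2
  have hC : 1 + w ^ 2 + w ^ 6 = 0 := by
    linear_combination hw6 + (w ^ 2 + 1) * h2
  have hD : w + w ^ 3 + w ^ 7 = 0 := by
    linear_combination hw7 + hA
  have hE : w ^ 4 + w ^ 12 + w ^ 14 = 0 := by
    linear_combination (w ^ 2 + w ^ 6 + w ^ 7) * hB - (w ^ 8 + w ^ 9 + w ^ 13) * h2
  have hF : 1 + w ^ 4 + w ^ 12 = 0 := by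
    linear_combination (1 + w ^ 2 + w ^ 6) * hC - (w ^ 2 + w ^ 6 + w ^ 8) * h2
  have hw14 : w ^ 14 = 1 := by linear_combination (w ^ 7 + 1) * hw7
  have hq3 : r ^ 3 * q ^ 3 = 1 := by
    linear_combination (r ^ 2 * q ^ 2 + r * q + 1) * hq
  have hd : ∀ u : R, u = 1 → q ^ 3 * (1 + u * (1 + r ^ 3)) = 1 := by
    rintro u rfl
    linear_combination hq3 + q ^ 3 * h2
  have h7 : c ^ 7 * w ^ 7 = 1 := by rw [hc, hw7, one_mul]
  have h14 : c ^ 7 * w ^ 14 = 1 := by rw [hc, hw14, one_mul]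
  ext i k
  fin_cases i <;> fin_cases k <;>
    simp [t2_X, Matrix.mul_apply, Fin.sum_univ_three]
  · linear_combination hd _ h14
  · linear_combination q ^ 3 * c * hA
  · linear_combination q ^ 3 * c ^ 3 * hB
  · linear_combination q ^ 3 * c ^ 6 * (1 + r ^ 3) * hE
  · linear_combination hd _ h7
  · linear_combination q ^ 3 * c ^ 2 * hC
  · linear_combination q ^ 3 * c ^ 4 * (1 + r ^ 3) * hF
  · linear_combination q ^ 3 * c ^ 5 * (1 + r ^ 3) * hD
  · linear_combination hd _ h7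

private theorem t2_pow {R : Type} [CommRing R] (h2 : (2 : R) = 0) (r q : R) (k : ℕ) :
    ∃ a b : R, a = q ^ 2 ^ k ∧
      (t2_X r q 1 ^ 2 ^ k = !![a, b, 0; 0, a, b; b * (1 + r ^ 3), 0, a] ∨
        t2_X r q 1 ^ 2 ^ k =
          !![a, 0, b; b * (1 + r ^ 3), a, 0; 0, b * (1 + r ^ 3), a]) := by
  induction k with
  | zero =>
    refine ⟨q, q, by simp, Or.inl ?_⟩
    simp [t2_X]
  | succ k ih =>
    obtain ⟨a, b, ha, h⟩ := ih
    have e : t2_X r q 1 ^ 2 ^ (k + 1) = t2_X r q 1 ^ 2 ^ k * t2_X r q 1 ^ 2 ^ k := by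
      rw [pow_succ 2 k, mul_two, pow_add]
    have ea : a ^ 2 = q ^ 2 ^ (k + 1) := by
      rw [ha, pow_succ 2 k, pow_mul]
    rcases h with h | h
    · refine ⟨a ^ 2, b ^ 2, ea, Or.inr ?_⟩
      rw [e, h]
      ext i k
      fin_cases i <;> fin_cases k <;>
        simp [Matrix.mul_apply, Fin.sum_univ_three]
      all_goals first
        | ring1
        | linear_combination (a * b) * h2
        | linear_combination (a * b * (1 + r ^ 3)) * h2
    · refine ⟨a ^ 2, b ^ 2 * (1 + r ^ 3), ea, Or.inl ?_⟩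
      rw [e, h]
      ext i k
      fin_cases i <;> fin_cases k <;>
        simp [Matrix.mul_apply, Fin.sum_univ_three]
      all_goals first
        | ring1
        | linear_combination (a * b) * h2
        | linear_combination (a * b * (1 + r ^ 3)) * h2

private theorem t2_ring : ∃ (R : Type) (_ : CommRing R) (r q w : R), (2 : R) = 0 ∧ r * q = 1 ∧
    w ^ 3 = w + 1 ∧ ∀ m n : ℕ, q ^ m = q ^ n → m = n := by
  let K := AlgebraicClosure (ZMod 2)
  have h2 : (2 : K) = 0 := by
    have : ((2 : ℕ) : K) = 0 := CharP.cast_eq_zero K 2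
    exact_mod_cast this
  obtain ⟨w, hw⟩ := IsAlgClosed.exists_root (k := K)
    (Polynomial.X ^ 3 - Polynomial.X - 1 : Polynomial K) (by
      have : (Polynomial.X ^ 3 - Polynomial.X - 1 : Polynomial K).degree = 3 := by
        compute_degree!
      rw [this]
      decide)
  have hw' : w ^ 3 = w + 1 := by
    simp [Polynomial.IsRoot] at hw
    linear_combination hw
  have hX : (RatFunc.X : RatFunc K) ≠ 0 := RatFunc.X_ne_zero
  refine ⟨RatFunc K, inferInstance, RatFunc.X, RatFunc.X⁻¹, algebraMap K (RatFunc K) w, ?_, ?_, ?_,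
    ?_⟩
  · have := congrArg (algebraMap K (RatFunc K)) h2
    rwa [map_ofNat, map_zero] at this
  · exact mul_inv_cancel₀ hX
  · have := congrArg (algebraMap K (RatFunc K)) hw'
    simpa using this
  · intro m n h
    rw [inv_pow, inv_pow] at h
    have h' := inv_injective h
    rw [← RatFunc.algebraMap_X, ← map_pow, ← map_pow] at h'
    have h'' := RatFunc.algebraMap_injective K h'
    have := congrArg Polynomial.natDegree h''
    simpa using this

theorem fano_group : ∃ (Δ : Type) (_ : Group Δ) (x : ZMod 7 → Δ), Countable Δ ∧ Infinite Δ ∧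
    (∀ j, x j * x (j + 1) * x (j + 3) = 1) ∧ Subgroup.closure (Set.range x) = ⊤ := by
  obtain ⟨R, _, r, q, w, h2, hq, hw, hinj⟩ := t2_ring
  have hw7 : w ^ 7 = 1 := t2_w7 h2 w hw
  have hc7 : ∀ n : ℕ, (w ^ n) ^ 7 = 1 := fun n => by
    rw [← pow_mul, mul_comm, pow_mul, hw7, one_pow]
  have hmod : ∀ m n : ℕ, m % 7 = n % 7 → w ^ m = w ^ n := fun m n h => by
    rw [pow_eq_pow_mod m hw7, pow_eq_pow_mod n hw7, h]
  have hp : ∀ j : ZMod 7, t2_X r q (w ^ j.val) * t2_X r q (w ^ (j + 1).val) *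
      t2_X r q (w ^ (j + 3).val) = 1 := by
    intro j
    have m1 : ∀ j : ZMod 7, (j + 1).val % 7 = (j.val + 1) % 7 := by decide
    have m2 : ∀ j : ZMod 7, (j + 3).val % 7 = (j.val + 3) % 7 := by decide
    have e1 : w ^ (j + 1).val = w ^ j.val * w := by
      rw [← pow_succ]
      exact hmod _ _ (m1 j)
    have e2 : w ^ (j + 3).val = w ^ j.val * w ^ 3 := by
      rw [← pow_add]
      exact hmod _ _ (m2 j)
    rw [e1, e2]
    exact t2_prod h2 r q w _ hq hw (hc7 _)
  let u : ZMod 7 → (Matrix (Fin 3) (Fin 3) R)ˣ := fun j =>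
    ⟨t2_X r q (w ^ j.val), t2_X r q (w ^ (j + 1).val) * t2_X r q (w ^ (j + 3).val),
      by rw [← mul_assoc]; exact hp j,
      mul_eq_one_comm.mp (by rw [← mul_assoc]; exact hp j)⟩
  have hu : ∀ j, u j * u (j + 1) * u (j + 3) = 1 := fun j => Units.ext (hp j)
  let rels : Set (FreeGroup (ZMod 7)) := Set.range fun j : ZMod 7 =>
    FreeGroup.of j * FreeGroup.of (j + 1) * FreeGroup.of (j + 3)
  have hrel : ∀ s ∈ rels, FreeGroup.lift u s = 1 := by
    rintro _ ⟨j, rfl⟩
    simpa using hu j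
  let φ : PresentedGroup rels →* (Matrix (Fin 3) (Fin 3) R)ˣ := PresentedGroup.toGroup hrel
  refine ⟨PresentedGroup rels, inferInstance, fun j => PresentedGroup.of j, ?_, ?_, ?_, ?_⟩
  · exact (QuotientGroup.mk_surjective (s := Subgroup.normalClosure rels)).countable
  · refine Infinite.of_injective (fun k : ℕ => (PresentedGroup.of (0 : ZMod 7) :
      PresentedGroup rels) ^ 2 ^ k) ?_
    intro k l h
    have h1 := congrArg (fun z => ((φ z : (Matrix (Fin 3) (Fin 3) R)ˣ) :
      Matrix (Fin 3) (Fin 3) R)) h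
    have h0 : φ (PresentedGroup.of (0 : ZMod 7)) = u 0 := PresentedGroup.toGroup.of hrel
    simp only [map_pow, h0, Units.val_pow_eq_pow_val] at h1
    have hv : ((u 0 : (Matrix (Fin 3) (Fin 3) R)ˣ) : Matrix (Fin 3) (Fin 3) R) =
        t2_X r q 1 := by
      simp [u]
    rw [hv] at h1
    obtain ⟨a, b, ha, hab⟩ := t2_pow h2 r q k
    obtain ⟨a', b', ha', hab'⟩ := t2_pow h2 r q l
    have h00 : (t2_X r q 1 ^ 2 ^ k) 0 0 = a := by
      rcases hab with hab | hab <;> rw [hab] <;> rfl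
    have h00' : (t2_X r q 1 ^ 2 ^ l) 0 0 = a' := by
      rcases hab' with hab | hab <;> rw [hab] <;> rfl
    rw [h1, h00'] at h00
    have h3 : q ^ 2 ^ l = q ^ 2 ^ k := by rw [← ha, ← ha', h00]
    exact (Nat.pow_right_injective le_rfl (hinj _ _ h3)).symm
  · intro j
    have h4 : PresentedGroup.mk rels (FreeGroup.of j * FreeGroup.of (j + 1) *
        FreeGroup.of (j + 3)) = 1 := PresentedGroup.one_of_mem ⟨j, rfl⟩
    rw [map_mul, map_mul] at h4
    exact h4
  · exact PresentedGroup.closure_range_of rels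

end

end Pool.Agent.Lib.MP_35fb4b_lc.SR
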