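import Pool.Agent.Results.MP_35fb4b_lc.CompressibleUniversal
import Pool.Agent.Lib.MP_35fb4b_lc.SR.B1
import Pool.Agent.Lib.MP_35fb4b_lc.SR.C1
import Pool.Agent.Lib.MP_35fb4b_lc.SR.C2
import Pool.Agent.Lib.MP_35fb4b_lc.SR.L5
import Pool.Agent.Lib.MP_35fb4b_lc.SR.S1
import Pool.Agent.Lib.MP_35fb4b_lc.SR.T2

/-!
# Universal subshifts over groups with a co-amenable free subgroup (MP_35fb4b_lc): assembly
-/

set_option autoImplicit false

namespace Pool.Agent.Lib.MP_35fb4b_lc.SR

open scoped Classical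
open MeasureTheory
open Pool.Agent.Results.MP_35fb4b_lc.CompressibleUniversal (shift IsSubshift OrbRel IsCBER
  BorelReducible IsUniversalCBER IsCompressible CoAmenable shift_one shift_mul shift_measurable)

noncomputable section

/-- the shift action on an invariant set -/
@[reducible] def asm_action {Γ : Type} [Group Γ] (K : Set (Γ → Bool))
    (hK : ∀ γ : Γ, ∀ x ∈ K, shift γ x ∈ K) : MulAction Γ K where
  smul γ y := ⟨shift γ y, hK γ y y.2⟩
  one_smul _ := Subtype.ext (shift_one _)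
  mul_smul _ _ _ := Subtype.ext (shift_mul _ _ _)

theorem asm_act_measurable {Δ : Type} [Group Δ] (δ : Δ) :
    Measurable (act δ : (Δ → Bool) → (Δ → Bool)) :=
  measurable_pi_lambda _ fun g => measurable_pi_apply (g * δ)

/-- the orbit relation of the shift on the full space -/
theorem asm_cber (Δ : Type) [Group Δ] [Countable Δ] :
    IsCBER (fun x y : Δ → Bool => SameOrb y x) := by
  refine ⟨⟨fun x => ⟨1, (act_one x).symm⟩, ?_, ?_⟩, ?_, fun x => ?_⟩
  · rintro x y ⟨γ, h⟩
    exact ⟨γ⁻¹, by rw [h, ← act_mul, inv_mul_cancel, act_one]⟩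
  · rintro x y z ⟨γ, h⟩ ⟨δ, h'⟩
    exact ⟨δ * γ, by rw [h', h, act_mul]⟩
  · have h : {p : (Δ → Bool) × (Δ → Bool) | SameOrb p.2 p.1} =
        ⋃ γ : Δ, {p : (Δ → Bool) × (Δ → Bool) | p.2 = act γ p.1} := by
      ext p
      simp [SameOrb]
    rw [h]
    refine MeasurableSet.iUnion fun γ => ?_
    exact measurableSet_eq_fun measurable_snd ((asm_act_measurable γ).comp measurable_fst)
  · have h : {y : Δ → Bool | SameOrb y x} ⊆ ⋃ γ : Δ, {y | y = act γ x} := by
      rintro y ⟨γ, hy⟩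
      exact Set.mem_iUnion_of_mem γ hy
    refine Set.Countable.mono h (Set.countable_iUnion fun γ => ?_)
    exact Set.Subsingleton.countable fun a ha b hb => ha.trans hb.symm

theorem asm_closed {Γ : Type} [Group Γ] (E : Finset Γ) :
    IsClosed {p : (Γ → Bool) × (Γ → Bool) | ∃ g ∈ E, p.2 = shift g p.1} := by
  have h : {p : (Γ → Bool) × (Γ → Bool) | ∃ g ∈ E, p.2 = shift g p.1} =
      ⋃ g ∈ E, {p : (Γ → Bool) × (Γ → Bool) | p.2 = shift g p.1} := by
    ext p
    simp
  rw [h]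
  refine isClosed_biUnion_finset fun g _ => isClosed_eq continuous_snd ?_
  exact continuous_pi fun a => (continuous_apply (g⁻¹ * a)).comp continuous_fst

/-- an orbit-universal subshift over a group with a co-amenable free subgroup has a point whose
stabilizer contains a free subgroup of that subgroup -/
theorem core {Γ : Type} [Group Γ] [Countable Γ] (φ : FreeGroup (Fin 2) →* Γ)
    (hφ : Function.Injective φ) (hco : CoAmenable φ.range) (K : Set (Γ → Bool))
    (hK : IsSubshift K) (hu : IsUniversalCBER (OrbRel K)) :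
    ∃ y ∈ K, ∃ ψ : FreeGroup (Fin 2) →* FreeGroup (Fin 2), Function.Injective ψ ∧
      ∀ g, shift (φ (ψ g)) y = y := by
  by_contra hcon
  push Not at hcon
  let act1 : MulAction Γ K := asm_action K hK.2.2
  have hsm : ∀ (γ : Γ) (y : K), ((γ • y : K) : Γ → Bool) = shift γ y := fun γ y => rfl
  have : StandardBorelSpace K := hK.2.1.measurableSet.standardBorel
  have hm : ∀ γ : Γ, Measurable fun y : K => γ • y := fun γ =>
    ((shift_measurable γ).comp measurable_subtype_coe).subtype_mk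
  have hst : ∀ (y : K) (a b : F2), φ a • y = y → φ b • y = y → a * b = b * a := by
    intro y a b ha hb
    by_contra hab
    obtain ⟨ψ, hψ, hψ2⟩ := free_of_noncomm a b hab
    obtain ⟨g, hg⟩ := hcon y y.2 ψ hψ
    apply hg
    have h1 : Subgroup.closure {a, b} ≤ (MulAction.stabilizer Γ y).comap φ := by
      rw [Subgroup.closure_le]
      rintro c (rfl | rfl)
      · exact ha
      · exact hb
    have h2 : φ (ψ g) • y = y := h1 (hψ2 g)
    rw [← hsm, h2]
  have hH : Haag Γ K := haag_of_mean hm φ hφ hco hst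
  obtain ⟨Δ, iΔ, x, hcΔ, hiΔ, hx, hgen⟩ := fano_group
  obtain ⟨μ, hμ1, hμ, hμ0, hmix⟩ := bernoulli Δ
  obtain ⟨f, hf, hfE⟩ := hu.2 (Δ → Bool) _ (asm_cber Δ)
  have hfT : ∀ (δ : Δ) (z : Δ → Bool), ∃ γ : Γ, f (act δ z) = γ • f z := by
    intro δ z
    obtain ⟨γ, h⟩ := (hfE z (act δ z)).1 ⟨δ, rfl⟩
    exact ⟨γ, Subtype.ext h⟩
  obtain ⟨E, hE⟩ := near_one (fun δ : Δ => (act δ : (Δ → Bool) → (Δ → Bool))) act_one act_mul
    asm_act_measurable μ hμ1 hμ x hx hgen hm hH f hf hfT
  obtain ⟨δ, hδ⟩ := mixing_closed μ hμ1 hμ hmix (fun z => (f z : Γ → Bool))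
    (measurable_subtype_coe.comp hf) {p | ∃ g ∈ E, p.2 = shift g p.1} (asm_closed E) (by
      intro z
      have h1 : {z' : Δ → Bool | ∃ g ∈ E, (f z' : Γ → Bool) = shift g (f z)} ⊆
          {z' | SameOrb z' z} := by
        rintro z' ⟨g, -, h⟩
        exact (hfE z z').2 ⟨g, h⟩
      have h2 : ({z' : Δ → Bool | SameOrb z' z} : Set (Δ → Bool)).Countable := (asm_cber Δ).2.2 z
      have h3 : ({z' : Δ → Bool | ∃ g ∈ E, (f z' : Γ → Bool) = shift g (f z)}).Countable :=
        h2.mono h1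
      change μ {z' : Δ → Bool | ∃ g ∈ E, (f z' : Γ → Bool) = shift g (f z)} = 0
      rw [← Set.biUnion_of_singleton {z' : Δ → Bool | ∃ g ∈ E, (f z' : Γ → Bool) = shift g (f z)}]
      exact (measure_biUnion_null_iff h3).2 fun a _ => hμ0 a) (1 / 2) (by norm_num)
  have h4 := hE δ
  have h5 : {x : Δ → Bool | ∃ g ∈ E, f (act δ x) = g • f x} =
      {x | ((f x : Γ → Bool), (f (act δ x) : Γ → Bool)) ∈
        {p : (Γ → Bool) × (Γ → Bool) | ∃ g ∈ E, p.2 = shift g p.1}} := by
    ext z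
    constructor
    · rintro ⟨g, hg, h⟩
      exact ⟨g, hg, by rw [← hsm, ← h]⟩
    · rintro ⟨g, hg, h⟩
      exact ⟨g, hg, Subtype.ext h⟩
  rw [h5] at h4
  exact absurd hδ (not_lt.2 h4)

end

end Pool.Agent.Lib.MP_35fb4b_lc.SR
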