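import Pool.Agent.Lib.MP_35fb4b_lc.Defs
import Pool.Agent.Lib.MP_35fb4b_lc.SR.Defs

/-!
# Subgroups that prevent free subgroups from being co-amenable (MP_35fb4b_lc): definitions
-/

set_option autoImplicit false

namespace Pool.Agent.Lib.MP_35fb4b_lc.SR

/-- no action of `M` all of whose point stabilizers are free groups has an invariant mean -/
def NoMean (M : Type) [Group M] : Prop :=
  ∀ (X : Type) [MulAction M X], (∀ x : X, IsFreeGroup (MulAction.stabilizer M x)) → ¬ HasMean M X

end Pool.Agent.Lib.MP_35fb4b_lc.SR
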