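import Pool.Agent.Lib.MP_35fb4b_lc.Defs
import Pool.Agent.Lib.MP_35fb4b_lc.SR.Defs

/-!
# Height functions from summable stabilizers (MP_35fb4b_lc, module SR-R2)
-/

set_option autoImplicit false

namespace Pool.Agent.Lib.MP_35fb4b_lc.SR

open scoped Classical

noncomputable section

/-- the letters -/
def R2_L (p : Fin 2 × Bool) : F2 := FreeGroup.mk [p]

theorem R2_toWord_L (p : Fin 2 × Bool) : (R2_L p).toWord = [p] := by
  unfold R2_L
  rw [FreeGroup.toWord_mk]
  rfl

theorem R2_L_inj : Function.Injective R2_L := by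
  intro p q h
  have := congrArg FreeGroup.toWord h
  rw [R2_toWord_L, R2_toWord_L] at this
  simpa using this

theorem R2_L_ne_one (p : Fin 2 × Bool) : R2_L p ≠ 1 := by
  intro h
  have := congrArg FreeGroup.toWord h
  rw [R2_toWord_L, FreeGroup.toWord_one] at this
  simp at this

theorem R2_L_inv (p : Fin 2 × Bool) : (R2_L p)⁻¹ = R2_L (p.1, !p.2) := by
  unfold R2_L
  rw [FreeGroup.inv_mk]
  rfl

/-- the five elements -/
def R2_S : Finset F2 := insert 1 (Finset.univ.image R2_L)

theorem R2_one_notMem : (1 : F2) ∉ Finset.univ.image R2_L := by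
  intro h
  obtain ⟨p, -, hp⟩ := Finset.mem_image.mp h
  exact R2_L_ne_one p hp

theorem R2_sum (f : F2 → ℝ) : ∑ s ∈ R2_S, f s = f 1 + ∑ p : Fin 2 × Bool, f (R2_L p) := by
  unfold R2_S
  rw [Finset.sum_insert R2_one_notMem, Finset.sum_image (fun a _ b _ h => R2_L_inj h)]

theorem R2_card : R2_S.card = 5 := by
  unfold R2_S
  rw [Finset.card_insert_of_notMem R2_one_notMem, Finset.card_image_of_injective _ R2_L_inj]
  simp

/-- the norm of a letter times a word -/
theorem R2_norm_nil (p : Fin 2 × Bool) : FreeGroup.norm (R2_L p * 1) = 1 := by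
  rw [mul_one]
  show (R2_L p).toWord.length = 1
  rw [R2_toWord_L]
  rfl

theorem R2_norm_cons (p : Fin 2 × Bool) (w : F2) (hd : Fin 2 × Bool) (tl : List (Fin 2 × Bool))
    (hw : w.toWord = hd :: tl) : FreeGroup.norm (R2_L p * w) =
      if p = (hd.1, !hd.2) then tl.length else tl.length + 2 := by
  have h1 : R2_L p * w = FreeGroup.mk (p :: w.toWord) := by
    conv_lhs => rw [← FreeGroup.mk_toWord (x := w)]
    unfold R2_L
    rw [FreeGroup.mul_mk]
    rfl
  have h2 : (R2_L p * w).toWord = if p.1 = hd.1 ∧ p.2 = (!hd.2) then tl else p :: hd :: tl := by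
    rw [h1, FreeGroup.toWord_mk, FreeGroup.reduce.cons, FreeGroup.reduce_toWord, hw]
  show (R2_L p * w).toWord.length = _
  rw [h2]
  by_cases hp : p = (hd.1, !hd.2)
  · rw [if_pos hp, if_pos (by rw [hp]; simp)]
  · rw [if_neg hp, if_neg (by
      rintro ⟨a, b⟩
      exact hp (Prod.ext a b))]
    simp

/-- the sum over the letters -/
theorem R2_letters (w : F2) :
    ∑ p : Fin 2 × Bool, ((Real.sqrt 3)⁻¹ : ℝ) ^ FreeGroup.norm (R2_L p * w) ≤
      2 * Real.sqrt 3 * ((Real.sqrt 3)⁻¹ : ℝ) ^ FreeGroup.norm w := by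
  have h3 : 0 < Real.sqrt 3 := Real.sqrt_pos.mpr (by norm_num)
  have hsq : Real.sqrt 3 * Real.sqrt 3 = 3 := Real.mul_self_sqrt (by norm_num)
  have hinv : (Real.sqrt 3)⁻¹ = Real.sqrt 3 / 3 := by
    field_simp
    nlinarith
  set r : ℝ := (Real.sqrt 3)⁻¹ with hr
  have hr0 : 0 < r := inv_pos.mpr h3
  have hrs : Real.sqrt 3 * r = 1 := mul_inv_cancel₀ h3.ne'
  have h3r : 3 * r = Real.sqrt 3 := by rw [hinv]; ring
  cases hw : w.toWord with
  | nil =>
    have hw1 : w = 1 := FreeGroup.toWord_eq_nil_iff.mp hw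
    subst hw1
    simp only [R2_norm_nil]
    simp only [Finset.sum_const, Finset.card_univ, Fintype.card_prod, Fintype.card_fin,
      Fintype.card_bool, FreeGroup.norm_one, pow_one, pow_zero, mul_one, nsmul_eq_mul]
    push_cast
    nlinarith
  | cons hd tl =>
    have hn : FreeGroup.norm w = tl.length + 1 := by
      show w.toWord.length = _
      rw [hw]
      rfl
    simp only [R2_norm_cons _ w hd tl hw]
    have hE : ∀ p : Fin 2 × Bool, r ^ (if p = (hd.1, !hd.2) then tl.length else tl.length + 2) =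
        r ^ (tl.length + 2) + if p = (hd.1, !hd.2) then (r ^ tl.length - r ^ (tl.length + 2))
          else 0 := by
      intro p
      split_ifs <;> ring
    rw [Finset.sum_congr rfl (fun p _ => hE p), Finset.sum_add_distrib, Finset.sum_ite_eq']
    simp only [Finset.sum_const, Finset.card_univ, Fintype.card_prod, Fintype.card_fin,
      Fintype.card_bool, Finset.mem_univ, if_true, nsmul_eq_mul]
    rw [hn]
    push_cast
    have e1 : r ^ (tl.length + 2) = r ^ tl.length * (r * r) := by ring
    have e2 : r ^ (tl.length + 1) = r ^ tl.length * r := by ring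
    have hrr : r * r = 1 / 3 := by
      have : (3 * r) * r = 1 := by rw [h3r]; exact hrs
      linarith
    rw [e1, e2, hrr]
    have e3 : 2 * Real.sqrt 3 * (r ^ tl.length * r) = 2 * r ^ tl.length * (Real.sqrt 3 * r) := by
      ring
    rw [e3, hrs]
    apply le_of_eq
    ring

section action
variable {X : Type} [MulAction F2 X]

/-- the base point of the orbit -/
def R2_base (x : X) : X := Quotient.out (Quotient.mk (MulAction.orbitRel F2 X) x)

theorem R2_base_smul (s : F2) (x : X) : R2_base (s • x) = R2_base x := by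
  unfold R2_base
  congr 1
  apply Quotient.sound
  show MulAction.orbitRel F2 X _ _
  rw [MulAction.orbitRel_apply]
  exact ⟨s, rfl⟩

theorem R2_base_exists (x : X) : ∃ w : F2, w • R2_base x = x := by
  have h : MulAction.orbitRel F2 X (R2_base x) x := Quotient.exact (Quotient.out_eq _)
  rw [MulAction.orbitRel_apply] at h
  obtain ⟨s, hs⟩ := h
  exact ⟨s⁻¹, by rw [← hs]; simp⟩

/-- the terms of the series -/
def R2_F (x : X) (w : F2) : ℝ :=
  if w • R2_base x = x then ((Real.sqrt 3)⁻¹ : ℝ) ^ FreeGroup.norm w else 0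

theorem R2_F_nonneg (x : X) (w : F2) : 0 ≤ R2_F x w := by
  unfold R2_F
  split_ifs
  · positivity
  · exact le_rfl

theorem R2_F_summable (h : ∀ x : X, Summable fun q : {w : F2 // w • x = x} =>
      ((Real.sqrt 3)⁻¹ : ℝ) ^ FreeGroup.norm (q : F2)) (x : X) : Summable (R2_F x) := by
  obtain ⟨w₀, hw₀⟩ := R2_base_exists x
  have h3 : 1 < Real.sqrt 3 := by
    rw [show (1 : ℝ) = Real.sqrt 1 by simp]
    exact Real.sqrt_lt_sqrt (by norm_num) (by norm_num)
  set r : ℝ := (Real.sqrt 3)⁻¹ with hr
  have hr0 : 0 < r := inv_pos.mpr (by linarith)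
  have hr1 : r ≤ 1 := inv_le_one_of_one_le₀ h3.le
  have hb := h (R2_base x)
  have hb' : Summable (Set.indicator {w : F2 | w • R2_base x = R2_base x}
      (fun w => r ^ FreeGroup.norm w)) := summable_subtype_iff_indicator.mp hb
  rw [← (Equiv.mulLeft w₀).summable_iff]
  refine Summable.of_nonneg_of_le (fun q => R2_F_nonneg x _) (fun q => ?_)
    (hb'.mul_left ((r ^ FreeGroup.norm w₀)⁻¹))
  simp only [Function.comp_apply, Equiv.coe_mulLeft]
  unfold R2_F
  by_cases hq : q • R2_base x = R2_base x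
  · have h1 : (w₀ * q) • R2_base x = x := by rw [mul_smul, hq, hw₀]
    rw [if_pos h1, Set.indicator_of_mem (by exact hq)]
    have hn : FreeGroup.norm q ≤ FreeGroup.norm w₀ + FreeGroup.norm (w₀ * q) := by
      calc FreeGroup.norm q = FreeGroup.norm (w₀⁻¹ * (w₀ * q)) := by rw [inv_mul_cancel_left]
        _ ≤ FreeGroup.norm w₀⁻¹ + FreeGroup.norm (w₀ * q) := FreeGroup.norm_mul_le _ _
        _ = _ := by rw [FreeGroup.norm_inv_eq]
    have h2 : r ^ FreeGroup.norm w₀ * r ^ FreeGroup.norm (w₀ * q) ≤ r ^ FreeGroup.norm q := by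
      rw [← pow_add]
      exact pow_le_pow_of_le_one hr0.le hr1 hn
    rw [inv_mul_eq_div, le_div_iff₀ (by positivity), mul_comm]
    exact h2
  · have h1 : ¬ (w₀ * q) • R2_base x = x := by
      rw [mul_smul]
      intro h2
      apply hq
      have := congrArg (fun z => w₀⁻¹ • z) h2
      simp only [inv_smul_smul] at this
      rw [this, ← hw₀]
      simp only [inv_smul_smul]
      rw [hw₀]
    rw [if_neg h1, Set.indicator_of_notMem (by exact hq)]
    simp

/-- the function `g` -/
def R2_g (x : X) : ℝ := ∑' w : F2, R2_F x w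

theorem R2_g_pos (h : ∀ x : X, Summable fun q : {w : F2 // w • x = x} =>
      ((Real.sqrt 3)⁻¹ : ℝ) ^ FreeGroup.norm (q : F2)) (x : X) : 0 < R2_g x := by
  obtain ⟨w₀, hw₀⟩ := R2_base_exists x
  have h3 : 0 < Real.sqrt 3 := Real.sqrt_pos.mpr (by norm_num)
  refine (R2_F_summable h x).tsum_pos (R2_F_nonneg x) w₀ ?_
  unfold R2_F
  rw [if_pos hw₀]
  positivity

theorem R2_g_sum (h : ∀ x : X, Summable fun q : {w : F2 // w • x = x} =>
      ((Real.sqrt 3)⁻¹ : ℝ) ^ FreeGroup.norm (q : F2)) (x : X) :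
    ∑ p : Fin 2 × Bool, R2_g (R2_L p • x) ≤ 2 * Real.sqrt 3 * R2_g x := by
  have h1 : ∀ p : Fin 2 × Bool, R2_g (R2_L p • x) = ∑' w : F2, R2_F (R2_L p • x) (R2_L p * w) := by
    intro p
    unfold R2_g
    exact ((Equiv.mulLeft (R2_L p)).tsum_eq (fun w => R2_F (R2_L p • x) w)).symm
  have h2 : ∀ p : Fin 2 × Bool, Summable fun w : F2 => R2_F (R2_L p • x) (R2_L p * w) := by
    intro p
    exact (Equiv.mulLeft (R2_L p)).summable_iff.mpr (R2_F_summable h (R2_L p • x))
  rw [Finset.sum_congr rfl (fun p _ => h1 p), ← Summable.tsum_finsetSum (fun p _ => h2 p)]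
  unfold R2_g
  rw [← tsum_mul_left]
  refine Summable.tsum_le_tsum (fun w => ?_) (summable_sum (fun p _ => h2 p))
    ((R2_F_summable h x).mul_left _)
  have h3 : ∀ p : Fin 2 × Bool, R2_F (R2_L p • x) (R2_L p * w) =
      if w • R2_base x = x then ((Real.sqrt 3)⁻¹ : ℝ) ^ FreeGroup.norm (R2_L p * w) else 0 := by
    intro p
    unfold R2_F
    rw [R2_base_smul, mul_smul]
    simp only [smul_left_cancel_iff]
  rw [Finset.sum_congr rfl (fun p _ => h3 p)]
  unfold R2_F
  by_cases hx : w • R2_base x = x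
  · simp only [if_pos hx]
    exact R2_letters w
  · simp only [if_neg hx]
    simp

end action

theorem ht_of_summable {X : Type} [MulAction F2 X]
    (h : ∀ x : X, Summable fun q : {w : F2 // w • x = x} =>
      ((Real.sqrt 3)⁻¹ : ℝ) ^ FreeGroup.norm (q : F2)) : Nonempty (Ht F2 X) := by
  have h3 : 0 < Real.sqrt 3 := Real.sqrt_pos.mpr (by norm_num)
  have hsq : Real.sqrt 3 * Real.sqrt 3 = 3 := Real.mul_self_sqrt (by norm_num)
  have h31 : 1 < Real.sqrt 3 := by nlinarith
  have h32 : Real.sqrt 3 < 2 := by nlinarith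
  have hg := R2_g_pos h
  have hsum := R2_g_sum h
  have hone : ∀ (p : Fin 2 × Bool) (x : X), R2_g (R2_L p • x) ≤ 2 * Real.sqrt 3 * R2_g x := by
    intro p x
    refine le_trans ?_ (hsum x)
    exact Finset.single_le_sum (f := fun p => R2_g (R2_L p • x)) (fun q _ => (hg _).le)
      (Finset.mem_univ p)
  have hlog : ∀ (p : Fin 2 × Bool) (x : X),
      Real.log (R2_g (R2_L p • x)) ≤ Real.log (2 * Real.sqrt 3) + Real.log (R2_g x) := by
    intro p x
    rw [← Real.log_mul (by positivity) (hg x).ne']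
    exact Real.log_le_log (hg _) (hone p x)
  have hlog' : ∀ (p : Fin 2 × Bool) (x : X),
      Real.log (R2_g x) ≤ Real.log (2 * Real.sqrt 3) + Real.log (R2_g (R2_L p • x)) := by
    intro p x
    have h1 := hlog (p.1, !p.2) (R2_L p • x)
    rwa [← R2_L_inv, inv_smul_smul] at h1
  refine ⟨{ S := R2_S
            h := fun x => -Real.log (R2_g x)
            H := Real.log (2 * Real.sqrt 3)
            κ := 4 / 5 * Real.log (2 / Real.sqrt 3)
            one_mem := Finset.mem_insert_self _ _
            inv_mem := ?_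
            κ_pos := ?_
            H_nonneg := Real.log_nonneg (by nlinarith)
            lip := ?_
            sub := ?_ }⟩
  · intro s hs
    unfold R2_S at hs ⊢
    rcases Finset.mem_insert.mp hs with rfl | hs
    · simp
    · obtain ⟨p, -, rfl⟩ := Finset.mem_image.mp hs
      rw [R2_L_inv]
      exact Finset.mem_insert_of_mem (Finset.mem_image_of_mem _ (Finset.mem_univ _))
  · have : 0 < Real.log (2 / Real.sqrt 3) := Real.log_pos (by rw [lt_div_iff₀ h3]; linarith)
    positivity
  · intro s hs x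
    unfold R2_S at hs
    rcases Finset.mem_insert.mp hs with rfl | hs
    · simp only [one_smul, sub_self, abs_zero]
      exact Real.log_nonneg (by nlinarith)
    · obtain ⟨p, -, rfl⟩ := Finset.mem_image.mp hs
      have a1 := hlog p x
      have a2 := hlog' p x
      rw [abs_le]
      constructor <;> linarith
  · intro x
    rw [R2_card, R2_sum]
    simp only [one_smul]
    set m : ℝ := Real.sqrt 3 / 2 * R2_g x with hm
    have hm0 : 0 < m := mul_pos (by positivity) (hg x)
    have h1 : ∀ p : Fin 2 × Bool, Real.log (R2_g (R2_L p • x)) ≤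
        Real.log m + (R2_g (R2_L p • x) / m - 1) := by
      intro p
      have h2 := Real.log_le_sub_one_of_pos (div_pos (hg (R2_L p • x)) hm0)
      rw [Real.log_div (hg _).ne' hm0.ne'] at h2
      linarith
    have h2 : ∑ p : Fin 2 × Bool, Real.log (R2_g (R2_L p • x)) ≤
        ∑ p : Fin 2 × Bool, (Real.log m + (R2_g (R2_L p • x) / m - 1)) :=
      Finset.sum_le_sum (fun p _ => h1 p)
    have h3' : ∑ p : Fin 2 × Bool, (Real.log m + (R2_g (R2_L p • x) / m - 1)) =
        4 * Real.log m + ((∑ p : Fin 2 × Bool, R2_g (R2_L p • x)) / m - 4) := by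
      rw [Finset.sum_add_distrib, Finset.sum_sub_distrib, ← Finset.sum_div]
      simp only [Finset.sum_const, Finset.card_univ, Fintype.card_prod, Fintype.card_fin,
        Fintype.card_bool, nsmul_eq_mul]
      norm_num
    have h4 : (∑ p : Fin 2 × Bool, R2_g (R2_L p • x)) / m ≤ 4 := by
      rw [div_le_iff₀ hm0]
      refine (hsum x).trans (le_of_eq ?_)
      rw [hm]
      ring
    have h5 : Real.log m = Real.log (R2_g x) - Real.log (2 / Real.sqrt 3) := by
      rw [hm, Real.log_mul (by positivity) (hg x).ne', Real.log_div h3.ne' (by norm_num),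
        Real.log_div (by norm_num) h3.ne']
      ring
    have h6 : ∑ p : Fin 2 × Bool, -Real.log (R2_g (R2_L p • x)) =
        -∑ p : Fin 2 × Bool, Real.log (R2_g (R2_L p • x)) := by
      rw [Finset.sum_neg_distrib]
    rw [h6]
    push_cast
    linarith

end

end Pool.Agent.Lib.MP_35fb4b_lc.SR
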