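import Pool.Agent.Lib.MP_35fb4b_lc.SR.Defs2
import Pool.Agent.Lib.MP_35fb4b_lc.SR.D1a
import Pool.Agent.Lib.MP_35fb4b_lc.SR.R2

/-! # SR, module N1: the product of two free groups has NoMean -/

set_option autoImplicit false

namespace Pool.Agent.Lib.MP_35fb4b_lc.SR

open scoped Classical

noncomputable section

theorem n1_center {α : Type} (a b : α) (hab : a ≠ b) (w : FreeGroup α)
    (hw : ∀ x : FreeGroup α, x * w = w * x) : w = 1 := by
  by_contra hne
  have hne' : w.toWord ≠ [] := fun h => hne (FreeGroup.toWord_eq_nil_iff.1 h)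
  obtain ⟨p, L, hL⟩ := List.exists_cons_of_ne_nil hne'
  obtain ⟨c, hc⟩ : ∃ c : α, c ≠ p.1 := by
    by_cases h : a = p.1
    · exact ⟨b, fun h' => hab (h.trans h'.symm)⟩
    · exact ⟨a, h⟩
  have hred : FreeGroup.IsReduced w.toWord := FreeGroup.isReduced_toWord
  have h1 : (FreeGroup.of c * w).toWord = (c, true) :: w.toWord := by
    rw [FreeGroup.toWord_mul, FreeGroup.toWord_of]
    apply FreeGroup.IsReduced.reduce_eq
    rw [hL, List.singleton_append, FreeGroup.isReduced_cons_cons]
    rw [hL] at hred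
    exact ⟨fun h => absurd h hc, hred⟩
  have h2 : (w * FreeGroup.of c).toWord.Sublist (w.toWord ++ [(c, true)]) := by
    have h := FreeGroup.toWord_mul_sublist w (FreeGroup.of c)
    rwa [FreeGroup.toWord_of] at h
  have h3 : (w * FreeGroup.of c).toWord = w.toWord ++ [(c, true)] := by
    apply h2.eq_of_length
    rw [← hw, h1]
    simp
  rw [← hw, h1, hL] at h3
  simp only [List.cons_append, List.cons.injEq] at h3
  exact hc (congrArg Prod.fst h3.1)

/-- centralizers in free groups are cyclic -/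
private theorem n1_cyc {G : Type} [Group G] [IsFreeGroup G] (w : G) (hw : w ≠ 1) :
    ∃ z : G, ∀ x : G, x * w = w * x → ∃ n : ℤ, x = z ^ n := by
  let Z : Subgroup G := Subgroup.centralizer {w}
  have hmem : ∀ x : G, x ∈ Z ↔ x * w = w * x := by
    intro x
    rw [Subgroup.mem_centralizer_iff]
    constructor
    · intro h
      exact (h w rfl).symm
    · intro h y hy
      rw [Set.mem_singleton_iff.1 hy]
      exact h.symm
  have hfree : IsFreeGroup Z := subgroupIsFreeOfIsFree Z
  let e : Z ≃* FreeGroup (IsFreeGroup.Generators Z) := IsFreeGroup.toFreeGroup Z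
  let w' : Z := ⟨w, (hmem w).2 rfl⟩
  have hw' : e w' ≠ 1 := by
    intro h
    rw [map_eq_one_iff e e.injective] at h
    exact hw (congrArg Subtype.val h)
  have hc : ∀ x : FreeGroup (IsFreeGroup.Generators Z), x * e w' = e w' * x := by
    intro x
    obtain ⟨y, rfl⟩ := e.surjective x
    rw [← map_mul, ← map_mul]
    congr 1
    exact Subtype.ext ((hmem y.1).1 y.2)
  have hsub : Subsingleton (IsFreeGroup.Generators Z) := by
    constructor
    intro a b
    by_contra hab
    exact hw' (n1_center a b hab _ hc)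
  have hnon : Nonempty (IsFreeGroup.Generators Z) := by
    by_contra hemp
    rw [not_nonempty_iff] at hemp
    exact hw' (Subsingleton.elim _ _)
  obtain ⟨a⟩ := hnon
  refine ⟨(e.symm (FreeGroup.of a)).1, fun x hx => ?_⟩
  have hx' : x ∈ Z := (hmem x).2 hx
  have htop : e ⟨x, hx'⟩ ∈ Subgroup.closure (Set.range (FreeGroup.of : _ →
      FreeGroup (IsFreeGroup.Generators Z))) := by
    rw [FreeGroup.closure_range_of]
    trivial
  have hr : Set.range (FreeGroup.of : _ → FreeGroup (IsFreeGroup.Generators Z)) =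
      {FreeGroup.of a} := by
    ext y
    constructor
    · rintro ⟨b, rfl⟩
      rw [Subsingleton.elim b a]
      rfl
    · intro hy
      exact ⟨a, (Set.mem_singleton_iff.1 hy).symm⟩
  rw [hr, Subgroup.mem_closure_singleton] at htop
  obtain ⟨n, hn⟩ := htop
  refine ⟨n, ?_⟩
  have h := congrArg e.symm hn
  rw [map_zpow, MulEquiv.symm_apply_apply] at h
  have h' := congrArg Subtype.val h
  simpa using h'.symm

/-- a free stabilizer does not meet both factors -/
private theorem n1_factor {X : Type} [MulAction (F2 × F2) X]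
    (hX : ∀ x : X, IsFreeGroup (MulAction.stabilizer (F2 × F2) x)) (x : X) (u v : F2)
    (hu : (u, (1 : F2)) • x = x) (hv : ((1 : F2), v) • x = x) : u = 1 ∨ v = 1 := by
  by_contra hcon
  push Not at hcon
  obtain ⟨hu1, hv1⟩ := hcon
  have := hX x
  let a : MulAction.stabilizer (F2 × F2) x := ⟨(u, 1), hu⟩
  let b : MulAction.stabilizer (F2 × F2) x := ⟨(1, v), hv⟩
  have ha : a ≠ 1 := fun h => hu1 (congrArg (fun s => s.1.1) h)
  have hb : b ≠ 1 := fun h => hv1 (congrArg (fun s => s.1.2) h)
  have hab : b * a = a * b := by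
    apply Subtype.ext
    show ((1 : F2), v) * (u, (1 : F2)) = (u, (1 : F2)) * ((1 : F2), v)
    rw [Prod.mk_mul_mk, Prod.mk_mul_mk, one_mul, one_mul, mul_one, mul_one]
  obtain ⟨z, hz⟩ := n1_cyc a ha
  obtain ⟨i, hi⟩ := hz a rfl
  obtain ⟨j, hj⟩ := hz b hab
  have hj0 : j ≠ 0 := by
    rintro rfl
    rw [zpow_zero] at hj
    exact hb hj
  have h1 : a ^ j = b ^ i := by
    rw [hi, hj, ← zpow_mul, ← zpow_mul, mul_comm]
  have h3 : u ^ j = (1 : F2) ^ i := by
    have h2 : ((a ^ j : MulAction.stabilizer (F2 × F2) x) : F2 × F2).1 =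
        ((b ^ i : MulAction.stabilizer (F2 × F2) x) : F2 × F2).1 := by rw [h1]
    rw [Subgroup.coe_zpow, Subgroup.coe_zpow] at h2
    exact h2
  rw [one_zpow] at h3
  exact hu1 ((IsMulTorsionFree.zpow_eq_one_iff_left hj0).1 h3)

/-- no invariant mean is positive on an invariant set where a free group acts freely -/
private theorem n1_pos {M X : Type} [Group M] [MulAction M X] (ι : F2 →* M) (Y : Set X)
    (hY : ∀ (g : M) (x : X), x ∈ Y → g • x ∈ Y) (hfree : ∀ w : F2, ∀ x ∈ Y, ι w • x = x → w = 1)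
    (m : Set X → ℝ) (m0 : ∀ A, 0 ≤ m A) (madd : ∀ A B, Disjoint A B → m (A ∪ B) = m A + m B)
    (minv : ∀ (g : M) (A : Set X), m ((fun x => g • x) '' A) = m A) (hpos : 0 < m Y) : False := by
  let act : MulAction F2 Y :=
    { smul := fun w y => ⟨ι w • (y : X), hY _ _ y.2⟩
      one_smul := fun y => Subtype.ext (by
        show ι 1 • (y : X) = y
        rw [map_one, one_smul])
      mul_smul := fun v w y => Subtype.ext (by
        show ι (v * w) • (y : X) = ι v • (ι w • (y : X))
        rw [map_mul, mul_smul]) }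
  have hval : ∀ (w : F2) (y : Y), ((w • y : Y) : X) = ι w • (y : X) := fun w y => rfl
  have hmean : HasMean F2 Y := by
    refine ⟨fun A => m (Subtype.val '' A) / m Y, fun A => div_nonneg (m0 _) hpos.le, ?_, ?_, ?_⟩
    · show m (Subtype.val '' (Set.univ : Set Y)) / m Y = 1
      rw [Set.image_univ, Subtype.range_coe, div_self hpos.ne']
    · intro A B hAB
      show m (Subtype.val '' (A ∪ B)) / m Y = m (Subtype.val '' A) / m Y + m (Subtype.val '' B) / m Y
      rw [Set.image_union, madd _ _ ((Set.disjoint_image_iff Subtype.val_injective).2 hAB), add_div]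
    · intro w A
      show m (Subtype.val '' ((fun y : Y => w • y) '' A)) / m Y = m (Subtype.val '' A) / m Y
      have h1 : Subtype.val '' ((fun y : Y => w • y) '' A) =
          (fun x => ι w • x) '' (Subtype.val '' A) := by
        rw [Set.image_image, Set.image_image]
        exact Set.image_congr fun y _ => hval w y
      rw [h1, minv]
  obtain ⟨A⟩ : Nonempty (Ht F2 Y) := by
    refine ht_of_summable fun y => ?_
    have hsub : Subsingleton {w : F2 // w • y = y} := by
      constructor
      rintro ⟨a, ha⟩ ⟨b, hb⟩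
      have ha1 : a = 1 := hfree a y y.2 (by rw [← hval, ha])
      have hb1 : b = 1 := hfree b y y.2 (by rw [← hval, hb])
      exact Subtype.ext (ha1.trans hb1.symm)
    exact summable_of_hasFiniteSupport (Set.toFinite _)
  exact not_hasMean_of_ht A hmean

/-! ### N1 -/
theorem noMean_prod : NoMean (F2 × F2) := by
  intro X _ hX
  rintro ⟨m, m0, m1, madd, minv⟩
  let Y : Set X := {x | ∀ u : F2, (u, (1 : F2)) • x = x → u = 1}
  have hY : ∀ (g : F2 × F2) (x : X), x ∈ Y → g • x ∈ Y := by
    rintro ⟨g, g'⟩ x hx u hu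
    have h1 : (g⁻¹ * u * g, (1 : F2)) • x = x := by
      have h2 : (g⁻¹ * u * g, (1 : F2)) = (g, g')⁻¹ * ((u, 1) * (g, g')) := by
        rw [Prod.inv_mk, Prod.mk_mul_mk, Prod.mk_mul_mk, one_mul, inv_mul_cancel, mul_assoc]
      rw [h2, mul_smul, mul_smul, hu, inv_smul_smul]
    have h3 := hx _ h1
    have h4 : u = g * (g⁻¹ * u * g) * g⁻¹ := by group
    rw [h4, h3, mul_one, mul_inv_cancel]
  have hYc : ∀ (g : F2 × F2) (x : X), x ∈ Yᶜ → g • x ∈ Yᶜ := by
    intro g x hx hgx
    apply hx
    have h1 := hY g⁻¹ _ hgx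
    rwa [inv_smul_smul] at h1
  have hsum : m Y + m Yᶜ = 1 := by
    rw [← madd _ _ disjoint_compl_right, Set.union_compl_self, m1]
  rcases (m0 Y).eq_or_lt with h0 | h0
  · refine n1_pos (MonoidHom.inr F2 F2) Yᶜ hYc ?_ m m0 madd minv (by rw [← h0] at hsum; linarith)
    intro v x hx hv
    have hx' : ¬ ∀ u : F2, (u, (1 : F2)) • x = x → u = 1 := hx
    push Not at hx'
    obtain ⟨u, hu, hu1⟩ := hx'
    rcases n1_factor hX x u v hu hv with h | h
    · exact absurd h hu1
    · exact h
  · exact n1_pos (MonoidHom.inl F2 F2) Y hY (fun u x hx hu => hx u hu) m m0 madd minv h0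

end

end Pool.Agent.Lib.MP_35fb4b_lc.SR
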