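import Pool.Agent.Lib.MP_35fb4b_lc.SR.Defs2
import Pool.Agent.Lib.MP_35fb4b_lc.SR.D1

/-! # SR, module N2: non-amenable groups without free subgroups of rank two -/

set_option autoImplicit false

namespace Pool.Agent.Lib.MP_35fb4b_lc.SR

open scoped Classical Pointwise
open Filter Topology

noncomputable section

/-- a limit along a free ultrafilter -/
theorem N2_lim : ∃ L : (ℕ → ℝ) → ℝ, ∀ f : ℕ → ℝ, (∀ n, 0 ≤ f n ∧ f n ≤ 1) →
    Tendsto f (hyperfilter ℕ : Filter ℕ) (𝓝 (L f)) := by
  have h : ∀ f : ℕ → ℝ, ∃ a : ℝ, (∀ n, 0 ≤ f n ∧ f n ≤ 1) →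
      Tendsto f (hyperfilter ℕ : Filter ℕ) (𝓝 a) := by
    intro f
    by_cases hf : ∀ n, 0 ≤ f n ∧ f n ≤ 1
    · obtain ⟨a, -, ha⟩ := (isCompact_Icc (a := (0 : ℝ)) (b := 1)).ultrafilter_le_nhds
        ((hyperfilter ℕ).map f) (by
          rw [le_principal_iff]
          show f ⁻¹' Set.Icc (0 : ℝ) 1 ∈ (hyperfilter ℕ : Filter ℕ)
          exact Filter.univ_mem' (fun n => ⟨(hf n).1, (hf n).2⟩))
      exact ⟨a, fun _ => ha⟩
    · exact ⟨0, fun h => absurd h hf⟩
  choose L hL using h
  exact ⟨L, hL⟩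

/-- averages along the powers of an element -/
def N2_av {M : Type} [Group M] (c : M) (A : Set M) (n : ℕ) : ℝ :=
  (∑ k ∈ Finset.range (n + 1), if c ^ k ∈ A then (1 : ℝ) else 0) / (n + 1)

theorem N2_av_bd {M : Type} [Group M] (c : M) (A : Set M) (n : ℕ) :
    0 ≤ N2_av c A n ∧ N2_av c A n ≤ 1 := by
  unfold N2_av
  constructor
  · refine div_nonneg (Finset.sum_nonneg fun k _ => ?_) (by positivity)
    split_ifs <;> norm_num
  · rw [div_le_one (by positivity)]
    refine (Finset.sum_le_sum (g := fun _ => (1 : ℝ)) fun k _ => ?_).trans ?_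
    · split_ifs <;> norm_num
    · simp

theorem N2_av_univ {M : Type} [Group M] (c : M) (n : ℕ) : N2_av c Set.univ n = 1 := by
  unfold N2_av
  rw [div_eq_one_iff_eq (by positivity)]
  simp

theorem N2_av_add {M : Type} [Group M] (c : M) (A B : Set M) (hAB : Disjoint A B) (n : ℕ) :
    N2_av c (A ∪ B) n = N2_av c A n + N2_av c B n := by
  unfold N2_av
  rw [← add_div, ← Finset.sum_add_distrib]
  congr 1
  refine Finset.sum_congr rfl fun k _ => ?_
  by_cases hA : c ^ k ∈ A
  · have hB : c ^ k ∉ B := Set.disjoint_left.1 hAB hA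
    simp [hA, hB]
  · by_cases hB : c ^ k ∈ B
    · simp [hA, hB]
    · simp [hA, hB]

theorem N2_av_smul {M : Type} [Group M] (c : M) (A : Set M) (n : ℕ) :
    |N2_av c ((fun x => c * x) '' A) n - N2_av c A n| ≤ 1 / (n + 1) := by
  unfold N2_av
  rw [← sub_div, abs_div, abs_of_pos (show (0 : ℝ) < n + 1 by positivity)]
  refine div_le_div_of_nonneg_right ?_ (by positivity)
  have h1 : ∀ k, (c ^ (k + 1) ∈ (fun x => c * x) '' A) ↔ c ^ k ∈ A := by
    intro k
    constructor
    · rintro ⟨x, hx, hxc⟩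
      have : x = c ^ k := by
        have h2 : c * x = c * c ^ k := by rw [← pow_succ']; exact hxc
        exact mul_left_cancel h2
      rwa [← this]
    · intro h
      exact ⟨c ^ k, h, (pow_succ' c k).symm⟩
  rw [Finset.sum_range_succ', Finset.sum_range_succ]
  simp only [h1]
  have h3 : ∀ (s a b : ℝ), s + a - (s + b) = a - b := fun s a b => by ring
  rw [h3]
  split_ifs <;> norm_num

/-- the mean on the powers of an element -/
theorem N2_cyc {M : Type} [Group M] : ∃ ν : M → Set M → ℝ, (∀ c A, 0 ≤ ν c A) ∧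
    (∀ c A, ν c A ≤ 1) ∧ (∀ c, ν c Set.univ = 1) ∧
    (∀ c A B, Disjoint A B → ν c (A ∪ B) = ν c A + ν c B) ∧
    ∀ c, ∀ s ∈ Subgroup.zpowers c, ∀ A, ν c ((fun x => s * x) '' A) = ν c A := by
  obtain ⟨L, hL⟩ := N2_lim
  have hne : NeBot (hyperfilter ℕ : Filter ℕ) := inferInstance
  have hle : (hyperfilter ℕ : Filter ℕ) ≤ atTop := Nat.hyperfilter_le_atTop
  have ht : ∀ (c : M) (A : Set M), Tendsto (N2_av c A) (hyperfilter ℕ : Filter ℕ)
      (𝓝 (L (N2_av c A))) := fun c A => hL _ (N2_av_bd c A)
  have hinv : ∀ (c : M) (A : Set M), L (N2_av c ((fun x => c * x) '' A)) = L (N2_av c A) := by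
    intro c A
    have h1 : Tendsto (fun n => N2_av c ((fun x => c * x) '' A) n - N2_av c A n)
        (hyperfilter ℕ : Filter ℕ) (𝓝 0) := by
      have h2 : Tendsto (fun n : ℕ => 1 / ((n : ℝ) + 1)) (hyperfilter ℕ : Filter ℕ) (𝓝 0) :=
        tendsto_one_div_add_atTop_nhds_zero_nat.mono_left hle
      exact squeeze_zero_norm (fun n => by rw [Real.norm_eq_abs]; exact N2_av_smul c A n) h2
    have h3 := (ht c ((fun x => c * x) '' A)).sub (ht c A)
    have h4 := tendsto_nhds_unique h3 h1
    linarith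
  refine ⟨fun c A => L (N2_av c A), ?_, ?_, ?_, ?_, ?_⟩
  · exact fun c A => ge_of_tendsto' (ht c A) fun n => (N2_av_bd c A n).1
  · exact fun c A => le_of_tendsto' (ht c A) fun n => (N2_av_bd c A n).2
  · intro c
    have h1 : Tendsto (N2_av c Set.univ) (hyperfilter ℕ : Filter ℕ) (𝓝 1) := by
      refine tendsto_const_nhds.congr fun n => (N2_av_univ c n).symm
    exact tendsto_nhds_unique (ht c Set.univ) h1
  · intro c A B hAB
    refine tendsto_nhds_unique (ht c (A ∪ B)) (((ht c A).add (ht c B)).congr fun n => ?_)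
    exact (N2_av_add c A B hAB n).symm
  · intro c s hs A
    obtain ⟨k, rfl⟩ := hs
    simp only
    have hcomp : ∀ (a b : M) (B : Set M), (fun x => a * x) '' ((fun x => b * x) '' B) =
        (fun x => (a * b) * x) '' B := by
      intro a b B
      rw [Set.image_image]
      simp only [mul_assoc]
    induction k using Int.induction_on generalizing A with
    | zero => simp
    | succ k ih =>
      rw [add_comm, zpow_add, zpow_one, ← hcomp, hinv, ih]
    | pred k ih =>
      have h1 : c * (c ^ (-(k : ℤ) - 1)) = c ^ (-(k : ℤ)) := by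
        rw [← zpow_one_add]; congr 1; ring
      rw [← hinv c, hcomp, h1, ih]

/-- the universal countable set with cyclic stabilizers -/
abbrev N2_Y (M : Type) [Group M] : Type := Σ c : M, M ⧸ Subgroup.zpowers c

theorem N2_main {M : Type} [Group M] [Countable M] (h : HasMean M (N2_Y M)) : HasMean M M := by
  obtain ⟨ν, hν0, hν1, hνu, hνa, hνi⟩ := N2_cyc (M := M)
  have hq : ∀ c : M, Countable (M ⧸ Subgroup.zpowers c) := fun c =>
    (QuotientGroup.mk_surjective (s := Subgroup.zpowers c)).countable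
  have hYc : Countable (N2_Y M) := inferInstance
  obtain ⟨e, he⟩ := exists_surjective_nat M
  have hδ : ∀ n : ℕ, (0 : ℝ) < 1 / ((n : ℝ) + 1) := fun n => by positivity
  choose C p hp0 hpC hp1 hpi using fun n : ℕ =>
    almost_invariant h ((Finset.range (n + 1)).image e) (1 / ((n : ℝ) + 1)) (hδ n)
  obtain ⟨L, hL⟩ := N2_lim
  have hle : (hyperfilter ℕ : Filter ℕ) ≤ atTop := Nat.hyperfilter_le_atTop
  -- the field of means
  obtain ⟨μ, hμ⟩ : ∃ μ : N2_Y M → Set M → ℝ, ∀ y A, μ y A =
      ν y.1 ((fun x => (Quotient.out y.2 : M)⁻¹ * x) '' A) := ⟨_, fun _ _ => rfl⟩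
  have hμ0 : ∀ y A, 0 ≤ μ y A := fun y A => by rw [hμ]; exact hν0 _ _
  have hμ1 : ∀ y A, μ y A ≤ 1 := fun y A => by rw [hμ]; exact hν1 _ _
  have hμu : ∀ y, μ y Set.univ = 1 := by
    intro y
    rw [hμ, Set.image_univ_of_surjective (mul_left_surjective _), hνu]
  have hμa : ∀ y A B, Disjoint A B → μ y (A ∪ B) = μ y A + μ y B := by
    intro y A B hAB
    rw [hμ, hμ, hμ, Set.image_union, hνa]
    exact (Set.disjoint_image_iff (mul_right_injective _)).2 hAB
  have hμi : ∀ (g : M) (y : N2_Y M) (A : Set M), μ (g • y) ((fun x => g * x) '' A) = μ y A := by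
    rintro g ⟨c, q⟩ A
    rw [hμ, hμ]
    show ν c ((fun x => (Quotient.out (g • q) : M)⁻¹ * x) '' ((fun x => g * x) '' A)) =
      ν c ((fun x => (Quotient.out q : M)⁻¹ * x) '' A)
    have h1 : (Quotient.out (g • q) : M)⁻¹ * (g * Quotient.out q) ∈ Subgroup.zpowers c := by
      rw [← QuotientGroup.eq, QuotientGroup.out_eq']
      conv_lhs => rw [← QuotientGroup.out_eq' q]
      rfl
    have h2 := hνi c _ h1 ((fun x => (Quotient.out q : M)⁻¹ * x) '' A)
    rw [← h2, Set.image_image, Set.image_image]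
    congr 1
    refine Set.image_congr fun x _ => ?_
    group
  -- the approximations
  obtain ⟨w, hw⟩ : ∃ w : Set M → ℕ → ℝ, ∀ A n, w A n = ∑ y ∈ C n, p n y * μ y A :=
    ⟨_, fun _ _ => rfl⟩
  have hwb : ∀ A n, 0 ≤ w A n ∧ w A n ≤ 1 := by
    intro A n
    rw [hw]
    constructor
    · exact Finset.sum_nonneg fun y _ => mul_nonneg (hp0 n y) (hμ0 y A)
    · rw [← hp1 n]
      refine Finset.sum_le_sum fun y _ => ?_
      have h1 := hp0 n y
      have h2 := hμ1 y A
      nlinarith
  have ht : ∀ A, Tendsto (w A) (hyperfilter ℕ : Filter ℕ) (𝓝 (L (w A))) := fun A => hL _ (hwb A)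
  refine ⟨fun A => L (w A), ?_, ?_, ?_, ?_⟩
  · exact fun A => ge_of_tendsto' (ht A) fun n => (hwb A n).1
  · have h1 : Tendsto (w Set.univ) (hyperfilter ℕ : Filter ℕ) (𝓝 1) := by
      refine tendsto_const_nhds.congr fun n => ?_
      rw [hw, ← hp1 n]
      refine Finset.sum_congr rfl fun y _ => ?_
      rw [hμu, mul_one]
    exact tendsto_nhds_unique (ht Set.univ) h1
  · intro A B hAB
    refine tendsto_nhds_unique (ht (A ∪ B)) (((ht A).add (ht B)).congr fun n => ?_)
    rw [hw, hw, hw, ← Finset.sum_add_distrib]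
    refine Finset.sum_congr rfl fun y _ => ?_
    rw [hμa y A B hAB, mul_add]
  · intro g A
    have hdiff : ∀ᶠ n : ℕ in atTop, ‖w ((fun x => g • x) '' A) n - w A n‖ ≤
        1 / ((n : ℝ) + 1) := by
      obtain ⟨k, hk⟩ := he g
      filter_upwards [eventually_ge_atTop k] with n hn
      have hg : g ∈ (Finset.range (n + 1)).image e :=
        Finset.mem_image.2 ⟨k, Finset.mem_range.2 (by omega), hk⟩
      -- sums over a large finite set
      set T : Finset (N2_Y M) := C n ∪ (C n).image (fun y => g⁻¹ • y) with hT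
      have hTC : C n ⊆ T := Finset.subset_union_left
      have e1 : w A n = ∑ y ∈ T, p n y * μ y A := by
        rw [hw]
        refine Finset.sum_subset hTC fun y _ hy => ?_
        rw [hpC n y hy, zero_mul]
      have e2 : w ((fun x => g • x) '' A) n = ∑ y ∈ T, p n (g • y) * μ y A := by
        have h1 : w ((fun x => g • x) '' A) n =
            ∑ y ∈ T.image (fun y => g • y), p n y * μ y ((fun x => g • x) '' A) := by
          rw [hw]
          refine Finset.sum_subset ?_ fun y _ hy => ?_
          · intro y hy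
            refine Finset.mem_image.2 ⟨g⁻¹ • y, ?_, smul_inv_smul g y⟩
            exact Finset.mem_union_right _ (Finset.mem_image_of_mem _ hy)
          · rw [hpC n y hy, zero_mul]
        rw [h1, Finset.sum_image (fun a _ b _ hab => MulAction.injective g hab)]
        refine Finset.sum_congr rfl fun y _ => ?_
        congr 1
        exact hμi g y A
      rw [e1, e2, ← Finset.sum_sub_distrib, Real.norm_eq_abs]
      refine (Finset.abs_sum_le_sum_abs _ _).trans ?_
      refine le_trans (Finset.sum_le_sum fun y _ => ?_) (hpi n g hg T)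
      rw [← sub_mul, abs_mul, abs_of_nonneg (hμ0 y A)]
      have h1 := hμ1 y A
      have h2 := abs_nonneg (p n (g • y) - p n y)
      nlinarith
    have h1 : Tendsto (fun n => w ((fun x => g • x) '' A) n - w A n)
        (hyperfilter ℕ : Filter ℕ) (𝓝 0) := by
      refine Tendsto.mono_left ?_ hle
      exact squeeze_zero_norm' hdiff tendsto_one_div_add_atTop_nhds_zero_nat
    have h3 := (ht ((fun x => g • x) '' A)).sub (ht A)
    have h4 := tendsto_nhds_unique h3 h1
    show L (w ((fun x => g • x) '' A)) = L (w A)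
    linarith

/-- an action with cyclic stabilizers maps to the universal one -/
theorem N2_map {M X : Type} [Group M] [MulAction M X]
    (hc : ∀ x : X, ∃ c : M, MulAction.stabilizer M x = Subgroup.zpowers c) :
    ∃ f : X → N2_Y M, ∀ (g : M) (x : X), f (g • x) = g • f x := by
  have hrep : ∀ x : X, ∃ g : M, g • (Quotient.out (Quotient.mk (MulAction.orbitRel M X) x)) = x := by
    intro x
    have h : MulAction.orbitRel M X (Quotient.out (Quotient.mk (MulAction.orbitRel M X) x)) x :=
      Quotient.exact (Quotient.out_eq _)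
    rw [MulAction.orbitRel_apply] at h
    obtain ⟨s, hs⟩ := h
    exact ⟨s⁻¹, by rw [← hs]; simp⟩
  choose g hg using hrep
  choose c hc using hc
  set b : X → X := fun x => Quotient.out (Quotient.mk (MulAction.orbitRel M X) x) with hb
  have hbs : ∀ (s : M) (x : X), b (s • x) = b x := by
    intro s x
    simp only [hb]
    congr 1
    apply Quotient.sound
    show MulAction.orbitRel M X _ _
    rw [MulAction.orbitRel_apply]
    exact ⟨s, rfl⟩
  refine ⟨fun x => ⟨c (b x), (g x : M ⧸ Subgroup.zpowers (c (b x)))⟩, fun s x => ?_⟩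
  have key : ∀ (y : X), y = b x → (⟨c y, (g (s • x) : M ⧸ Subgroup.zpowers (c y))⟩ : N2_Y M) =
      ⟨c (b x), ((s * g x : M) : M ⧸ Subgroup.zpowers (c (b x)))⟩ := by
    rintro y rfl
    congr 1
    rw [QuotientGroup.eq, ← hc]
    rw [MulAction.mem_stabilizer_iff, mul_smul, mul_smul]
    have h1 : g x • b x = x := hg x
    have h2 : g (s • x) • b (s • x) = s • x := hg (s • x)
    rw [hbs] at h2
    rw [h1, inv_smul_eq_iff]
    exact h2.symm
  exact key (b (s • x)) (hbs s x)

/-- free groups without free subgroups of rank two are cyclic -/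
theorem N2_cyclic {M : Type} [Group M] (hF : ∀ φ : F2 →* M, ¬ Function.Injective φ)
    (H : Subgroup M) (hH : IsFreeGroup H) : ∃ c : M, H = Subgroup.zpowers c := by
  have hsub : ∀ a b : IsFreeGroup.Generators H, a = b := by
    intro a b
    by_contra hab
    let i : Fin 2 → IsFreeGroup.Generators H := ![a, b]
    have hi : Function.Injective i := by
      intro j k hjk
      fin_cases j <;> fin_cases k
      · rfl
      · exact absurd hjk hab
      · exact absurd hjk.symm hab
      · rfl
    apply hF (H.subtype.comp ((IsFreeGroup.mulEquiv H).toMonoidHom.comp (FreeGroup.map i)))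
    have h1 : Function.Injective (FreeGroup.map i) := FreeGroup.map_injective hi
    exact H.subtype_injective.comp ((IsFreeGroup.mulEquiv H).injective.comp h1)
  by_cases hne : Nonempty (IsFreeGroup.Generators H)
  · obtain ⟨a⟩ := hne
    set z : H := IsFreeGroup.mulEquiv H (FreeGroup.of a) with hz
    refine ⟨z, le_antisymm ?_ ?_⟩
    · intro x hx
      have h1 : ∀ w : FreeGroup (IsFreeGroup.Generators H),
          IsFreeGroup.mulEquiv H w ∈ Subgroup.zpowers z := by
        intro w
        induction w using FreeGroup.induction_on with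
        | C1 => rw [map_one]; exact one_mem _
        | of b => rw [hsub b a]; exact Subgroup.mem_zpowers z
        | inv_of b _ =>
          rw [hsub b a, map_inv]
          exact inv_mem (Subgroup.mem_zpowers z)
        | mul u v hu hv => rw [map_mul]; exact mul_mem hu hv
      have h2 := h1 ((IsFreeGroup.mulEquiv H).symm ⟨x, hx⟩)
      rw [MulEquiv.apply_symm_apply] at h2
      obtain ⟨k, hk⟩ := h2
      refine ⟨k, ?_⟩
      have h3 := congrArg Subtype.val hk
      simpa using h3
    · rw [Subgroup.zpowers_le]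
      exact z.2
  · refine ⟨1, ?_⟩
    rw [Subgroup.zpowers_one_eq_bot, eq_bot_iff]
    intro x hx
    rw [Subgroup.mem_bot]
    have h1 : ∀ w : FreeGroup (IsFreeGroup.Generators H), w = 1 := by
      intro w
      induction w using FreeGroup.induction_on with
      | C1 => rfl
      | of b => exact absurd ⟨b⟩ hne
      | inv_of b _ => exact absurd ⟨b⟩ hne
      | mul u v hu hv => rw [hu, hv, one_mul]
    have h2 := congrArg (IsFreeGroup.mulEquiv H) (h1 ((IsFreeGroup.mulEquiv H).symm ⟨x, hx⟩))
    rw [MulEquiv.apply_symm_apply, map_one] at h2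
    exact congrArg Subtype.val h2

/-! ### N2 -/
theorem noMean_of_no_free {M : Type} [Group M] [Countable M] (hM : ¬ HasMean M M)
    (hF : ∀ φ : F2 →* M, ¬ Function.Injective φ) : NoMean M := by
  intro X _ hfree hX
  obtain ⟨f, hf⟩ := N2_map (M := M) (X := X) (fun x => N2_cyclic hF _ (hfree x))
  apply hM
  apply N2_main
  obtain ⟨m, m0, m1, madd, minv⟩ := hX
  refine ⟨fun A => m (f ⁻¹' A), fun A => m0 _, ?_, ?_, ?_⟩
  · show m (f ⁻¹' Set.univ) = 1
    rw [Set.preimage_univ]
    exact m1
  · intro A B hAB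
    show m (f ⁻¹' (A ∪ B)) = m (f ⁻¹' A) + m (f ⁻¹' B)
    rw [Set.preimage_union]
    exact madd _ _ (hAB.preimage f)
  · intro g A
    show m (f ⁻¹' ((fun x => g • x) '' A)) = m (f ⁻¹' A)
    rw [← minv g (f ⁻¹' A)]
    congr 1
    ext x
    simp only [Set.mem_preimage, Set.mem_image]
    constructor
    · rintro ⟨y, hy, hyx⟩
      refine ⟨g⁻¹ • x, ?_, smul_inv_smul g x⟩
      rw [hf, ← hyx, inv_smul_smul]
      exact hy
    · rintro ⟨y, hy, rfl⟩
      exact ⟨f y, hy, (hf g y).symm⟩

end

end Pool.Agent.Lib.MP_35fb4b_lc.SR
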