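import Pool.Agent.Lib.MP_35fb4b_lc.SR.Defs2

/-!
# Subgroups that prevent free subgroups from being co-amenable (MP_35fb4b_lc): N3 and N4

N3: if `M` has `NoMean`, then no free subgroup of rank 2 is co-amenable: the stabilizers in `M` of the cosets embed in `F2`, so
they are free (Nielsen-Schreier). N4: groups all of whose actions with invariant means have finite orbits, and which are not
virtually free, have `NoMean`.
-/

set_option autoImplicit false

namespace Pool.Agent.Lib.MP_35fb4b_lc.SR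

theorem n34_free_of_inj {G : Type} [Group G] (f : G →* F2) (hf : Function.Injective f) :
    IsFreeGroup G :=
  IsFreeGroup.ofMulEquiv (MonoidHom.ofInjective hf).symm

theorem n34_stab {Γ : Type} [Group Γ] (M : Subgroup Γ) (φ : F2 →* Γ) (hφ : Function.Injective φ)
    (x : Γ ⧸ φ.range) : IsFreeGroup (MulAction.stabilizer M x) := by
  obtain ⟨γ, rfl⟩ := QuotientGroup.mk_surjective x
  have h1 : ∀ m : MulAction.stabilizer M ((γ : Γ) : Γ ⧸ φ.range),
      γ⁻¹ * ((m : M) : Γ) * γ ∈ φ.range := by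
    intro m
    have h2 : (m : M) • ((γ : Γ) : Γ ⧸ φ.range) = (γ : Γ) := m.2
    change ((((m : M) : Γ) * γ : Γ) : Γ ⧸ φ.range) = _ at h2
    rw [QuotientGroup.eq] at h2
    rw [← inv_mem_iff]
    simpa [mul_assoc] using h2
  let ψ : MulAction.stabilizer M ((γ : Γ) : Γ ⧸ φ.range) →* φ.range :=
    { toFun := fun m => ⟨γ⁻¹ * ((m : M) : Γ) * γ, h1 m⟩
      map_one' := by
        apply Subtype.ext
        simp
      map_mul' := fun a b => by
        apply Subtype.ext
        simp [mul_assoc] }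
  have hψ : Function.Injective ψ := by
    intro a b hab
    have h2 : γ⁻¹ * ((a : M) : Γ) * γ = γ⁻¹ * ((b : M) : Γ) * γ := congrArg Subtype.val hab
    have h3 : ((a : M) : Γ) = ((b : M) : Γ) := by
      have h4 := mul_right_cancel h2
      exact mul_left_cancel h4
    exact Subtype.ext (Subtype.ext h3)
  exact n34_free_of_inj ((MonoidHom.ofInjective hφ).symm.toMonoidHom.comp ψ)
    ((MonoidHom.ofInjective hφ).symm.injective.comp hψ)

/-! ### N3 -/
theorem not_hasMean_of_noMean {Γ : Type} [Group Γ] (M : Subgroup Γ) (hM : NoMean M)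
    (φ : F2 →* Γ) (hφ : Function.Injective φ) : ¬ HasMean Γ (Γ ⧸ φ.range) := by
  rintro ⟨m, h0, h1, h2, h3⟩
  exact hM (Γ ⧸ φ.range) (n34_stab M φ hφ) ⟨m, h0, h1, h2, fun γ A => h3 (γ : Γ) A⟩

/-! ### N4 -/
theorem noMean_of_finite_orbits {M : Type} [Group M]
    (hFM : ∀ (X : Type) [MulAction M X], HasMean M X → ∃ x : X, (MulAction.orbit M x).Finite)
    (hvf : ∀ N : Subgroup M, N.FiniteIndex → ¬ IsFreeGroup N) : NoMean M := by
  intro X _ hst hm
  obtain ⟨x, hx⟩ := hFM X hm
  refine hvf (MulAction.stabilizer M x) ⟨?_⟩ (hst x)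
  rw [MulAction.index_stabilizer]
  exact (Set.ncard_pos hx).2 (MulAction.nonempty_orbit x) |>.ne'

end Pool.Agent.Lib.MP_35fb4b_lc.SR
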