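import Pool.Agent.Lib.MP_35fb4b_lc.SR.R4
import Pool.Agent.Lib.MP_35fb4b_lc.SR.N1
import Pool.Agent.Lib.MP_35fb4b_lc.SR.N2
import Pool.Agent.Lib.MP_35fb4b_lc.SR.N34

/-!
# Subgroups that prevent free subgroups from being co-amenable (MP_35fb4b_lc): transfer
-/

set_option autoImplicit false

namespace Pool.Agent.Lib.MP_35fb4b_lc.SR

theorem noMean_congr {M M' : Type} [Group M] [Group M'] (e : M ≃* M') (h : NoMean M) :
    NoMean M' := by
  intro X _ hst hm
  let act : MulAction M X := MulAction.compHom X e.toMonoidHom
  have hact : ∀ (m : M) (x : X), m • x = e.toMonoidHom m • x := fun _ _ => rfl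
  refine h X (fun x => ?_) (r4_restrict e.toMonoidHom hact hm)
  have := hst x
  let f : MulAction.stabilizer M' x ≃* MulAction.stabilizer M x :=
    { toFun := fun g => ⟨e.symm g.1, by
        have h1 : (g : M') • x = x := MulAction.mem_stabilizer_iff.1 g.2
        rw [MulAction.mem_stabilizer_iff, hact]
        simpa using h1⟩
      invFun := fun g => ⟨e g.1, by
        have h1 : (g : M) • x = x := MulAction.mem_stabilizer_iff.1 g.2
        rw [hact] at h1
        rw [MulAction.mem_stabilizer_iff]
        simpa using h1⟩
      left_inv := fun g => by ext; simp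
      right_inv := fun g => by ext; simp
      map_mul' := fun g g' => by ext; simp }
  exact IsFreeGroup.ofMulEquiv f

theorem noMean_range {Γ : Type} [Group Γ] (φ : F2 × F2 →* Γ) (hφ : Function.Injective φ) :
    NoMean φ.range :=
  noMean_congr (MonoidHom.ofInjective hφ) noMean_prod

end Pool.Agent.Lib.MP_35fb4b_lc.SR
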