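import Pool.Agent.Lib.MP_35fb4b_lc.SR.N5

/-!
# Quotients (MP_35fb4b_lc)
-/

set_option autoImplicit false

namespace Pool.Agent.Lib.MP_35fb4b_lc.SR

/-- means can be pushed forward along equivariant maps -/
theorem push_mean {G Q X Y : Type} [Group G] [Group Q] [MulAction G X] [MulAction Q Y]
    (π : G →* Q) (hπ : Function.Surjective π) (f : X → Y)
    (hf : ∀ (g : G) (x : X), f (g • x) = π g • f x) (h : HasMean G X) : HasMean Q Y := by
  obtain ⟨m, m0, m1, madd, minv⟩ := h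
  refine ⟨fun A => m (f ⁻¹' A), fun A => m0 _, ?_, ?_, ?_⟩
  · show m (f ⁻¹' Set.univ) = 1
    rw [Set.preimage_univ]
    exact m1
  · intro A B hAB
    show m (f ⁻¹' (A ∪ B)) = m (f ⁻¹' A) + m (f ⁻¹' B)
    rw [Set.preimage_union]
    exact madd _ _ (hAB.preimage f)
  · intro q A
    obtain ⟨g, rfl⟩ := hπ q
    show m (f ⁻¹' ((fun x => π g • x) '' A)) = m (f ⁻¹' A)
    rw [← minv g (f ⁻¹' A)]
    congr 1
    ext x
    simp only [Set.mem_preimage, Set.mem_image]
    constructor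
    · rintro ⟨y, hy, hyx⟩
      refine ⟨g⁻¹ • x, ?_, smul_inv_smul g x⟩
      rw [hf, ← hyx, map_inv, inv_smul_smul]
      exact hy
    · rintro ⟨y, hy, rfl⟩
      exact ⟨f y, hy, (hf g y).symm⟩

/-- the image of a co-amenable subgroup is co-amenable -/
theorem push_coset {G Q : Type} [Group G] [Group Q] (π : G →* Q) (hπ : Function.Surjective π)
    (H : Subgroup G) (L : Subgroup Q) (hHL : ∀ g ∈ H, π g ∈ L) (h : HasMean G (G ⧸ H)) :
    HasMean Q (Q ⧸ L) := by
  have hf : ∀ a b : G, QuotientGroup.leftRel H a b →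
      ((π a : Q) : Q ⧸ L) = ((π b : Q) : Q ⧸ L) := by
    intro a b hab
    rw [QuotientGroup.leftRel_apply] at hab
    rw [QuotientGroup.eq, ← map_inv, ← map_mul]
    exact hHL _ hab
  let f : G ⧸ H → Q ⧸ L := Quotient.lift (fun a => ((π a : Q) : Q ⧸ L)) hf
  refine push_mean π hπ f ?_ h
  intro g x
  obtain ⟨γ, rfl⟩ := QuotientGroup.mk_surjective x
  show ((π (g * γ) : Q) : Q ⧸ L) = ((π g * π γ : Q) : Q ⧸ L)
  rw [map_mul]

/-- a group in which the trivial subgroup is co-amenable is amenable -/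
theorem mean_of_bot {Q : Type} [Group Q] (L : Subgroup Q) (hL : L = ⊥) (h : HasMean Q (Q ⧸ L)) :
    HasMean Q Q := by
  subst hL
  refine push_mean (MonoidHom.id Q) Function.surjective_id
    (QuotientGroup.quotientBot : Q ⧸ (⊥ : Subgroup Q) ≃* Q) ?_ h
  intro g x
  obtain ⟨γ, rfl⟩ := QuotientGroup.mk_surjective x
  rfl

/-- nontrivial normal subgroups of the free group of rank 2 contain the free group of rank 2 -/
theorem normal_contains (K : Subgroup F2) [hK : K.Normal] (hne : K ≠ ⊥) :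
    ∃ φ : F2 →* F2, Function.Injective φ ∧ ∀ w, φ w ∈ K := by
  by_contra hcon
  push Not at hcon
  have hF : ∀ φ : F2 →* K, ¬ Function.Injective φ := by
    intro φ hφ
    obtain ⟨w, hw⟩ := hcon (K.subtype.comp φ) (K.subtype_injective.comp hφ)
    exact hw (φ w).2
  have hfree : IsFreeGroup K := subgroupIsFreeOfIsFree K
  have hfree2 : IsFreeGroup (⊤ : Subgroup K) := IsFreeGroup.ofMulEquiv Subgroup.topEquiv.symm
  obtain ⟨c, hc⟩ := N2_cyclic hF ⊤ hfree2
  have hgen : ∀ k : F2, k ∈ K → ∃ n : ℤ, k = (c : F2) ^ n := by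
    intro k hk
    have h1 : (⟨k, hk⟩ : K) ∈ Subgroup.zpowers c := by
      rw [← hc]
      trivial
    obtain ⟨n, hn⟩ := h1
    refine ⟨n, ?_⟩
    have h2 := congrArg Subtype.val hn
    simpa using h2.symm
  have hc1 : (c : F2) ≠ 1 := by
    intro h1
    apply hne
    rw [eq_bot_iff]
    intro k hk
    obtain ⟨n, hn⟩ := hgen k hk
    rw [Subgroup.mem_bot, hn, h1, one_zpow]
  -- every square commutes with `c`
  have hsq : ∀ x : F2, (x ^ 2) * c = c * x ^ 2 := by
    intro x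
    obtain ⟨n, hn⟩ := hgen (x * c * x⁻¹) (hK.conj_mem _ c.2 x)
    obtain ⟨m, hm⟩ := hgen (x⁻¹ * c * x⁻¹⁻¹) (hK.conj_mem _ c.2 x⁻¹)
    have h1 : (c : F2) ^ (n * m) = c := by
      rw [zpow_mul, ← hn, conj_zpow, ← hm]
      group
    have h2 : n * m = 1 := by
      by_contra h3
      have h4 : (c : F2) ^ (n * m - 1) = 1 ^ (n * m - 1) := by
        rw [zpow_sub_one, h1, mul_inv_cancel, one_zpow]
      exact hc1 (zpow_left_injective (sub_ne_zero.2 h3) h4)
    have h3 : n * n = 1 := by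
      rcases Int.eq_one_or_neg_one_of_mul_eq_one h2 with h | h <;> rw [h] <;> norm_num
    have h4 : x * (x * c * x⁻¹) * x⁻¹ = c := by
      calc x * (x * c * x⁻¹) * x⁻¹ = x * (c : F2) ^ n * x⁻¹ := by rw [hn]
        _ = (x * c * x⁻¹) ^ n := by rw [conj_zpow]
        _ = (c : F2) ^ (n * n) := by rw [hn, zpow_mul]
        _ = c := by rw [h3, zpow_one]
    calc x ^ 2 * c = (x * (x * c * x⁻¹) * x⁻¹) * x ^ 2 := by simp [pow_two, mul_assoc]
      _ = c * x ^ 2 := by rw [h4]
  have hcomm : ∀ x : F2, x * (c : F2) = c * x := by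
    intro x
    have h1 : ((c : F2) * x * (c : F2)⁻¹) ^ 2 = x ^ 2 := by
      rw [conj_pow, ← hsq, mul_assoc, mul_inv_cancel, mul_one]
    have h2 : (c : F2) * x * (c : F2)⁻¹ = x := pow_left_injective two_ne_zero h1
    calc x * (c : F2) = ((c : F2) * x * (c : F2)⁻¹) * c := by rw [h2]
      _ = c * x := by group
  exact hc1 (n1_center 0 1 (by decide) _ hcomm)

/-- if the quotient has no free subgroup of rank 2, the kernel has one -/
theorem exists_in_ker {G Q : Type} [Group G] [Group Q] (π : G →* Q) (φ : F2 →* G)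
    (hφ : Function.Injective φ) (hπφ : ¬ Function.Injective (π.comp φ)) :
    ∃ ψ : F2 →* G, Function.Injective ψ ∧ ∀ w, π (ψ w) = 1 := by
  have hne : (π.comp φ).ker ≠ ⊥ := fun h => hπφ ((MonoidHom.ker_eq_bot_iff _).1 h)
  obtain ⟨θ, hθ, hθ2⟩ := normal_contains (π.comp φ).ker hne
  exact ⟨φ.comp θ, hφ.comp hθ, fun w => hθ2 w⟩

/-- free subgroups of quotients lift -/
theorem exists_lift {G Q : Type} [Group G] [Group Q] (π : G →* Q) (hπ : Function.Surjective π)
    (φ : F2 →* Q) : ∃ ψ : F2 →* G, ∀ w, π (ψ w) = φ w := by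
  choose s hs using hπ
  refine ⟨FreeGroup.lift fun i => s (φ (FreeGroup.of i)), fun w => ?_⟩
  have : π.comp (FreeGroup.lift fun i => s (φ (FreeGroup.of i))) = φ := by
    ext i
    simp [hs]
  exact DFunLike.congr_fun this w

end Pool.Agent.Lib.MP_35fb4b_lc.SR
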