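import Pool.Agent.Lib.MP_35fb4b_lc.SR.R1

set_option autoImplicit false

namespace Pool.Agent.Lib.MP_35fb4b_lc.SR

open scoped Classical

noncomputable section

/-- the endomorphism `a ↦ a^N`, `b ↦ b^N` -/
def powHom (N : ℕ) : F2 →* F2 := FreeGroup.lift fun i => FreeGroup.of i ^ N

private lemma R3_mk_cons (x : Fin 2 × Bool) (L : List (Fin 2 × Bool)) :
    (FreeGroup.mk (x :: L) : F2) = FreeGroup.mk [x] * FreeGroup.mk L := by
  rw [FreeGroup.mul_mk]; rfl

private lemma R3_mk_true (i : Fin 2) : (FreeGroup.mk [(i, true)] : F2) = FreeGroup.of i := rfl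

private lemma R3_mk_false (i : Fin 2) : (FreeGroup.mk [(i, false)] : F2) = (FreeGroup.of i)⁻¹ := rfl

private lemma R3_mk_replicate (N : ℕ) (x : Fin 2 × Bool) :
    (FreeGroup.mk (List.replicate N x) : F2) = (FreeGroup.mk [x]) ^ N := by
  induction N with
  | zero => rfl
  | succ n ih => rw [List.replicate_succ, R3_mk_cons, ih, pow_succ']

private lemma R3_mk (N : ℕ) (L : List (Fin 2 × Bool)) :
    powHom N (FreeGroup.mk L) = FreeGroup.mk ((L.map (List.replicate N)).flatten) := by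
  induction L with
  | nil => exact map_one (powHom N)
  | cons x L ih =>
    have h1 : powHom N (FreeGroup.mk [x]) = FreeGroup.mk (List.replicate N x) := by
      rw [R3_mk_replicate]
      obtain ⟨i, b⟩ := x
      cases b
      · rw [R3_mk_false, map_inv, inv_pow]
        simp [powHom]
      · rw [R3_mk_true]
        simp [powHom]
    rw [R3_mk_cons, map_mul, ih, h1, FreeGroup.mul_mk, List.map_cons, List.flatten_cons]

theorem norm_powHom (N : ℕ) (w : F2) :
    FreeGroup.norm (powHom N w) = N * FreeGroup.norm w := by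
  have h1 : powHom N w = FreeGroup.mk (((w.toWord).map (List.replicate N)).flatten) := by
    conv_lhs => rw [← FreeGroup.mk_toWord (x := w)]
    rw [R3_mk]
  rcases Nat.eq_zero_or_pos N with rfl | hN
  · have h2 : FreeGroup.norm (powHom 0 w) ≤ 0 := by
      rw [h1]
      refine FreeGroup.norm_mk_le.trans ?_
      rw [List.length_flatten]
      simp [List.map_map, Function.comp_def]
    rw [Nat.zero_mul]
    exact Nat.le_zero.1 h2
  · have h2 : FreeGroup.IsReduced (((w.toWord).map (List.replicate N)).flatten) := by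
      rw [FreeGroup.IsReduced, List.isChain_flatten (by
        intro h
        rw [List.mem_map] at h
        obtain ⟨x, -, hx⟩ := h
        have := congrArg List.length hx
        simp at this
        omega)]
      constructor
      · intro l hl
        rw [List.mem_map] at hl
        obtain ⟨x, -, rfl⟩ := hl
        apply List.isChain_replicate_of_rel
        intro _
        rfl
      · rw [List.isChain_map]
        have hw : FreeGroup.IsReduced w.toWord := FreeGroup.isReduced_toWord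
        rw [FreeGroup.IsReduced] at hw
        refine hw.imp ?_
        intro a b hab x hx y hy
        have hx' : x ∈ List.replicate N a := List.mem_of_mem_getLast? hx
        have hy' : y ∈ List.replicate N b := List.mem_of_mem_head? hy
        rw [List.mem_replicate] at hx' hy'
        rw [hx'.2, hy'.2]
        exact hab
    rw [h1, FreeGroup.norm, FreeGroup.toWord_mk, h2.reduce_eq, List.length_flatten]
    simp [FreeGroup.norm, List.map_map, Function.comp_def, mul_comm]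

theorem powHom_injective (N : ℕ) (hN : 1 ≤ N) : Function.Injective (powHom N) := by
  rw [injective_iff_map_eq_one]
  intro w hw
  have h1 := norm_powHom N w
  rw [hw, FreeGroup.norm_one] at h1
  have h2 : FreeGroup.norm w = 0 := by
    rcases Nat.mul_eq_zero.1 h1.symm with h | h
    · omega
    · exact h
  exact FreeGroup.norm_eq_zero.1 h2

private def R3_code (r : ℕ) (w : F2) : Fin r → Option (Fin 2 × Bool) := fun i => w.toWord[(i : ℕ)]?

private lemma R3_code_inj (r : ℕ) : Set.InjOn (R3_code r) {w : F2 | FreeGroup.norm w ≤ r} := by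
  intro w hw w' hw' h
  apply FreeGroup.toWord_injective
  apply List.ext_getElem?
  intro i
  by_cases hi : i < r
  · exact congrFun h ⟨i, hi⟩
  · have h1 : w.toWord.length ≤ i := le_trans hw (not_lt.1 hi)
    have h2 : w'.toWord.length ≤ i := le_trans hw' (not_lt.1 hi)
    rw [List.getElem?_eq_none h1, List.getElem?_eq_none h2]

private lemma R3_ball (r : ℕ) (S : Finset F2) (hS : ∀ x ∈ S, FreeGroup.norm x ≤ r) :
    S.card ≤ 5 ^ r := by
  have h := Finset.card_le_card_of_injOn (s := S) (t := (Finset.univ : Finset (Fin r → Option (Fin 2 × Bool))))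
    (R3_code r) (by intro x _; simp) ((R3_code_inj r).mono hS)
  refine h.trans ?_
  simp

private lemma R3_ball_fin (r : ℕ) : {w : F2 | FreeGroup.norm w ≤ r}.Finite := by
  apply Set.Finite.of_finite_image _ (R3_code_inj r)
  exact Set.toFinite _

private lemma R3_pow_norm (v : F2) (k : ℕ) : FreeGroup.norm (v ^ k) ≤ k * FreeGroup.norm v := by
  induction k with
  | zero => simp
  | succ k ih =>
    rw [pow_succ, Nat.succ_mul]
    exact (FreeGroup.norm_mul_le _ _).trans (by omega)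

private lemma R3_up {Γ : Type} [Group Γ] (ℓ : Γ → ℝ) (hmul : ∀ g h, ℓ (g * h) ≤ ℓ g + ℓ h)
    (hinv : ∀ g, ℓ g⁻¹ = ℓ g) (φ : F2 →* Γ) :
    ∃ C1 : ℝ, 1 ≤ C1 ∧ ∀ w : F2, ℓ (φ w) ≤ C1 * FreeGroup.norm w + ℓ 1 := by
  set C1 : ℝ := max 1 (max (ℓ (φ (FreeGroup.of 0))) (ℓ (φ (FreeGroup.of 1)))) with hC1
  have hgen : ∀ i : Fin 2, ℓ (φ (FreeGroup.of i)) ≤ C1 := by
    intro i
    fin_cases i
    · exact (le_max_left _ _).trans (le_max_right _ _)
    · exact (le_max_right _ _).trans (le_max_right _ _)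
  have hlet : ∀ x : Fin 2 × Bool, ℓ (φ (FreeGroup.mk [x])) ≤ C1 := by
    rintro ⟨i, b⟩
    cases b
    · rw [R3_mk_false, map_inv, hinv]
      exact hgen i
    · rw [R3_mk_true]
      exact hgen i
  have hlist : ∀ L : List (Fin 2 × Bool), ℓ (φ (FreeGroup.mk L)) ≤ C1 * L.length + ℓ 1 := by
    intro L
    induction L with
    | nil =>
      have : (FreeGroup.mk [] : F2) = 1 := rfl
      rw [this, map_one]
      simp
    | cons x L ih =>
      rw [R3_mk_cons, map_mul]
      have h1 := hmul (φ (FreeGroup.mk [x])) (φ (FreeGroup.mk L))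
      have h2 := hlet x
      rw [List.length_cons]
      push_cast
      linarith
  refine ⟨C1, le_max_left _ _, ?_⟩
  intro w
  have := hlist w.toWord
  rw [FreeGroup.mk_toWord] at this
  exact this

private lemma R3_core {Γ : Type} [Group Γ] (ℓ : Γ → ℝ) (hmul : ∀ g h, ℓ (g * h) ≤ ℓ g + ℓ h)
    (hinv : ∀ g, ℓ g⁻¹ = ℓ g) (φ : F2 →* Γ) (c C : ℝ)
    (hφ : ∀ w : F2, c * FreeGroup.norm w - C ≤ ℓ (φ w)) (C1 : ℝ) (hC1 : 1 ≤ C1)
    (hup : ∀ w : F2, ℓ (φ w) ≤ C1 * FreeGroup.norm w + ℓ 1) (N : ℕ) (hN : 8 * C1 ≤ c * N)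
    (γ : Γ) (v x : F2) (hx : φ (powHom N x) = γ⁻¹ * φ v * γ) (n : ℕ)
    (hv : FreeGroup.norm v ≤ n) (g : F2)
    (hcyc : ∀ k : ℕ, FreeGroup.norm ((g⁻¹ * x * g) ^ k) = k * FreeGroup.norm (g⁻¹ * x * g)) :
    8 * FreeGroup.norm (g⁻¹ * x * g) ≤ n := by
  set P : Γ := φ (powHom N g) with hP
  set D : ℝ := 2 * ℓ P + 2 * ℓ γ + ℓ 1 with hD
  have hk : ∀ k : ℕ, (k : ℝ) * (c * N * FreeGroup.norm (g⁻¹ * x * g) - C1 * n) ≤ D + C := by
    intro k
    have e1 : (g⁻¹ * x * g) ^ k = g⁻¹ * x ^ k * g := by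
      have := conj_pow (i := k) (a := g⁻¹) (b := x)
      rw [inv_inv] at this
      exact this
    have e2 : (γ⁻¹ * φ v * γ) ^ k = γ⁻¹ * (φ v) ^ k * γ := by
      have := conj_pow (i := k) (a := γ⁻¹) (b := φ v)
      rw [inv_inv] at this
      exact this
    have e3 : φ (powHom N ((g⁻¹ * x * g) ^ k)) = P⁻¹ * (γ⁻¹ * φ (v ^ k) * γ) * P := by
      rw [e1, map_mul, map_mul, map_mul, map_mul, map_inv, map_inv, map_pow, map_pow, hx, e2,
        map_pow]
    have h1 := hφ (powHom N ((g⁻¹ * x * g) ^ k))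
    rw [norm_powHom, hcyc k, e3] at h1
    have h2 := hmul (P⁻¹ * (γ⁻¹ * φ (v ^ k) * γ)) P
    have h3 := hmul P⁻¹ (γ⁻¹ * φ (v ^ k) * γ)
    have h4 := hmul (γ⁻¹ * φ (v ^ k)) γ
    have h5 := hmul γ⁻¹ (φ (v ^ k))
    rw [hinv] at h3 h5
    have h6 := hup (v ^ k)
    have h7 : (FreeGroup.norm (v ^ k) : ℝ) ≤ k * n := by
      have : FreeGroup.norm (v ^ k) ≤ k * n :=
        (R3_pow_norm v k).trans (Nat.mul_le_mul_left k hv)
      exact_mod_cast this
    have h8 : C1 * (FreeGroup.norm (v ^ k) : ℝ) ≤ C1 * (k * n) :=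
      mul_le_mul_of_nonneg_left h7 (by linarith)
    push_cast at h1
    have h9 : (k : ℝ) * (c * N * FreeGroup.norm (g⁻¹ * x * g) - C1 * n) =
        c * (N * (k * FreeGroup.norm (g⁻¹ * x * g))) - C1 * (k * n) := by ring
    rw [h9, hD]
    linarith
  have h0 : c * N * FreeGroup.norm (g⁻¹ * x * g) - C1 * n ≤ 0 := by
    by_contra hpos
    push Not at hpos
    obtain ⟨k, hk'⟩ := exists_nat_gt ((D + C) / (c * N * FreeGroup.norm (g⁻¹ * x * g) - C1 * n))
    rw [div_lt_iff₀ hpos] at hk'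
    have := hk k
    linarith
  have h1 : 8 * C1 * (FreeGroup.norm (g⁻¹ * x * g) : ℝ) ≤ c * N * FreeGroup.norm (g⁻¹ * x * g) :=
    mul_le_mul_of_nonneg_right hN (Nat.cast_nonneg _)
  have h2 : C1 * (8 * (FreeGroup.norm (g⁻¹ * x * g) : ℝ)) ≤ C1 * n := by linarith
  have h3 : 8 * (FreeGroup.norm (g⁻¹ * x * g) : ℝ) ≤ n := le_of_mul_le_mul_left h2 (by linarith)
  exact_mod_cast h3

theorem R3_inj {Γ : Type} [Group Γ] (ℓ : Γ → ℝ) (φ : F2 →* Γ) (c C : ℝ) (hc : 0 < c)
    (hφ : ∀ w : F2, c * FreeGroup.norm w - C ≤ ℓ (φ w)) : Function.Injective φ := by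
  rw [injective_iff_map_eq_one]
  intro w hw
  by_contra hne
  obtain ⟨r, hr⟩ := exists_nat_ge ((ℓ 1 + C) / c)
  have hinj : Function.Injective (fun k : ℕ => w ^ k) := 
    injective_pow_iff_not_isOfFinOrder.2 (not_isOfFinOrder_of_isMulTorsionFree hne)
  have hsub : Set.range (fun k : ℕ => w ^ k) ⊆ {w : F2 | FreeGroup.norm w ≤ r} := by
    rintro _ ⟨k, rfl⟩
    have h1 := hφ (w ^ k)
    rw [map_pow, hw, one_pow] at h1
    have h2 : (FreeGroup.norm (w ^ k) : ℝ) ≤ (ℓ 1 + C) / c := by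
      rw [le_div_iff₀ hc]
      linarith
    have h3 : (FreeGroup.norm (w ^ k) : ℝ) ≤ r := h2.trans hr
    have h4 : FreeGroup.norm (w ^ k) ≤ r := by exact_mod_cast h3
    exact h4
  exact (Set.infinite_range_of_injective hinj) ((R3_ball_fin r).subset hsub)

private lemma R3_count {Γ : Type} [Group Γ] (ℓ : Γ → ℝ) (hmul : ∀ g h, ℓ (g * h) ≤ ℓ g + ℓ h)
    (hinv : ∀ g, ℓ g⁻¹ = ℓ g) (φ : F2 →* Γ) (c C : ℝ) (hc : 0 < c)
    (hφ : ∀ w : F2, c * FreeGroup.norm w - C ≤ ℓ (φ w)) (C1 : ℝ) (hC1 : 1 ≤ C1)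
    (hup : ∀ w : F2, ℓ (φ w) ≤ C1 * FreeGroup.norm w + ℓ 1) (N : ℕ) (hN : 8 * C1 ≤ c * N)
    (γ : Γ) (n : ℕ) (T : Finset F2) (hT : ∀ w ∈ T, FreeGroup.norm w ≤ n)
    (hT' : ∀ w ∈ T, γ⁻¹ * φ w * γ ∈ (φ.comp (powHom N)).range) :
    T.card ≤ 5 ^ (n / 8 + 3) := by
  have hex : ∀ w : F2, ∃ x : F2, w ∈ T → φ (powHom N x) = γ⁻¹ * φ w * γ := by
    intro w
    by_cases hw : w ∈ T
    · obtain ⟨x, hx⟩ := hT' w hw
      exact ⟨x, fun _ => hx⟩
    · exact ⟨1, fun h => absurd h hw⟩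
  choose u hu using hex
  have hinj : Set.InjOn u T := by
    intro w hw w' hw' h
    have h1 := hu w hw
    have h2 := hu w' hw'
    rw [h, h2] at h1
    have h3 : φ w' = φ w := by
      have := mul_right_cancel h1
      exact mul_left_cancel this
    exact (R3_inj ℓ φ c C hc hφ h3).symm
  obtain ⟨g, hg⟩ := helly (T.image u) (n / 8 + 1)
    (by
      intro x hx g hcyc
      rw [Finset.mem_image] at hx
      obtain ⟨w, hw, rfl⟩ := hx
      have := R3_core ℓ hmul hinv φ c C hφ C1 hC1 hup N hN γ w (u w) (hu w hw) n (hT w hw) g hcyc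
      omega)
    (by
      intro x hx y hy g hcyc
      rw [Finset.mem_image] at hx hy
      obtain ⟨w, hw, rfl⟩ := hx
      obtain ⟨w', hw', rfl⟩ := hy
      have e : φ (powHom N (u w * u w')) = γ⁻¹ * φ (w * w') * γ := by
        rw [map_mul, map_mul, hu w hw, hu w' hw', map_mul]
        group
      have := R3_core ℓ hmul hinv φ c C hφ C1 hC1 hup N hN γ (w * w') (u w * u w') e (2 * n)
        ((FreeGroup.norm_mul_le _ _).trans (by have := hT w hw; have := hT w' hw'; omega)) g hcyc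
      omega)
  have h1 : ((T.image u).image (fun x => g⁻¹ * x * g)).card = T.card := by
    rw [Finset.card_image_of_injective _ (by
      intro x y hxy
      exact mul_left_cancel (mul_right_cancel hxy)), Finset.card_image_of_injOn hinj]
  rw [← h1]
  apply R3_ball
  intro x hx
  rw [Finset.mem_image] at hx
  obtain ⟨y, hy, rfl⟩ := hx
  exact hg y hy

private lemma R3_sqrt : (Real.sqrt 3)⁻¹ ≤ 3 / 5 := by
  have h1 : (5 / 3 : ℝ) ≤ Real.sqrt 3 := by
    apply Real.le_sqrt_of_sq_le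
    norm_num
  calc (Real.sqrt 3)⁻¹ ≤ (5 / 3 : ℝ)⁻¹ := inv_anti₀ (by norm_num) h1
    _ = 3 / 5 := by norm_num

private lemma R3_five (n : ℕ) : (5 : ℝ) ^ (n / 8 + 3) ≤ 125 * (5 / 4) ^ n := by
  have h1 : (5 : ℝ) ^ (n / 8) ≤ (5 / 4) ^ n := by
    calc (5 : ℝ) ^ (n / 8) ≤ ((5 / 4 : ℝ) ^ 8) ^ (n / 8) :=
          pow_le_pow_left₀ (by norm_num) (by norm_num) _
      _ = (5 / 4 : ℝ) ^ (8 * (n / 8)) := by rw [pow_mul]
      _ ≤ (5 / 4) ^ n := pow_le_pow_right₀ (by norm_num) (Nat.mul_div_le n 8)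
  rw [pow_add]
  nlinarith

theorem summable_stab {Γ : Type} [Group Γ] (ℓ : Γ → ℝ) (hmul : ∀ g h, ℓ (g * h) ≤ ℓ g + ℓ h)
    (hinv : ∀ g, ℓ g⁻¹ = ℓ g) (φ : F2 →* Γ) (c C : ℝ) (hc : 0 < c)
    (hφ : ∀ w : F2, c * FreeGroup.norm w - C ≤ ℓ (φ w)) :
    ∃ N : ℕ, 1 ≤ N ∧ ∀ γ : Γ, Summable fun q : {w : F2 // γ⁻¹ * φ w * γ ∈
      (φ.comp (powHom N)).range} => ((Real.sqrt 3)⁻¹ : ℝ) ^ FreeGroup.norm (q : F2) := by
  obtain ⟨C1, hC1, hup⟩ := R3_up ℓ hmul hinv φ
  obtain ⟨N, hN⟩ := exists_nat_ge (8 * C1 / c)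
  have hN' : 8 * C1 ≤ c * N := by
    rw [div_le_iff₀ hc] at hN
    linarith
  have hN1 : 1 ≤ N := by
    rcases Nat.eq_zero_or_pos N with h | h
    · rw [h] at hN'
      simp at hN'
      linarith
    · exact h
  refine ⟨N, hN1, ?_⟩
  intro γ
  have hs0 : 0 ≤ (Real.sqrt 3)⁻¹ := inv_nonneg.2 (Real.sqrt_nonneg 3)
  apply summable_of_sum_le (c := 500)
  · intro q
    exact pow_nonneg hs0 _
  · intro T
    set M : ℕ := T.sup (fun q => FreeGroup.norm (q : F2)) with hM
    have hmaps : ∀ q ∈ T, FreeGroup.norm (q : F2) ∈ Finset.range (M + 1) := by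
      intro q hq
      rw [Finset.mem_range, Nat.lt_succ_iff, hM]
      exact Finset.le_sup (f := fun q : {w : F2 // γ⁻¹ * φ w * γ ∈
        (φ.comp (powHom N)).range} => FreeGroup.norm (q : F2)) hq
    rw [← Finset.sum_fiberwise_of_maps_to hmaps]
    have hterm : ∀ n ∈ Finset.range (M + 1),
        (∑ q ∈ T.filter (fun q => FreeGroup.norm q.1 = n),
          ((Real.sqrt 3)⁻¹ : ℝ) ^ FreeGroup.norm q.1) ≤ 125 * (3 / 4 : ℝ) ^ n := by
      intro n _
      have e1 : (∑ q ∈ T.filter (fun q => FreeGroup.norm q.1 = n),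
          ((Real.sqrt 3)⁻¹ : ℝ) ^ FreeGroup.norm q.1) =
          ∑ q ∈ T.filter (fun q => FreeGroup.norm q.1 = n), ((Real.sqrt 3)⁻¹ : ℝ) ^ n := by
        apply Finset.sum_congr rfl
        intro q hq
        rw [(Finset.mem_filter.1 hq).2]
      rw [e1, Finset.sum_const, nsmul_eq_mul]
      have hcard : (T.filter (fun q => FreeGroup.norm q.1 = n)).card ≤ 5 ^ (n / 8 + 3) := by
        have h2 : ((T.filter (fun q => FreeGroup.norm q.1 = n)).image
            (fun q => q.1)).card =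
            (T.filter (fun q => FreeGroup.norm q.1 = n)).card :=
          Finset.card_image_of_injective _ Subtype.val_injective
        rw [← h2]
        apply R3_count ℓ hmul hinv φ c C hc hφ C1 hC1 hup N hN' γ n
        · intro w hw
          rw [Finset.mem_image] at hw
          obtain ⟨q, hq, rfl⟩ := hw
          exact (Finset.mem_filter.1 hq).2.le
        · intro w hw
          rw [Finset.mem_image] at hw
          obtain ⟨q, hq, rfl⟩ := hw
          exact q.2
      have h3 : ((T.filter (fun q => FreeGroup.norm q.1 = n)).card : ℝ) ≤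
          125 * (5 / 4) ^ n := by
        have : ((T.filter (fun q => FreeGroup.norm q.1 = n)).card : ℝ) ≤
            (5 : ℝ) ^ (n / 8 + 3) := by exact_mod_cast hcard
        exact this.trans (R3_five n)
      have h4 : ((Real.sqrt 3)⁻¹ : ℝ) ^ n ≤ (3 / 5) ^ n := pow_le_pow_left₀ hs0 R3_sqrt n
      calc ((T.filter (fun q => FreeGroup.norm q.1 = n)).card : ℝ) *
            ((Real.sqrt 3)⁻¹ : ℝ) ^ n
          ≤ (125 * (5 / 4) ^ n) * (3 / 5) ^ n :=
            mul_le_mul h3 h4 (pow_nonneg hs0 n) (by positivity)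
        _ = 125 * (3 / 4 : ℝ) ^ n := by
            rw [mul_assoc, ← mul_pow]
            norm_num
    refine (Finset.sum_le_sum hterm).trans ?_
    rw [← Finset.mul_sum]
    have hgeo : ∑ n ∈ Finset.range (M + 1), (3 / 4 : ℝ) ^ n ≤ 4 := by
      have h5 := (summable_geometric_of_lt_one (r := (3 / 4 : ℝ)) (by norm_num)
        (by norm_num)).sum_le_tsum (Finset.range (M + 1)) (fun i _ => by positivity)
      rw [tsum_geometric_of_lt_one (by norm_num) (by norm_num)] at h5
      norm_num at h5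
      linarith
    linarith

end

end Pool.Agent.Lib.MP_35fb4b_lc.SR
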