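import Pool.Agent.Lib.MP_35fb4b_lc.SR.D1a
import Pool.Agent.Lib.MP_35fb4b_lc.SR.R2
import Pool.Agent.Lib.MP_35fb4b_lc.SR.R3

/-!
# Undistorted free subgroups (MP_35fb4b_lc): a non-co-amenable free subgroup
-/

set_option autoImplicit false

namespace Pool.Agent.Lib.MP_35fb4b_lc.SR

open scoped Classical

noncomputable section

/-- restriction of an invariant mean to a group mapping to the given one -/
theorem r4_restrict {Γ G X : Type} [Group Γ] [Group G] [MulAction Γ X] [MulAction G X]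
    (φ : G →* Γ) (hφ : ∀ (g : G) (x : X), g • x = φ g • x) (h : HasMean Γ X) : HasMean G X := by
  obtain ⟨m, h0, h1, h2, h3⟩ := h
  refine ⟨m, h0, h1, h2, fun g A => ?_⟩
  have h4 : (fun x : X => g • x) '' A = (fun x : X => φ g • x) '' A := by
    congr 1
    funext x
    exact hφ g x
  rw [h4, h3]

theorem not_coamenable {Γ : Type} [Group Γ] (ℓ : Γ → ℝ) (hmul : ∀ g h, ℓ (g * h) ≤ ℓ g + ℓ h)
    (hinv : ∀ g, ℓ g⁻¹ = ℓ g) (φ : F2 →* Γ) (c C : ℝ) (hc : 0 < c)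
    (hφ : ∀ w : F2, c * FreeGroup.norm w - C ≤ ℓ (φ w)) :
    ∃ ψ : F2 →* Γ, Function.Injective ψ ∧ ¬ HasMean Γ (Γ ⧸ ψ.range) := by
  obtain ⟨N, hN, hs⟩ := summable_stab ℓ hmul hinv φ c C hc hφ
  have hinj := R3_inj ℓ φ c C hc hφ
  refine ⟨φ.comp (powHom N), hinj.comp (powHom_injective N hN), fun hm => ?_⟩
  let act2 : MulAction F2 (Γ ⧸ (φ.comp (powHom N)).range) := MulAction.compHom _ φ
  have hact : ∀ (w : F2) (x : Γ ⧸ (φ.comp (powHom N)).range), w • x = φ w • x := fun w x => rfl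
  have hm2 : HasMean F2 (Γ ⧸ (φ.comp (powHom N)).range) := r4_restrict φ hact hm
  obtain ⟨A⟩ := ht_of_summable (X := Γ ⧸ (φ.comp (powHom N)).range) (by
    intro x
    obtain ⟨γ, rfl⟩ := QuotientGroup.mk_surjective x
    have h1 : ∀ w : F2, w • ((γ : Γ) : Γ ⧸ (φ.comp (powHom N)).range) = (γ : Γ) ↔
        γ⁻¹ * φ w * γ ∈ (φ.comp (powHom N)).range := by
      intro w
      rw [hact, ← inv_mem_iff (x := γ⁻¹ * φ w * γ)]
      change ((φ w * γ : Γ) : Γ ⧸ (φ.comp (powHom N)).range) = _ ↔ _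
      rw [QuotientGroup.eq]
      simp only [mul_inv_rev, inv_inv, mul_assoc]
    have h2 := hs γ
    let e : {w : F2 // w • ((γ : Γ) : Γ ⧸ (φ.comp (powHom N)).range) = (γ : Γ)} ≃
        {w : F2 // γ⁻¹ * φ w * γ ∈ (φ.comp (powHom N)).range} :=
      Equiv.subtypeEquivRight h1
    exact (e.summable_iff (f := fun q : {w : F2 // γ⁻¹ * φ w * γ ∈
      (φ.comp (powHom N)).range} => ((Real.sqrt 3)⁻¹ : ℝ) ^ FreeGroup.norm (q : F2))).2 h2)
  exact not_hasMean_of_ht A hm2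

end

end Pool.Agent.Lib.MP_35fb4b_lc.SR
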