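import Pool.Agent.Lib.MP_35fb4b_lc.SR.N6
import Pool.Agent.Lib.MP_35fb4b_lc.SR.R4

/-!
# Co-amenability and subgroups of finite index (MP_35fb4b_lc)
-/

set_option autoImplicit false

namespace Pool.Agent.Lib.MP_35fb4b_lc.SR

open scoped Classical

noncomputable section

/-- invariance of a mean in terms of preimages -/
theorem p1_pre {Γ X : Type} [Group Γ] [MulAction Γ X] {m : Set X → ℝ}
    (h : ∀ (γ : Γ) (A : Set X), m ((fun x => γ • x) '' A) = m A) (γ : Γ) (A : Set X) :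
    m {x | γ • x ∈ A} = m A := by
  have h1 : {x : X | γ • x ∈ A} = (fun x => γ⁻¹ • x) '' A := by
    ext x
    constructor
    · intro hx
      exact ⟨γ • x, hx, inv_smul_smul γ x⟩
    · rintro ⟨y, hy, rfl⟩
      show γ • γ⁻¹ • y ∈ A
      rwa [smul_inv_smul]
  rw [h1, h]

theorem p1_img {Γ X : Type} [Group Γ] [MulAction Γ X] {m : Set X → ℝ}
    (h : ∀ (γ : Γ) (A : Set X), m {x | γ • x ∈ A} = m A) (γ : Γ) (A : Set X) :
    m ((fun x => γ • x) '' A) = m A := by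
  have h1 : (fun x => γ • x) '' A = {x : X | γ⁻¹ • x ∈ A} := by
    ext x
    constructor
    · rintro ⟨y, hy, rfl⟩
      show γ⁻¹ • γ • y ∈ A
      rwa [inv_smul_smul]
    · intro hx
      exact ⟨γ⁻¹ • x, hx, smul_inv_smul γ x⟩
  rw [h1, h]

/-- a finitely additive measure is additive on finite disjoint families -/
theorem p1_sum {X ι : Type} {m : Set X → ℝ}
    (h2 : ∀ A B, Disjoint A B → m (A ∪ B) = m A + m B) (f : X → ι) (s : Finset ι) (A : Set X) :
    m {x | x ∈ A ∧ f x ∈ s} = ∑ i ∈ s, m {x | x ∈ A ∧ f x = i} := by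
  have hempty : m ∅ = 0 := by
    have := h2 ∅ ∅ (by simp)
    rw [Set.union_empty] at this
    linarith
  induction s using Finset.induction_on with
  | empty =>
    have : {x : X | x ∈ A ∧ f x ∈ (∅ : Finset ι)} = ∅ := by
      ext x
      simp
    rw [this, hempty, Finset.sum_empty]
  | insert i s hi ih =>
    have : {x : X | x ∈ A ∧ f x ∈ insert i s} = {x | x ∈ A ∧ f x = i} ∪ {x | x ∈ A ∧ f x ∈ s} := by
      ext x
      simp only [Set.mem_ofPred_eq, Finset.mem_insert, Set.mem_union]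
      tauto
    rw [this, h2 _ _ ?_, Finset.sum_insert hi, ih]
    rw [Set.disjoint_left]
    rintro x ⟨_, h3⟩ ⟨_, h4⟩
    rw [h3] at h4
    exact hi h4

section index
variable {Γ : Type} [Group Γ] (Δ : Subgroup Γ)

/-- the map of coset spaces -/
def p1_j (L : Subgroup Δ) : (Δ ⧸ L) → (Γ ⧸ L.map Δ.subtype) :=
  Quotient.map' (fun δ : Δ => (δ : Γ)) (by
    intro a b hab
    rw [QuotientGroup.leftRel_apply] at hab ⊢
    exact ⟨a⁻¹ * b, hab, rfl⟩)

theorem p1_j_mk (L : Subgroup Δ) (δ : Δ) :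
    p1_j Δ L (δ : Δ ⧸ L) = ((δ : Γ) : Γ ⧸ L.map Δ.subtype) := rfl

theorem p1_j_smul (L : Subgroup Δ) (δ : Δ) (x : Δ ⧸ L) :
    p1_j Δ L (δ • x) = (δ : Γ) • p1_j Δ L x := by
  obtain ⟨y, rfl⟩ := QuotientGroup.mk_surjective x
  rfl

theorem p1_j_inj (L : Subgroup Δ) : Function.Injective (p1_j Δ L) := by
  intro x y h
  obtain ⟨a, rfl⟩ := QuotientGroup.mk_surjective x
  obtain ⟨b, rfl⟩ := QuotientGroup.mk_surjective y
  rw [p1_j_mk, p1_j_mk, QuotientGroup.eq] at h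
  obtain ⟨c, hc, hc2⟩ := h
  rw [QuotientGroup.eq]
  have : c = a⁻¹ * b := Subtype.ext hc2
  rwa [← this]

/-- the projection to the cosets of `Δ` -/
def p1_p (L : Subgroup Δ) : (Γ ⧸ L.map Δ.subtype) → (Γ ⧸ Δ) :=
  Quotient.map' (fun γ : Γ => γ) (by
    intro a b hab
    rw [QuotientGroup.leftRel_apply] at hab ⊢
    obtain ⟨c, _, hc2⟩ := hab
    rw [← hc2]
    exact c.2)

theorem p1_p_mk (L : Subgroup Δ) (γ : Γ) :
    p1_p Δ L (γ : Γ ⧸ L.map Δ.subtype) = (γ : Γ ⧸ Δ) := rfl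

theorem p1_p_smul (L : Subgroup Δ) (γ : Γ) (x : Γ ⧸ L.map Δ.subtype) :
    p1_p Δ L (γ • x) = γ • p1_p Δ L x := by
  obtain ⟨y, rfl⟩ := QuotientGroup.mk_surjective x
  rfl

theorem p1_range (L : Subgroup Δ) (x : Γ ⧸ L.map Δ.subtype) :
    x ∈ Set.range (p1_j Δ L) ↔ p1_p Δ L x = ((1 : Γ) : Γ ⧸ Δ) := by
  obtain ⟨γ, rfl⟩ := QuotientGroup.mk_surjective x
  rw [p1_p_mk]
  constructor
  · rintro ⟨y, hy⟩
    obtain ⟨δ, rfl⟩ := QuotientGroup.mk_surjective y
    have h1 := congrArg (p1_p Δ L) hy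
    rw [p1_j_mk, p1_p_mk, p1_p_mk] at h1
    rw [← h1, QuotientGroup.eq]
    simp
  · intro h
    rw [eq_comm, QuotientGroup.eq, inv_one, one_mul] at h
    exact ⟨((⟨γ, h⟩ : Δ) : Δ ⧸ L), rfl⟩

/-- restriction of a mean to a subgroup of finite index -/
theorem mean_down [hΔ : Δ.FiniteIndex] (L : Subgroup Δ) (h : HasMean Γ (Γ ⧸ L.map Δ.subtype)) :
    HasMean Δ (Δ ⧸ L) := by
  obtain ⟨m, h0, h1, h2, h3⟩ := h
  have h3' := p1_pre h3
  have : Fintype (Γ ⧸ Δ) := Fintype.ofFinite _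
  have hpos : 0 < m (Set.range (p1_j Δ L)) := by
    have e1 := p1_sum h2 (p1_p Δ L) Finset.univ Set.univ
    have e2 : {x : Γ ⧸ L.map Δ.subtype | x ∈ Set.univ ∧ p1_p Δ L x ∈ (Finset.univ : Finset (Γ ⧸ Δ))} =
        Set.univ := by
      ext x
      simp
    rw [e2, h1] at e1
    have e3 : ∀ c : Γ ⧸ Δ, m {x | x ∈ Set.univ ∧ p1_p Δ L x = c} = m (Set.range (p1_j Δ L)) := by
      intro c
      obtain ⟨γ, rfl⟩ := QuotientGroup.mk_surjective c
      rw [← h3' γ {x | x ∈ Set.univ ∧ p1_p Δ L x = (γ : Γ ⧸ Δ)}]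
      congr 1
      ext x
      rw [p1_range]
      simp only [Set.mem_ofPred_eq, Set.mem_univ, true_and]
      rw [p1_p_smul]
      constructor
      · intro h4
        have h5 := congrArg (fun y => γ⁻¹ • y) h4
        simp only [inv_smul_smul] at h5
        rw [h5]
        change ((γ⁻¹ * γ : Γ) : Γ ⧸ Δ) = _
        rw [inv_mul_cancel]
      · intro h4
        rw [h4]
        change ((γ * 1 : Γ) : Γ ⧸ Δ) = _
        rw [mul_one]
    simp only [e3, Finset.sum_const, nsmul_eq_mul] at e1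
    by_contra hcon
    have h4 : m (Set.range (p1_j Δ L)) = 0 := le_antisymm (not_lt.1 hcon) (h0 _)
    rw [h4, mul_zero] at e1
    exact one_ne_zero e1
  refine ⟨fun A => m (p1_j Δ L '' A) / m (Set.range (p1_j Δ L)), fun A => div_nonneg (h0 _) (h0 _),
    ?_, ?_, ?_⟩
  · simp only [Set.image_univ]
    exact div_self hpos.ne'
  · intro A B hAB
    simp only
    rw [Set.image_union, h2 _ _ ((Set.disjoint_image_iff (p1_j_inj Δ L)).2 hAB), add_div]
  · intro δ A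
    simp only
    congr 1
    rw [← h3 (δ : Γ) (p1_j Δ L '' A), Set.image_image, Set.image_image]
    congr 1
    ext x
    simp only [p1_j_smul]

/-- induction of a mean from a subgroup of finite index -/
theorem mean_ind [hΔ : Δ.FiniteIndex] (L : Subgroup Δ) (h : HasMean Δ (Δ ⧸ L)) :
    HasMean Γ (Γ ⧸ L.map Δ.subtype) := by
  obtain ⟨m, h0, h1, h2, h3⟩ := h
  have h3' := p1_pre h3
  have : Fintype (Γ ⧸ Δ) := Fintype.ofFinite _
  have hn : (0 : ℝ) < Fintype.card (Γ ⧸ Δ) := by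
    exact_mod_cast Fintype.card_pos
  -- the value does not depend on the representative
  have key : ∀ (a b : Γ) (A : Set (Γ ⧸ L.map Δ.subtype)), (a : Γ ⧸ Δ) = (b : Γ ⧸ Δ) →
      m {y | a • p1_j Δ L y ∈ A} = m {y | b • p1_j Δ L y ∈ A} := by
    intro a b A hab
    rw [QuotientGroup.eq] at hab
    rw [← h3' ⟨a⁻¹ * b, hab⟩ {y | a • p1_j Δ L y ∈ A}]
    congr 1
    ext y
    simp only [Set.mem_ofPred_eq]
    rw [p1_j_smul, smul_smul]
    simp only [mul_inv_cancel_left]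
  let M : Set (Γ ⧸ L.map Δ.subtype) → ℝ := fun A =>
    (∑ c : Γ ⧸ Δ, m {y | (Quotient.out c : Γ) • p1_j Δ L y ∈ A}) / Fintype.card (Γ ⧸ Δ)
  have hM : ∀ A, M A = (∑ c : Γ ⧸ Δ, m {y | (Quotient.out c : Γ) • p1_j Δ L y ∈ A}) /
    Fintype.card (Γ ⧸ Δ) := fun A => rfl
  have hMinv : ∀ (γ : Γ) (A : Set (Γ ⧸ L.map Δ.subtype)), M {x | γ • x ∈ A} = M A := by
    intro γ A
    rw [hM, hM]
    congr 1
    have e : ∀ c : Γ ⧸ Δ, m {y | (Quotient.out c : Γ) • p1_j Δ L y ∈ {x | γ • x ∈ A}} =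
        m {y | (Quotient.out (γ • c) : Γ) • p1_j Δ L y ∈ A} := by
      intro c
      have e1 : {y | (Quotient.out c : Γ) • p1_j Δ L y ∈ {x | γ • x ∈ A}} =
          {y | (γ * Quotient.out c) • p1_j Δ L y ∈ A} := by
        ext y
        simp only [Set.mem_ofPred_eq]
        rw [smul_smul]
      rw [e1]
      refine key _ _ A ?_
      rw [QuotientGroup.out_eq']
      conv_rhs => rw [← QuotientGroup.out_eq' c]
      rfl
    simp only [e]
    exact Equiv.sum_comp (MulAction.toPerm γ : Equiv.Perm (Γ ⧸ Δ))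
      (fun c => m {y | (Quotient.out c : Γ) • p1_j Δ L y ∈ A})
  refine ⟨M, fun A => div_nonneg (Finset.sum_nonneg fun c _ => h0 _) hn.le, ?_, ?_,
    p1_img hMinv⟩
  · rw [hM]
    simp only [Set.mem_univ, Set.ofPred_true, h1, Finset.sum_const, nsmul_eq_mul, mul_one]
    rw [Finset.card_univ]
    exact div_self hn.ne'
  · intro A B hAB
    rw [hM, hM, hM, ← add_div, ← Finset.sum_add_distrib]
    congr 1
    refine Finset.sum_congr rfl fun c _ => ?_
    rw [← h2]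
    · rfl
    · rw [Set.disjoint_left] at hAB ⊢
      intro y hy hy'
      exact hAB hy hy'

end index

end

end Pool.Agent.Lib.MP_35fb4b_lc.SR
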