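import Pool.Agent.Lib.MP_35fb4b_lc.SR.P1
import Pool.Agent.Lib.MP_35fb4b_lc.SR.N6

/-!
# Integration of fields of means, transitivity of co-amenability (MP_35fb4b_lc)
-/

set_option autoImplicit false

namespace Pool.Agent.Lib.MP_35fb4b_lc.SR

open scoped Classical
open Filter Topology

noncomputable section

/-- integration of an equivariant field of means -/
theorem mean_field {M X Y : Type} [Group M] [MulAction M X] [MulAction M Y] [Countable M]
    [Countable X] (h : HasMean M X) (μ : X → Set Y → ℝ) (hμ0 : ∀ x A, 0 ≤ μ x A)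
    (hμu : ∀ x, μ x Set.univ = 1)
    (hμa : ∀ x A B, Disjoint A B → μ x (A ∪ B) = μ x A + μ x B)
    (hμi : ∀ (g : M) (x : X) (A : Set Y), μ (g • x) ((fun y => g • y) '' A) = μ x A) :
    HasMean M Y := by
  have hμ1 : ∀ x A, μ x A ≤ 1 := by
    intro x A
    have h1 := hμa x A Aᶜ disjoint_compl_right
    rw [Set.union_compl_self, hμu] at h1
    linarith [hμ0 x Aᶜ]
  obtain ⟨e, he⟩ := exists_surjective_nat M
  have hδ : ∀ n : ℕ, (0 : ℝ) < 1 / ((n : ℝ) + 1) := fun n => by positivity
  choose C p hp0 hpC hp1 hpi using fun n : ℕ =>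
    almost_invariant h ((Finset.range (n + 1)).image e) (1 / ((n : ℝ) + 1)) (hδ n)
  obtain ⟨L, hL⟩ := N2_lim
  have hle : (hyperfilter ℕ : Filter ℕ) ≤ atTop := Nat.hyperfilter_le_atTop
  -- the approximations
  obtain ⟨w, hw⟩ : ∃ w : Set Y → ℕ → ℝ, ∀ A n, w A n = ∑ y ∈ C n, p n y * μ y A :=
    ⟨_, fun _ _ => rfl⟩
  have hwb : ∀ A n, 0 ≤ w A n ∧ w A n ≤ 1 := by
    intro A n
    rw [hw]
    constructor
    · exact Finset.sum_nonneg fun y _ => mul_nonneg (hp0 n y) (hμ0 y A)
    · rw [← hp1 n]
      refine Finset.sum_le_sum fun y _ => ?_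
      have h1 := hp0 n y
      have h2 := hμ1 y A
      nlinarith
  have ht : ∀ A, Tendsto (w A) (hyperfilter ℕ : Filter ℕ) (𝓝 (L (w A))) := fun A => hL _ (hwb A)
  refine ⟨fun A => L (w A), ?_, ?_, ?_, ?_⟩
  · exact fun A => ge_of_tendsto' (ht A) fun n => (hwb A n).1
  · have h1 : Tendsto (w Set.univ) (hyperfilter ℕ : Filter ℕ) (𝓝 1) := by
      refine tendsto_const_nhds.congr fun n => ?_
      rw [hw, ← hp1 n]
      refine Finset.sum_congr rfl fun y _ => ?_
      rw [hμu, mul_one]
    exact tendsto_nhds_unique (ht Set.univ) h1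
  · intro A B hAB
    refine tendsto_nhds_unique (ht (A ∪ B)) (((ht A).add (ht B)).congr fun n => ?_)
    rw [hw, hw, hw, ← Finset.sum_add_distrib]
    refine Finset.sum_congr rfl fun y _ => ?_
    rw [hμa y A B hAB, mul_add]
  · intro g A
    have hdiff : ∀ᶠ n : ℕ in atTop, ‖w ((fun x => g • x) '' A) n - w A n‖ ≤
        1 / ((n : ℝ) + 1) := by
      obtain ⟨k, hk⟩ := he g
      filter_upwards [eventually_ge_atTop k] with n hn
      have hg : g ∈ (Finset.range (n + 1)).image e :=
        Finset.mem_image.2 ⟨k, Finset.mem_range.2 (by omega), hk⟩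
      -- sums over a large finite set
      set T : Finset X := C n ∪ (C n).image (fun y => g⁻¹ • y) with hT
      have hTC : C n ⊆ T := Finset.subset_union_left
      have e1 : w A n = ∑ y ∈ T, p n y * μ y A := by
        rw [hw]
        refine Finset.sum_subset hTC fun y _ hy => ?_
        rw [hpC n y hy, zero_mul]
      have e2 : w ((fun x => g • x) '' A) n = ∑ y ∈ T, p n (g • y) * μ y A := by
        have h1 : w ((fun x => g • x) '' A) n =
            ∑ y ∈ T.image (fun y => g • y), p n y * μ y ((fun x => g • x) '' A) := by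
          rw [hw]
          refine Finset.sum_subset ?_ fun y _ hy => ?_
          · intro y hy
            refine Finset.mem_image.2 ⟨g⁻¹ • y, ?_, smul_inv_smul g y⟩
            exact Finset.mem_union_right _ (Finset.mem_image_of_mem _ hy)
          · rw [hpC n y hy, zero_mul]
        rw [h1, Finset.sum_image (fun a _ b _ hab => MulAction.injective g hab)]
        refine Finset.sum_congr rfl fun y _ => ?_
        congr 1
        exact hμi g y A
      rw [e1, e2, ← Finset.sum_sub_distrib, Real.norm_eq_abs]
      refine (Finset.abs_sum_le_sum_abs _ _).trans ?_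
      refine le_trans (Finset.sum_le_sum fun y _ => ?_) (hpi n g hg T)
      rw [← sub_mul, abs_mul, abs_of_nonneg (hμ0 y A)]
      have h1 := hμ1 y A
      have h2 := abs_nonneg (p n (g • y) - p n y)
      nlinarith
    have h1 : Tendsto (fun n => w ((fun x => g • x) '' A) n - w A n)
        (hyperfilter ℕ : Filter ℕ) (𝓝 0) := by
      refine Tendsto.mono_left ?_ hle
      exact squeeze_zero_norm' hdiff tendsto_one_div_add_atTop_nhds_zero_nat
    have h3 := (ht ((fun x => g • x) '' A)).sub (ht A)
    have h4 := tendsto_nhds_unique h3 h1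
    show L (w ((fun x => g • x) '' A)) = L (w A)
    linarith

/-- an action with a mean whose stabilizers have means on `Y` -/
theorem mean_of_stabilizers {M X Y : Type} [Group M] [MulAction M X] [MulAction M Y]
    [Countable M] [Countable X] (h : HasMean M X)
    (hs : ∀ x : X, HasMean (MulAction.stabilizer M x) Y) : HasMean M Y := by
  have hrep : ∀ x : X, ∃ g : M, g • (Quotient.out (Quotient.mk (MulAction.orbitRel M X) x)) = x := by
    intro x
    have h : MulAction.orbitRel M X (Quotient.out (Quotient.mk (MulAction.orbitRel M X) x)) x :=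
      Quotient.exact (Quotient.out_eq _)
    rw [MulAction.orbitRel_apply] at h
    obtain ⟨s, hs⟩ := h
    exact ⟨s⁻¹, by rw [← hs]; simp⟩
  choose g hg using hrep
  set b : X → X := fun x => Quotient.out (Quotient.mk (MulAction.orbitRel M X) x) with hb
  have hbs : ∀ (s : M) (x : X), b (s • x) = b x := by
    intro s x
    simp only [hb]
    congr 1
    apply Quotient.sound
    show MulAction.orbitRel M X _ _
    rw [MulAction.orbitRel_apply]
    exact ⟨s, rfl⟩
  choose ν hν0 hνu hνa hνi using hs
  refine mean_field h (fun x A => ν (b x) ((fun y => (g x)⁻¹ • y) '' A)) (fun x A => hν0 _ _)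
    ?_ ?_ ?_
  · intro x
    rw [Set.image_univ_of_surjective (MulAction.surjective _), hνu]
  · intro x A B hAB
    rw [Set.image_union, hνa]
    exact (Set.disjoint_image_iff (MulAction.injective _)).2 hAB
  · intro s x A
    have hu : (g (s • x))⁻¹ * s * g x ∈ MulAction.stabilizer M (b x) := by
      rw [MulAction.mem_stabilizer_iff, mul_smul, mul_smul]
      have h1 : g x • b x = x := hg x
      have h2 : g (s • x) • b (s • x) = s • x := hg (s • x)
      rw [hbs] at h2
      rw [h1, inv_smul_eq_iff]
      exact h2.symm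
    rw [hbs, ← hνi (b x) ⟨_, hu⟩ ((fun y => (g x)⁻¹ • y) '' A), Set.image_image, Set.image_image]
    congr 1
    refine Set.image_congr fun y _ => ?_
    show (g (s • x))⁻¹ • s • y = ((g (s • x))⁻¹ * s * g x) • (g x)⁻¹ • y
    rw [smul_smul, smul_smul]
    congr 1
    group

/-- transport of means between stabilizers -/
theorem mean_stab_smul {M X Y : Type} [Group M] [MulAction M X] [MulAction M Y] (x : X) (g : M)
    (h : HasMean (MulAction.stabilizer M x) Y) : HasMean (MulAction.stabilizer M (g • x)) Y := by
  obtain ⟨m, h0, h1, h2, h3⟩ := h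
  refine ⟨fun A => m ((fun y => g⁻¹ • y) '' A), fun A => h0 _, ?_, ?_, ?_⟩
  · simp only
    rw [Set.image_univ_of_surjective (MulAction.surjective _), h1]
  · intro A B hAB
    simp only
    rw [Set.image_union, h2]
    exact (Set.disjoint_image_iff (MulAction.injective _)).2 hAB
  · intro s A
    simp only
    have hu : g⁻¹ * (s : M) * g ∈ MulAction.stabilizer M x := by
      have h4 : (s : M) • g • x = g • x := s.2
      rw [MulAction.mem_stabilizer_iff, mul_smul, mul_smul, h4, inv_smul_smul]
    rw [← h3 ⟨_, hu⟩ ((fun y => g⁻¹ • y) '' A), Set.image_image, Set.image_image]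
    congr 1
    refine Set.image_congr fun y _ => ?_
    show g⁻¹ • (s : M) • y = (g⁻¹ * (s : M) * g) • g⁻¹ • y
    rw [smul_smul, smul_smul]
    congr 1
    group

/-- amenability passes to quotients -/
theorem amen_surj {G Q : Type} [Group G] [Group Q] (π : G →* Q) (hπ : Function.Surjective π)
    (h : HasMean G G) : HasMean Q Q :=
  push_mean π hπ π (fun g x => map_mul π g x) h

/-- a group with an action with a mean and amenable stabilizers is amenable -/
theorem amen_of_stab {M X : Type} [Group M] [MulAction M X] [Countable M] [Countable X]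
    (h : HasMean M X)
    (hs : ∀ x : X, HasMean (MulAction.stabilizer M x) (MulAction.stabilizer M x)) :
    HasMean M M :=
  mean_of_stabilizers h fun x => push_mean (MonoidHom.id _) Function.surjective_id
    (fun y : MulAction.stabilizer M x => (y : M)) (fun _ _ => rfl) (hs x)

/-- transitivity of co-amenability -/
theorem mean_trans {Γ : Type} [Group Γ] [Countable Γ] (L : Subgroup Γ) (K : Subgroup L)
    (hL : HasMean Γ (Γ ⧸ L)) (hK : HasMean L (L ⧸ K)) : HasMean Γ (Γ ⧸ K.map L.subtype) := by
  have hc : Countable (Γ ⧸ L) := (QuotientGroup.mk_surjective (s := L)).countable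
  refine mean_of_stabilizers hL fun x => ?_
  obtain ⟨γ, rfl⟩ := QuotientGroup.mk_surjective x
  have h1 : ((γ : Γ) : Γ ⧸ L) = γ • ((1 : Γ) : Γ ⧸ L) := by
    change _ = ((γ * 1 : Γ) : Γ ⧸ L)
    rw [mul_one]
  rw [h1]
  apply mean_stab_smul
  rw [MulAction.stabilizer_quotient]
  exact push_mean (MonoidHom.id L) Function.surjective_id (p1_j L K)
    (fun g x => p1_j_smul L K g x) hK

/-- the restriction of a mean to a subgroup -/
theorem mean_restrict {Γ X : Type} [Group Γ] [MulAction Γ X] (A : Subgroup Γ) (h : HasMean Γ X) :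
    HasMean A X := by
  obtain ⟨m, h0, h1, h2, h3⟩ := h
  exact ⟨m, h0, h1, h2, fun g S => h3 (g : Γ) S⟩

/-- an action of a free group of rank 2 with a mean has a stabilizer that contains one -/
theorem exists_free_in_stab {Γ X : Type} [Group Γ] [MulAction Γ X] [Countable Γ]
    (ψ : F2 →* Γ) (hψ : Function.Injective ψ) (hna : ¬ HasMean F2 F2) (h : HasMean Γ X) :
    ∃ (x : X) (φ : F2 →* Γ), Function.Injective φ ∧ ∀ w, φ w ∈ ψ.range ∧ φ w • x = x := by
  by_contra hcon
  push Not at hcon
  have hm : HasMean ψ.range X := mean_restrict _ h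
  have hcount : Countable ψ.range := inferInstance
  have hfree : IsFreeGroup ψ.range := IsFreeGroup.ofMulEquiv (MonoidHom.ofInjective hψ)
  have hcyc : ∀ x : X, ∃ c : ψ.range, MulAction.stabilizer ψ.range x = Subgroup.zpowers c := by
    intro x
    have hfs : IsFreeGroup (MulAction.stabilizer ψ.range x) := subgroupIsFreeOfIsFree _
    have hF : ∀ φ : F2 →* MulAction.stabilizer ψ.range x, ¬ Function.Injective φ := by
      intro φ hφ
      obtain ⟨w, hw⟩ := hcon x (ψ.range.subtype.comp ((MulAction.stabilizer ψ.range x).subtype.comp φ))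
        (ψ.range.subtype_injective.comp
          ((MulAction.stabilizer ψ.range x).subtype_injective.comp hφ))
      exact hw (φ w).1.2 (φ w).2
    have hft : IsFreeGroup (⊤ : Subgroup (MulAction.stabilizer ψ.range x)) :=
      IsFreeGroup.ofMulEquiv Subgroup.topEquiv.symm
    obtain ⟨c, hc⟩ := N2_cyclic hF ⊤ hft
    refine ⟨(c : ψ.range), ?_⟩
    ext y
    constructor
    · intro hy
      have h1 : (⟨y, hy⟩ : MulAction.stabilizer ψ.range x) ∈ Subgroup.zpowers c := by
        rw [← hc]
        trivial
      obtain ⟨n, hn⟩ := h1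
      refine ⟨n, ?_⟩
      have h2 := congrArg Subtype.val hn
      simpa using h2
    · rintro ⟨n, rfl⟩
      exact (MulAction.stabilizer ψ.range x).zpow_mem c.2 n
  obtain ⟨f, hf⟩ := N2_map hcyc
  have h1 : HasMean ψ.range ψ.range := N2_main (push_mean (MonoidHom.id _)
    Function.surjective_id f (fun g x => hf g x) hm)
  exact hna (amen_surj (MonoidHom.ofInjective hψ).symm.toMonoidHom
    (MonoidHom.ofInjective hψ).symm.surjective h1)

end

end Pool.Agent.Lib.MP_35fb4b_lc.SR
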