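import Pool.Agent.Lib.MP_35fb4b_lc.SR.P2

/-!
# Null sets of invariant means (MP_35fb4b_lc)
-/

set_option autoImplicit false

namespace Pool.Agent.Lib.MP_35fb4b_lc.SR

open scoped Classical

noncomputable section

theorem stab_inf {Γ X : Type} [Group Γ] [MulAction Γ X] (A : Subgroup Γ) (x : X) :
    HasMean (A ⊓ MulAction.stabilizer Γ x : Subgroup Γ) (A ⊓ MulAction.stabilizer Γ x : Subgroup Γ) ↔
      HasMean (MulAction.stabilizer A x) (MulAction.stabilizer A x) := by
  constructor
  · let π : (A ⊓ MulAction.stabilizer Γ x : Subgroup Γ) →* MulAction.stabilizer A x :=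
      { toFun := fun y => ⟨⟨y.1, y.2.1⟩, y.2.2⟩
        map_one' := rfl
        map_mul' := fun _ _ => rfl }
    exact amen_surj π fun y => ⟨⟨y.1.1, ⟨y.1.2, y.2⟩⟩, rfl⟩
  · let π : MulAction.stabilizer A x →* (A ⊓ MulAction.stabilizer Γ x : Subgroup Γ) :=
      { toFun := fun y => ⟨y.1.1, ⟨y.1.2, y.2⟩⟩
        map_one' := rfl
        map_mul' := fun _ _ => rfl }
    exact amen_surj π fun y => ⟨⟨⟨y.1, y.2.1⟩, y.2.2⟩, rfl⟩

/-- an invariant mean gives measure zero to the set of points whose stabilizer in a non-amenable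
group is amenable -/
theorem null_of_stab {M X : Type} [Group M] [MulAction M X] [Countable M] [Countable X]
    (hM : ¬ HasMean M M) (m : Set X → ℝ) (h0 : ∀ A, 0 ≤ m A)
    (h2 : ∀ A B, Disjoint A B → m (A ∪ B) = m A + m B)
    (h3 : ∀ (g : M) (A : Set X), m ((fun x => g • x) '' A) = m A) :
    m {x | HasMean (MulAction.stabilizer M x) (MulAction.stabilizer M x)} = 0 := by
  let S : SubMulAction M X :=
    { carrier := {x | HasMean (MulAction.stabilizer M x) (MulAction.stabilizer M x)}
      smul_mem' := by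
        intro g x hx
        show HasMean (MulAction.stabilizer M (g • x)) (MulAction.stabilizer M (g • x))
        rw [MulAction.stabilizer_smul_eq_stabilizer_map_conj]
        exact amen_surj ((MulAut.conj g).toMonoidHom.subgroupMap (MulAction.stabilizer M x))
          (MonoidHom.subgroupMap_surjective _ _) hx }
  have hS : {x | HasMean (MulAction.stabilizer M x) (MulAction.stabilizer M x)} =
      (S : Set X) := rfl
  rw [hS]
  by_contra hne
  have hpos : 0 < m (S : Set X) := lt_of_le_of_ne (h0 _) (Ne.symm hne)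
  have hmean : HasMean M S := by
    refine ⟨fun A => m (Subtype.val '' A) / m (S : Set X), fun A => div_nonneg (h0 _) (h0 _),
      ?_, ?_, ?_⟩
    · have : (Subtype.val '' (Set.univ : Set S)) = (S : Set X) := by
        rw [Set.image_univ]
        exact Subtype.range_val
      simp only [this]
      exact div_self hpos.ne'
    · intro A B hAB
      simp only
      rw [Set.image_union, h2 _ _ ((Set.disjoint_image_iff Subtype.val_injective).2 hAB), add_div]
    · intro g A
      simp only
      congr 1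
      rw [← h3 g (Subtype.val '' A), Set.image_image, Set.image_image]
      rfl
  refine hM (amen_of_stab hmean fun x => ?_)
  rw [SubMulAction.stabilizer_of_subMul]
  exact x.2

/-- the restriction of an invariant mean on a `Γ`-set to a non-amenable subgroup `A` -/
theorem null_inf {Γ X : Type} [Group Γ] [MulAction Γ X] [Countable Γ] [Countable X]
    (A : Subgroup Γ) (hA : ¬ HasMean A A) (m : Set X → ℝ) (h0 : ∀ A, 0 ≤ m A)
    (h2 : ∀ A B, Disjoint A B → m (A ∪ B) = m A + m B)
    (h3 : ∀ (g : Γ) (A : Set X), m ((fun x => g • x) '' A) = m A) :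
    m {x | HasMean (A ⊓ MulAction.stabilizer Γ x : Subgroup Γ)
      (A ⊓ MulAction.stabilizer Γ x : Subgroup Γ)} = 0 := by
  have h := null_of_stab (M := A) (X := X) hA m h0 h2 fun g S => h3 (g : Γ) S
  rw [← h]
  congr 1
  ext x
  exact stab_inf A x

theorem mono_null {X : Type} (m : Set X → ℝ) (h0 : ∀ A, 0 ≤ m A)
    (h2 : ∀ A B, Disjoint A B → m (A ∪ B) = m A + m B) {A B : Set X} (hAB : A ⊆ B)
    (hB : m B = 0) : m A = 0 := by
  have h := h2 A (B \ A) Set.disjoint_sdiff_right
  rw [Set.union_sdiff_cancel hAB, hB] at h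
  linarith [h0 A, h0 (B \ A)]

theorem union_null {X : Type} (m : Set X → ℝ) (h0 : ∀ A, 0 ≤ m A)
    (h2 : ∀ A B, Disjoint A B → m (A ∪ B) = m A + m B) {A B : Set X} (hA : m A = 0)
    (hB : m B = 0) : m (A ∪ B) = 0 := by
  have h := h2 A (B \ A) Set.disjoint_sdiff_right
  rw [Set.union_sdiff_self, hA, mono_null m h0 h2 Set.sdiff_subset hB] at h
  linarith

/-- finite sets are null for an invariant mean on an infinite coset space -/
theorem finite_null {Γ : Type} [Group Γ] (B : Subgroup Γ) (hB : ¬ B.FiniteIndex)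
    (m : Set (Γ ⧸ B) → ℝ) (h0 : ∀ A, 0 ≤ m A) (h1 : m Set.univ = 1)
    (h2 : ∀ A B, Disjoint A B → m (A ∪ B) = m A + m B)
    (h3 : ∀ (g : Γ) (A : Set (Γ ⧸ B)), m ((fun x => g • x) '' A) = m A)
    (T : Set (Γ ⧸ B)) (hT : T.Finite) : m T = 0 := by
  have hinf : Infinite (Γ ⧸ B) := by
    by_contra hcon
    have : Finite (Γ ⧸ B) := not_infinite_iff_finite.1 hcon
    exact hB Subgroup.finiteIndex_of_finite_quotient
  obtain ⟨c, hc⟩ : ∃ c : ℝ, c = m {((1 : Γ) : Γ ⧸ B)} := ⟨_, rfl⟩
  have hpt : ∀ x : Γ ⧸ B, m {x} = c := by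
    intro x
    obtain ⟨γ, rfl⟩ := QuotientGroup.mk_surjective x
    rw [hc, ← h3 γ {((1 : Γ) : Γ ⧸ B)}, Set.image_singleton]
    change _ = m {((γ * 1 : Γ) : Γ ⧸ B)}
    rw [mul_one]
  have hempty : m ∅ = 0 := by
    have := h2 ∅ ∅ (by simp)
    rw [Set.union_empty] at this
    linarith
  have hcard : ∀ s : Finset (Γ ⧸ B), m (s : Set (Γ ⧸ B)) = s.card * c := by
    intro s
    induction s using Finset.induction_on with
    | empty => simp [hempty]
    | insert a s ha ih =>
      rw [Finset.coe_insert, Set.insert_eq, h2 _ _ (by simpa using ha), hpt, ih,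
        Finset.card_insert_of_notMem ha]
      push_cast
      ring
  have hle : ∀ A, m A ≤ 1 := by
    intro A
    have h := h2 A Aᶜ disjoint_compl_right
    rw [Set.union_compl_self, h1] at h
    linarith [h0 Aᶜ]
  have hc0 : c = 0 := by
    have hcn : 0 ≤ c := by
      rw [hc]
      exact h0 _
    by_contra hne
    have hcp : 0 < c := lt_of_le_of_ne hcn (Ne.symm hne)
    obtain ⟨n, hn⟩ := exists_nat_gt (1 / c)
    obtain ⟨s, hs⟩ := Infinite.exists_subset_card_eq (Γ ⧸ B) n
    have h4 := hle (s : Set (Γ ⧸ B))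
    rw [hcard, hs] at h4
    rw [div_lt_iff₀ hcp] at hn
    linarith
  have h5 := hcard hT.toFinset
  rw [hT.coe_toFinset, hc0, mul_zero] at h5
  exact h5

/-- finitely many non-amenable subgroups of `Γ`, and a co-amenable subgroup `B` -/
theorem exists_coset {Γ : Type} [Group Γ] [Countable Γ] (B : Subgroup Γ)
    (hB : HasMean Γ (Γ ⧸ B)) (k : ℕ) (A : Fin k → Subgroup Γ) (hA : ∀ i, ¬ HasMean (A i) (A i)) :
    {x : Γ ⧸ B | ∀ i, ¬ HasMean (A i ⊓ MulAction.stabilizer Γ x : Subgroup Γ)
      (A i ⊓ MulAction.stabilizer Γ x : Subgroup Γ)}.Nonempty ∧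
    (¬ B.FiniteIndex → {x : Γ ⧸ B | ∀ i, ¬ HasMean (A i ⊓ MulAction.stabilizer Γ x : Subgroup Γ)
      (A i ⊓ MulAction.stabilizer Γ x : Subgroup Γ)}.Infinite) := by
  obtain ⟨m, h0, h1, h2, h3⟩ := hB
  have hcount : Countable (Γ ⧸ B) := (QuotientGroup.mk_surjective (s := B)).countable
  set G : Set (Γ ⧸ B) := {x : Γ ⧸ B | ∀ i, ¬ HasMean (A i ⊓ MulAction.stabilizer Γ x : Subgroup Γ)
      (A i ⊓ MulAction.stabilizer Γ x : Subgroup Γ)} with hG
  have hempty : m ∅ = 0 := by
    have := h2 ∅ ∅ (by simp)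
    rw [Set.union_empty] at this
    linarith
  -- the complement is null
  have hnull : ∀ s : Finset (Fin k), m {x | ∃ i ∈ s, HasMean
      (A i ⊓ MulAction.stabilizer Γ x : Subgroup Γ)
      (A i ⊓ MulAction.stabilizer Γ x : Subgroup Γ)} = 0 := by
    intro s
    induction s using Finset.induction_on with
    | empty => simp [hempty]
    | insert a s ha ih =>
      have h4 := union_null m h0 h2 (null_inf (A a) (hA a) m h0 h2 h3) ih
      refine mono_null m h0 h2 ?_ h4
      rintro x ⟨i, hi, hx⟩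
      rcases Finset.mem_insert.1 hi with rfl | hi
      · exact Or.inl hx
      · exact Or.inr ⟨i, hi, hx⟩
  have hGc : m Gᶜ = 0 := by
    refine mono_null m h0 h2 ?_ (hnull Finset.univ)
    intro x hx
    rw [hG, Set.mem_compl_iff, Set.mem_ofPred_eq] at hx
    push Not at hx
    obtain ⟨i, hi⟩ := hx
    exact ⟨i, Finset.mem_univ i, hi⟩
  have hG1 : m G = 1 := by
    have h4 := h2 G Gᶜ disjoint_compl_right
    rw [Set.union_compl_self, h1, hGc, add_zero] at h4
    exact h4.symm
  constructor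
  · rw [Set.nonempty_iff_ne_empty]
    intro h4
    rw [h4, hempty] at hG1
    exact zero_ne_one hG1
  · intro hB' hfin
    rw [finite_null B hB' m h0 h1 h2 h3 G (Set.not_infinite.1 (not_not.2 hfin))] at hG1
    exact zero_ne_one hG1

/-- means for an increasing sequence of groups -/
theorem mean_of_increasing {Γ X : Type} [Group Γ] [MulAction Γ X] (G : ℕ → Subgroup Γ)
    (hG : Monotone G) (hU : ∀ g, ∃ n, g ∈ G n) (h : ∀ n, HasMean (G n) X) : HasMean Γ X := by
  choose m h0 h1 h2 h3 using h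
  obtain ⟨L, hL⟩ := N2_lim
  have hle : ∀ n A, m n A ≤ 1 := by
    intro n A
    have h := h2 n A Aᶜ disjoint_compl_right
    rw [Set.union_compl_self, h1] at h
    linarith [h0 n Aᶜ]
  have ht : ∀ A, Filter.Tendsto (fun n => m n A) (Filter.hyperfilter ℕ : Filter ℕ)
      (nhds (L fun n => m n A)) := fun A => hL _ fun n => ⟨h0 n A, hle n A⟩
  refine ⟨fun A => L fun n => m n A, ?_, ?_, ?_, ?_⟩
  · exact fun A => ge_of_tendsto' (ht A) fun n => h0 n A
  · refine tendsto_nhds_unique (ht Set.univ) (tendsto_const_nhds.congr fun n => ?_)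
    exact (h1 n).symm
  · intro A B hAB
    refine tendsto_nhds_unique (ht (A ∪ B)) (((ht A).add (ht B)).congr fun n => ?_)
    exact (h2 n A B hAB).symm
  · intro g A
    refine tendsto_nhds_unique_of_eventuallyEq (ht ((fun x => g • x) '' A)) (ht A) ?_
    obtain ⟨k, hk⟩ := hU g
    have hev : ∀ᶠ n : ℕ in Filter.atTop, m n ((fun x => g • x) '' A) = m n A := by
      filter_upwards [Filter.eventually_ge_atTop k] with n hn
      exact h3 n ⟨g, hG hn hk⟩ A
    exact Nat.hyperfilter_le_atTop hev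

end

end Pool.Agent.Lib.MP_35fb4b_lc.SR
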