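import Mathlib
import Pool.Agent.Lib.MP_35fb4b_lc.SR.Defs

/-!
# R1: a Helly type lemma in the free group of rank 2

Facts on reduced words (letters = generators and inverses):
* (F1) `x` is cyclically reduced and then `|x^k| = k|x|`, or `x = a z a⁻¹` reduced for a letter `a`,
  and `|a⁻¹ x a| = |x| - 2`.
* (F2) `x = a z a⁻¹`, `y = b z' b⁻¹` reduced, `a ≠ b`: the word of `x y` is the concatenation and is
  cyclically reduced.
* (F3) `|a⁻¹ y a| ≤ |y| + 2`.

Proof of `helly`: choose `g` minimizing `max_{x ∈ A} |g⁻¹ x g| = S` and suppose `S ≥ m + 3`. An `x` with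
`|x| = S` (after the conjugation by `g`) is not cyclically reduced, `x = a z a⁻¹`. As conjugation by `a`
does not lower the maximum there is a `y` with `|a⁻¹ y a| ≥ S`, so `|y| ≥ S - 2 > m`, `y = b z' b⁻¹` and
`b ≠ a`. So `x y` is cyclically reduced of length `≥ 2 S - 2 > 2 m`.
-/

set_option autoImplicit false

namespace Pool.Agent.Lib.MP_35fb4b_lc.SR

open scoped Classical

noncomputable section

/-- the letter `a` as an element of the group -/
private def R1_e (a : Fin 2 × Bool) : F2 := FreeGroup.mk [a]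

private theorem R1_inv (a : Fin 2 × Bool) : (R1_e a)⁻¹ = FreeGroup.mk [(a.1, !a.2)] := by
  unfold R1_e
  rw [FreeGroup.inv_mk]
  rfl

private theorem R1_cyc (x : F2) (h : FreeGroup.IsCyclicallyReduced x.toWord) (k : ℕ) :
    FreeGroup.norm (x ^ k) = k * FreeGroup.norm x := by
  unfold FreeGroup.norm
  rw [FreeGroup.toWord_pow, (h.flatten_replicate k).isReduced.reduce_eq]
  simp

private theorem R1_split (x : F2) (h : ¬ FreeGroup.IsCyclicallyReduced x.toWord) :
    ∃ (a : Fin 2 × Bool) (L : List (Fin 2 × Bool)), x.toWord = a :: (L ++ [(a.1, !a.2)]) := by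
  have hr : FreeGroup.IsReduced x.toWord := FreeGroup.isReduced_toWord
  revert h hr
  generalize x.toWord = W
  intro h hr
  induction W using List.bidirectionalRec with
  | nil => exact absurd FreeGroup.IsCyclicallyReduced.nil h
  | singleton a => exact absurd FreeGroup.IsCyclicallyReduced.singleton h
  | cons_append a L b _ =>
    refine ⟨a, L, ?_⟩
    have h1 := FreeGroup.isCyclicallyReduced_cons_append_iff (L := L) (a := b) (b := a)
    rw [List.cons_append] at h1
    rw [h1] at h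
    have h2 : ¬ (b.1 = a.1 → b.2 = a.2) := fun h3 => h ⟨hr, h3⟩
    push Not at h2
    have h3 : b = (a.1, !a.2) := by
      refine Prod.ext h2.1 ?_
      rcases Bool.eq_false_or_eq_true a.2 with h4 | h4 <;>
        rcases Bool.eq_false_or_eq_true b.2 with h5 | h5 <;> simp_all
    rw [h3]

/-- conjugation by the first letter -/
private theorem R1_conj (x : F2) (a : Fin 2 × Bool) (L : List (Fin 2 × Bool))
    (h : x.toWord = a :: (L ++ [(a.1, !a.2)])) :
    FreeGroup.norm ((R1_e a)⁻¹ * x * R1_e a) + 2 = FreeGroup.norm x := by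
  have hr : FreeGroup.IsReduced x.toWord := FreeGroup.isReduced_toWord
  have hL : FreeGroup.IsReduced L := by
    rw [h] at hr
    exact List.IsChain.left_of_append (List.IsChain.tail hr)
  have hx : x = R1_e a * FreeGroup.mk L * (R1_e a)⁻¹ := by
    rw [R1_inv]
    unfold R1_e
    rw [FreeGroup.mul_mk, FreeGroup.mul_mk, ← FreeGroup.mk_toWord (x := x), h]
    rfl
  have h1 : (R1_e a)⁻¹ * x * R1_e a = FreeGroup.mk L := by
    rw [hx]
    group
  rw [h1]
  unfold FreeGroup.norm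
  rw [FreeGroup.toWord_mk, hL.reduce_eq, h]
  simp

private theorem R1_le (y : F2) (a : Fin 2 × Bool) :
    FreeGroup.norm ((R1_e a)⁻¹ * y * R1_e a) ≤ FreeGroup.norm y + 2 := by
  have h1 := FreeGroup.norm_mul_le ((R1_e a)⁻¹ * y) (R1_e a)
  have h2 := FreeGroup.norm_mul_le (R1_e a)⁻¹ y
  have h3 : FreeGroup.norm (R1_e a) ≤ 1 := FreeGroup.norm_mk_le
  have h4 : FreeGroup.norm (R1_e a)⁻¹ ≤ 1 := by
    rw [FreeGroup.norm_inv_eq]
    exact h3
  omega

private theorem R1_prod (x y : F2) (a b : Fin 2 × Bool) (L K : List (Fin 2 × Bool))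
    (hx : x.toWord = a :: (L ++ [(a.1, !a.2)])) (hy : y.toWord = b :: (K ++ [(b.1, !b.2)]))
    (hab : a ≠ b) :
    FreeGroup.norm (x * y) = FreeGroup.norm x + FreeGroup.norm y ∧
      FreeGroup.IsCyclicallyReduced (x * y).toWord := by
  have hb1 : a.1 = b.1 → (!a.2) = b.2 := by
    intro h
    have h2 : a.2 ≠ b.2 := fun h2 => hab (Prod.ext h h2)
    rcases Bool.eq_false_or_eq_true a.2 with h4 | h4 <;>
      rcases Bool.eq_false_or_eq_true b.2 with h5 | h5 <;> simp_all
  have hb2 : b.1 = a.1 → (!b.2) = a.2 := by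
    intro h
    have h2 := hb1 h.symm
    rw [← h2]
    simp
  have hr : FreeGroup.IsReduced (x.toWord ++ y.toWord) := by
    unfold FreeGroup.IsReduced
    rw [List.isChain_append]
    refine ⟨FreeGroup.isReduced_toWord, FreeGroup.isReduced_toWord, ?_⟩
    intro c hc e he
    rw [hx] at hc
    rw [hy] at he
    have hc' : c = (a.1, !a.2) := by
      rw [← List.cons_append, List.getLast?_concat] at hc
      simpa using hc.symm
    have he' : e = b := by
      simpa using he.symm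
    rw [hc', he']
    exact hb1
  have hw : (x * y).toWord = x.toWord ++ y.toWord := by
    rw [FreeGroup.toWord_mul, hr.reduce_eq]
  refine ⟨?_, ?_⟩
  · unfold FreeGroup.norm
    rw [hw, List.length_append]
  · rw [hw]
    refine ⟨hr, ?_⟩
    intro c hc e he
    have hc' : c = (b.1, !b.2) := by
      rw [hy, ← List.cons_append, ← List.append_assoc, List.getLast?_concat] at hc
      simpa using hc.symm
    have he' : e = a := by
      rw [hx] at he
      simpa using he.symm
    rw [hc', he']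
    exact hb2

theorem helly (A : Finset F2) (m : ℕ)
    (h1 : ∀ x ∈ A, ∀ g : F2,
      (∀ k : ℕ, FreeGroup.norm ((g⁻¹ * x * g) ^ k) = k * FreeGroup.norm (g⁻¹ * x * g)) →
        FreeGroup.norm (g⁻¹ * x * g) ≤ m)
    (h2 : ∀ x ∈ A, ∀ y ∈ A, ∀ g : F2,
      (∀ k : ℕ, FreeGroup.norm ((g⁻¹ * (x * y) * g) ^ k) =
        k * FreeGroup.norm (g⁻¹ * (x * y) * g)) →
        FreeGroup.norm (g⁻¹ * (x * y) * g) ≤ 2 * m) :
    ∃ g : F2, ∀ x ∈ A, FreeGroup.norm (g⁻¹ * x * g) ≤ m + 2 := by
  rcases A.eq_empty_or_nonempty with hA | hA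
  · exact ⟨1, fun x hx => by rw [hA] at hx; exact absurd hx (Finset.notMem_empty x)⟩
  set M : F2 → ℕ := fun g => A.sup fun x => FreeGroup.norm (g⁻¹ * x * g) with hM
  obtain ⟨g, hg⟩ : ∃ g, ∀ g', M g ≤ M g' := by
    obtain ⟨g, hg⟩ := Nat.sInf_mem (Set.range_nonempty M)
    exact ⟨g, fun g' => by rw [hg]; exact Nat.sInf_le (Set.mem_range_self g')⟩
  refine ⟨g, ?_⟩
  by_contra hcon
  push Not at hcon
  obtain ⟨w, hw, hw2⟩ := hcon
  have hle : ∀ g' : F2, ∀ x ∈ A, FreeGroup.norm (g'⁻¹ * x * g') ≤ M g' := fun g' x hx =>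
    Finset.le_sup (f := fun x => FreeGroup.norm (g'⁻¹ * x * g')) hx
  have hS : m + 3 ≤ M g := by
    have := hle g w hw
    omega
  obtain ⟨x0, hx0, hx1⟩ := Finset.exists_mem_eq_sup A hA fun x => FreeGroup.norm (g⁻¹ * x * g)
  have hx2 : FreeGroup.norm (g⁻¹ * x0 * g) = M g := hx1.symm
  have hxn : ¬ FreeGroup.IsCyclicallyReduced (g⁻¹ * x0 * g).toWord := by
    intro h
    have := h1 x0 hx0 g (R1_cyc _ h)
    omega
  obtain ⟨a, L, hL⟩ := R1_split _ hxn
  obtain ⟨y0, hy0, hy1⟩ := Finset.exists_mem_eq_sup A hA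
    fun x => FreeGroup.norm ((g * R1_e a)⁻¹ * x * (g * R1_e a))
  have hy2 : M g ≤ FreeGroup.norm ((R1_e a)⁻¹ * (g⁻¹ * y0 * g) * R1_e a) := by
    have h3 : (g * R1_e a)⁻¹ * y0 * (g * R1_e a) = (R1_e a)⁻¹ * (g⁻¹ * y0 * g) * R1_e a := by
      group
    have h4 : M (g * R1_e a) = FreeGroup.norm ((g * R1_e a)⁻¹ * y0 * (g * R1_e a)) := hy1
    rw [← h3, ← h4]
    exact hg _
  have hy3 := R1_le (g⁻¹ * y0 * g) a
  have hy4 := hle g y0 hy0
  have hyn : ¬ FreeGroup.IsCyclicallyReduced (g⁻¹ * y0 * g).toWord := by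
    intro h
    have := h1 y0 hy0 g (R1_cyc _ h)
    omega
  obtain ⟨b, K, hK⟩ := R1_split _ hyn
  have hab : a ≠ b := by
    rintro rfl
    have := R1_conj _ a K hK
    omega
  obtain ⟨h5, h6⟩ := R1_prod _ _ a b L K hL hK hab
  have h7 : g⁻¹ * (x0 * y0) * g = g⁻¹ * x0 * g * (g⁻¹ * y0 * g) := by group
  have h8 := h2 x0 hx0 y0 hy0 g (by rw [h7]; exact R1_cyc _ h6)
  rw [h7, h5] at h8
  omega

end

end Pool.Agent.Lib.MP_35fb4b_lc.SR
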