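import Mathlib
import Pool.Agent.Lib.MP_35fb4b_lc.SR.Defs

/-!
Module SR-T1: the elementary criterion of Zuk for the Fano triangle group.
-/

set_option autoImplicit false

namespace Pool.Agent.Lib.MP_35fb4b_lc.SR

open scoped Classical

noncomputable section

section hilbert

variable {V : Type} [SeminormedAddCommGroup V] [InnerProductSpace ℝ V]

omit [InnerProductSpace ℝ V] in
private theorem t1_var (f : ZMod 7 → V) : ‖∑ c, f c‖ ^ 2 ≤ 7 * ∑ c, ‖f c‖ ^ 2 := by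
  have h1 : ‖∑ c, f c‖ ≤ ∑ c, ‖f c‖ := norm_sum_le _ _
  have h2 : (∑ c, ‖f c‖) ^ 2 ≤ (Finset.univ : Finset (ZMod 7)).card * ∑ c, ‖f c‖ ^ 2 :=
    sq_sum_le_card_mul_sum_sq
  have h3 : ((Finset.univ : Finset (ZMod 7)).card : ℝ) = 7 := by
    rw [Finset.card_univ, ZMod.card]
    norm_num
  rw [h3] at h2
  have h4 : ‖∑ c, f c‖ ^ 2 ≤ (∑ c, ‖f c‖) ^ 2 := pow_le_pow_left₀ (norm_nonneg _) h1 2
  linarith

private theorem t1_shift {E : Type} [AddCommMonoid E] (f : ZMod 7 → E) (s : ZMod 7) :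
    ∑ c, f (c + s) = ∑ c, f c := Equiv.sum_comp (Equiv.addRight s) f

/-- correlations -/
private def t1_C (u : ZMod 7 → V) (d : ZMod 7) : ℝ := ∑ a, inner ℝ (u a) (u (a + d))

private theorem t1_corr (u : ZMod 7 → V) (s t : ZMod 7) :
    ∑ c, inner ℝ (u (c + s)) (u (c + t)) = t1_C u (t - s) := by
  rw [t1_C, ← t1_shift (fun a => inner ℝ (u a) (u (a + (t - s)))) s]
  refine Finset.sum_congr rfl fun c _ => ?_
  have : c + s + (t - s) = c + t := by ring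
  rw [this]

private theorem t1_sumC (u : ZMod 7 → V) : ∑ d, t1_C u d = ‖∑ a, u a‖ ^ 2 := by
  unfold t1_C
  rw [Finset.sum_comm, ← real_inner_self_eq_norm_sq, sum_inner]
  refine Finset.sum_congr rfl fun a _ => ?_
  rw [inner_sum]
  have h := t1_shift (fun d => inner ℝ (u a) (u d)) a
  rw [← h]
  refine Finset.sum_congr rfl fun d _ => ?_
  rw [add_comm]

private theorem t1_m (u : ZMod 7 → V) : ∑ c, ‖u (c + 1) + u (c + 2) + u (c + 4)‖ ^ 2 =
    2 * ∑ a, ‖u a‖ ^ 2 + ‖∑ a, u a‖ ^ 2 := by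
  have h0 : ∑ a, ‖u a‖ ^ 2 = t1_C u 0 := by
    unfold t1_C
    refine Finset.sum_congr rfl fun a _ => ?_
    rw [add_zero, real_inner_self_eq_norm_sq]
  have h1 : ∑ c, ‖u (c + 1) + u (c + 2) + u (c + 4)‖ ^ 2 =
      t1_C u (1 - 1) + t1_C u (2 - 1) + t1_C u (4 - 1) + t1_C u (1 - 2) + t1_C u (2 - 2) +
        t1_C u (4 - 2) + t1_C u (1 - 4) + t1_C u (2 - 4) + t1_C u (4 - 4) := by
    rw [← t1_corr, ← t1_corr, ← t1_corr, ← t1_corr, ← t1_corr, ← t1_corr, ← t1_corr, ← t1_corr,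
      ← t1_corr, ← Finset.sum_add_distrib, ← Finset.sum_add_distrib, ← Finset.sum_add_distrib,
      ← Finset.sum_add_distrib, ← Finset.sum_add_distrib, ← Finset.sum_add_distrib,
      ← Finset.sum_add_distrib, ← Finset.sum_add_distrib]
    refine Finset.sum_congr rfl fun c _ => ?_
    rw [← real_inner_self_eq_norm_sq]
    simp only [inner_add_left, inner_add_right]
    ring
  have h2 : ∑ d, t1_C u d = t1_C u 0 + t1_C u 1 + t1_C u 2 + t1_C u 3 + t1_C u 4 + t1_C u 5 +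
      t1_C u 6 := Fin.sum_univ_seven (fun d : Fin 7 => t1_C u d)
  rw [← t1_sumC, h2, h0, h1]
  have e1 : (1 : ZMod 7) - 1 = 0 := by decide
  have e2 : (2 : ZMod 7) - 1 = 1 := by decide
  have e3 : (4 : ZMod 7) - 1 = 3 := by decide
  have e4 : (1 : ZMod 7) - 2 = 6 := by decide
  have e5 : (2 : ZMod 7) - 2 = 0 := by decide
  have e6 : (4 : ZMod 7) - 2 = 2 := by decide
  have e7 : (1 : ZMod 7) - 4 = 4 := by decide
  have e8 : (2 : ZMod 7) - 4 = 5 := by decide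
  have e9 : (4 : ZMod 7) - 4 = 0 := by decide
  rw [e1, e2, e3, e4, e5, e6, e7, e8, e9]
  ring

private theorem t1_poin (u w : ZMod 7 → V) :
    11 / 7 * (∑ a, ‖u a‖ ^ 2 + ∑ c, ‖w c‖ ^ 2 - 1 / 14 * ‖∑ a, u a + ∑ c, w c‖ ^ 2) ≤
      ∑ c, (‖u (c + 1) - w c‖ ^ 2 + ‖u (c + 2) - w c‖ ^ 2 + ‖u (c + 4) - w c‖ ^ 2) := by
  obtain ⟨U, hU⟩ : ∃ U, U = ∑ a, u a := ⟨_, rfl⟩
  obtain ⟨W, hW⟩ : ∃ W, W = ∑ c, w c := ⟨_, rfl⟩
  let m : ZMod 7 → V := fun c => u (c + 1) + u (c + 2) + u (c + 4)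
  obtain ⟨E, hE⟩ : ∃ E : ℝ, E = ∑ c, inner ℝ (w c) (m c) := ⟨_, rfl⟩
  have hm : ∑ c, m c = (3 : ℝ) • U := by
    rw [Finset.sum_add_distrib, Finset.sum_add_distrib, t1_shift, t1_shift, t1_shift, ← hU]
    module
  have hm2 := t1_m u
  have hs := fun s => t1_shift (fun a => ‖u a‖ ^ 2) s
  have h1 : ∑ c, (‖u (c + 1) - w c‖ ^ 2 + ‖u (c + 2) - w c‖ ^ 2 + ‖u (c + 4) - w c‖ ^ 2) =
      3 * ∑ a, ‖u a‖ ^ 2 + 3 * ∑ c, ‖w c‖ ^ 2 - 2 * E := by
    have h2 : ∀ c, ‖u (c + 1) - w c‖ ^ 2 + ‖u (c + 2) - w c‖ ^ 2 + ‖u (c + 4) - w c‖ ^ 2 =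
        ‖u (c + 1)‖ ^ 2 + ‖u (c + 2)‖ ^ 2 + ‖u (c + 4)‖ ^ 2 + 3 * ‖w c‖ ^ 2 -
          2 * inner ℝ (w c) (m c) := by
      intro c
      rw [norm_sub_sq_real, norm_sub_sq_real, norm_sub_sq_real]
      change _ = _ - 2 * inner ℝ (w c) (u (c + 1) + u (c + 2) + u (c + 4))
      rw [inner_add_right, inner_add_right, real_inner_comm (w c) (u (c + 1)),
        real_inner_comm (w c) (u (c + 2)), real_inner_comm (w c) (u (c + 4))]
      ring
    rw [Finset.sum_congr rfl fun c _ => h2 c, Finset.sum_sub_distrib, Finset.sum_add_distrib,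
      Finset.sum_add_distrib, Finset.sum_add_distrib, hs, hs, hs, ← Finset.mul_sum,
      ← Finset.mul_sum, ← hE]
    ring
  have h3 := t1_var (fun c => w c - (7 / 10 : ℝ) • m c)
  have h4 : ∑ c, (w c - (7 / 10 : ℝ) • m c) = W - (21 / 10 : ℝ) • U := by
    rw [Finset.sum_sub_distrib, ← Finset.smul_sum, hm, ← hW, smul_smul]
    norm_num
  have h5 : ∑ c, ‖w c - (7 / 10 : ℝ) • m c‖ ^ 2 = ∑ c, ‖w c‖ ^ 2 - 7 / 5 * E +
      49 / 100 * (2 * ∑ a, ‖u a‖ ^ 2 + ‖∑ a, u a‖ ^ 2) := by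
    have h6 : ∀ c, ‖w c - (7 / 10 : ℝ) • m c‖ ^ 2 = ‖w c‖ ^ 2 - 7 / 5 * inner ℝ (w c) (m c) +
        49 / 100 * ‖m c‖ ^ 2 := by
      intro c
      rw [norm_sub_sq_real, inner_smul_right, norm_smul, mul_pow, Real.norm_eq_abs, sq_abs]
      ring
    rw [Finset.sum_congr rfl fun c _ => h6 c, Finset.sum_add_distrib, Finset.sum_sub_distrib,
      ← Finset.mul_sum, ← Finset.mul_sum, ← hE, ← hm2]
  have h7 := t1_var u
  have h8 : ‖W - (21 / 10 : ℝ) • U‖ ^ 2 = ‖W‖ ^ 2 - 21 / 5 * inner ℝ U W + 441 / 100 * ‖U‖ ^ 2 := by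
    rw [norm_sub_sq_real, inner_smul_right, norm_smul, mul_pow, Real.norm_eq_abs, sq_abs,
      real_inner_comm]
    ring
  have h9 : 0 ≤ ‖U - W‖ ^ 2 := sq_nonneg _
  rw [norm_sub_sq_real] at h9
  have h10 : ‖U + W‖ ^ 2 = ‖U‖ ^ 2 + 2 * inner ℝ U W + ‖W‖ ^ 2 := norm_add_sq_real U W
  rw [h4, h5, h8, ← hU] at h3
  rw [← hU] at h7
  rw [h1, ← hU, ← hW, h10]
  linarith

variable {Δ : Type} [Group Δ]

/-- a representation by isometries -/
private def t1_Iso (π : Δ →* (V →ₗ[ℝ] V)) : Prop :=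
  ∀ g v w, inner ℝ (π g v) (π g w) = inner ℝ v w

private theorem t1_norm {π : Δ →* (V →ₗ[ℝ] V)} (hπ : t1_Iso π) (g : Δ) (v : V) :
    ‖π g v‖ = ‖v‖ := by
  have h1 := hπ g v v
  rw [real_inner_self_eq_norm_sq, real_inner_self_eq_norm_sq] at h1
  exact (pow_left_inj₀ (norm_nonneg _) (norm_nonneg _) two_ne_zero).1 h1

private theorem t1_mul (π : Δ →* (V →ₗ[ℝ] V)) (g h : Δ) (v : V) : π (g * h) v = π g (π h v) := by
  rw [map_mul]
  rfl

private theorem t1_adj {π : Δ →* (V →ₗ[ℝ] V)} (hπ : t1_Iso π) (g : Δ) (v w : V) :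
    inner ℝ (π g v) w = inner ℝ v (π g⁻¹ w) := by
  have h1 := hπ g v (π g⁻¹ w)
  rw [← t1_mul, mul_inv_cancel, map_one] at h1
  exact h1

/-- `1 - (1 / 14) ∑ (π (x j) + π (x j)⁻¹)` -/
private def t1_D (π : Δ →* (V →ₗ[ℝ] V)) (x : ZMod 7 → Δ) : V →ₗ[ℝ] V :=
  LinearMap.id - (1 / 14 : ℝ) • ∑ j, (π (x j) + π (x j)⁻¹)

private theorem t1_D_apply (π : Δ →* (V →ₗ[ℝ] V)) (x : ZMod 7 → Δ) (v : V) :
    t1_D π x v = v - (1 / 14 : ℝ) • ∑ j, (π (x j) v + π (x j)⁻¹ v) := by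
  unfold t1_D
  rw [LinearMap.sub_apply, LinearMap.smul_apply, LinearMap.sum_apply]
  rfl

private theorem t1_D_symm {π : Δ →* (V →ₗ[ℝ] V)} (hπ : t1_Iso π) (x : ZMod 7 → Δ) (v w : V) :
    inner ℝ (t1_D π x v) w = inner ℝ v (t1_D π x w) := by
  rw [t1_D_apply, t1_D_apply, inner_sub_left, inner_sub_right, real_inner_smul_left,
    real_inner_smul_right, sum_inner, inner_sum]
  congr 2
  refine Finset.sum_congr rfl fun j _ => ?_
  rw [inner_add_left, inner_add_right, t1_adj hπ, t1_adj hπ, inv_inv]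
  ring

/-- the energy -/
private def t1_N (π : Δ →* (V →ₗ[ℝ] V)) (x : ZMod 7 → Δ) (v : V) : ℝ := ∑ b, ‖v - π (x b) v‖ ^ 2

private theorem t1_sq {π : Δ →* (V →ₗ[ℝ] V)} (hπ : t1_Iso π) (g : Δ) (v : V) :
    ‖v - π g v‖ ^ 2 = 2 * ‖v‖ ^ 2 - 2 * inner ℝ (π g v) v := by
  rw [norm_sub_sq_real, t1_norm hπ, real_inner_comm]
  ring

private theorem t1_D_inner {π : Δ →* (V →ₗ[ℝ] V)} (hπ : t1_Iso π) (x : ZMod 7 → Δ) (v : V) :
    14 * inner ℝ (t1_D π x v) v = t1_N π x v := by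
  unfold t1_N
  rw [t1_D_apply, inner_sub_left, real_inner_smul_left, sum_inner, real_inner_self_eq_norm_sq]
  have h1 : ∀ j, inner ℝ (π (x j) v + π (x j)⁻¹ v) v = 2 * inner ℝ (π (x j) v) v := by
    intro j
    rw [inner_add_left, t1_adj hπ (x j)⁻¹, inv_inv, real_inner_comm (π (x j) v) v]
    ring
  rw [Finset.sum_congr rfl fun j _ => h1 j, Finset.sum_congr rfl fun j _ => t1_sq hπ (x j) v,
    Finset.sum_sub_distrib, ← Finset.mul_sum, ← Finset.mul_sum, Finset.sum_const,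
    Finset.card_univ, ZMod.card]
  simp only [nsmul_eq_mul]
  push_cast
  ring

private theorem t1_D_nonneg {π : Δ →* (V →ₗ[ℝ] V)} (hπ : t1_Iso π) (x : ZMod 7 → Δ) (v : V) :
    0 ≤ inner ℝ (t1_D π x v) v := by
  have h1 := t1_D_inner hπ x v
  have h2 : 0 ≤ t1_N π x v := Finset.sum_nonneg fun b _ => sq_nonneg _
  linarith

private theorem t1_D_le {π : Δ →* (V →ₗ[ℝ] V)} (hπ : t1_Iso π) (x : ZMod 7 → Δ) (v : V) :
    inner ℝ (t1_D π x v) v ≤ 2 * ‖v‖ ^ 2 := by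
  have h1 := t1_D_inner hπ x v
  have h2 : t1_N π x v ≤ 7 * (4 * ‖v‖ ^ 2) := by
    unfold t1_N
    have h3 : ∑ b, ‖v - π (x b) v‖ ^ 2 ≤ ∑ b : ZMod 7, 4 * ‖v‖ ^ 2 := by
      refine Finset.sum_le_sum fun b _ => ?_
      have h4 : ‖v - π (x b) v‖ ≤ ‖v‖ + ‖v‖ := by
        have h5 := norm_sub_le v (π (x b) v)
        rwa [t1_norm hπ] at h5
      nlinarith [norm_nonneg (v - π (x b) v), norm_nonneg v]
    rw [Finset.sum_const, Finset.card_univ, ZMod.card, nsmul_eq_mul] at h3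
    exact_mod_cast h3
  linarith

private theorem t1_D_sq {π : Δ →* (V →ₗ[ℝ] V)} (hπ : t1_Iso π) (x : ZMod 7 → Δ) (v : V) :
    ‖t1_D π x v‖ ^ 2 ≤ 2 * inner ℝ (t1_D π x v) v := by
  obtain ⟨w, hw⟩ : ∃ w, w = t1_D π x v := ⟨_, rfl⟩
  have h1 := t1_D_nonneg hπ x ((2 : ℝ) • v - w)
  have h2 := t1_D_le hπ x w
  have h3 : inner ℝ (t1_D π x w) v = ‖w‖ ^ 2 := by
    rw [t1_D_symm hπ, ← hw, real_inner_self_eq_norm_sq]
  rw [map_sub, map_smul, ← hw, inner_sub_left, inner_sub_right, inner_sub_right,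
    real_inner_smul_left, real_inner_smul_left, real_inner_smul_right, real_inner_smul_right,
    real_inner_self_eq_norm_sq, h3] at h1
  rw [← hw]
  linarith

/-- the spectral gap -/
private theorem t1_gap {π : Δ →* (V →ₗ[ℝ] V)} (hπ : t1_Iso π) (x : ZMod 7 → Δ)
    (hx : ∀ j, x j * x (j + 1) * x (j + 3) = 1) (v : V) :
    inner ℝ (t1_D π x v) v ≤ 11 * ‖t1_D π x v‖ ^ 2 := by
  have h1 := t1_poin (fun a => π (x a) v) (fun c => π (x c)⁻¹ v)
  have hedge : ∀ a b c : ZMod 7, x a * x b * x c = 1 →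
      ‖π (x a) v - π (x c)⁻¹ v‖ ^ 2 = ‖v - π (x b) v‖ ^ 2 := by
    intro a b c habc
    have h2 : π (x c)⁻¹ v = π (x a) (π (x b) v) := by
      rw [← t1_mul]
      congr 2
      exact (eq_inv_of_mul_eq_one_left habc).symm
    rw [h2, ← map_sub, t1_norm hπ]
  have h2 : ∑ c, (‖π (x (c + 1)) v - π (x c)⁻¹ v‖ ^ 2 + ‖π (x (c + 2)) v - π (x c)⁻¹ v‖ ^ 2 +
      ‖π (x (c + 4)) v - π (x c)⁻¹ v‖ ^ 2) = 3 * t1_N π x v := by
    have h3 : ∀ c, ‖π (x (c + 1)) v - π (x c)⁻¹ v‖ ^ 2 + ‖π (x (c + 2)) v - π (x c)⁻¹ v‖ ^ 2 +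
      ‖π (x (c + 4)) v - π (x c)⁻¹ v‖ ^ 2 = ‖v - π (x (c + 3)) v‖ ^ 2 +
        ‖v - π (x (c + 6)) v‖ ^ 2 + ‖v - π (x (c + 5)) v‖ ^ 2 := by
      intro c
      rw [hedge (c + 1) (c + 3) c, hedge (c + 2) (c + 6) c, hedge (c + 4) (c + 5) c]
      · have h4 := hx (c + 4)
        have e1 : c + 4 + 1 = c + 5 := by ring
        have e2 : c + 4 + 3 = c := by
          rw [add_assoc]
          have : (4 : ZMod 7) + 3 = 0 := by decide
          rw [this, add_zero]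
        rw [e1, e2] at h4
        exact h4
      · have h4 := hx (c + 6)
        have e1 : c + 6 + 1 = c := by
          rw [add_assoc]
          have : (6 : ZMod 7) + 1 = 0 := by decide
          rw [this, add_zero]
        have e2 : c + 6 + 3 = c + 2 := by
          rw [add_assoc]
          have : (6 : ZMod 7) + 3 = 2 := by decide
          rw [this]
        rw [e1, e2] at h4
        rw [mul_assoc]
        exact mul_eq_one_iff_eq_inv.2 (eq_inv_of_mul_eq_one_right h4 ▸ rfl)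
      · have h4 := hx c
        rw [mul_assoc] at h4
        exact mul_eq_one_iff_eq_inv.2 (eq_inv_of_mul_eq_one_right h4 ▸ rfl)
    have hs := fun s => t1_shift (fun a => ‖v - π (x a) v‖ ^ 2) s
    rw [Finset.sum_congr rfl fun c _ => h3 c, Finset.sum_add_distrib, Finset.sum_add_distrib, hs,
      hs, hs]
    unfold t1_N
    ring
  have h3 : ∑ a, ‖π (x a) v‖ ^ 2 = 7 * ‖v‖ ^ 2 := by
    rw [Finset.sum_congr rfl fun a _ => by rw [t1_norm hπ], Finset.sum_const, Finset.card_univ,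
      ZMod.card, nsmul_eq_mul]
    norm_num
  have h4 : ∑ a, ‖π (x a)⁻¹ v‖ ^ 2 = 7 * ‖v‖ ^ 2 := by
    rw [Finset.sum_congr rfl fun a _ => by rw [t1_norm hπ], Finset.sum_const, Finset.card_univ,
      ZMod.card, nsmul_eq_mul]
    norm_num
  have h5 : ∑ a, π (x a) v + ∑ c, π (x c)⁻¹ v = (14 : ℝ) • (v - t1_D π x v) := by
    rw [t1_D_apply, ← Finset.sum_add_distrib, sub_sub_cancel, smul_smul]
    norm_num
  have h6 := t1_D_inner hπ x v
  rw [h2, h3, h4, h5, norm_smul, mul_pow, norm_sub_sq_real, real_inner_comm, Real.norm_eq_abs,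
    sq_abs] at h1
  linarith

/-- the averaging operator -/
private def t1_A (π : Δ →* (V →ₗ[ℝ] V)) (x : ZMod 7 → Δ) : V →ₗ[ℝ] V :=
  LinearMap.id - (1 / 2 : ℝ) • t1_D π x

private theorem t1_A_apply (π : Δ →* (V →ₗ[ℝ] V)) (x : ZMod 7 → Δ) (v : V) :
    t1_A π x v = v - (1 / 2 : ℝ) • t1_D π x v := rfl

private theorem t1_A_D (π : Δ →* (V →ₗ[ℝ] V)) (x : ZMod 7 → Δ) (v : V) :
    t1_D π x (t1_A π x v) = t1_A π x (t1_D π x v) := by
  rw [t1_A_apply, t1_A_apply, map_sub, map_smul]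

private theorem t1_gap2 {π : Δ →* (V →ₗ[ℝ] V)} (hπ : t1_Iso π) (x : ZMod 7 → Δ)
    (hx : ∀ j, x j * x (j + 1) * x (j + 3) = 1) (v : V) :
    ‖t1_D π x v‖ ^ 2 ≤ 11 * inner ℝ (t1_D π x (t1_D π x v)) (t1_D π x v) := by
  obtain ⟨w, hw⟩ : ∃ w, w = t1_D π x v := ⟨_, rfl⟩
  have h1 := t1_D_nonneg hπ x (v - (11 : ℝ) • w)
  have h2 := t1_gap hπ x hx v
  have h3 : inner ℝ (t1_D π x w) v = ‖w‖ ^ 2 := by
    rw [t1_D_symm hπ, ← hw, real_inner_self_eq_norm_sq]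
  rw [map_sub, map_smul, ← hw, inner_sub_left, inner_sub_right, inner_sub_right,
    real_inner_smul_left, real_inner_smul_left, real_inner_smul_right, real_inner_smul_right,
    real_inner_self_eq_norm_sq, h3] at h1
  rw [← hw] at h2 ⊢
  linarith

private theorem t1_contract {π : Δ →* (V →ₗ[ℝ] V)} (hπ : t1_Iso π) (x : ZMod 7 → Δ)
    (hx : ∀ j, x j * x (j + 1) * x (j + 3) = 1) (v : V) :
    ‖t1_D π x (t1_A π x v)‖ ≤ 43 / 44 * ‖t1_D π x v‖ := by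
  rw [t1_A_D]
  obtain ⟨w, hw⟩ : ∃ w, w = t1_D π x v := ⟨_, rfl⟩
  have h1 := t1_gap2 hπ x hx v
  rw [← hw] at h1 ⊢
  have h2 := t1_D_sq hπ x w
  have h3 : ‖t1_A π x w‖ ^ 2 = ‖w‖ ^ 2 - inner ℝ (t1_D π x w) w + 1 / 4 * ‖t1_D π x w‖ ^ 2 := by
    rw [t1_A_apply, norm_sub_sq_real, real_inner_smul_right, norm_smul, mul_pow, Real.norm_eq_abs,
      sq_abs, real_inner_comm]
    ring
  have h4 : ‖t1_A π x w‖ ^ 2 ≤ (43 / 44 * ‖w‖) ^ 2 := by
    rw [h3, mul_pow]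
    nlinarith [sq_nonneg ‖w‖]
  exact (pow_le_pow_iff_left₀ (norm_nonneg _) (by positivity) two_ne_zero).1 h4

private theorem t1_iter {π : Δ →* (V →ₗ[ℝ] V)} (hπ : t1_Iso π) (x : ZMod 7 → Δ)
    (hx : ∀ j, x j * x (j + 1) * x (j + 3) = 1) (v : V) (n : ℕ) :
    ‖t1_D π x ((t1_A π x)^[n] v)‖ ≤ (43 / 44) ^ n * ‖t1_D π x v‖ ∧
      ‖v - (t1_A π x)^[n] v‖ ≤ 22 * (1 - (43 / 44) ^ n) * ‖t1_D π x v‖ := by
  induction n with
  | zero => simp
  | succ n ih =>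
    obtain ⟨h1, h2⟩ := ih
    rw [Function.iterate_succ_apply']
    obtain ⟨w, hw⟩ : ∃ w, w = (t1_A π x)^[n] v := ⟨_, rfl⟩
    rw [← hw] at h1 h2 ⊢
    constructor
    · calc ‖t1_D π x (t1_A π x w)‖ ≤ 43 / 44 * ‖t1_D π x w‖ := t1_contract hπ x hx w
        _ ≤ 43 / 44 * ((43 / 44) ^ n * ‖t1_D π x v‖) := by
            apply mul_le_mul_of_nonneg_left h1
            norm_num
        _ = _ := by ring
    · have h3 : v - t1_A π x w = (v - w) + (1 / 2 : ℝ) • t1_D π x w := by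
        rw [t1_A_apply]
        module
      calc ‖v - t1_A π x w‖ ≤ ‖v - w‖ + ‖(1 / 2 : ℝ) • t1_D π x w‖ := by
            rw [h3]
            exact norm_add_le _ _
        _ = ‖v - w‖ + 1 / 2 * ‖t1_D π x w‖ := by
            rw [norm_smul]
            norm_num
        _ ≤ 22 * (1 - (43 / 44) ^ n) * ‖t1_D π x v‖ + 1 / 2 * ((43 / 44) ^ n * ‖t1_D π x v‖) := by
            apply add_le_add h2
            apply mul_le_mul_of_nonneg_left h1
            norm_num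
        _ = _ := by ring

private theorem t1_near {π : Δ →* (V →ₗ[ℝ] V)} (hπ : t1_Iso π) (x : ZMod 7 → Δ)
    (hx : ∀ j, x j * x (j + 1) * x (j + 3) = 1) (v : V) (γ : Δ)
    (hγ : γ ∈ Subgroup.closure (Set.range x)) :
    ∃ L : ℝ, 0 ≤ L ∧ ∀ n : ℕ, ‖(t1_A π x)^[n] v - π γ ((t1_A π x)^[n] v)‖ ≤
      L * ((43 / 44) ^ n * ‖t1_D π x v‖) := by
  induction hγ using Subgroup.closure_induction with
  | mem g hg =>
    obtain ⟨b, rfl⟩ := hg
    refine ⟨13, by norm_num, fun n => ?_⟩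
    obtain ⟨w, hw⟩ : ∃ w, w = (t1_A π x)^[n] v := ⟨_, rfl⟩
    have h1 := (t1_iter hπ x hx v n).1
    rw [← hw] at h1 ⊢
    have h2 : ‖w - π (x b) w‖ ^ 2 ≤ t1_N π x w :=
      Finset.single_le_sum (f := fun b => ‖w - π (x b) w‖ ^ 2) (fun b _ => sq_nonneg _)
        (Finset.mem_univ b)
    have h3 := t1_D_inner hπ x w
    have h4 := t1_gap hπ x hx w
    have h5 : ‖w - π (x b) w‖ ^ 2 ≤ (13 * ‖t1_D π x w‖) ^ 2 := by
      nlinarith [sq_nonneg ‖t1_D π x w‖]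
    have h6 : ‖w - π (x b) w‖ ≤ 13 * ‖t1_D π x w‖ :=
      (pow_le_pow_iff_left₀ (norm_nonneg _) (by positivity) two_ne_zero).1 h5
    linarith
  | one =>
    refine ⟨0, le_refl 0, fun n => ?_⟩
    rw [map_one]
    simp
  | mul g h _ _ hg hh =>
    obtain ⟨L, hL0, hL⟩ := hg
    obtain ⟨L', hL0', hL'⟩ := hh
    refine ⟨L + L', by positivity, fun n => ?_⟩
    obtain ⟨w, hw⟩ : ∃ w, w = (t1_A π x)^[n] v := ⟨_, rfl⟩
    have h1 := hL n
    have h2 := hL' n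
    rw [← hw] at h1 h2 ⊢
    have h3 : w - π (g * h) w = (w - π g w) + π g (w - π h w) := by
      rw [t1_mul, map_sub]
      abel
    rw [h3, add_mul]
    refine (norm_add_le _ _).trans (add_le_add h1 ?_)
    rw [t1_norm hπ]
    exact h2
  | inv g _ hg =>
    obtain ⟨L, hL0, hL⟩ := hg
    refine ⟨L, hL0, fun n => ?_⟩
    obtain ⟨w, hw⟩ : ∃ w, w = (t1_A π x)^[n] v := ⟨_, rfl⟩
    have h1 := hL n
    rw [← hw] at h1 ⊢
    have h3 : w - π g⁻¹ w = -(π g⁻¹ (w - π g w)) := by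
      rw [map_sub, ← t1_mul, inv_mul_cancel, map_one]
      simp
    rw [h3, norm_neg, t1_norm hπ]
    exact h1

private theorem t1_zuk {π : Δ →* (V →ₗ[ℝ] V)} (hπ : t1_Iso π) (x : ZMod 7 → Δ)
    (hx : ∀ j, x j * x (j + 1) * x (j + 3) = 1) (v : V) (ε : ℝ)
    (hε : ∀ j, ‖v - π (x j) v‖ ^ 2 ≤ 2 * ε) (γ : Δ)
    (hγ : γ ∈ Subgroup.closure (Set.range x)) : ‖v - π γ v‖ ^ 2 ≤ 2 * (1936 * ε) := by
  obtain ⟨d, hd⟩ : ∃ d, d = ‖t1_D π x v‖ := ⟨_, rfl⟩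
  have hd0 : 0 ≤ d := hd ▸ norm_nonneg _
  have h1 : d ^ 2 ≤ 2 * ε := by
    have h2 := t1_D_sq hπ x v
    have h3 := t1_D_inner hπ x v
    have h4 : t1_N π x v ≤ 7 * (2 * ε) := by
      have h5 : t1_N π x v ≤ ∑ _b : ZMod 7, 2 * ε := Finset.sum_le_sum fun b _ => hε b
      rw [Finset.sum_const, Finset.card_univ, ZMod.card, nsmul_eq_mul] at h5
      exact_mod_cast h5
    rw [hd]
    linarith
  obtain ⟨L, hL0, hL⟩ := t1_near hπ x hx v γ hγ
  have h2 : ∀ n : ℕ, ‖v - π γ v‖ ≤ 44 * d + L * d * (43 / 44) ^ n := by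
    intro n
    have h3 := (t1_iter hπ x hx v n).2
    have h4 := hL n
    rw [← hd] at h3 h4
    obtain ⟨w, hw⟩ : ∃ w, w = (t1_A π x)^[n] v := ⟨_, rfl⟩
    rw [← hw] at h3 h4
    have h5 : v - π γ v = (v - w) + (w - π γ w) + -(π γ (v - w)) := by
      rw [map_sub]
      abel
    have h6 : ‖v - π γ v‖ ≤ ‖v - w‖ + ‖w - π γ w‖ + ‖v - w‖ := by
      rw [h5]
      refine (norm_add_le _ _).trans (add_le_add (norm_add_le _ _) ?_)
      rw [norm_neg, t1_norm hπ]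
    have h7 : 0 ≤ (43 / 44 : ℝ) ^ n := by positivity
    have h8 : 22 * (1 - (43 / 44 : ℝ) ^ n) * d ≤ 22 * d := by
      have := mul_nonneg h7 hd0
      linarith
    calc ‖v - π γ v‖ ≤ ‖v - w‖ + ‖w - π γ w‖ + ‖v - w‖ := h6
      _ ≤ 22 * d + L * ((43 / 44) ^ n * d) + 22 * d := by linarith
      _ = _ := by ring
  have h3 : ‖v - π γ v‖ ≤ 44 * d := by
    have h4 : Filter.Tendsto (fun n : ℕ => 44 * d + L * d * (43 / 44 : ℝ) ^ n) Filter.atTop
        (nhds (44 * d + L * d * 0)) :=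
      (tendsto_const_nhds).add ((tendsto_pow_atTop_nhds_zero_of_lt_one (by norm_num)
        (by norm_num)).const_mul _)
    rw [mul_zero, add_zero] at h4
    exact ge_of_tendsto' h4 h2
  have h4 : ‖v - π γ v‖ ^ 2 ≤ (44 * d) ^ 2 := pow_le_pow_left₀ (norm_nonneg _) h3 2
  nlinarith

end hilbert

section gns

variable {Δ : Type} [Group Δ]

/-- the bilinear form of a function of positive type -/
private def t1_B (φ : Δ → ℝ) (a b : Δ →₀ ℝ) : ℝ :=
  a.sum fun g s => b.sum fun h t => s * t * φ (g⁻¹ * h)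

private theorem t1_B_symm {φ : Δ → ℝ} (hφ : PSD fun g h : Δ => φ (g⁻¹ * h)) (a b : Δ →₀ ℝ) :
    t1_B φ b a = t1_B φ a b := by
  unfold t1_B
  rw [Finsupp.sum_comm]
  refine Finsupp.sum_congr fun g _ => Finsupp.sum_congr fun h _ => ?_
  have h1 : φ (g⁻¹ * h) = φ (h⁻¹ * g) := hφ.1 g h
  rw [h1]
  ring

private theorem t1_B_add (φ : Δ → ℝ) (a b c : Δ →₀ ℝ) :
    t1_B φ (a + b) c = t1_B φ a c + t1_B φ b c := by
  unfold t1_B
  rw [Finsupp.sum_add_index']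
  · intro g
    simp
  · intro g s t
    rw [← Finsupp.sum_add]
    refine Finsupp.sum_congr fun h _ => ?_
    ring

private theorem t1_B_smul (φ : Δ → ℝ) (r : ℝ) (a c : Δ →₀ ℝ) :
    t1_B φ (r • a) c = r * t1_B φ a c := by
  unfold t1_B
  rw [Finsupp.sum_smul_index']
  · rw [Finsupp.mul_sum]
    refine Finsupp.sum_congr fun g _ => ?_
    rw [Finsupp.mul_sum]
    refine Finsupp.sum_congr fun h _ => ?_
    rw [smul_eq_mul]
    ring
  · intro g
    simp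

private theorem t1_B_nonneg {φ : Δ → ℝ} (hφ : PSD fun g h : Δ => φ (g⁻¹ * h)) (a : Δ →₀ ℝ) :
    0 ≤ t1_B φ a a := by
  have h1 := hφ.2 a.support.card (fun i => (a.support.equivFin.symm i : Δ))
    (fun i => a (a.support.equivFin.symm i : Δ))
  have h2 : t1_B φ a a = ∑ i, ∑ j, a (a.support.equivFin.symm i : Δ) *
      a (a.support.equivFin.symm j : Δ) *
        φ ((a.support.equivFin.symm i : Δ)⁻¹ * (a.support.equivFin.symm j : Δ)) := by
    unfold t1_B Finsupp.sum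
    rw [← Finset.sum_coe_sort, ← a.support.equivFin.symm.sum_comp]
    refine Finset.sum_congr rfl fun i _ => ?_
    change ∑ h ∈ a.support, a (a.support.equivFin.symm i : Δ) * a h *
      φ ((a.support.equivFin.symm i : Δ)⁻¹ * h) = _
    rw [← Finset.sum_coe_sort, ← a.support.equivFin.symm.sum_comp]
  rw [h2]
  exact h1

/-- the left regular representation -/
private def t1_rep (Δ : Type) [Group Δ] : Δ →* ((Δ →₀ ℝ) →ₗ[ℝ] (Δ →₀ ℝ)) where
  toFun g := Finsupp.lmapDomain ℝ ℝ (fun h => g * h)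
  map_one' := by
    refine LinearMap.ext fun a => ?_
    change Finsupp.mapDomain (fun h => 1 * h) a = a
    have h1 : (fun h : Δ => 1 * h) = id := by
      funext h
      rw [one_mul]
      rfl
    rw [h1, Finsupp.mapDomain_id]
  map_mul' g g' := by
    refine LinearMap.ext fun a => ?_
    change Finsupp.mapDomain (fun h => g * g' * h) a =
      Finsupp.mapDomain (fun h => g * h) (Finsupp.mapDomain (fun h => g' * h) a)
    rw [← Finsupp.mapDomain_comp]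
    congr 1
    funext h
    exact mul_assoc g g' h

private theorem t1_B_trans (φ : Δ → ℝ) (g : Δ) (a b : Δ →₀ ℝ) :
    t1_B φ (t1_rep Δ g a) (t1_rep Δ g b) = t1_B φ a b := by
  have h1 : ∀ a : Δ →₀ ℝ, t1_rep Δ g a =
      Finsupp.mapDomain (fun h => g * h) a := fun _ => rfl
  unfold t1_B
  rw [h1, h1, Finsupp.sum_mapDomain_index]
  · refine Finsupp.sum_congr fun h _ => ?_
    rw [Finsupp.sum_mapDomain_index]
    · refine Finsupp.sum_congr fun k _ => ?_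
      congr 2
      group
    · intro k
      simp
    · intro k s t
      ring
  · intro k
    simp
  · intro k s t
    rw [← Finsupp.sum_add]
    refine Finsupp.sum_congr fun h _ => ?_
    ring

end gns

theorem fano_T {Δ : Type} [Group Δ] (x : ZMod 7 → Δ)
    (hx : ∀ j, x j * x (j + 1) * x (j + 3) = 1) (φ : Δ → ℝ)
    (hφ : PSD fun g h : Δ => φ (g⁻¹ * h)) (ε : ℝ) (hε : ∀ j, φ 1 - φ (x j) ≤ ε) (γ : Δ)
    (hγ : γ ∈ Subgroup.closure (Set.range x)) : φ 1 - φ γ ≤ 1936 * ε := by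
  let cd : PreInnerProductSpace.Core ℝ (Δ →₀ ℝ) :=
    { inner := t1_B φ
      conj_inner_symm := fun a b => t1_B_symm hφ a b
      re_inner_nonneg := fun a => t1_B_nonneg hφ a
      add_left := fun a b c => t1_B_add φ a b c
      smul_left := fun a b r => t1_B_smul φ r a b }
  let i1 : SeminormedAddCommGroup (Δ →₀ ℝ) :=
    @InnerProductSpace.Core.toSeminormedAddCommGroup ℝ (Δ →₀ ℝ) _ _ _ cd
  let i2 : InnerProductSpace ℝ (Δ →₀ ℝ) := InnerProductSpace.ofCore cd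
  have hin : ∀ a b : Δ →₀ ℝ, inner ℝ a b = t1_B φ a b := fun _ _ => rfl
  have hiso : t1_Iso (V := Δ →₀ ℝ) (t1_rep Δ) := by
    intro g a b
    rw [hin, hin]
    exact t1_B_trans φ g a b
  obtain ⟨v, hv⟩ : ∃ v : Δ →₀ ℝ, v = Finsupp.single 1 1 := ⟨_, rfl⟩
  have hBs : ∀ g h : Δ, t1_B φ (Finsupp.single g 1) (Finsupp.single h 1) = φ (g⁻¹ * h) := by
    intro g h
    unfold t1_B
    rw [Finsupp.sum_single_index, Finsupp.sum_single_index]
    · ring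
    · simp
    · simp
  have hπv : ∀ g : Δ, t1_rep Δ g v = Finsupp.single g 1 := by
    intro g
    rw [hv]
    change Finsupp.mapDomain (fun h => g * h) (Finsupp.single 1 1) = _
    rw [Finsupp.mapDomain_single, mul_one]
  have hdist : ∀ g : Δ, ‖v - t1_rep Δ g v‖ ^ 2 = 2 * (φ 1 - φ g) := by
    intro g
    have h1 := t1_sq hiso g v
    rw [h1, ← real_inner_self_eq_norm_sq, hin, hin, hπv, hv, hBs, hBs, inv_one, one_mul, mul_one]
    have h2 : φ (1⁻¹ * g) = φ (g⁻¹ * 1) := hφ.1 1 g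
    rw [inv_one, one_mul, mul_one] at h2
    rw [h2]
    ring
  have h1 := t1_zuk hiso x hx v ε (fun j => by
    rw [hdist]
    have := hε j
    linarith) γ hγ
  rw [hdist] at h1
  linarith

end

end Pool.Agent.Lib.MP_35fb4b_lc.SR
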