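import Mathlib

/-!
# Branch vertices of subgroups of free groups (MP_35fb4b_lc): definition
-/

set_option autoImplicit false

namespace Pool.Agent.Lib.MP_35fb4b_lc.SR

/-- at least three letters begin infinitely many elements of `H` -/
def Branch {α : Type} [DecidableEq α] (H : Subgroup (FreeGroup α)) : Prop :=
  ∃ T : Finset (α × Bool), T.card = 3 ∧
    ∀ s ∈ T, {h : FreeGroup α | h ∈ H ∧ h.toWord.head? = some s}.Infinite

end Pool.Agent.Lib.MP_35fb4b_lc.SR
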