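import Pool.Agent.Lib.MP_35fb4b_lc.SR.W0

/-!
# Non-commutative subgroups of free groups have branch vertices (MP_35fb4b_lc)
-/

set_option autoImplicit false

namespace Pool.Agent.Lib.MP_35fb4b_lc.SR

open FreeGroup

section W1

variable {α : Type} [DecidableEq α]

theorem W1_toWord_mk (L : List (α × Bool)) (h : IsReduced L) : (mk L).toWord = L := by
  rw [toWord_mk, h.reduce_eq]

/-- the first letter is removed -/
theorem W1_head_step (g : FreeGroup α) (s : α × Bool) (h : g.toWord.head? = some s) :
    norm ((mk [s])⁻¹ * g) < norm g := by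
  obtain ⟨t, ht⟩ : ∃ t, g.toWord = s :: t := by
    cases hg : g.toWord with
    | nil => rw [hg] at h; simp at h
    | cons x t =>
      rw [hg] at h
      simp only [List.head?_cons, Option.some.injEq] at h
      exact ⟨t, by rw [h]⟩
  have h1 : (mk [s])⁻¹ * g = mk t := by
    have h2 : g = mk [s] * mk t := by
      rw [mul_mk, List.singleton_append, ← ht, mk_toWord]
    rw [h2, inv_mul_cancel_left]
  rw [h1]
  calc norm (mk t) ≤ t.length := norm_mk_le
    _ < norm g := by rw [FreeGroup.norm, ht]; simp

theorem W1_inv_letter (x : α × Bool) : (mk [(x.1, !x.2)] : FreeGroup α) = (mk [x])⁻¹ := by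
  simp [inv_mk, invRev]

/-- right multiplication by a letter does not change the first letter of a longer word -/
theorem W1_head_mul_letter (g : FreeGroup α) (x : α × Bool) (h : 2 ≤ norm g) :
    (g * mk [x]).toWord.head? = g.toWord.head? := by
  have hred : IsReduced g.toWord := isReduced_toWord
  rcases List.eq_nil_or_concat g.toWord with h0 | ⟨G, z, hG⟩
  · rw [FreeGroup.norm, h0] at h
    simp at h
  · rw [List.concat_eq_append] at hG
    rw [FreeGroup.norm, hG, List.length_append] at h
    have hGne : G ≠ [] := by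
      rintro rfl
      simp at h
    have hg : g = mk (G ++ [z]) := by rw [← hG, mk_toWord]
    rw [hG] at hred
    by_cases hz : z = (x.1, !x.2)
    · have h1 : g * mk [x] = mk G := by
        rw [hg, ← mul_mk, hz, W1_inv_letter, inv_mul_cancel_right]
      have h2 : IsReduced G := (List.isChain_append.1 hred).1
      rw [h1, W1_toWord_mk G h2, hG]
      cases G with
      | nil => exact absurd rfl hGne
      | cons y G => simp
    · have h2 : IsReduced (G ++ [z] ++ [x]) := by
        rw [FreeGroup.IsReduced, List.isChain_append]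
        refine ⟨hred, by simp, ?_⟩
        intro a ha b hb
        simp only [List.getLast?_append, List.getLast?_singleton, Option.some_or,
          Option.mem_def, Option.some.injEq, List.head?_cons] at ha hb
        subst ha
        subst hb
        intro h3
        by_contra h4
        apply hz
        refine Prod.ext h3 ?_
        simpa using Bool.eq_not_of_ne h4
      have h1 : g * mk [x] = mk (G ++ [z] ++ [x]) := by
        rw [hg, mul_mk]
      rw [h1, W1_toWord_mk _ h2, hG]
      cases G with
      | nil => exact absurd rfl hGne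
      | cons y G => simp

theorem W1_head_mul (W : List (α × Bool)) : ∀ g : FreeGroup α, W.length < norm g →
    (g * mk W).toWord.head? = g.toWord.head? := by
  induction W with
  | nil =>
    intro g _
    rw [← one_eq_mk, mul_one]
  | cons x W ih =>
    intro g hg
    rw [List.length_cons] at hg
    have h1 : (mk (x :: W) : FreeGroup α) = mk [x] * mk W := by
      rw [mul_mk, List.singleton_append]
    have h2 : norm g ≤ norm (g * mk [x]) + 1 := by
      have h3 := norm_mul_le (g * mk [x]) (mk [x])⁻¹
      rw [mul_inv_cancel_right, norm_inv_eq] at h3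
      have h4 : norm (mk [x]) ≤ 1 := by
        simpa using norm_mk_le (L₁ := [x])
      omega
    rw [h1, ← mul_assoc, ih (g * mk [x]) (by omega), W1_head_mul_letter g x (by omega)]

theorem W1_ball [Finite α] (n : ℕ) : {g : FreeGroup α | norm g ≤ n}.Finite := by
  have h := List.finite_length_le (α × Bool) n
  refine Set.Finite.of_finite_image (f := toWord) (h.subset ?_) toWord_injective.injOn
  rintro _ ⟨g, hg, rfl⟩
  exact hg

/-- From first letters seen from a vertex to first letters in a conjugate. -/
theorem W1_transport [Finite α] (K : Subgroup (FreeGroup α)) (w : FreeGroup α) (s : α × Bool)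
    (h : {k : FreeGroup α | k ∈ K ∧ (w * k).toWord.head? = some s}.Infinite) :
    {h : FreeGroup α | h ∈ K.map (MulAut.conj w).toMonoidHom ∧
      h.toWord.head? = some s}.Infinite := by
  have hfin : {k : FreeGroup α | norm (w * k) ≤ norm w}.Finite := by
    have h1 := W1_ball (α := α) (norm w)
    refine Set.Finite.of_finite_image (f := fun k => w * k) (h1.subset ?_)
      (mul_right_injective w).injOn
    rintro _ ⟨k, hk, rfl⟩
    exact hk
  have h2 := h.sdiff hfin
  have h3 := h2.image (f := fun k => w * k * w⁻¹)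
    (fun x _ y _ hxy => by
      have : w * x = w * y := mul_right_cancel hxy
      exact mul_left_cancel this)
  refine h3.mono ?_
  rintro _ ⟨k, ⟨⟨hkK, hk⟩, hk2⟩, rfl⟩
  refine ⟨⟨k, hkK, by simp [MulAut.conj_apply]⟩, ?_⟩
  have h4 : norm w < norm (w * k) := by
    simpa using hk2
  have h5 : (w⁻¹.toWord).length < norm (w * k) := by
    have : (w⁻¹.toWord).length = norm w := by
      rw [← norm_inv_eq]
      rfl
    omega
  have h6 := W1_head_mul w⁻¹.toWord (w * k) h5
  rw [mk_toWord] at h6
  change (w * k * w⁻¹).toWord.head? = some s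
  rw [h6]
  exact hk

/-- The segments of a periodic sequence of letters. -/
def W1seg (l : ℕ → α × Bool) (n q : ℕ) : List (α × Bool) :=
  (List.range q).map fun t => l (n + t)

theorem W1seg_succ (l : ℕ → α × Bool) (n q : ℕ) :
    W1seg l n (q + 1) = W1seg l n q ++ [l (n + q)] := by
  rw [W1seg, List.range_succ, List.map_append]
  rfl

theorem W1seg_cons (l : ℕ → α × Bool) (n q : ℕ) :
    W1seg l n (q + 1) = l n :: W1seg l (n + 1) q := by
  rw [W1seg, List.range_succ_eq_map, List.map_cons, List.map_map]
  congr 1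
  apply List.map_congr_left
  intro t _
  simp only [Function.comp]
  congr 1
  omega

theorem W1seg_add (l : ℕ → α × Bool) (n q r : ℕ) :
    W1seg l n (q + r) = W1seg l n q ++ W1seg l (n + q) r := by
  induction r with
  | zero => simp [W1seg]
  | succ r ih => rw [← Nat.add_assoc, W1seg_succ, ih, W1seg_succ, List.append_assoc, Nat.add_assoc]

theorem W1seg_red (l : ℕ → α × Bool) (hl : ∀ n, (l n).1 = (l (n + 1)).1 → (l n).2 = (l (n + 1)).2)
    (q : ℕ) : ∀ n, IsReduced (W1seg l n q) := by
  induction q with
  | zero => intro n; simp [W1seg, FreeGroup.IsReduced]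
  | succ q ih =>
    intro n
    rw [W1seg_cons, FreeGroup.IsReduced, List.isChain_cons]
    refine ⟨?_, ih (n + 1)⟩
    intro y hy
    cases q with
    | zero => simp [W1seg] at hy
    | succ q =>
      rw [W1seg_cons] at hy
      simp only [List.head?_cons, Option.mem_def, Option.some.injEq] at hy
      subst hy
      exact hl n

theorem W1_roots (x : FreeGroup α) (hx : x ≠ 1) (m n : ℕ) (h : x ^ m = x ^ n) : m = n := by
  by_contra hne
  have key : ∀ m n : ℕ, m < n → x ^ m = x ^ n → False := by
    intro m n hmn h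
    obtain ⟨d, rfl⟩ := Nat.exists_eq_add_of_lt hmn
    have h1 : x ^ (d + 1) = 1 := by
      have h2 : x ^ m * x ^ (d + 1) = x ^ m * 1 := by
        rw [← pow_add, mul_one, h]
        congr 1
      exact mul_left_cancel h2
    have h3 : x ^ (d + 1) = 1 ^ (d + 1) := by rw [h1, one_pow]
    exact hx (pow_left_injective (Nat.succ_ne_zero d) h3)
  rcases lt_or_gt_of_ne hne with h1 | h1
  · exact key m n h1 h
  · exact key n m h1 h.symm

/-- The main case: an element given by a periodic line. -/
theorem W1_main [Finite α] (K : Subgroup (FreeGroup α)) (a b : FreeGroup α) (ha : a ∈ K)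
    (hb : b ∈ K) (hab : a * b ≠ b * a) (l : ℕ → α × Bool) (p : ℕ) (hp : 1 ≤ p)
    (hl : ∀ n, (l n).1 = (l (n + 1)).1 → (l n).2 = (l (n + 1)).2)
    (hper : ∀ n, l (p + n) = l n) (hla : a = mk (W1seg l 0 p)) :
    ∃ w : FreeGroup α, Branch (K.map (MulAut.conj w).toMonoidHom) := by
  have ha1 : a ≠ 1 := by
    rintro rfl
    apply hab
    rw [one_mul, mul_one]
  set A : ℕ → FreeGroup α := fun n => mk (W1seg l 0 n) with hA
  have hA0 : A 0 = 1 := by simp [hA, W1seg, one_eq_mk]
  have hAadd : ∀ n q, A (n + q) = A n * mk (W1seg l n q) := by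
    intro n q
    simp only [hA]
    rw [W1seg_add, ← mul_mk, Nat.zero_add]
  have hAs : ∀ n, A (n + 1) = A n * mk [l n] := by
    intro n
    rw [hAadd n 1]
    simp [W1seg]
  have hAp : ∀ m, A (p + m) = a * A m := by
    intro m
    have h1 : W1seg l p m = W1seg l 0 m := by
      rw [W1seg, W1seg]
      apply List.map_congr_left
      intro t _
      rw [hper, Nat.zero_add]
    rw [hAadd, h1, hla]
  have hApow : ∀ m n, A (m * p + n) = a ^ m * A n := by
    intro m
    induction m with
    | zero => intro n; simp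
    | succ m ih =>
      intro n
      rw [Nat.succ_mul, show m * p + p + n = m * p + (p + n) by ring, ih, hAp, pow_succ]
      group
  have hperm : ∀ m n, l (m * p + n) = l n := by
    intro m
    induction m with
    | zero => intro n; simp
    | succ m ih =>
      intro n
      rw [Nat.succ_mul, show m * p + p + n = m * p + (p + n) by ring, ih, hper]
  -- the two letters of the line at a vertex
  have hs12 : ∀ n, 1 ≤ n → l n ≠ ((l (n - 1)).1, !(l (n - 1)).2) := by
    intro n hn h
    obtain ⟨n, rfl⟩ : ∃ n', n = n' + 1 := ⟨n - 1, by omega⟩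
    rw [Nat.add_sub_cancel] at h
    have h1 := hl n (by rw [h])
    rw [h] at h1
    simp at h1
  have hinf1 : ∀ n, {k : FreeGroup α | k ∈ K ∧ ((A n)⁻¹ * k).toWord.head? = some (l n)}.Infinite := by
    intro n
    have h1 : (Set.range fun m : ℕ => a ^ (m + n + 1)).Infinite := by
      refine Set.infinite_range_of_injective fun m m' h => ?_
      have := W1_roots a ha1 _ _ h
      omega
    refine h1.mono ?_
    rintro _ ⟨m, rfl⟩
    refine ⟨K.pow_mem ha _, ?_⟩
    have h2 : n < (m + n + 1) * p := by
      calc n < m + n + 1 := by omega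
        _ ≤ (m + n + 1) * p := Nat.le_mul_of_pos_right _ hp
    obtain ⟨d, hd⟩ := Nat.exists_eq_add_of_lt h2
    have h3 : a ^ (m + n + 1) = A (n + (d + 1)) := by
      have h4 := hApow (m + n + 1) 0
      rw [hA0, mul_one, Nat.add_zero] at h4
      rw [← h4, hd]
      rfl
    change ((A n)⁻¹ * a ^ (m + n + 1)).toWord.head? = some (l n)
    rw [h3, hAadd, inv_mul_cancel_left, W1_toWord_mk _ (W1seg_red l hl _ _), W1seg_cons]
    rfl
  have hinf2 : ∀ n, 1 ≤ n → {k : FreeGroup α | k ∈ K ∧ ((A n)⁻¹ * k).toWord.head? =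
      some ((l (n - 1)).1, !(l (n - 1)).2)}.Infinite := by
    intro n hn
    have h1 : (Set.range fun m : ℕ => (a ^ m)⁻¹).Infinite := by
      refine Set.infinite_range_of_injective fun m m' h => ?_
      exact W1_roots a ha1 _ _ (inv_injective h)
    refine h1.mono ?_
    rintro _ ⟨m, rfl⟩
    refine ⟨K.inv_mem (K.pow_mem ha _), ?_⟩
    obtain ⟨n, rfl⟩ : ∃ n', n = n' + 1 := ⟨n - 1, by omega⟩
    rw [Nat.add_sub_cancel]
    change ((A (n + 1))⁻¹ * (a ^ m)⁻¹).toWord.head? = _
    have h3 : (A (n + 1))⁻¹ * (a ^ m)⁻¹ = (A (m * p + (n + 1)))⁻¹ := by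
      rw [hApow, mul_inv_rev]
    rw [h3, toWord_inv]
    simp only [hA]
    rw [W1_toWord_mk _ (W1seg_red l hl _ _), ← Nat.add_assoc, W1seg_succ, Nat.zero_add, hperm]
    simp [invRev]
  -- the rest of `K` at a vertex
  set R : ℕ → Set (FreeGroup α) := fun n => {k | k ∈ K ∧
    ((A n)⁻¹ * k).toWord.head? ≠ some (l n) ∧
    ((A n)⁻¹ * k).toWord.head? ≠ some ((l (n - 1)).1, !(l (n - 1)).2)} with hR
  by_cases hcase : ∃ n, 1 ≤ n ∧ (R n).Infinite
  · obtain ⟨n, hn, hinf⟩ := hcase
    obtain ⟨s, hs1, hs2, hs⟩ : ∃ s : α × Bool, s ≠ l n ∧ s ≠ ((l (n - 1)).1, !(l (n - 1)).2) ∧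
        {k : FreeGroup α | k ∈ K ∧ ((A n)⁻¹ * k).toWord.head? = some s}.Infinite := by
      by_contra hcon
      push Not at hcon
      apply hinf
      have hfin : ({A n} ∪ ⋃ s ∈ {s : α × Bool | s ≠ l n ∧ s ≠ ((l (n - 1)).1, !(l (n - 1)).2)},
          {k : FreeGroup α | k ∈ K ∧ ((A n)⁻¹ * k).toWord.head? = some s}).Finite := by
        refine (Set.finite_singleton _).union (Set.Finite.biUnion (Set.toFinite _) fun s hs => ?_)
        exact hcon s hs.1 hs.2
      refine hfin.subset ?_
      rintro k ⟨hk, hk1, hk2⟩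
      cases hh : ((A n)⁻¹ * k).toWord.head? with
      | none =>
        left
        rw [List.head?_eq_none_iff, toWord_eq_nil_iff] at hh
        rw [Set.mem_singleton_iff]
        exact (inv_mul_eq_one.mp hh).symm
      | some s =>
        right
        rw [hh] at hk1 hk2
        simp only [Set.mem_iUnion]
        exact ⟨s, ⟨fun h => hk1 (by rw [h]), fun h => hk2 (by rw [h])⟩, hk, hh⟩
    refine ⟨(A n)⁻¹, {l n, ((l (n - 1)).1, !(l (n - 1)).2), s}, ?_, ?_⟩
    · rw [Finset.card_eq_three]
      exact ⟨_, _, _, hs12 n hn, fun h => hs1 h.symm, fun h => hs2 h.symm, rfl⟩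
    · intro t ht
      simp only [Finset.mem_insert, Finset.mem_singleton] at ht
      rcases ht with rfl | rfl | rfl
      · exact W1_transport K _ _ (hinf1 n)
      · exact W1_transport K _ _ (hinf2 n hn)
      · exact W1_transport K _ _ hs
  · exfalso
    push Not at hcase
    have hRfin : ∀ n, 1 ≤ n → (R n).Finite := hcase
    set F : Set (FreeGroup α) := ⋃ n ∈ {n : ℕ | 1 ≤ n ∧ n ≤ p}, R n with hF
    have hFfin : F.Finite := by
      refine Set.Finite.biUnion ((Set.finite_Iic p).subset fun n hn => hn.2) fun n hn => ?_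
      exact hRfin n hn.1
    have hcover : ∀ k ∈ K, ∃ j : ℤ, a ^ j * k ∈ F := by
      intro k hk
      have hex : ∃ N : ℕ, ∃ j : ℤ, ∃ n, 1 ≤ n ∧ n ≤ p ∧ norm ((A n)⁻¹ * (a ^ j * k)) = N :=
        ⟨_, 0, 1, le_refl _, hp, rfl⟩
      classical
      obtain ⟨j, n, hn1, hnp, hN⟩ := Nat.find_spec hex
      have hmin : ∀ (j' : ℤ) (n' : ℕ), 1 ≤ n' → n' ≤ p →
          norm ((A n)⁻¹ * (a ^ j * k)) ≤ norm ((A n')⁻¹ * (a ^ j' * k)) := by
        intro j' n' h1 h2
        rw [hN]
        exact Nat.find_min' hex ⟨j', n', h1, h2, rfl⟩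
      refine ⟨j, ?_⟩
      rw [hF]
      simp only [Set.mem_iUnion]
      refine ⟨n, ⟨hn1, hnp⟩, K.mul_mem (K.zpow_mem ha _) hk, ?_, ?_⟩
      · intro hh
        have h1 := W1_head_step _ _ hh
        rw [← mul_assoc, ← mul_inv_rev, ← hAs] at h1
        rcases Nat.lt_or_ge n p with h2 | h2
        · have h3 := hmin j (n + 1) (by omega) (by omega)
          omega
        · have h4 : n = p := le_antisymm hnp h2
          have h5 : (A (n + 1))⁻¹ * (a ^ j * k) = (A 1)⁻¹ * (a ^ (j - 1) * k) := by
            rw [h4, hAp, mul_inv_rev, zpow_sub_one]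
            group
          rw [h5] at h1
          have h3 := hmin (j - 1) 1 le_rfl hp
          omega
      · intro hh
        have h1 := W1_head_step _ _ hh
        rw [W1_inv_letter, inv_inv] at h1
        obtain ⟨n', rfl⟩ : ∃ n', n = n' + 1 := ⟨n - 1, by omega⟩
        rw [Nat.add_sub_cancel] at h1
        have h2 : mk [l n'] * ((A (n' + 1))⁻¹ * (a ^ j * k)) = (A n')⁻¹ * (a ^ j * k) := by
          rw [hAs, mul_inv_rev]
          group
        rw [h2] at h1
        rcases Nat.eq_zero_or_pos n' with h3 | h3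
        · subst h3
          have h4 : (A 0)⁻¹ * (a ^ j * k) = (A p)⁻¹ * (a ^ (j + 1) * k) := by
            have h5 := hAp 0
            rw [Nat.add_zero, hA0, mul_one] at h5
            rw [h5, hA0, zpow_add_one]
            group
          rw [h4] at h1
          have h5 := hmin (j + 1) p hp le_rfl
          omega
        · have h5 := hmin j n' h3 (by omega)
          omega
    -- pigeonhole on the powers of `b`
    choose! J hJ using hcover
    have hmaps : ∀ m : ℕ, a ^ J (b ^ m) * b ^ m ∈ F := fun m => hJ _ (K.pow_mem hb m)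
    have hninj : ¬ Set.InjOn (fun m : ℕ => a ^ J (b ^ m) * b ^ m) Set.univ := by
      intro hinj
      have h1 := Set.infinite_univ (α := ℕ)
      have h2 : ((fun m : ℕ => a ^ J (b ^ m) * b ^ m) '' Set.univ).Infinite := h1.image hinj
      exact h2 (hFfin.subset (by rintro _ ⟨m, _, rfl⟩; exact hmaps m))
    obtain ⟨m, n, hmn, heq⟩ : ∃ m n : ℕ, m < n ∧
        a ^ J (b ^ m) * b ^ m = a ^ J (b ^ n) * b ^ n := by
      by_contra hcon
      push Not at hcon
      apply hninj
      intro m _ n _ h
      rcases lt_trichotomy m n with h1 | h1 | h1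
      · exact absurd h (hcon m n h1)
      · exact h1
      · exact absurd h.symm (hcon n m h1)
    obtain ⟨d, rfl⟩ := Nat.exists_eq_add_of_lt hmn
    have hpow : b ^ (d + 1) = a ^ (J (b ^ m) - J (b ^ (m + d + 1))) := by
      have h1 : b ^ (m + d + 1) = b ^ (d + 1) * b ^ m := by
        rw [← pow_add]
        congr 1
        omega
      have h2 : a ^ J (b ^ m) = a ^ J (b ^ (m + d + 1)) * b ^ (d + 1) := by
        have h3 : a ^ J (b ^ m) * b ^ m =
            (a ^ J (b ^ (m + d + 1)) * b ^ (d + 1)) * b ^ m := by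
          rw [heq, mul_assoc, ← h1]
        exact mul_right_cancel h3
      rw [zpow_sub, h2]
      have h4 : Commute (a ^ J (b ^ (m + d + 1)))⁻¹ (b ^ (d + 1)) := by
        have h5 : b ^ (d + 1) = (a ^ J (b ^ (m + d + 1)))⁻¹ * a ^ J (b ^ m) := by
          rw [h2, inv_mul_cancel_left]
        rw [h5]
        exact (Commute.refl _).mul_right
          ((Commute.zpow_zpow_self a _ _).inv_left)
      rw [mul_assoc, ← h4.eq, mul_inv_cancel_left]
    have hcomm : a * b ^ (d + 1) * a⁻¹ = b ^ (d + 1) := by
      rw [hpow, (Commute.self_zpow a _).eq, mul_inv_cancel_right]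
    have hc2 : (a * b * a⁻¹) ^ (d + 1) = b ^ (d + 1) := by
      rw [conj_pow, hcomm]
    have hc3 : a * b * a⁻¹ = b := pow_left_injective (Nat.succ_ne_zero d) hc2
    apply hab
    calc a * b = a * b * a⁻¹ * a := by group
      _ = b * a := by rw [hc3]

end W1

theorem exists_branch {α : Type} [DecidableEq α] [Finite α] (K : Subgroup (FreeGroup α))
    (a b : FreeGroup α) (ha : a ∈ K) (hb : b ∈ K) (hab : a * b ≠ b * a) :
    ∃ w : FreeGroup α, Branch (K.map (MulAut.conj w).toMonoidHom) := by
  classical
  set c : FreeGroup α := mk (FreeGroup.reduceCyclically.conjugator a.toWord) with hc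
  set L := FreeGroup.reduceCyclically a.toWord with hL
  have hLc : IsCyclicallyReduced L := FreeGroup.reduceCyclically.isCyclicallyReduced isReduced_toWord
  have hconj : a = c * mk L * c⁻¹ := by
    have h1 := FreeGroup.reduceCyclically.conj_conjugator_reduceCyclically a.toWord
    rw [hc, inv_mk, mul_mk, mul_mk, h1, mk_toWord]
  have ha1 : a ≠ 1 := by
    rintro rfl
    apply hab
    rw [one_mul, mul_one]
  have hLne : L ≠ [] := by
    intro h
    apply ha1
    rw [hconj, h, ← one_eq_mk]
    group
  have hp : 1 ≤ L.length := List.length_pos_iff.mpr hLne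
  set p := L.length with hpdef
  set l : ℕ → α × Bool := fun n => L[n % p]'(Nat.mod_lt _ hp) with hl
  have hseg : W1seg l 0 p = L := by
    apply List.ext_getElem
    · simp [W1seg, hpdef]
    · intro n h1 h2
      simp only [W1seg, List.getElem_map, List.getElem_range, hl, Nat.zero_add]
      congr 1
      exact Nat.mod_eq_of_lt h2
  have hK : ∃ w : FreeGroup α, Branch ((K.map (MulAut.conj c⁻¹).toMonoidHom).map
      (MulAut.conj w).toMonoidHom) := by
    refine W1_main _ (mk L) (c⁻¹ * b * c) ?_ ?_ ?_ l p hp ?_ ?_ (by rw [hseg])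
    · refine ⟨a, ha, ?_⟩
      simp only [MulEquiv.coe_toMonoidHom, MulAut.conj_apply, inv_inv]
      rw [hconj]
      group
    · refine ⟨b, hb, ?_⟩
      simp only [MulEquiv.coe_toMonoidHom, MulAut.conj_apply, inv_inv]
    · intro h
      apply hab
      rw [hconj]
      calc c * mk L * c⁻¹ * b = c * (mk L * (c⁻¹ * b * c)) * c⁻¹ := by group
        _ = c * (c⁻¹ * b * c * mk L) * c⁻¹ := by rw [h]
        _ = b * (c * mk L * c⁻¹) := by group
    · intro n
      simp only [hl]
      have hlt := Nat.mod_lt n hp
      rcases Nat.lt_or_ge (n % p + 1) p with h1 | h1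
      · have h2 : (n + 1) % p = n % p + 1 := by
          rw [Nat.add_mod, Nat.mod_eq_of_lt (show 1 < p by omega), Nat.mod_eq_of_lt h1]
        have h3 := List.isChain_iff_getElem.mp hLc.1 (n % p) (by omega)
        simp only [h2]
        exact h3
      · have h0 : n % p + 1 = p := by omega
        have h2 : (n + 1) % p = 0 := by
          rw [← Nat.mod_add_mod, h0, Nat.mod_self]
        have h3 := hLc.2 (L[n % p]'hlt) (by
          rw [Option.mem_def, List.getLast?_eq_getElem?, List.getElem?_eq_getElem (by omega)]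
          congr 2
          omega) (L[0]'hp) (by
          rw [Option.mem_def, List.head?_eq_getElem?, List.getElem?_eq_getElem hp])
        simp only [h2]
        exact h3
    · intro n
      simp only [hl, Nat.add_mod_left]
  obtain ⟨w, hw⟩ := hK
  refine ⟨w * c⁻¹, ?_⟩
  rw [Subgroup.map_map] at hw
  have h1 : (MulAut.conj w).toMonoidHom.comp (MulAut.conj c⁻¹).toMonoidHom =
      (MulAut.conj (w * c⁻¹)).toMonoidHom := by
    ext x
    simp only [MonoidHom.comp_apply, MulEquiv.coe_toMonoidHom, MulAut.conj_apply]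
    group
  rwa [h1] at hw

end Pool.Agent.Lib.MP_35fb4b_lc.SR
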