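import Pool.Agent.Lib.MP_35fb4b_lc.SR.W9
import Pool.Agent.Lib.MP_35fb4b_lc.SR.P3

/-!
# Co-amenable subgroups with two generators (MP_35fb4b_lc)
-/

set_option autoImplicit false

namespace Pool.Agent.Lib.MP_35fb4b_lc.SR

/-- a finitely generated free group has a finite basis -/
theorem w10_finite {α : Type} [h : Group.FG (FreeGroup α)] : Finite α := by
  classical
  obtain ⟨S, hS⟩ := Group.fg_def.1 h
  have h1 : Finite (FreeGroup α →* Multiplicative (ZMod 2)) := by
    refine Finite.of_injective
      (fun f : FreeGroup α →* Multiplicative (ZMod 2) => fun s : S => f s) ?_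
    intro f g hfg
    refine MonoidHom.eq_of_eqOn_dense (s := (S : Set (FreeGroup α))) hS ?_
    intro x hx
    exact congrFun hfg ⟨x, hx⟩
  have h2 : Finite (α → Multiplicative (ZMod 2)) := by
    refine Finite.of_injective (fun f : α → Multiplicative (ZMod 2) => FreeGroup.lift f) ?_
    exact (FreeGroup.lift).injective
  have hne : (Multiplicative.ofAdd (1 : ZMod 2)) ≠ 1 := by decide
  refine Finite.of_injective
    (fun a : α => (Pi.mulSingle a (Multiplicative.ofAdd (1 : ZMod 2)) : α → Multiplicative (ZMod 2)))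
    ?_
  intro a b hab
  by_contra hcon
  have h3 := congrFun hab a
  simp only [Pi.mulSingle_eq_same, Pi.mulSingle_eq_of_ne hcon] at h3
  exact hne h3

/-- in a free group of finite rank, `⟨u, v⟩` meets its conjugates by elements outside it in
commutative groups -/
theorem w10_comm {D : Type} [Group D] [IsFreeGroup D] [Group.FG D] (u v g : D)
    (hg : g ∉ Subgroup.closure {u, v}) (a b : D) (ha : a ∈ Subgroup.closure {u, v})
    (hb : b ∈ Subgroup.closure {u, v}) (hag : g⁻¹ * a * g ∈ Subgroup.closure {u, v})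
    (hbg : g⁻¹ * b * g ∈ Subgroup.closure {u, v}) : a * b = b * a := by
  classical
  let e : D ≃* FreeGroup (IsFreeGroup.Generators D) := IsFreeGroup.toFreeGroup D
  have hfg : Group.FG (FreeGroup (IsFreeGroup.Generators D)) :=
    Group.fg_of_surjective (f := e.toMonoidHom) e.surjective
  have hfin : Finite (IsFreeGroup.Generators D) := w10_finite
  have hmem : ∀ x : D, e x ∈ Subgroup.closure {e u, e v} ↔ x ∈ Subgroup.closure {u, v} := by
    intro x
    have h1 : Subgroup.closure {e u, e v} = (Subgroup.closure {u, v}).map e.toMonoidHom := by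
      rw [MonoidHom.map_closure]
      congr 1
      simp [Set.image_pair]
    rw [h1]
    constructor
    · rintro ⟨z, hz, hzx⟩
      have : z = x := e.injective hzx
      exact this ▸ hz
    · intro hx
      exact ⟨x, hx, rfl⟩
  have hfix : ∀ c : D, g⁻¹ * c * g ∈ Subgroup.closure {u, v} →
      e c • ((e g : FreeGroup (IsFreeGroup.Generators D)) :
        FreeGroup (IsFreeGroup.Generators D) ⧸ Subgroup.closure {e u, e v}) = (e g : _) := by
    intro c hc
    change ((e c * e g : FreeGroup (IsFreeGroup.Generators D)) :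
      FreeGroup (IsFreeGroup.Generators D) ⧸ Subgroup.closure {e u, e v}) = (e g : _)
    rw [QuotientGroup.eq, ← map_mul, ← map_inv, ← map_mul, hmem]
    have h1 := inv_mem hc
    have h2 : (c * g)⁻¹ * g = (g⁻¹ * c * g)⁻¹ := by group
    rw [h2]
    exact h1
  have h1 := inter_comm_free (e u) (e v)
    ((e g : FreeGroup (IsFreeGroup.Generators D)) :
        FreeGroup (IsFreeGroup.Generators D) ⧸ Subgroup.closure {e u, e v}) (by
      intro hcon
      have h6 := QuotientGroup.eq.1 hcon
      rw [mul_one, ← map_inv, hmem] at h6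
      exact hg ((Subgroup.inv_mem_iff _).1 h6))
    (e a) (e b) ((hmem a).2 ha) ((hmem b).2 hb) (hfix a hag) (hfix b hbg)
  rw [← map_mul, ← map_mul] at h1
  exact e.injective h1

/-- the same in a group in which the subgroup generated by `u`, `v` and `g` is free -/
theorem w10_three {Γ : Type} [Group Γ] (u v g : Γ)
    (hlf : IsFreeGroup (Subgroup.closure ({u, v, g} : Set Γ)))
    (hg : g ∉ Subgroup.closure {u, v}) (a b : Γ) (ha : a ∈ Subgroup.closure {u, v})
    (hb : b ∈ Subgroup.closure {u, v}) (hag : g⁻¹ * a * g ∈ Subgroup.closure {u, v})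
    (hbg : g⁻¹ * b * g ∈ Subgroup.closure {u, v}) : a * b = b * a := by
  classical
  let S : Finset Γ := {u, v, g}
  have hSe : (S : Set Γ) = {u, v, g} := by simp [S]
  have hS : ∀ x ∈ S, x ∈ Subgroup.closure (S : Set Γ) := fun x hx => Subgroup.subset_closure hx
  have huS : u ∈ S := by simp [S]
  have hvS : v ∈ S := by simp [S]
  have hgS : g ∈ S := by simp [S]
  have hBD : Subgroup.closure {u, v} ≤ Subgroup.closure (S : Set Γ) := by
    rw [Subgroup.closure_le]
    rintro x (rfl | rfl)
    · exact hS _ huS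
    · exact hS _ hvS
  have hfree : IsFreeGroup (Subgroup.closure (S : Set Γ)) := by
    rw [hSe]
    exact hlf
  have hfg : Group.FG (Subgroup.closure (S : Set Γ)) := Group.closure_finset_fg S
  let uD : Subgroup.closure (S : Set Γ) := ⟨u, hS _ huS⟩
  let vD : Subgroup.closure (S : Set Γ) := ⟨v, hS _ hvS⟩
  let gD : Subgroup.closure (S : Set Γ) := ⟨g, hS _ hgS⟩
  have hmem : ∀ x : Subgroup.closure (S : Set Γ),
      x ∈ Subgroup.closure {uD, vD} ↔ (x : Γ) ∈ Subgroup.closure {u, v} := by
    intro x
    have h1 : (Subgroup.closure {uD, vD}).map (Subgroup.closure (S : Set Γ)).subtype =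
        Subgroup.closure {u, v} := by
      rw [MonoidHom.map_closure, Set.image_pair]
      rfl
    rw [← h1, Subgroup.mem_map]
    constructor
    · intro hx
      exact ⟨x, hx, rfl⟩
    · rintro ⟨z, hz, hzx⟩
      have : z = x := Subtype.ext hzx
      rwa [← this]
  have h1 := w10_comm uD vD gD (fun h => hg ((hmem gD).1 h)) ⟨a, hBD ha⟩ ⟨b, hBD hb⟩
    ((hmem _).2 ha) ((hmem _).2 hb) ((hmem _).2 hag) ((hmem _).2 hbg)
  exact congrArg Subtype.val h1

/-- the free group of rank 2 is not amenable -/
theorem w10_F2 : ¬ HasMean F2 F2 := by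
  intro h
  obtain ⟨ψ, -, hψ⟩ := not_coamenable (Γ := F2)
    (fun w => (FreeGroup.norm w : ℝ)) (fun g h => by
      exact_mod_cast FreeGroup.norm_mul_le g h) (fun g => by simp [FreeGroup.norm_inv_eq])
    (MonoidHom.id F2) 1 0 one_pos (fun w => by simp)
  exact hψ (push_mean (MonoidHom.id F2) Function.surjective_id
    (fun x : F2 => (x : F2 ⧸ ψ.range)) (fun g x => rfl) h)

/-- a free group that is not commutative contains a free group of rank 2 -/
theorem w10_contains {H : Type} [Group H] [hf : IsFreeGroup H] (hna : ∃ a b : H, a * b ≠ b * a) :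
    ∃ φ : F2 →* H, Function.Injective φ := by
  obtain ⟨a, b, hab⟩ := hna
  by_contra hcon
  push Not at hcon
  have htop : IsFreeGroup (⊤ : Subgroup H) := IsFreeGroup.ofMulEquiv Subgroup.topEquiv.symm
  obtain ⟨c, hc⟩ := N2_cyclic hcon ⊤ htop
  have hz : ∀ x : H, x ∈ Subgroup.zpowers c := by
    intro x
    rw [← hc]
    trivial
  obtain ⟨m, hm⟩ := hz a
  obtain ⟨n, hn⟩ := hz b
  apply hab
  rw [← hm, ← hn]
  exact (Commute.refl c).zpow_zpow m n

/-- a group that contains a free group of rank 2 is not amenable -/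
theorem w10_not_mean {H : Type} [Group H] [Countable H] (φ : F2 →* H)
    (hφ : Function.Injective φ) : ¬ HasMean H H := by
  intro h
  obtain ⟨x, ψ, hψ, hψ2⟩ := exists_free_in_stab φ hφ w10_F2 h
  have h1 : ψ (FreeGroup.of 0) = ψ 1 := by
    have h2 := (hψ2 (FreeGroup.of 0)).2
    have h3 : ψ (FreeGroup.of 0) * x = x := h2
    rw [map_one]
    exact mul_eq_right.1 h3
  exact FreeGroup.of_ne_one _ (hψ h1)

/-- a free group without mean is not commutative -/
theorem w10_noncomm {H : Type} [Group H] [Countable H] [hf : IsFreeGroup H] (hH : ¬ HasMean H H) :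
    ∃ a b : H, a * b ≠ b * a := by
  by_contra hcon
  push Not at hcon
  have hF : ∀ φ : F2 →* H, ¬ Function.Injective φ := by
    intro φ hφ
    have h1 : (FreeGroup.of 0 * FreeGroup.of 1 : F2) = FreeGroup.of 1 * FreeGroup.of 0 := by
      apply hφ
      rw [map_mul, map_mul]
      exact hcon _ _
    revert h1
    decide
  have hN := noMean_of_no_free hH hF
  let act : MulAction H PUnit.{1} :=
    { smul := fun _ x => x
      one_smul := fun _ => rfl
      mul_smul := fun _ _ _ => rfl }
  refine hN PUnit.{1} (fun x => ?_) ?_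
  · have h2 : MulAction.stabilizer H x = ⊤ := by
      ext g
      simp only [MulAction.mem_stabilizer_iff, Subgroup.mem_top]
    rw [h2]
    exact IsFreeGroup.ofMulEquiv Subgroup.topEquiv.symm
  · classical
    refine ⟨fun A => if PUnit.unit ∈ A then 1 else 0, fun A => ?_, ?_, ?_, ?_⟩
    · simp only
      split_ifs <;> norm_num
    · simp
    · intro A B hAB
      have h3 : ¬ (PUnit.unit ∈ A ∧ PUnit.unit ∈ B) := fun h => hAB.le_bot h
      simp only [Set.mem_union]
      by_cases hA : PUnit.unit ∈ A <;> by_cases hB : PUnit.unit ∈ B <;> simp_all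
    · intro g A
      have h4 : (PUnit.unit ∈ (fun x : PUnit.{1} => g • x) '' A) ↔ PUnit.unit ∈ A := by
        constructor
        · rintro ⟨x, hx, -⟩
          exact hx
        · intro hx
          exact ⟨PUnit.unit, hx, rfl⟩
      simp only [h4]

/-- if `u` and `v` do not commute and `u`, `v`, `g` generate a free group for every `g`, and if
the subgroup generated by `u` and `v` is co-amenable, then it is the whole group -/
theorem top_of_coamenable {Γ : Type} [Group Γ] [Countable Γ] (u v : Γ) (huv : u * v ≠ v * u)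
    (hlf : ∀ g : Γ, IsFreeGroup (Subgroup.closure ({u, v, g} : Set Γ)))
    (hco : HasMean Γ (Γ ⧸ Subgroup.closure {u, v})) :
    Subgroup.closure {u, v} = (⊤ : Subgroup Γ) := by
  classical
  have h3 := fun g => w10_three u v g (hlf g)
  have hBfree : IsFreeGroup (Subgroup.closure ({u, v} : Set Γ)) := by
    have h := hlf u
    have h4 : ({u, v, u} : Set Γ) = {u, v} := by
      ext x
      simp only [Set.mem_insert_iff, Set.mem_singleton_iff]
      tauto
    rwa [h4] at h
  have huB : u ∈ Subgroup.closure ({u, v} : Set Γ) := Subgroup.subset_closure (by simp)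
  have hvB : v ∈ Subgroup.closure ({u, v} : Set Γ) := Subgroup.subset_closure (by simp)
  obtain ⟨B, hBdef⟩ : ∃ B : Subgroup Γ, B = Subgroup.closure {u, v} := ⟨_, rfl⟩
  rw [← hBdef] at h3 hBfree huB hvB hco ⊢
  have hB : ¬ HasMean B B := by
    obtain ⟨φ, hφ⟩ := w10_contains (H := B) ⟨⟨u, huB⟩, ⟨v, hvB⟩, fun h =>
      huv (congrArg Subtype.val h)⟩
    exact w10_not_mean φ hφ
  obtain ⟨m, h0, h1, h2, h3'⟩ := hco
  have hcount : Countable (Γ ⧸ B) := (QuotientGroup.mk_surjective (s := B)).countable
  let E : Set (Γ ⧸ B) := {x | ¬ HasMean (B ⊓ MulAction.stabilizer Γ x : Subgroup Γ)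
    (B ⊓ MulAction.stabilizer Γ x : Subgroup Γ)}
  have hEc : m Eᶜ = 0 := by
    have h := null_inf B hB m h0 h2 h3'
    rw [← h]
    congr 1
    ext x
    simp [E]
  have hE : m E = 1 := by
    have h4 := h2 E Eᶜ disjoint_compl_right
    rw [Set.union_compl_self, h1, hEc, add_zero] at h4
    exact h4.symm
  have hpt : ∀ x ∈ E, x = ((1 : Γ) : Γ ⧸ B) := by
    intro x hx
    have hfr : IsFreeGroup (B ⊓ MulAction.stabilizer Γ x : Subgroup Γ) := by
      have h5 : IsFreeGroup (MulAction.stabilizer B x) := subgroupIsFreeOfIsFree _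
      let e : MulAction.stabilizer B x ≃* (B ⊓ MulAction.stabilizer Γ x : Subgroup Γ) :=
        { toFun := fun y => ⟨y.1.1, ⟨y.1.2, y.2⟩⟩
          invFun := fun y => ⟨⟨y.1, y.2.1⟩, y.2.2⟩
          left_inv := fun _ => rfl
          right_inv := fun _ => rfl
          map_mul' := fun _ _ => rfl }
      exact IsFreeGroup.ofMulEquiv e
    obtain ⟨a, b, hab⟩ := w10_noncomm (H := (B ⊓ MulAction.stabilizer Γ x : Subgroup Γ)) hx
    obtain ⟨g, rfl⟩ := QuotientGroup.mk_surjective x
    by_contra hne
    have hgB : g ∉ B := by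
      intro h
      apply hne
      rw [QuotientGroup.eq, mul_one]
      exact inv_mem h
    have hconj : ∀ c : Γ, c • (g : Γ ⧸ B) = (g : Γ ⧸ B) → g⁻¹ * c * g ∈ B := by
      intro c hc
      have h5 : ((c * g : Γ) : Γ ⧸ B) = (g : Γ ⧸ B) := hc
      have h6 := QuotientGroup.eq.1 h5.symm
      rwa [← mul_assoc] at h6
    apply hab
    apply Subtype.ext
    exact h3 g hgB a b a.2.1 b.2.1 (hconj a a.2.2) (hconj b b.2.2)
  rw [eq_top_iff]
  intro h _
  have hle : ∀ A, m A ≤ 1 := by
    intro A
    have h := h2 A Aᶜ disjoint_compl_right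
    rw [Set.union_compl_self, h1] at h
    linarith [h0 Aᶜ]
  have hnd : ¬ Disjoint ((fun x => h • x) '' E) E := by
    intro hd
    have h4 := h2 _ _ hd
    rw [h3' h E, hE] at h4
    have h5 := hle ((fun x => h • x) '' E ∪ E)
    linarith
  obtain ⟨z, ⟨x, hx, hxz⟩, hz⟩ := Set.not_disjoint_iff.1 hnd
  rw [hpt x hx, hpt z hz] at hxz
  have h4 : ((h * 1 : Γ) : Γ ⧸ B) = ((1 : Γ) : Γ ⧸ B) := hxz
  have h5 := QuotientGroup.eq.1 h4
  rw [mul_one, mul_one] at h5
  exact (Subgroup.inv_mem_iff _).1 h5

end Pool.Agent.Lib.MP_35fb4b_lc.SR
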