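import Pool.Agent.Lib.MP_35fb4b_lc.SR.Defs

/-!
# Pairs of elements of free groups (MP_35fb4b_lc)
-/

set_option autoImplicit false

namespace Pool.Agent.Lib.MP_35fb4b_lc.SR

open Equiv Equiv.Perm in
private theorem w11_extend {α : Type} [Finite α] (R : α → α → Prop)
    (h1 : ∀ a b b', R a b → R a b' → b = b') (h2 : ∀ a a' b, R a b → R a' b → a = a') :
    ∃ σ : Perm α, ∀ a b, R a b → σ a = b := by
  classical
  have := Fintype.ofFinite α
  let p : α → Prop := fun a => ∃ b, R a b
  let f : {x // p x} → α := fun x => x.2.choose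
  have hf : ∀ x : {x // p x}, R x.1 (f x) := fun x => x.2.choose_spec
  have hinj : Function.Injective f := fun x y h => Subtype.ext (h2 _ _ (f x) (hf x) (h ▸ hf y))
  let e : {x // p x} ≃ {x // x ∈ Set.range f} := Equiv.ofInjective f hinj
  refine ⟨e.extendSubtype, fun a b hab => ?_⟩
  have ha : p a := ⟨b, hab⟩
  rw [Equiv.extendSubtype_apply_of_mem e a ha]
  exact h1 a _ _ (hf ⟨a, ha⟩) hab

open Equiv Equiv.Perm in
/-- free groups are residually finite -/
private theorem w11_rf {X : Type} (g : FreeGroup X) (hg : g ≠ 1) :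
    ∃ (H : Type) (_ : Group H) (_ : Finite H) (f : FreeGroup X →* H), f g ≠ 1 := by
  classical
  obtain ⟨L, hL⟩ : ∃ L, L = g.toWord := ⟨_, rfl⟩
  have hred : FreeGroup.IsReduced L := hL ▸ FreeGroup.isReduced_toWord
  have hchain := List.isChain_iff_getElem.1 hred
  have hne : L ≠ [] := fun h => hg (FreeGroup.toWord_eq_nil_iff.1 (hL ▸ h))
  have hmk : g = FreeGroup.mk L := by rw [hL, FreeGroup.mk_toWord]
  let R : X → Fin (L.length + 1) → Fin (L.length + 1) → Prop := fun x a b =>
    (∃ (k : ℕ) (hk : k < L.length), L[k] = (x, true) ∧ a.val = k + 1 ∧ b.val = k) ∨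
    (∃ (k : ℕ) (hk : k < L.length), L[k] = (x, false) ∧ a.val = k ∧ b.val = k + 1)
  have hcon : ∀ (x : X) (k : ℕ) (hk : k < L.length) (k' : ℕ) (hk' : k' < L.length) (s : Bool),
      L[k] = (x, s) → L[k'] = (x, !s) → k' = k + 1 → False := by
    intro x k hk k' hk' s h1 h2 h3
    subst h3
    have := hchain k hk' (by rw [h1, h2])
    rw [h1, h2] at this
    cases s <;> simp at this
  have hR : ∀ x, ∃ σ : Perm (Fin (L.length + 1)), ∀ a b, R x a b → σ a = b := by
    intro x
    apply w11_extend
    · rintro a b b' (⟨k, hk, e1, e2, e3⟩ | ⟨k, hk, e1, e2, e3⟩)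
        (⟨k', hk', e1', e2', e3'⟩ | ⟨k', hk', e1', e2', e3'⟩)
      · apply Fin.ext; omega
      · exact absurd (hcon x k hk k' hk' true e1 e1' (by omega)) id
      · exact absurd (hcon x k' hk' k hk true e1' e1 (by omega)) id
      · apply Fin.ext; omega
    · rintro a a' b (⟨k, hk, e1, e2, e3⟩ | ⟨k, hk, e1, e2, e3⟩)
        (⟨k', hk', e1', e2', e3'⟩ | ⟨k', hk', e1', e2', e3'⟩)
      · apply Fin.ext; omega
      · exact absurd (hcon x k' hk' k hk false e1' e1 (by omega)) id
      · exact absurd (hcon x k hk k' hk' false e1 e1' (by omega)) id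
      · apply Fin.ext; omega
  choose σ hσ using hR
  refine ⟨Perm (Fin (L.length + 1)), inferInstance, inferInstance, FreeGroup.lift σ, ?_⟩
  have key : ∀ (k : ℕ) (hk : k < L.length + 1),
      (((L.take k).map fun x => cond x.2 (σ x.1) (σ x.1)⁻¹).prod) ⟨k, hk⟩ = 0 := by
    intro k
    induction k with
    | zero => intro hk; simp
    | succ k ih =>
      intro hk
      have hk' : k < L.length := by omega
      rw [List.take_succ_eq_append_getElem hk', List.map_append, List.prod_append, Perm.mul_apply]
      have hstep : ((List.map (fun x : X × Bool => cond x.2 (σ x.1) (σ x.1)⁻¹) [L[k]]).prod)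
          (⟨k + 1, hk⟩ : Fin (L.length + 1)) = ⟨k, by omega⟩ := by
        rw [List.map_singleton, List.prod_singleton]
        rcases hx : L[k] with ⟨x, s⟩
        cases s with
        | true => exact hσ x _ _ (Or.inl ⟨k, hk', hx, rfl, rfl⟩)
        | false =>
          have := hσ x (⟨k, by omega⟩ : Fin (L.length + 1)) ⟨k + 1, hk⟩
            (Or.inr ⟨k, hk', hx, rfl, rfl⟩)
          show (σ x)⁻¹ _ = _
          rw [← this]
          exact (σ x).symm_apply_apply _
      rw [hstep]
      exact ih _
  intro h
  have h1 := key L.length (by omega)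
  rw [List.take_length, ← FreeGroup.lift_mk, ← hmk, h, Perm.one_apply] at h1
  have h2 := congrArg Fin.val h1
  simp at h2
  exact hne h2

/-- a surjective endomorphism of `F₂` is injective -/
private theorem w11_hopf (f : F2 →* F2) (hf : Function.Surjective f) : Function.Injective f := by
  rw [injective_iff_map_eq_one]
  intro g hg
  by_contra hne
  obtain ⟨Q, _, _, q, hq⟩ := w11_rf g hne
  have : Finite (F2 →* Q) := Finite.of_equiv (Fin 2 → Q) FreeGroup.lift
  have hinj : Function.Injective (fun h : F2 →* Q => h.comp f) := by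
    intro h h' e
    refine MonoidHom.ext fun z => ?_
    obtain ⟨w, rfl⟩ := hf z
    exact DFunLike.congr_fun e w
  obtain ⟨h, hh⟩ := Finite.surjective_of_injective hinj q
  apply hq
  have : h (f g) = q g := DFunLike.congr_fun hh g
  rw [← this, hg, map_one]

/-- a free group that is not commutative maps onto `F₂` -/
private theorem w11_onto (X : Type) (g h : FreeGroup X) (hgh : g * h ≠ h * g) :
    ∃ θ : FreeGroup X →* F2, Function.Surjective θ := by
  classical
  obtain ⟨a, b, hab⟩ : ∃ a b : X, a ≠ b := by
    by_contra hcon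
    push Not at hcon
    apply hgh
    have h1 : ∀ (a : X) (k : FreeGroup X), Commute (FreeGroup.of a) k := by
      intro a k
      induction k using FreeGroup.induction_on with
      | C1 => exact Commute.one_right _
      | of b => rw [hcon a b]
      | inv_of b ih => exact ih.inv_right
      | mul u v hu hv => exact hu.mul_right hv
    have h2 : ∀ k : FreeGroup X, Commute k h := by
      intro k
      induction k using FreeGroup.induction_on with
      | C1 => exact Commute.one_left _
      | of b => exact h1 b h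
      | inv_of b ih => exact ih.inv_left
      | mul u v hu hv => exact hu.mul_left hv
    exact h2 g
  refine ⟨FreeGroup.lift fun c => if c = a then FreeGroup.of 0 else
    if c = b then FreeGroup.of 1 else 1, ?_⟩
  rw [← MonoidHom.range_eq_top, eq_top_iff, ← FreeGroup.closure_range_of, Subgroup.closure_le]
  rintro _ ⟨i, rfl⟩
  fin_cases i
  · exact ⟨FreeGroup.of a, by simp⟩
  · exact ⟨FreeGroup.of b, by simp [hab.symm]⟩

/-- two elements of a free group that do not commute generate a free group of rank 2 freely -/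
theorem pair_free {E : Type} [Group E] [IsFreeGroup E] (x y : E) (hxy : x * y ≠ y * x) :
    Function.Injective (FreeGroup.lift ![x, y] : F2 →* E) := by
  obtain ⟨φ, hφ⟩ : ∃ φ : F2 →* E, φ = FreeGroup.lift ![x, y] := ⟨_, rfl⟩
  rw [← hφ]
  have hx : φ (FreeGroup.of 0) = x := by rw [hφ]; simp
  have hy : φ (FreeGroup.of 1) = y := by rw [hφ]; simp
  let e : φ.range ≃* FreeGroup (IsFreeGroup.Generators φ.range) := IsFreeGroup.toFreeGroup φ.range
  let ψ : F2 →* FreeGroup (IsFreeGroup.Generators φ.range) := e.toMonoidHom.comp φ.rangeRestrict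
  have hψ : Function.Surjective ψ := e.surjective.comp φ.rangeRestrict_surjective
  have hne : ψ (FreeGroup.of 0) * ψ (FreeGroup.of 1) ≠ ψ (FreeGroup.of 1) * ψ (FreeGroup.of 0) := by
    intro h
    apply hxy
    have h3 : e (φ.rangeRestrict (FreeGroup.of 0 * FreeGroup.of 1)) =
        e (φ.rangeRestrict (FreeGroup.of 1 * FreeGroup.of 0)) := by
      simp only [map_mul]
      exact h
    have h4 := congrArg Subtype.val (e.injective h3)
    have h5 : φ (FreeGroup.of 0 * FreeGroup.of 1) = φ (FreeGroup.of 1 * FreeGroup.of 0) := h4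
    rw [map_mul, map_mul, hx, hy] at h5
    exact h5
  obtain ⟨θ, hθ⟩ := w11_onto (IsFreeGroup.Generators φ.range) _ _ hne
  have h1 := w11_hopf (θ.comp ψ) (hθ.comp hψ)
  intro u v huv
  apply h1
  have h2 : φ.rangeRestrict u = φ.rangeRestrict v := Subtype.ext huv
  show θ (e (φ.rangeRestrict u)) = θ (e (φ.rangeRestrict v))
  rw [h2]

end Pool.Agent.Lib.MP_35fb4b_lc.SR
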