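import Pool.Agent.Lib.MP_35fb4b_lc.SR.W10
import Pool.Agent.Lib.MP_35fb4b_lc.SR.N1

/-!
# Centralizers in free groups (MP_35fb4b_lc)
-/

set_option autoImplicit false

namespace Pool.Agent.Lib.MP_35fb4b_lc.SR

/-- a free group that is not commutative has two different generators -/
theorem w12_two {C : Type} [Group C] [IsFreeGroup C] (a b : C) (hab : a * b ≠ b * a) :
    ∃ i j : IsFreeGroup.Generators C, i ≠ j := by
  by_contra hcon
  push Not at hcon
  apply hab
  let e : C ≃* FreeGroup (IsFreeGroup.Generators C) := IsFreeGroup.toFreeGroup C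
  apply e.injective
  have hcomm : ∀ x ∈ Set.range (FreeGroup.of : IsFreeGroup.Generators C → _),
      ∀ y ∈ Set.range (FreeGroup.of : IsFreeGroup.Generators C → _), x * y = y * x := by
    rintro x ⟨i, rfl⟩ y ⟨j, rfl⟩
    rw [hcon i j]
  have htop : ∀ x : FreeGroup (IsFreeGroup.Generators C),
      x ∈ Subgroup.closure (Set.range (FreeGroup.of : IsFreeGroup.Generators C → _)) := by
    intro x
    rw [FreeGroup.closure_range_of]
    trivial
  have h1 := (Subgroup.closureCommGroupOfComm hcomm).mul_comm ⟨e a, htop _⟩ ⟨e b, htop _⟩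
  rw [map_mul, map_mul]
  exact congrArg Subtype.val h1

/-- centralizers of nontrivial elements of free groups are commutative -/
theorem comm_of_comm {E : Type} [Group E] [IsFreeGroup E] (d a b : E) (hd : d ≠ 1)
    (hda : d * a = a * d) (hdb : d * b = b * d) : a * b = b * a := by
  by_contra hab
  let C : Subgroup E :=
    { carrier := {z | d * z = z * d}
      one_mem' := by
        show d * 1 = 1 * d
        rw [mul_one, one_mul]
      mul_mem' := by
        intro x y hx hy
        have hx' : d * x = x * d := hx
        have hy' : d * y = y * d := hy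
        show d * (x * y) = x * y * d
        rw [← mul_assoc, hx', mul_assoc, hy', mul_assoc]
      inv_mem' := by
        intro x hx
        have hx' : d * x = x * d := hx
        show d * x⁻¹ = x⁻¹ * d
        rw [mul_inv_eq_iff_eq_mul, mul_assoc, hx', inv_mul_cancel_left] }
  have hC : IsFreeGroup C := subgroupIsFreeOfIsFree _
  obtain ⟨i, j, hij⟩ := w12_two (C := C) ⟨a, hda⟩ ⟨b, hdb⟩ fun h => hab (congrArg Subtype.val h)
  let e : C ≃* FreeGroup (IsFreeGroup.Generators C) := IsFreeGroup.toFreeGroup C
  have hdC : d ∈ C := rfl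
  have h1 : e ⟨d, hdC⟩ = 1 := by
    apply n1_center i j hij
    intro x
    obtain ⟨z, rfl⟩ := e.surjective x
    rw [← map_mul, ← map_mul]
    congr 1
    have h3 : d * (z : E) = z * d := z.2
    exact Subtype.ext h3.symm
  apply hd
  have h2 : (⟨d, hdC⟩ : C) = 1 := e.injective (by rw [h1, map_one])
  exact congrArg Subtype.val h2

end Pool.Agent.Lib.MP_35fb4b_lc.SR
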