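import Pool.Agent.Lib.MP_35fb4b_lc.SR.W11
import Pool.Agent.Lib.MP_35fb4b_lc.SR.W12

/-!
# Residually free triples (MP_35fb4b_lc)
-/

set_option autoImplicit false

namespace Pool.Agent.Lib.MP_35fb4b_lc.SR

/-- every nontrivial element has a nontrivial image under some homomorphism to a free group -/
def ResiduallyFree (D : Type) [Group D] : Prop :=
  ∀ x : D, x ≠ 1 → ∃ (X : Type) (f : D →* FreeGroup X), f x ≠ 1

/-- free groups are residually free -/
theorem res_of_free {D : Type} [Group D] [IsFreeGroup D] : ResiduallyFree D := by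
  intro x hx
  refine ⟨IsFreeGroup.Generators D, (IsFreeGroup.toFreeGroup D).toMonoidHom, fun h => hx ?_⟩
  apply (IsFreeGroup.toFreeGroup D).injective
  rw [map_one]
  exact h

theorem w13_range {D : Type} [Group D] (u v : D) :
    (FreeGroup.lift ![u, v] : F2 →* D).range = Subgroup.closure {u, v} := by
  apply le_antisymm
  · refine FreeGroup.range_lift_le ?_
    rintro x ⟨i, rfl⟩
    fin_cases i
    · exact Subgroup.subset_closure (by simp)
    · exact Subgroup.subset_closure (by simp)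
  · rw [Subgroup.closure_le]
    rintro x (rfl | rfl)
    · exact ⟨FreeGroup.of 0, by simp⟩
    · exact ⟨FreeGroup.of 1, by simp⟩

theorem w13_comm_ne {D : Type} [Group D] {x y : D} (h : x * y ≠ y * x) :
    x * y * x⁻¹ * y⁻¹ ≠ 1 := by
  intro h0
  apply h
  have h1 := mul_inv_eq_one.1 h0
  rw [mul_inv_eq_iff_eq_mul] at h1
  exact h1

theorem w13_ne_comm {D E : Type} [Group D] [Group E] (f : D →* E) {x y : D}
    (h : f (x * y * x⁻¹ * y⁻¹) ≠ 1) : f x * f y ≠ f y * f x := by
  intro h0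
  apply h
  rw [map_mul, map_mul, map_mul, map_inv, map_inv, h0]
  group

/-- two elements that are never both nontrivial in a free quotient commute -/
theorem w13_kill {D : Type} [Group D] (hD : ResiduallyFree D) (y z : D)
    (h : ∀ (X : Type) (f : D →* FreeGroup X), f y = 1 ∨ f z = 1) : y * z = z * y := by
  by_contra hcon
  obtain ⟨X, f, hf⟩ := hD _ (w13_comm_ne hcon)
  apply hf
  rw [map_mul, map_mul, map_mul, map_inv, map_inv]
  rcases h X f with h1 | h1
  · rw [h1]
    group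
  · rw [h1]
    group

theorem w13_inj {D E : Type} [Group D] [Group E] [IsFreeGroup E] (f : D →* E) (p q : D)
    (h : f p * f q ≠ f q * f p) : Function.Injective (FreeGroup.lift ![p, q] : F2 →* D) := by
  have hinj := pair_free (f p) (f q) h
  have h5 : ∀ w : F2, f (FreeGroup.lift ![p, q] w) = FreeGroup.lift ![f p, f q] w := by
    intro w
    have h2 : f.comp (FreeGroup.lift ![p, q] : F2 →* D) =
        (FreeGroup.lift ![f p, f q] : F2 →* E) := by
      ext i
      fin_cases i <;> simp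
    exact DFunLike.congr_fun h2 w
  intro w w' hww
  apply hinj
  rw [← h5, ← h5, hww]

theorem w13_rel1 {E : Type} [Group E] [IsFreeGroup E] (x y : E) (h : x * y ≠ y * x) :
    x * (y * x * y⁻¹) ≠ (y * x * y⁻¹) * x := by
  intro h0
  have hinj := pair_free x y h
  have h1 : (FreeGroup.of 0 * (FreeGroup.of 1 * FreeGroup.of 0 * (FreeGroup.of 1)⁻¹) : F2) =
      (FreeGroup.of 1 * FreeGroup.of 0 * (FreeGroup.of 1)⁻¹) * FreeGroup.of 0 := by
    apply hinj
    simpa using h0
  revert h1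
  decide

theorem w13_rel2 {E : Type} [Group E] [IsFreeGroup E] (x y : E) (h : x * y ≠ y * x) :
    (x * y * x⁻¹ * y⁻¹) * (x * (x * y * x⁻¹ * y⁻¹) * x⁻¹) ≠
      (x * (x * y * x⁻¹ * y⁻¹) * x⁻¹) * (x * y * x⁻¹ * y⁻¹) := by
  intro h0
  have hinj := pair_free x y h
  have h1 : ((FreeGroup.of 0 * FreeGroup.of 1 * (FreeGroup.of 0)⁻¹ * (FreeGroup.of 1)⁻¹) *
      (FreeGroup.of 0 * (FreeGroup.of 0 * FreeGroup.of 1 * (FreeGroup.of 0)⁻¹ *
        (FreeGroup.of 1)⁻¹) * (FreeGroup.of 0)⁻¹) : F2) =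
      (FreeGroup.of 0 * (FreeGroup.of 0 * FreeGroup.of 1 * (FreeGroup.of 0)⁻¹ *
        (FreeGroup.of 1)⁻¹) * (FreeGroup.of 0)⁻¹) *
      (FreeGroup.of 0 * FreeGroup.of 1 * (FreeGroup.of 0)⁻¹ * (FreeGroup.of 1)⁻¹) := by
    apply hinj
    simpa using h0
  revert h1
  decide

/-- two commuting pairs, each of them free generators of a free group -/
def TwoPairs (D : Type) [Group D] : Prop :=
  ∃ p q r s : D, Function.Injective (FreeGroup.lift ![p, q] : F2 →* D) ∧
    Function.Injective (FreeGroup.lift ![r, s] : F2 →* D) ∧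
    p * r = r * p ∧ p * s = s * p ∧ q * r = r * q ∧ q * s = s * q

theorem res_alt {D : Type} [Group D] [Group.FG D] (hD : ResiduallyFree D) (u v g a b : D)
    (hab : a * b ≠ b * a) (ha : a ∈ Subgroup.closure {u, v})
    (hb : b ∈ Subgroup.closure {u, v}) (hag : g⁻¹ * a * g ∈ Subgroup.closure {u, v})
    (hbg : g⁻¹ * b * g ∈ Subgroup.closure {u, v}) :
    (∃ β ∈ Subgroup.closure {u, v}, ∀ x : D, (g * β⁻¹) * x = x * (g * β⁻¹)) ∨ TwoPairs D := by
  have hc := w13_comm_ne hab
  obtain ⟨X, f₀, hf₀⟩ := hD _ hc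
  have hE : IsFreeGroup f₀.range := subgroupIsFreeOfIsFree _
  have hE2 : Group.FG f₀.range :=
    Group.fg_of_surjective (f := f₀.rangeRestrict) f₀.rangeRestrict_surjective
  obtain ⟨f, hff⟩ : ∃ f : D →* f₀.range, ∀ z, ((f z : f₀.range) : FreeGroup X) = f₀ z :=
    ⟨f₀.rangeRestrict, fun z => rfl⟩
  have hf : f (a * b * a⁻¹ * b⁻¹) ≠ 1 := by
    intro h
    apply hf₀
    rw [← hff, h]
    rfl
  have hfab := w13_ne_comm f hf
  have hmap : (Subgroup.closure {u, v}).map f = Subgroup.closure {f u, f v} := by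
    rw [MonoidHom.map_closure, Set.image_pair]
  have hfmem : ∀ z ∈ Subgroup.closure {u, v}, f z ∈ Subgroup.closure {f u, f v} := by
    intro z hz
    rw [← hmap]
    exact ⟨z, hz, rfl⟩
  have hgmem : f g ∈ Subgroup.closure {f u, f v} := by
    by_contra hcon
    apply hfab
    refine w10_comm (f u) (f v) (f g) hcon (f a) (f b) (hfmem a ha) (hfmem b hb) ?_ ?_
    · have := hfmem _ hag
      rwa [map_mul, map_mul, map_inv] at this
    · have := hfmem _ hbg
      rwa [map_mul, map_mul, map_inv] at this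
  obtain ⟨β, hβ, hβg⟩ : ∃ β ∈ Subgroup.closure {u, v}, f β = f g := by
    rw [← hmap] at hgmem
    obtain ⟨β, hβ, h⟩ := hgmem
    exact ⟨β, hβ, h⟩
  -- `f` is injective on the subgroup
  have huv : f u * f v ≠ f v * f u := by
    intro h
    apply hfab
    have hcomm : ∀ p ∈ ({f u, f v} : Set f₀.range), ∀ q ∈ ({f u, f v} : Set f₀.range),
        p * q = q * p := by
      rintro p (rfl | rfl) q (rfl | rfl)
      · rfl
      · exact h
      · exact h.symm
      · rfl
    have h1 := (Subgroup.closureCommGroupOfComm hcomm).mul_comm ⟨f a, hfmem a ha⟩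
      ⟨f b, hfmem b hb⟩
    exact congrArg Subtype.val h1
  have hinj := pair_free (f u) (f v) huv
  have hker : ∀ z ∈ Subgroup.closure {u, v}, f z = 1 → z = 1 := by
    intro z hz h
    rw [← w13_range] at hz
    obtain ⟨w, rfl⟩ := hz
    have h1 : f (FreeGroup.lift ![u, v] w) = FreeGroup.lift ![f u, f v] w := by
      have h2 : f.comp (FreeGroup.lift ![u, v] : F2 →* D) =
          (FreeGroup.lift ![f u, f v] : F2 →* f₀.range) := by
        ext i
        fin_cases i <;> simp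
      exact DFunLike.congr_fun h2 w
    rw [h1] at h
    have h3 : w = 1 := hinj (by rw [h, map_one])
    rw [h3, map_one]
  have hconj : ∀ c ∈ Subgroup.closure {u, v}, g⁻¹ * c * g ∈ Subgroup.closure {u, v} →
      β * (g⁻¹ * c * g) * β⁻¹ = c := by
    intro c hc hcg
    have h1 : (β * (g⁻¹ * c * g) * β⁻¹) * c⁻¹ = 1 := by
      refine hker _ (mul_mem (mul_mem (mul_mem hβ hcg) (inv_mem hβ)) (inv_mem hc)) ?_
      rw [map_mul, map_mul, map_mul, map_mul, map_mul, map_inv, map_inv, map_inv, hβg]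
      group
    exact mul_inv_eq_one.1 h1
  have hcent : ∀ c, β * (g⁻¹ * c * g) * β⁻¹ = c → (g * β⁻¹) * c = c * (g * β⁻¹) := by
    intro c hc
    calc (g * β⁻¹) * c = (g * β⁻¹) * (β * (g⁻¹ * c * g) * β⁻¹) := by rw [hc]
      _ = c * (g * β⁻¹) := by group
  have hda := hcent a (hconj a ha hag)
  have hdb := hcent b (hconj b hb hbg)
  obtain ⟨d, hd⟩ : ∃ d, d = g * β⁻¹ := ⟨_, rfl⟩
  rw [← hd] at hda hdb
  by_cases hcen : ∀ x : D, d * x = x * d
  · left
    refine ⟨β, hβ, ?_⟩
    rw [← hd]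
    exact hcen
  right
  push Not at hcen
  obtain ⟨x, hx⟩ := hcen
  obtain ⟨c, hcdef⟩ : ∃ c, c = a * b * a⁻¹ * b⁻¹ := ⟨_, rfl⟩
  have hkill : ∀ (Y : Type) (k : D →* FreeGroup Y), k d = 1 ∨ k c = 1 := by
    intro Y k
    by_cases h : k d = 1
    · exact Or.inl h
    right
    have h1 : k d * k a = k a * k d := by rw [← map_mul, hda, map_mul]
    have h2 : k d * k b = k b * k d := by rw [← map_mul, hdb, map_mul]
    have h3 := comm_of_comm (k d) (k a) (k b) h h1 h2
    rw [hcdef, map_mul, map_mul, map_mul, map_inv, map_inv, h3]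
    group
  refine ⟨d, x * d * x⁻¹, c, a * c * a⁻¹, ?_, ?_, ?_, ?_, ?_, ?_⟩
  · obtain ⟨Y, k, hk⟩ := hD _ (w13_comm_ne hx)
    refine w13_inj k _ _ ?_
    rw [map_mul, map_mul, map_inv]
    exact w13_rel1 (k d) (k x) (w13_ne_comm k hk)
  · refine w13_inj f _ _ ?_
    rw [hcdef]
    simp only [map_mul, map_inv]
    exact w13_rel2 (f a) (f b) hfab
  · exact w13_kill hD _ _ hkill
  · refine w13_kill hD _ _ fun Y k => ?_
    rcases hkill Y k with h | h
    · exact Or.inl h
    · right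
      rw [map_mul, map_mul, map_inv, h]
      group
  · refine w13_kill hD _ _ fun Y k => ?_
    rcases hkill Y k with h | h
    · left
      rw [map_mul, map_mul, map_inv, h]
      group
    · exact Or.inr h
  · refine w13_kill hD _ _ fun Y k => ?_
    rcases hkill Y k with h | h
    · left
      rw [map_mul, map_mul, map_inv, h]
      group
    · right
      rw [map_mul, map_mul, map_inv, h]
      group

theorem w13_two {Γ : Type} [Group Γ] (D : Subgroup Γ) (h : TwoPairs D) : TwoPairs Γ := by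
  obtain ⟨p, q, r, s, h1, h2, h3, h4, h5, h6⟩ := h
  have hl : ∀ x y : D, Function.Injective (FreeGroup.lift ![x, y] : F2 →* D) →
      Function.Injective (FreeGroup.lift ![(x : Γ), (y : Γ)] : F2 →* Γ) := by
    intro x y hxy
    have he : D.subtype.comp (FreeGroup.lift ![x, y] : F2 →* D) =
        (FreeGroup.lift ![(x : Γ), (y : Γ)] : F2 →* Γ) := by
      ext i
      fin_cases i <;> simp
    rw [← he]
    exact D.subtype_injective.comp hxy
  exact ⟨p, q, r, s, hl p q h1, hl r s h2, congrArg Subtype.val h3, congrArg Subtype.val h4,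
    congrArg Subtype.val h5, congrArg Subtype.val h6⟩

theorem res_three {Γ : Type} [Group Γ] (u v g : Γ)
    (hlf : ResiduallyFree (Subgroup.closure ({u, v, g} : Set Γ))) (a b : Γ)
    (hab : a * b ≠ b * a) (ha : a ∈ Subgroup.closure {u, v})
    (hb : b ∈ Subgroup.closure {u, v}) (hag : g⁻¹ * a * g ∈ Subgroup.closure {u, v})
    (hbg : g⁻¹ * b * g ∈ Subgroup.closure {u, v}) :
    (∃ β ∈ Subgroup.closure {u, v}, (g * β⁻¹) * u = u * (g * β⁻¹) ∧
      (g * β⁻¹) * v = v * (g * β⁻¹)) ∨ TwoPairs Γ := by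
  classical
  let S : Finset Γ := {u, v, g}
  have hSe : (S : Set Γ) = {u, v, g} := by simp [S]
  have hS : ∀ x ∈ S, x ∈ Subgroup.closure (S : Set Γ) := fun x hx => Subgroup.subset_closure hx
  have huS : u ∈ S := by simp [S]
  have hvS : v ∈ S := by simp [S]
  have hgS : g ∈ S := by simp [S]
  have hBD : Subgroup.closure {u, v} ≤ Subgroup.closure (S : Set Γ) := by
    rw [Subgroup.closure_le]
    rintro x (rfl | rfl)
    · exact hS _ huS
    · exact hS _ hvS
  have hdisc : ResiduallyFree (Subgroup.closure (S : Set Γ)) := by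
    rw [hSe]
    exact hlf
  have hfg : Group.FG (Subgroup.closure (S : Set Γ)) := Group.closure_finset_fg S
  let uD : Subgroup.closure (S : Set Γ) := ⟨u, hS _ huS⟩
  let vD : Subgroup.closure (S : Set Γ) := ⟨v, hS _ hvS⟩
  let gD : Subgroup.closure (S : Set Γ) := ⟨g, hS _ hgS⟩
  have hmem : ∀ x : Subgroup.closure (S : Set Γ),
      x ∈ Subgroup.closure {uD, vD} ↔ (x : Γ) ∈ Subgroup.closure {u, v} := by
    intro x
    have h1 : (Subgroup.closure {uD, vD}).map (Subgroup.closure (S : Set Γ)).subtype =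
        Subgroup.closure {u, v} := by
      rw [MonoidHom.map_closure, Set.image_pair]
      rfl
    rw [← h1, Subgroup.mem_map]
    constructor
    · intro hx
      exact ⟨x, hx, rfl⟩
    · rintro ⟨z, hz, hzx⟩
      have : z = x := Subtype.ext hzx
      rwa [← this]
  rcases res_alt hdisc uD vD gD ⟨a, hBD ha⟩ ⟨b, hBD hb⟩ (fun h => hab (congrArg Subtype.val h))
    ((hmem _).2 ha) ((hmem _).2 hb) ((hmem _).2 hag) ((hmem _).2 hbg) with h | h
  · left
    obtain ⟨β, hβ, h1⟩ := h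
    exact ⟨β, (hmem _).1 hβ, congrArg Subtype.val (h1 uD), congrArg Subtype.val (h1 vD)⟩
  · exact Or.inr (w13_two _ h)

/-- `u` and `v` generate a free group of rank 2 freely -/
theorem res_free {Γ : Type} [Group Γ] (u v : Γ) (huv : u * v ≠ v * u)
    (h : ResiduallyFree (Subgroup.closure ({u, v, u} : Set Γ))) :
    Function.Injective (FreeGroup.lift ![u, v] : F2 →* Γ) := by
  have huB : u ∈ Subgroup.closure ({u, v, u} : Set Γ) := Subgroup.subset_closure (by simp)
  have hvB : v ∈ Subgroup.closure ({u, v, u} : Set Γ) := Subgroup.subset_closure (by simp)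
  obtain ⟨uB, huB'⟩ : ∃ uB : Subgroup.closure ({u, v, u} : Set Γ), (uB : Γ) = u :=
    ⟨⟨u, huB⟩, rfl⟩
  obtain ⟨vB, hvB'⟩ : ∃ vB : Subgroup.closure ({u, v, u} : Set Γ), (vB : Γ) = v :=
    ⟨⟨v, hvB⟩, rfl⟩
  have hc : uB * vB ≠ vB * uB := by
    intro h
    apply huv
    have h2 := congrArg Subtype.val h
    rw [Subgroup.coe_mul, Subgroup.coe_mul, huB', hvB'] at h2
    exact h2
  obtain ⟨X, f, hf⟩ := h _ (w13_comm_ne hc)
  have h3 := w13_inj f uB vB (w13_ne_comm f hf)
  have he : (Subgroup.closure ({u, v, u} : Set Γ)).subtype.comp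
      (FreeGroup.lift ![uB, vB] : F2 →* _) = (FreeGroup.lift ![u, v] : F2 →* Γ) := by
    ext i
    fin_cases i <;> simp [huB', hvB']
  rw [← he]
  exact (Subgroup.subtype_injective _).comp h3

/-- a co-amenable non-amenable free subgroup `B`, and a subgroup `Z` that centralizes it -/
theorem w13_top {Γ : Type} [Group Γ] [Countable Γ] (B Z : Subgroup Γ) (hBfree : IsFreeGroup B)
    (hB : ¬ HasMean B B) (hZ : ∀ z ∈ Z, ∀ b ∈ B, z * b = b * z)
    (h3 : ∀ g a b : Γ, a ∈ B → b ∈ B → a * b ≠ b * a → g⁻¹ * a * g ∈ B → g⁻¹ * b * g ∈ B →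
      ∃ z ∈ Z, ∃ β ∈ B, g = z * β) (hco : HasMean Γ (Γ ⧸ B)) :
    ∀ h : Γ, ∃ z ∈ Z, ∃ β ∈ B, h = z * β := by
  classical
  obtain ⟨m, h0, h1, h2, h3'⟩ := hco
  have hcount : Countable (Γ ⧸ B) := (QuotientGroup.mk_surjective (s := B)).countable
  let E : Set (Γ ⧸ B) := {x | ¬ HasMean (B ⊓ MulAction.stabilizer Γ x : Subgroup Γ)
    (B ⊓ MulAction.stabilizer Γ x : Subgroup Γ)}
  have hEc : m Eᶜ = 0 := by
    have h := null_inf B hB m h0 h2 h3'
    rw [← h]
    congr 1
    ext x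
    simp [E]
  have hE : m E = 1 := by
    have h4 := h2 E Eᶜ disjoint_compl_right
    rw [Set.union_compl_self, h1, hEc, add_zero] at h4
    exact h4.symm
  have hpt : ∀ x ∈ E, ∃ z ∈ Z, x = ((z : Γ) : Γ ⧸ B) := by
    intro x hx
    have hfr : IsFreeGroup (B ⊓ MulAction.stabilizer Γ x : Subgroup Γ) := by
      have h5 : IsFreeGroup (MulAction.stabilizer B x) := subgroupIsFreeOfIsFree _
      let e : MulAction.stabilizer B x ≃* (B ⊓ MulAction.stabilizer Γ x : Subgroup Γ) :=
        { toFun := fun y => ⟨y.1.1, ⟨y.1.2, y.2⟩⟩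
          invFun := fun y => ⟨⟨y.1, y.2.1⟩, y.2.2⟩
          left_inv := fun _ => rfl
          right_inv := fun _ => rfl
          map_mul' := fun _ _ => rfl }
      exact IsFreeGroup.ofMulEquiv e
    obtain ⟨a, b, hab⟩ := w10_noncomm (H := (B ⊓ MulAction.stabilizer Γ x : Subgroup Γ)) hx
    obtain ⟨g, rfl⟩ := QuotientGroup.mk_surjective x
    have hconj : ∀ c : Γ, c • (g : Γ ⧸ B) = (g : Γ ⧸ B) → g⁻¹ * c * g ∈ B := by
      intro c hc
      have h5 : ((c * g : Γ) : Γ ⧸ B) = (g : Γ ⧸ B) := hc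
      have h6 := QuotientGroup.eq.1 h5.symm
      rwa [← mul_assoc] at h6
    obtain ⟨z, hz, β, hβ, hg⟩ := h3 g a b a.2.1 b.2.1 (fun h => hab (Subtype.ext h))
      (hconj a a.2.2) (hconj b b.2.2)
    refine ⟨z, hz, ?_⟩
    rw [QuotientGroup.eq, hg]
    have h7 : (z * β)⁻¹ * z = β⁻¹ := by group
    rw [h7]
    exact inv_mem hβ
  intro h
  have hle : ∀ A, m A ≤ 1 := by
    intro A
    have h := h2 A Aᶜ disjoint_compl_right
    rw [Set.union_compl_self, h1] at h
    linarith [h0 Aᶜ]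
  have hnd : ¬ Disjoint ((fun x => h • x) '' E) E := by
    intro hd
    have h4 := h2 _ _ hd
    rw [h3' h E, hE] at h4
    have h5 := hle ((fun x => h • x) '' E ∪ E)
    linarith
  obtain ⟨y, ⟨x, hx, hxy⟩, hy⟩ := Set.not_disjoint_iff.1 hnd
  obtain ⟨z, hz, hzx⟩ := hpt x hx
  obtain ⟨z', hz', hzy⟩ := hpt y hy
  have h4 : ((h * z : Γ) : Γ ⧸ B) = ((z' : Γ) : Γ ⧸ B) := by
    rw [← hzy, ← hxy, hzx]
    rfl
  have h5 := QuotientGroup.eq.1 h4.symm
  refine ⟨z' * z⁻¹, mul_mem hz' (inv_mem hz), z'⁻¹ * (h * z), h5, ?_⟩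
  have h6 := hZ z⁻¹ (inv_mem hz) _ h5
  rw [mul_assoc, h6]
  group

end Pool.Agent.Lib.MP_35fb4b_lc.SR
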