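import Pool.Agent.Lib.MP_35fb4b_lc.SR.W0

/-!
# Two-generator subgroups of free groups have few branch vertices (MP_35fb4b_lc)
-/

set_option autoImplicit false

namespace Pool.Agent.Lib.MP_35fb4b_lc.SR

noncomputable section

variable {α : Type}

/-- the inverse letter -/
def w2_inv (s : α × Bool) : α × Bool := (s.1, !s.2)

theorem w2_inv_inv (s : α × Bool) : w2_inv (w2_inv s) = s := by
  simp [w2_inv]

theorem w2_mk_inv (s : α × Bool) :
    (FreeGroup.mk [w2_inv s] : FreeGroup α) = (FreeGroup.mk [s])⁻¹ := by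
  rw [FreeGroup.inv_mk]
  rfl

section
variable (B : Subgroup (FreeGroup α))

/-- the neighbour of `y` in direction `s` -/
def w2_step (s : α × Bool) (y : FreeGroup α ⧸ B) : FreeGroup α ⧸ B :=
  (FreeGroup.mk [s])⁻¹ • y

theorem w2_step_inv (s : α × Bool) (y : FreeGroup α ⧸ B) :
    w2_step B (w2_inv s) (w2_step B s y) = y := by
  unfold w2_step
  rw [w2_mk_inv, inv_inv, smul_inv_smul]

theorem w2_step_inv' (s : α × Bool) (y : FreeGroup α ⧸ B) :
    w2_step B s (w2_step B (w2_inv s) y) = y := by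
  unfold w2_step
  rw [w2_mk_inv, inv_inv, inv_smul_smul]

variable [DecidableEq α]

/-- distance to the base vertex -/
def w2_dist (y : FreeGroup α ⧸ B) : ℕ :=
  sInf {n | ∃ g : FreeGroup α, g.norm = n ∧ (g : FreeGroup α ⧸ B) = y}

theorem w2_dist_le (g : FreeGroup α) : w2_dist B (g : FreeGroup α ⧸ B) ≤ g.norm :=
  Nat.sInf_le ⟨g, rfl, rfl⟩

theorem w2_exists_rep (y : FreeGroup α ⧸ B) :
    ∃ g : FreeGroup α, g.norm = w2_dist B y ∧ (g : FreeGroup α ⧸ B) = y := by
  have h : {n | ∃ g : FreeGroup α, g.norm = n ∧ (g : FreeGroup α ⧸ B) = y}.Nonempty := by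
    obtain ⟨g, hg⟩ := QuotientGroup.mk_surjective y
    exact ⟨g.norm, g, rfl, hg⟩
  exact Nat.sInf_mem h

/-- a parent function -/
theorem w2_exists_parent (y : FreeGroup α ⧸ B) (hy : y ≠ ((1 : FreeGroup α) : FreeGroup α ⧸ B)) :
    ∃ s : α × Bool, w2_dist B (w2_step B s y) < w2_dist B y := by
  obtain ⟨g, hg, hgy⟩ := w2_exists_rep B y
  rcases hw : g.toWord with _ | ⟨s, L⟩
  · exfalso
    apply hy
    rw [← hgy, FreeGroup.toWord_eq_nil_iff.1 hw]
  · refine ⟨s, ?_⟩
    have h1 : g = FreeGroup.mk [s] * FreeGroup.mk L := by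
      rw [← FreeGroup.mk_toWord (x := g), hw, FreeGroup.mul_mk, List.singleton_append]
    have h2 : w2_step B s y = ((FreeGroup.mk L : FreeGroup α) : FreeGroup α ⧸ B) := by
      rw [← hgy]
      change (((FreeGroup.mk [s])⁻¹ * g : FreeGroup α) : FreeGroup α ⧸ B) = _
      rw [h1, inv_mul_cancel_left]
    rw [h2, ← hg]
    refine lt_of_le_of_lt (w2_dist_le B _) ?_
    refine lt_of_le_of_lt (FreeGroup.norm_mk_le) ?_
    unfold FreeGroup.norm
    rw [hw]
    simp

theorem w2_exists_sigma : ∃ σ : FreeGroup α ⧸ B → Option (α × Bool),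
    (∀ y, σ y = none ↔ y = ((1 : FreeGroup α) : FreeGroup α ⧸ B)) ∧
      ∀ y s, σ y = some s → w2_dist B (w2_step B s y) < w2_dist B y := by
  classical
  have h : ∀ y : FreeGroup α ⧸ B, ∃ o : Option (α × Bool),
      (o = none ↔ y = ((1 : FreeGroup α) : FreeGroup α ⧸ B)) ∧
        ∀ s, o = some s → w2_dist B (w2_step B s y) < w2_dist B y := by
    intro y
    by_cases hy : y = ((1 : FreeGroup α) : FreeGroup α ⧸ B)
    · exact ⟨none, by simp [hy], by simp⟩
    · obtain ⟨s, hs⟩ := w2_exists_parent B y hy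
      refine ⟨some s, by simp [hy], fun s' h' => ?_⟩
      rw [← Option.some.inj h']
      exact hs
  choose σ hσ1 hσ2 using h
  exact ⟨σ, hσ1, hσ2⟩

end

/-! ### the crossing cocycle -/

section cocycle
open scoped Classical

variable (B : Subgroup (FreeGroup α))

/-- the value group -/
abbrev w2_M (B : Subgroup (FreeGroup α)) : Type := (FreeGroup α ⧸ B) × α → ZMod 2

/-- the action of a generator -/
def w2_perm (a : α) : Equiv.Perm ((FreeGroup α ⧸ B) × w2_M B) where
  toFun x := (FreeGroup.of a • x.1, x.2 + Pi.single (FreeGroup.of a • x.1, a) 1)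
  invFun x := ((FreeGroup.of a)⁻¹ • x.1, x.2 - Pi.single (x.1, a) 1)
  left_inv x := by
    ext1
    · simp
    · simp
  right_inv x := by
    ext1
    · simp
    · simp

/-- the action of the free group -/
def w2_rho : FreeGroup α →* Equiv.Perm ((FreeGroup α ⧸ B) × w2_M B) :=
  FreeGroup.lift (w2_perm B)

theorem w2_rho_spec (g : FreeGroup α) : ∀ (y : FreeGroup α ⧸ B) (m n : w2_M B),
    (w2_rho B g (y, m)).1 = g • y ∧ (w2_rho B g (y, m + n)).2 = (w2_rho B g (y, m)).2 + n := by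
  induction g using FreeGroup.induction_on with
  | C1 =>
    intro y m n
    simp
  | of a =>
    intro y m n
    rw [w2_rho, FreeGroup.lift_apply_of]
    constructor
    · rfl
    · show m + n + _ = m + _ + n
      abel
  | inv_of a _ =>
    intro y m n
    rw [map_inv, w2_rho, FreeGroup.lift_apply_of]
    constructor
    · rfl
    · show m + n - _ = m - _ + n
      abel
  | mul g h hg hh =>
    intro y m n
    rw [map_mul, Equiv.Perm.mul_apply, Equiv.Perm.mul_apply]
    have h1 : ∀ m, w2_rho B h (y, m) = (h • y, (w2_rho B h (y, m)).2) := fun m =>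
      Prod.ext (hh y m 0).1 rfl
    rw [h1 m, h1 (m + n), (hh y m n).2]
    refine ⟨?_, (hg _ _ _).2⟩
    rw [(hg _ _ 0).1, mul_smul]

/-- the crossing cocycle -/
def w2_c (g : FreeGroup α) (y : FreeGroup α ⧸ B) : w2_M B := (w2_rho B g (y, 0)).2

theorem w2_c_mul (g h : FreeGroup α) (y : FreeGroup α ⧸ B) :
    w2_c B (g * h) y = w2_c B g (h • y) + w2_c B h y := by
  unfold w2_c
  rw [map_mul, Equiv.Perm.mul_apply]
  have h1 : w2_rho B h (y, 0) = (h • y, 0 + (w2_rho B h (y, 0)).2) :=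
    Prod.ext (w2_rho_spec B h y 0 0).1 (by simp)
  rw [h1, (w2_rho_spec B g _ _ _).2]
  simp

theorem w2_c_one (y : FreeGroup α ⧸ B) : w2_c B 1 y = 0 := by
  unfold w2_c
  simp

theorem w2_c_of (a : α) (y : FreeGroup α ⧸ B) :
    w2_c B (FreeGroup.of a) y = Pi.single (FreeGroup.of a • y, a) 1 := by
  unfold w2_c w2_rho
  rw [FreeGroup.lift_apply_of]
  show (0 : w2_M B) + _ = _
  rw [zero_add]

theorem w2_c_inv_of (a : α) (y : FreeGroup α ⧸ B) :
    w2_c B (FreeGroup.of a)⁻¹ y = - Pi.single (y, a) 1 := by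
  unfold w2_c w2_rho
  rw [map_inv, FreeGroup.lift_apply_of]
  show (0 : w2_M B) - _ = _
  rw [zero_sub]

theorem w2_c_inv (g : FreeGroup α) (y : FreeGroup α ⧸ B) :
    w2_c B g⁻¹ (g • y) = - w2_c B g y := by
  have h := w2_c_mul B g⁻¹ g y
  rw [inv_mul_cancel, w2_c_one] at h
  exact eq_neg_of_add_eq_zero_left h.symm

/-- the letter `s` at `y` is neither the direction of the parent nor that of a child -/
def w2_C (σ : FreeGroup α ⧸ B → Option (α × Bool)) (y : FreeGroup α ⧸ B) (s : α × Bool) : Prop :=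
  σ y ≠ some s ∧ σ (w2_step B s y) ≠ some (w2_inv s)

theorem w2_C_inv {σ : FreeGroup α ⧸ B → Option (α × Bool)} {y : FreeGroup α ⧸ B} {s : α × Bool}
    (h : w2_C B σ y s) : w2_C B σ (w2_step B s y) (w2_inv s) := by
  refine ⟨h.2, ?_⟩
  rw [w2_step_inv, w2_inv_inv]
  exact h.1

/-- the tree path -/
theorem w2_path (σ : FreeGroup α ⧸ B → Option (α × Bool))
    (hσ1 : ∀ y, σ y = none ↔ y = ((1 : FreeGroup α) : FreeGroup α ⧸ B))
    (hσ2 : ∀ y s, σ y = some s → w2_dist B (w2_step B s y) < w2_dist B y) (n : ℕ) :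
    ∀ y, w2_dist B y = n → ∃ t : FreeGroup α, t • ((1 : FreeGroup α) : FreeGroup α ⧸ B) = y ∧
      ∀ f : (FreeGroup α ⧸ B) × α, w2_C B σ f.1 (f.2, true) →
        w2_c B t ((1 : FreeGroup α) : FreeGroup α ⧸ B) f = 0 := by
  induction n using Nat.strong_induction_on with
  | _ n ih =>
    intro y hy
    rcases hs : σ y with _ | s
    · refine ⟨1, ?_, fun f _ => ?_⟩
      · rw [one_smul]
        exact ((hσ1 y).1 hs).symm
      · rw [w2_c_one]
        rfl
    · obtain ⟨t, ht, htf⟩ := ih _ (by rw [← hy]; exact hσ2 y s hs) (w2_step B s y) rfl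
      have hty : FreeGroup.mk [s] • w2_step B s y = y := by
        unfold w2_step
        rw [smul_inv_smul]
      refine ⟨FreeGroup.mk [s] * t, ?_, fun f hf => ?_⟩
      · rw [mul_smul, ht, hty]
      · rw [w2_c_mul, Pi.add_apply, htf f hf, add_zero, ht]
        rcases s with ⟨a, b⟩
        cases b with
        | true =>
          have h1 : (FreeGroup.mk [(a, true)] : FreeGroup α) = FreeGroup.of a := rfl
          rw [h1] at hty ⊢
          rw [w2_c_of, hty]
          rw [Pi.single_apply, if_neg]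
          rintro rfl
          exact hf.1 hs
        | false =>
          have h1 : (FreeGroup.mk [(a, false)] : FreeGroup α) = (FreeGroup.of a)⁻¹ := rfl
          rw [h1] at hty ⊢
          rw [w2_c_inv_of, Pi.neg_apply, Pi.single_apply, if_neg, neg_zero]
          rintro rfl
          apply hf.2
          have h2 : w2_step B (a, true) (w2_step B (a, false) y) = y := w2_step_inv B (a, false) y
          rw [h2]
          exact hs

/-- at most two pairs of opposite complement edges -/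
theorem w2_card (u v : FreeGroup α) (hB : B = Subgroup.closure {u, v})
    (σ : FreeGroup α ⧸ B → Option (α × Bool))
    (hσ1 : ∀ y, σ y = none ↔ y = ((1 : FreeGroup α) : FreeGroup α ⧸ B))
    (hσ2 : ∀ y s, σ y = some s → w2_dist B (w2_step B s y) < w2_dist B y)
    (F : Finset ((FreeGroup α ⧸ B) × α)) (hF : ∀ f ∈ F, w2_C B σ f.1 (f.2, true)) :
    F.card ≤ 2 := by
  obtain ⟨y0, hy0⟩ : ∃ y0, y0 = ((1 : FreeGroup α) : FreeGroup α ⧸ B) := ⟨_, rfl⟩
  have hBy : ∀ h ∈ B, h • y0 = y0 := by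
    intro h hh
    rw [hy0]
    change ((h * 1 : FreeGroup α) : FreeGroup α ⧸ B) = _
    rw [QuotientGroup.eq]
    simpa using B.inv_mem hh
  -- the loop of a complement edge
  have hloop : ∀ f ∈ F, ∃ b ∈ B, ∀ f' ∈ F, w2_c B b y0 f' = if f' = f then 1 else 0 := by
    rintro ⟨y, a⟩ hf
    obtain ⟨t, ht, htf⟩ := w2_path B σ hσ1 hσ2 _ y rfl
    obtain ⟨t', ht', htf'⟩ := w2_path B σ hσ1 hσ2 _ ((FreeGroup.of a)⁻¹ • y) rfl
    rw [← hy0] at ht ht' htf htf'
    have hby : (t'⁻¹ * ((FreeGroup.of a)⁻¹ * t)) • y0 = y0 := by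
      rw [mul_smul, mul_smul, ht, ← ht', inv_smul_smul]
    refine ⟨t'⁻¹ * ((FreeGroup.of a)⁻¹ * t), ?_, fun f' hf' => ?_⟩
    · rw [hy0] at hby
      have h1 := QuotientGroup.eq.1 hby.symm
      simpa using h1
    · rw [w2_c_mul, w2_c_mul, mul_smul, ht]
      have h1 := w2_c_inv B t' y0
      rw [ht'] at h1
      rw [h1, w2_c_inv_of, Pi.add_apply, Pi.add_apply, Pi.neg_apply, Pi.neg_apply,
        htf f' (hF f' hf'), htf' f' (hF f' hf'), neg_zero, zero_add, add_zero, Pi.single_apply]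
      split_ifs
      · decide
      · decide
  by_contra hcard
  push Not at hcard
  obtain ⟨f1, hf1, f2, hf2, f3, hf3, h12, h13, h23⟩ := Finset.two_lt_card.1 hcard
  -- the values on `B`
  obtain ⟨cu, hcu⟩ : ∃ cu, cu = w2_c B u y0 := ⟨_, rfl⟩
  obtain ⟨cv, hcv⟩ : ∃ cv, cv = w2_c B v y0 := ⟨_, rfl⟩
  have htwo : ∀ m : w2_M B, m + m = 0 := by
    intro m
    funext f
    exact CharTwo.add_self_eq_zero (m f)
  have hval : ∀ h ∈ B, w2_c B h y0 = 0 ∨ w2_c B h y0 = cu ∨ w2_c B h y0 = cv ∨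
      w2_c B h y0 = cu + cv := by
    have hneg : ∀ m : w2_M B, -m = m := fun m => neg_eq_of_add_eq_zero_left (htwo m)
    have hadd : ∀ m n : w2_M B, (m = 0 ∨ m = cu ∨ m = cv ∨ m = cu + cv) →
        (n = 0 ∨ n = cu ∨ n = cv ∨ n = cu + cv) →
          (m + n = 0 ∨ m + n = cu ∨ m + n = cv ∨ m + n = cu + cv) := by
      have e1 : cu + (cu + cv) = cv := by rw [← add_assoc, htwo, zero_add]
      have e2 : cv + (cu + cv) = cu := by rw [add_comm cu cv, ← add_assoc, htwo, zero_add]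
      have e3 : cu + cv + cu = cv := by rw [add_comm (cu + cv), e1]
      have e4 : cu + cv + cv = cu := by rw [add_assoc, htwo, add_zero]
      rintro m n (h | h | h | h) (k | k | k | k) <;> rw [h, k] <;>
        simp [htwo, e1, e2, e3, e4, add_comm cv cu]
    have hle : ∀ h : FreeGroup α, h ∈ Subgroup.closure {u, v} → (h ∈ B) := by
      intro h hh
      rw [hB]
      exact hh
    intro h hh
    rw [hB] at hh
    induction hh using Subgroup.closure_induction with
    | mem x hx =>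
      rcases hx with rfl | hx
      · exact Or.inr (Or.inl hcu.symm)
      · rw [Set.mem_singleton_iff.1 hx]
        exact Or.inr (Or.inr (Or.inl hcv.symm))
    | one => exact Or.inl (w2_c_one B y0)
    | mul x y hx hy hxx hyy =>
      rw [w2_c_mul, hBy y (hle y hy)]
      exact hadd _ _ hxx hyy
    | inv x hx hxx =>
      have h1 := w2_c_inv B x y0
      rw [hBy x (hle x hx)] at h1
      rw [h1, hneg]
      exact hxx
  obtain ⟨b1, hb1, hv1⟩ := hloop f1 hf1
  obtain ⟨b2, hb2, hv2⟩ := hloop f2 hf2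
  obtain ⟨b3, hb3, hv3⟩ := hloop f3 hf3
  have e11 := hv1 f1 hf1
  have e12 := hv1 f2 hf2
  have e13 := hv1 f3 hf3
  have e21 := hv2 f1 hf1
  have e22 := hv2 f2 hf2
  have e23 := hv2 f3 hf3
  have e31 := hv3 f1 hf1
  have e32 := hv3 f2 hf2
  have e33 := hv3 f3 hf3
  rw [if_pos rfl] at e11 e22 e33
  rw [if_neg h12] at e21
  rw [if_neg h12.symm] at e12
  rw [if_neg h13] at e31
  rw [if_neg h13.symm] at e13
  rw [if_neg h23] at e32
  rw [if_neg h23.symm] at e23
  obtain ⟨x1, hx1⟩ : ∃ x, x = cu f1 := ⟨_, rfl⟩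
  obtain ⟨x2, hx2⟩ : ∃ x, x = cu f2 := ⟨_, rfl⟩
  obtain ⟨x3, hx3⟩ : ∃ x, x = cu f3 := ⟨_, rfl⟩
  obtain ⟨z1, hz1⟩ : ∃ x, x = cv f1 := ⟨_, rfl⟩
  obtain ⟨z2, hz2⟩ : ∃ x, x = cv f2 := ⟨_, rfl⟩
  obtain ⟨z3, hz3⟩ : ∃ x, x = cv f3 := ⟨_, rfl⟩
  rcases hval b1 hb1 with k1 | k1 | k1 | k1 <;> rw [k1] at e11 e12 e13 <;>
  rcases hval b2 hb2 with k2 | k2 | k2 | k2 <;> rw [k2] at e21 e22 e23 <;>
  rcases hval b3 hb3 with k3 | k3 | k3 | k3 <;> rw [k3] at e31 e32 e33 <;>
  simp only [Pi.add_apply, Pi.zero_apply, ← hx1, ← hx2, ← hx3, ← hz1, ← hz2, ← hz3] at * <;>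
  clear hval hloop hF k1 k2 k3 hv1 hv2 hv3 <;> simp_all

/-! ### descendants -/

/-- the parent -/
def w2_p (σ : FreeGroup α ⧸ B → Option (α × Bool)) (y : FreeGroup α ⧸ B) : FreeGroup α ⧸ B :=
  match σ y with
  | none => y
  | some s => w2_step B s y

theorem w2_p_some {σ : FreeGroup α ⧸ B → Option (α × Bool)} {y : FreeGroup α ⧸ B} {s : α × Bool}
    (h : σ y = some s) : w2_p B σ y = w2_step B s y := by
  unfold w2_p
  rw [h]

theorem w2_dist_p {σ : FreeGroup α ⧸ B → Option (α × Bool)}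
    (hσ2 : ∀ y s, σ y = some s → w2_dist B (w2_step B s y) < w2_dist B y)
    (y : FreeGroup α ⧸ B) : w2_dist B (w2_p B σ y) ≤ w2_dist B y := by
  rcases hs : σ y with _ | s
  · unfold w2_p
    rw [hs]
  · rw [w2_p_some B hs]
    exact (hσ2 y s hs).le

theorem w2_dist_iter {σ : FreeGroup α ⧸ B → Option (α × Bool)}
    (hσ2 : ∀ y s, σ y = some s → w2_dist B (w2_step B s y) < w2_dist B y)
    (y : FreeGroup α ⧸ B) (n : ℕ) : w2_dist B ((w2_p B σ)^[n] y) ≤ w2_dist B y := by
  induction n with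
  | zero => exact le_rfl
  | succ n ih =>
    rw [Function.iterate_succ_apply']
    exact (w2_dist_p B hσ2 _).trans ih

/-- a reduced walk stays among the descendants of `d` -/
theorem w2_walk {σ : FreeGroup α ⧸ B → Option (α × Bool)} (d : FreeGroup α ⧸ B)
    (hd : ∀ x, (∃ n, (w2_p B σ)^[n] x = d) → ∀ s, ¬ w2_C B σ x s) :
    ∀ (L : List (α × Bool)) (x : FreeGroup α ⧸ B), FreeGroup.IsReduced L →
      (∃ n, (w2_p B σ)^[n] x = d) → (∀ s, L.head? = some s → σ x ≠ some s) →
        ∃ n, (w2_p B σ)^[n] ((FreeGroup.mk L : FreeGroup α)⁻¹ • x) = d := by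
  intro L
  induction L with
  | nil =>
    intro x _ hx _
    have h1 : (FreeGroup.mk [] : FreeGroup α) = 1 := rfl
    rw [h1, inv_one, one_smul]
    exact hx
  | cons s L ih =>
    intro x hL hx hs
    have h1 : (FreeGroup.mk (s :: L) : FreeGroup α) = FreeGroup.mk [s] * FreeGroup.mk L := by
      rw [FreeGroup.mul_mk, List.singleton_append]
    have h2 : (FreeGroup.mk (s :: L) : FreeGroup α)⁻¹ • x =
        (FreeGroup.mk L : FreeGroup α)⁻¹ • w2_step B s x := by
      rw [h1, mul_inv_rev, mul_smul]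
      rfl
    rw [h2]
    have h3 := hd x hx s
    have h4 : σ (w2_step B s x) = some (w2_inv s) := by
      by_contra h5
      exact h3 ⟨hs s rfl, h5⟩
    have h5 : w2_p B σ (w2_step B s x) = x := by
      rw [w2_p_some B h4, w2_step_inv]
    have hL' : FreeGroup.IsReduced L := by
      rcases L with _ | ⟨t, L⟩
      · exact FreeGroup.IsReduced.nil
      · exact (FreeGroup.isReduced_cons_cons.1 hL).2
    refine ih _ hL' ?_ ?_
    · obtain ⟨n, hn⟩ := hx
      refine ⟨n + 1, ?_⟩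
      rw [Function.iterate_succ_apply, h5]
      exact hn
    · intro t ht ht2
      rcases L with _ | ⟨t', L⟩
      · simp at ht
      · have h6 : t' = t := by simpa using ht
        subst h6
        rw [h4] at ht2
        have h7 : w2_inv s = t' := Option.some.inj ht2
        have h8 := (FreeGroup.isReduced_cons_cons.1 hL).1
        rw [← h7] at h8
        have h9 := h8 rfl
        simp [w2_inv] at h9

/-- below a child in an essential direction there is an end point of a complement edge -/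
theorem w2_below {σ : FreeGroup α ⧸ B → Option (α × Bool)}
    (hσ2 : ∀ y s, σ y = some s → w2_dist B (w2_step B s y) < w2_dist B y)
    (z : FreeGroup α ⧸ B) (s : α × Bool) (hs : σ (w2_step B s z) = some (w2_inv s))
    (h : FreeGroup α) (hz : h • z = z) (hh : h.toWord.head? = some s) :
    ∃ x, (∃ n, (w2_p B σ)^[n] x = w2_step B s z) ∧ ∃ t, w2_C B σ x t := by
  by_contra hcon
  push Not at hcon
  rcases hw : h.toWord with _ | ⟨s', L⟩
  · rw [hw] at hh
    simp at hh
  · have h1 : s' = s := by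
      rw [hw] at hh
      simpa using hh
    subst h1
    have hred : FreeGroup.IsReduced (s' :: L) := by
      rw [← hw]
      exact FreeGroup.isReduced_toWord
    have h2 : h = FreeGroup.mk [s'] * FreeGroup.mk L := by
      rw [← FreeGroup.mk_toWord (x := h), hw, FreeGroup.mul_mk, List.singleton_append]
    have h3 : (FreeGroup.mk L : FreeGroup α)⁻¹ • w2_step B s' z = z := by
      have h4 : h⁻¹ • z = z := by
        rw [inv_smul_eq_iff]
        exact hz.symm
      rw [h2, mul_inv_rev, mul_smul] at h4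
      exact h4
    have hL' : FreeGroup.IsReduced L := by
      rcases L with _ | ⟨t, L⟩
      · exact FreeGroup.IsReduced.nil
      · exact (FreeGroup.isReduced_cons_cons.1 hred).2
    obtain ⟨n, hn⟩ := w2_walk B (w2_step B s' z) (fun x hx t => hcon x hx t) L
      (w2_step B s' z) hL' ⟨0, rfl⟩ (by
        intro t ht ht2
        rcases L with _ | ⟨t', L⟩
        · simp at ht
        · have h6 : t' = t := by simpa using ht
          subst h6
          rw [hs] at ht2
          have h7 : w2_inv s' = t' := Option.some.inj ht2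
          have h8 := (FreeGroup.isReduced_cons_cons.1 hred).1
          rw [← h7] at h8
          have h9 := h8 rfl
          simp [w2_inv] at h9)
    rw [h3] at hn
    have h5 := w2_dist_iter B hσ2 z n
    rw [hn] at h5
    have h6 := hσ2 _ _ hs
    rw [w2_step_inv] at h6
    omega

/-- the meet of two vertices is unique -/
theorem w2_meet {σ : FreeGroup α ⧸ B → Option (α × Bool)}
    (hσ2 : ∀ y s, σ y = some s → w2_dist B (w2_step B s y) < w2_dist B y)
    (e1 e2 z z' d1 d2 d1' d2' : FreeGroup α ⧸ B) (n1 n2 n1' n2' : ℕ)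
    (h1 : (w2_p B σ)^[n1] e1 = d1) (h2 : (w2_p B σ)^[n2] e2 = d2)
    (h1' : (w2_p B σ)^[n1'] e1 = d1') (h2' : (w2_p B σ)^[n2'] e2 = d2')
    (p1 : w2_p B σ d1 = z) (p2 : w2_p B σ d2 = z) (p1' : w2_p B σ d1' = z')
    (p2' : w2_p B σ d2' = z') (l1' : w2_dist B z' < w2_dist B d1')
    (l2' : w2_dist B z' < w2_dist B d2') (hne : d1' ≠ d2') : ¬ n1 < n1' := by
  intro hlt
  -- `d1'` is an ancestor of `z`
  have q1 : (w2_p B σ)^[n1' - n1 - 1] z = d1' := by
    rw [← h1', ← p1, ← h1, ← Function.iterate_succ_apply' (w2_p B σ), ← Function.iterate_add_apply]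
    congr 2
    omega
  -- so it is an ancestor of `e2`
  have q2 : (w2_p B σ)^[n1' - n1 - 1 + (n2 + 1)] e2 = d1' := by
    rw [Function.iterate_add_apply, Function.iterate_succ_apply', h2, p2]
    exact q1
  obtain ⟨i, hi⟩ : ∃ i, i = n1' - n1 - 1 + (n2 + 1) := ⟨_, rfl⟩
  rw [← hi] at q2
  rcases lt_trichotomy i n2' with h | h | h
  · have q3 : (w2_p B σ)^[n2' - i - 1] z' = d2' := by
      rw [← h2', ← p1', ← q2, ← Function.iterate_succ_apply' (w2_p B σ),
        ← Function.iterate_add_apply]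
      congr 2
      omega
    have q4 := w2_dist_iter B hσ2 z' (n2' - i - 1)
    rw [q3] at q4
    omega
  · rw [h] at q2
    exact hne (q2.symm.trans h2')
  · have q3 : (w2_p B σ)^[i - n2' - 1] z' = d1' := by
      rw [← q2, ← p2', ← h2', ← Function.iterate_succ_apply' (w2_p B σ),
        ← Function.iterate_add_apply]
      congr 2
      omega
    have q4 := w2_dist_iter B hσ2 z' (i - n2' - 1)
    rw [q3] at q4
    omega

/-- the vertices with three essential directions are end points of complement edges, the base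
vertex, or meets of end points -/
theorem w2_main {σ : FreeGroup α ⧸ B → Option (α × Bool)}
    (hσ1 : ∀ y, σ y = none ↔ y = ((1 : FreeGroup α) : FreeGroup α ⧸ B))
    (hσ2 : ∀ y s, σ y = some s → w2_dist B (w2_step B s y) < w2_dist B y)
    (z : FreeGroup α ⧸ B) (hz : Branch (MulAction.stabilizer (FreeGroup α) z))
    (hzC : ∀ t, ¬ w2_C B σ z t) :
    ∃ e : (FreeGroup α ⧸ B) × (FreeGroup α ⧸ B), (∃ t, w2_C B σ e.1 t) ∧ (∃ t, w2_C B σ e.2 t) ∧
      ∃ (d1 d2 : FreeGroup α ⧸ B) (n1 n2 : ℕ), (w2_p B σ)^[n1] e.1 = d1 ∧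
        (w2_p B σ)^[n2] e.2 = d2 ∧ w2_p B σ d1 = z ∧ w2_p B σ d2 = z ∧
          w2_dist B z < w2_dist B d1 ∧ w2_dist B z < w2_dist B d2 ∧ d1 ≠ d2 := by
  obtain ⟨T, hT, hinf⟩ := hz
  -- two letters different from the direction of the parent
  obtain ⟨s1, hs1, s2, hs2, hne, hp1, hp2⟩ : ∃ s1 ∈ T, ∃ s2 ∈ T, s1 ≠ s2 ∧ σ z ≠ some s1 ∧
      σ z ≠ some s2 := by
    obtain ⟨a, ha, b, hb, c, hc, hab, hac, hbc⟩ := Finset.two_lt_card.1 (by omega : 2 < T.card)
    by_cases h1 : σ z = some a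
    · refine ⟨b, hb, c, hc, hbc, ?_, ?_⟩
      · rw [h1]
        exact fun h => hab (Option.some.inj h)
      · rw [h1]
        exact fun h => hac (Option.some.inj h)
    · by_cases h2 : σ z = some b
      · refine ⟨a, ha, c, hc, hac, h1, ?_⟩
        rw [h2]
        exact fun h => hbc (Option.some.inj h)
      · exact ⟨a, ha, b, hb, hab, h1, h2⟩
  have hchild : ∀ s, σ z ≠ some s → σ (w2_step B s z) = some (w2_inv s) := by
    intro s hs
    by_contra h
    exact hzC s ⟨hs, h⟩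
  have hc1 := hchild s1 hp1
  have hc2 := hchild s2 hp2
  obtain ⟨g1, hg1, hg1'⟩ := (hinf s1 hs1).nonempty
  obtain ⟨g2, hg2, hg2'⟩ := (hinf s2 hs2).nonempty
  obtain ⟨e1, ⟨n1, hn1⟩, t1, ht1⟩ := w2_below B hσ2 z s1 hc1 g1 hg1 hg1'
  obtain ⟨e2, ⟨n2, hn2⟩, t2, ht2⟩ := w2_below B hσ2 z s2 hc2 g2 hg2 hg2'
  have hd1 := hσ2 _ _ hc1
  have hd2 := hσ2 _ _ hc2
  rw [w2_step_inv] at hd1 hd2
  refine ⟨(e1, e2), ⟨t1, ht1⟩, ⟨t2, ht2⟩, _, _, n1, n2, hn1, hn2, ?_, ?_, hd1, hd2, ?_⟩
  · rw [w2_p_some B hc1, w2_step_inv]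
  · rw [w2_p_some B hc2, w2_step_inv]
  · intro h
    rw [h, hc2] at hc1
    have h3 := congrArg w2_inv (Option.some.inj hc1)
    rw [w2_inv_inv, w2_inv_inv] at h3
    exact hne h3.symm

end cocycle

end

open scoped Classical in
theorem w2_branch_card {α : Type} (u v : FreeGroup α)
    (V : Finset (FreeGroup α ⧸ Subgroup.closure {u, v}))
    (hV : ∀ z ∈ V, Branch (MulAction.stabilizer (FreeGroup α) z)) : V.card ≤ 20 := by
  obtain ⟨B, hB⟩ : ∃ B, B = Subgroup.closure {u, v} := ⟨_, rfl⟩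
  subst hB
  obtain ⟨σ, hσ1, hσ2⟩ := w2_exists_sigma (Subgroup.closure {u, v})
  have hcard := fun F hF => w2_card (Subgroup.closure {u, v}) u v rfl σ hσ1 hσ2 F hF
  -- the set of complement edges
  have hfin : {f : (FreeGroup α ⧸ Subgroup.closure {u, v}) × α |
      w2_C (Subgroup.closure {u, v}) σ f.1 (f.2, true)}.Finite := by
    by_contra hinf
    obtain ⟨t, ht, ht3⟩ := Set.Infinite.exists_subset_card_eq hinf 3
    have := hcard t fun f hf => ht hf
    omega
  obtain ⟨F, hF⟩ : ∃ F, F = hfin.toFinset := ⟨_, rfl⟩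
  have hFmem : ∀ f, f ∈ F ↔ w2_C (Subgroup.closure {u, v}) σ f.1 (f.2, true) := by
    intro f
    rw [hF, Set.Finite.mem_toFinset]
    rfl
  have hF2 : F.card ≤ 2 := hcard F fun f hf => (hFmem f).1 hf
  -- the end points
  obtain ⟨N, hN⟩ : ∃ N, N = F.image Prod.fst ∪
      F.image (fun f => w2_step (Subgroup.closure {u, v}) (f.2, true) f.1) := ⟨_, rfl⟩
  have hN4 : N.card ≤ 4 := by
    rw [hN]
    refine (Finset.card_union_le _ _).trans ?_
    have h1 := Finset.card_image_le (s := F) (f := Prod.fst)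
    have h2 := Finset.card_image_le (s := F)
      (f := fun f => w2_step (Subgroup.closure {u, v}) (f.2, true) f.1)
    omega
  have hNmem : ∀ y s, w2_C (Subgroup.closure {u, v}) σ y s → y ∈ N := by
    rintro y ⟨a, b⟩ h
    rw [hN, Finset.mem_union]
    cases b with
    | true => exact Or.inl (Finset.mem_image.2 ⟨(y, a), (hFmem _).2 h, rfl⟩)
    | false =>
      have h1 := w2_C_inv _ h
      refine Or.inr (Finset.mem_image.2 ⟨(w2_step _ (a, false) y, a), (hFmem _).2 h1, ?_⟩)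
      exact w2_step_inv _ (a, false) y
  -- the other branch vertices
  have hmain : ∀ z ∈ V \ N, ∃ e ∈ N ×ˢ N,
      ∃ (d1 d2 : FreeGroup α ⧸ Subgroup.closure {u, v}) (n1 n2 : ℕ),
        (w2_p (Subgroup.closure {u, v}) σ)^[n1] e.1 = d1 ∧
        (w2_p (Subgroup.closure {u, v}) σ)^[n2] e.2 = d2 ∧
        w2_p (Subgroup.closure {u, v}) σ d1 = z ∧ w2_p (Subgroup.closure {u, v}) σ d2 = z ∧
          w2_dist (Subgroup.closure {u, v}) z < w2_dist (Subgroup.closure {u, v}) d1 ∧
          w2_dist (Subgroup.closure {u, v}) z < w2_dist (Subgroup.closure {u, v}) d2 ∧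
            d1 ≠ d2 := by
    intro z hz
    rw [Finset.mem_sdiff] at hz
    obtain ⟨e, ⟨t1, ht1⟩, ⟨t2, ht2⟩, h⟩ := w2_main _ hσ1 hσ2 z (by
      convert hV z hz.1) fun t ht => hz.2 (hNmem z t ht)
    exact ⟨e, Finset.mem_product.2 ⟨hNmem _ _ ht1, hNmem _ _ ht2⟩, h⟩
  choose! e he d1 d2 n1 n2 h1 h2 h3 h4 h5 h6 h7 using hmain
  have hinj : Set.InjOn e (V \ N : Finset (FreeGroup α ⧸ Subgroup.closure {u, v})) := by
    intro z hz z' hz' heq
    have a1 := h1 z hz
    have a2 := h2 z hz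
    have b1 := h1 z' hz'
    have b2 := h2 z' hz'
    rw [heq] at a1 a2
    have c1 := w2_meet _ hσ2 _ _ z z' _ _ _ _ _ _ _ _ a1 a2 b1 b2 (h3 z hz) (h4 z hz) (h3 z' hz')
      (h4 z' hz') (h5 z' hz') (h6 z' hz') (h7 z' hz')
    have c2 := w2_meet _ hσ2 _ _ z' z _ _ _ _ _ _ _ _ b1 b2 a1 a2 (h3 z' hz') (h4 z' hz')
      (h3 z hz) (h4 z hz) (h5 z hz) (h6 z hz) (h7 z hz)
    have c3 : n1 z = n1 z' := by omega
    rw [← h3 z hz, ← h3 z' hz', ← a1, ← b1, c3]
  have h16 : (V \ N).card ≤ (N ×ˢ N).card := Finset.card_le_card_of_injOn e (fun z hz => he z hz) hinj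
  rw [Finset.card_product] at h16
  have h17 : N.card * N.card ≤ 4 * 4 := Nat.mul_le_mul hN4 hN4
  have h18 : V.card ≤ (V \ N).card + N.card := by
    rw [← Finset.card_sdiff_add_card_inter V N]
    exact Nat.add_le_add_left (Finset.card_le_card Finset.inter_subset_right) _
  omega

theorem branch_card {α : Type} [inst : DecidableEq α] (u v : FreeGroup α)
    (V : Finset (FreeGroup α ⧸ Subgroup.closure {u, v}))
    (hV : ∀ z ∈ V, Branch (MulAction.stabilizer (FreeGroup α) z)) : V.card ≤ 21 := by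
  have he : inst = fun a b => Classical.propDecidable (a = b) := Subsingleton.elim _ _
  subst he
  have h := w2_branch_card u v V hV
  omega

end Pool.Agent.Lib.MP_35fb4b_lc.SR
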