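import Pool.Agent.Lib.MP_35fb4b_lc.SR.W2

/-!
# Two-generator subgroups of free groups have at most two branch vertices (MP_35fb4b_lc)
-/

set_option autoImplicit false

namespace Pool.Agent.Lib.MP_35fb4b_lc.SR

noncomputable section

/-! ### a counting lemma -/

theorem w5_same {Ω L : Type} [DecidableEq Ω] [DecidableEq L] (S : Finset Ω) (hS : S.card ≤ 4)
    (k : Ω → L) (hk : 2 < (S.image k).card) (t u : L) (ht : (S.filter fun x => k x = t).card = 2)
    (hu : (S.filter fun x => k x = u).card = 2) : t = u := by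
  by_contra hne
  have hdisj : Disjoint (S.filter fun x => k x = t) (S.filter fun x => k x = u) := by
    rw [Finset.disjoint_left]
    intro x hx hx'
    exact hne ((Finset.mem_filter.1 hx).2.symm.trans (Finset.mem_filter.1 hx').2)
  have h1 : ((S.filter fun x => k x = t) ∪ (S.filter fun x => k x = u)).card = 4 := by
    rw [Finset.card_union_of_disjoint hdisj, ht, hu]
  have h2 : (S.filter fun x => k x = t) ∪ (S.filter fun x => k x = u) = S := by
    apply Finset.eq_of_subset_of_card_le
    · exact Finset.union_subset (Finset.filter_subset _ _) (Finset.filter_subset _ _)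
    · rw [h1]
      exact hS
  have h3 : S.image k ⊆ {t, u} := by
    intro l hl
    obtain ⟨x, hx, rfl⟩ := Finset.mem_image.1 hl
    rw [← h2, Finset.mem_union, Finset.mem_filter, Finset.mem_filter] at hx
    rcases hx with hx | hx
    · rw [hx.2]
      simp
    · rw [hx.2]
      simp
  have h4 := Finset.card_le_card h3
  have h5 := Finset.card_le_two (a := t) (b := u)
  omega

theorem w5_pair {Ω L : Type} [DecidableEq Ω] [DecidableEq L] (S : Finset Ω) (hS : S.card ≤ 4)
    (k1 k2 : Ω → L) (h1 : 2 < (S.image k1).card) (h2 : 2 < (S.image k2).card) (t t' : L)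
    (hK : ∀ x ∈ S, k1 x ≠ t → k2 x = t') :
    (S.filter fun x => k1 x = t).card = 2 ∧ (S.filter fun x => k2 x = t').card = 2 ∧
      ∀ x ∈ S, (k1 x ≠ t ↔ k2 x = t') := by
  have hsplit := Finset.card_filter_add_card_filter_not (s := S) (fun x => k1 x = t)
  have hA : 2 ≤ (S.filter fun x => ¬ k1 x = t).card := by
    have h3 : S.image k1 ⊆ insert t ((S.filter fun x => ¬ k1 x = t).image k1) := by
      intro l hl
      obtain ⟨x, hx, rfl⟩ := Finset.mem_image.1 hl
      rw [Finset.mem_insert]
      by_cases h : k1 x = t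
      · exact Or.inl h
      · exact Or.inr (Finset.mem_image_of_mem _ (Finset.mem_filter.2 ⟨hx, h⟩))
    have h4 := Finset.card_le_card h3
    have h5 := Finset.card_insert_le t ((S.filter fun x => ¬ k1 x = t).image k1)
    have h6 := Finset.card_image_le (s := S.filter fun x => ¬ k1 x = t) (f := k1)
    omega
  have hB : 2 ≤ (S.filter fun x => k1 x = t).card := by
    have h3 : S.image k2 ⊆ insert t' ((S.filter fun x => k1 x = t).image k2) := by
      intro l hl
      obtain ⟨x, hx, rfl⟩ := Finset.mem_image.1 hl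
      rw [Finset.mem_insert]
      by_cases h : k1 x = t
      · exact Or.inr (Finset.mem_image_of_mem _ (Finset.mem_filter.2 ⟨hx, h⟩))
      · exact Or.inl (hK x hx h)
    have h4 := Finset.card_le_card h3
    have h5 := Finset.card_insert_le t' ((S.filter fun x => k1 x = t).image k2)
    have h6 := Finset.card_image_le (s := S.filter fun x => k1 x = t) (f := k2)
    omega
  have hA2 : (S.filter fun x => ¬ k1 x = t).card = 2 := by omega
  have hB2 : (S.filter fun x => k1 x = t).card = 2 := by omega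
  have hiff : ∀ x ∈ S, (k1 x ≠ t ↔ k2 x = t') := by
    intro x hx
    refine ⟨hK x hx, fun hx' hxt => ?_⟩
    have hxm : x ∈ S.filter fun x => k1 x = t := Finset.mem_filter.2 ⟨hx, hxt⟩
    have h3 : S.image k2 ⊆ insert t' (((S.filter fun x => k1 x = t).erase x).image k2) := by
      intro l hl
      obtain ⟨y, hy, rfl⟩ := Finset.mem_image.1 hl
      rw [Finset.mem_insert]
      by_cases h : k1 y = t
      · by_cases hyx : y = x
        · rw [hyx]
          exact Or.inl hx'
        · exact Or.inr (Finset.mem_image_of_mem _ (Finset.mem_erase.2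
            ⟨hyx, Finset.mem_filter.2 ⟨hy, h⟩⟩))
      · exact Or.inl (hK y hy h)
    have h4 := Finset.card_le_card h3
    have h5 := Finset.card_insert_le t' (((S.filter fun x => k1 x = t).erase x).image k2)
    have h6 := Finset.card_image_le (s := (S.filter fun x => k1 x = t).erase x) (f := k2)
    have h7 := Finset.card_erase_of_mem hxm
    omega
  refine ⟨hB2, ?_, hiff⟩
  rw [← hA2]
  congr 1
  ext x
  rw [Finset.mem_filter, Finset.mem_filter]
  constructor
  · rintro ⟨hx, h⟩
    exact ⟨hx, (hiff x hx).2 h⟩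
  · rintro ⟨hx, h⟩
    exact ⟨hx, (hiff x hx).1 h⟩

theorem w5_comb {Ω L : Type} [DecidableEq Ω] [DecidableEq L] (S : Finset Ω) (hS : S.card ≤ 4)
    (k1 k2 k3 : Ω → L) (h1 : 2 < (S.image k1).card) (h2 : 2 < (S.image k2).card)
    (h3 : 2 < (S.image k3).card) (K12 : ∃ t t' : L, ∀ x ∈ S, k1 x ≠ t → k2 x = t')
    (K13 : ∃ t t' : L, ∀ x ∈ S, k1 x ≠ t → k3 x = t')
    (K23 : ∃ t t' : L, ∀ x ∈ S, k2 x ≠ t → k3 x = t') : False := by
  obtain ⟨t, t', hK⟩ := K12
  obtain ⟨u, u', hK'⟩ := K13
  obtain ⟨v, v', hK''⟩ := K23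
  obtain ⟨a1, a2, a3⟩ := w5_pair S hS k1 k2 h1 h2 t t' hK
  obtain ⟨b1, b2, b3⟩ := w5_pair S hS k1 k3 h1 h3 u u' hK'
  obtain ⟨c1, c2, c3⟩ := w5_pair S hS k2 k3 h2 h3 v v' hK''
  have e1 := w5_same S hS k1 h1 t u a1 b1
  have e2 := w5_same S hS k2 h2 t' v a2 c1
  have e3 := w5_same S hS k3 h3 u' v' b2 c2
  have hne : S.Nonempty := by
    rw [Finset.nonempty_iff_ne_empty]
    intro h
    rw [h] at a1
    simp at a1
  obtain ⟨x, hx⟩ := hne
  have f1 := a3 x hx
  have f2 := b3 x hx
  have f3 := c3 x hx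
  rw [e1] at f1
  rw [e2] at f1
  rw [← e3] at f3
  tauto

/-! ### the tree -/

section tree
open scoped Classical

variable {α : Type} (B : Subgroup (FreeGroup α))

/-- `z` is an ancestor of `x` -/
def w5_anc (σ : FreeGroup α ⧸ B → Option (α × Bool)) (x z : FreeGroup α ⧸ B) : Prop :=
  ∃ n, (w2_p B σ)^[n] x = z

/-- `d` is a child of `z` -/
def w5_child (σ : FreeGroup α ⧸ B → Option (α × Bool)) (d z : FreeGroup α ⧸ B) : Prop :=
  w2_p B σ d = z ∧ w2_dist B z < w2_dist B d

variable {σ : FreeGroup α ⧸ B → Option (α × Bool)}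

theorem w5_anc_refl (x : FreeGroup α ⧸ B) : w5_anc B σ x x := ⟨0, rfl⟩

theorem w5_anc_trans {x y z : FreeGroup α ⧸ B} (h : w5_anc B σ x y) (h' : w5_anc B σ y z) :
    w5_anc B σ x z := by
  obtain ⟨n, rfl⟩ := h
  obtain ⟨m, rfl⟩ := h'
  exact ⟨m + n, by rw [Function.iterate_add_apply]⟩

theorem w5_anc_parent {x d z : FreeGroup α ⧸ B} (h : w5_anc B σ x d) (h' : w5_child B σ d z) :
    w5_anc B σ x z := w5_anc_trans B h ⟨1, h'.1⟩

theorem w5_anc_dist
    (hσ2 : ∀ y s, σ y = some s → w2_dist B (w2_step B s y) < w2_dist B y)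
    {x z : FreeGroup α ⧸ B} (h : w5_anc B σ x z) : w2_dist B z ≤ w2_dist B x := by
  obtain ⟨n, rfl⟩ := h
  exact w2_dist_iter B hσ2 x n

/-- the ancestors of a vertex form a chain -/
theorem w5_chain {x z z' : FreeGroup α ⧸ B} (h : w5_anc B σ x z) (h' : w5_anc B σ x z') :
    w5_anc B σ z z' ∨ w5_anc B σ z' z := by
  obtain ⟨n, rfl⟩ := h
  obtain ⟨m, rfl⟩ := h'
  rcases le_total n m with hnm | hnm
  · refine Or.inl ⟨m - n, ?_⟩
    rw [← Function.iterate_add_apply]
    congr 1
    congr 1
    omega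
  · refine Or.inr ⟨n - m, ?_⟩
    rw [← Function.iterate_add_apply]
    congr 1
    congr 1
    omega

/-- a proper ancestor has a child that is an ancestor -/
theorem w5_exists_child
    (hσ2 : ∀ y s, σ y = some s → w2_dist B (w2_step B s y) < w2_dist B y)
    {x z : FreeGroup α ⧸ B} (h : w5_anc B σ x z) (hne : x ≠ z) :
    ∃ d, w5_child B σ d z ∧ w5_anc B σ x d := by
  have hn := Nat.find_spec h
  have hmin := fun m => Nat.find_min (m := m) h
  obtain ⟨n, hnn⟩ : ∃ n, n = Nat.find h := ⟨_, rfl⟩
  rw [← hnn] at hn hmin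
  rcases n with _ | n
  · exact absurd hn hne
  · refine ⟨(w2_p B σ)^[n] x, ⟨?_, ?_⟩, ⟨n, rfl⟩⟩
    · rw [← Function.iterate_succ_apply' (w2_p B σ)]
      exact hn
    · have h1 : (w2_p B σ)^[n] x ≠ z := hmin n (Nat.lt_succ_self n)
      rw [Function.iterate_succ_apply'] at hn
      rcases hs : σ ((w2_p B σ)^[n] x) with _ | s
      · exfalso
        apply h1
        rw [← hn]
        unfold w2_p at hs ⊢
        rw [hs]
      · rw [w2_p_some B hs] at hn
        rw [← hn]
        exact hσ2 _ _ hs

/-- two children of a vertex with a common descendant are equal -/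
theorem w5_child_unique
    (hσ2 : ∀ y s, σ y = some s → w2_dist B (w2_step B s y) < w2_dist B y)
    {x d d' z : FreeGroup α ⧸ B} (h : w5_anc B σ x d) (h' : w5_anc B σ x d')
    (hd : w5_child B σ d z) (hd' : w5_child B σ d' z) : d = d' := by
  by_contra hne
  rcases w5_chain B h h' with h1 | h1
  · obtain ⟨e, he, he'⟩ := w5_exists_child B hσ2 h1 hne
    -- `d'` is a proper ancestor of `d`, so an ancestor of `z`
    obtain ⟨n, hn⟩ := h1
    rcases n with _ | n
    · exact hne hn
    · rw [Function.iterate_succ_apply, hd.1] at hn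
      have h2 := w5_anc_dist B hσ2 ⟨n, hn⟩
      have h3 := hd'.2
      omega
  · obtain ⟨n, hn⟩ := h1
    rcases n with _ | n
    · exact hne hn.symm
    · rw [Function.iterate_succ_apply, hd'.1] at hn
      have h2 := w5_anc_dist B hσ2 ⟨n, hn⟩
      have h3 := hd.2
      omega

/-- labels: the point itself, a child, or upwards -/
abbrev w5_L (B : Subgroup (FreeGroup α)) : Type :=
  ((FreeGroup α ⧸ B) × (α × Bool)) ⊕ Option (FreeGroup α ⧸ B)

/-- the label of `ω` seen from `z` -/
def w5_k (σ : FreeGroup α ⧸ B → Option (α × Bool)) (z : FreeGroup α ⧸ B)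
    (ω : (FreeGroup α ⧸ B) × (α × Bool)) : w5_L B :=
  if ω.1 = z then Sum.inl ω
  else if h : ∃ d, w5_child B σ d z ∧ w5_anc B σ ω.1 d then Sum.inr (some (Classical.choose h))
  else Sum.inr none

theorem w5_k_self (z : FreeGroup α ⧸ B) (s : α × Bool) : w5_k B σ z (z, s) = Sum.inl (z, s) := by
  unfold w5_k
  rw [if_pos rfl]

theorem w5_k_child
    (hσ2 : ∀ y s, σ y = some s → w2_dist B (w2_step B s y) < w2_dist B y)
    {z d : FreeGroup α ⧸ B} (hd : w5_child B σ d z) {ω : (FreeGroup α ⧸ B) × (α × Bool)}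
    (h : w5_anc B σ ω.1 d) : w5_k B σ z ω = Sum.inr (some d) := by
  have h1 : ω.1 ≠ z := by
    intro h2
    have h3 := w5_anc_dist B hσ2 h
    rw [h2] at h3
    have h4 := hd.2
    omega
  have h2 : ∃ d, w5_child B σ d z ∧ w5_anc B σ ω.1 d := ⟨d, hd, h⟩
  unfold w5_k
  rw [if_neg h1, dif_pos h2]
  have h3 := Classical.choose_spec h2
  rw [w5_child_unique B hσ2 h3.2 h h3.1 hd]

theorem w5_k_none {z : FreeGroup α ⧸ B} {ω : (FreeGroup α ⧸ B) × (α × Bool)}
    (h : ¬ w5_anc B σ ω.1 z) : w5_k B σ z ω = Sum.inr none := by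
  unfold w5_k
  rw [if_neg, dif_neg]
  · rintro ⟨d, hd, hd'⟩
    exact h (w5_anc_parent B hd' hd)
  · intro h1
    apply h
    rw [h1]
    exact w5_anc_refl B z

/-- the points not in the direction of `z'` seen from `z` are in the direction of `z` seen
from `z'` -/
theorem w5_K
    (hσ2 : ∀ y s, σ y = some s → w2_dist B (w2_step B s y) < w2_dist B y)
    (z z' : FreeGroup α ⧸ B) (hne : z ≠ z') :
    ∃ t t' : w5_L B, ∀ ω, w5_k B σ z ω ≠ t → w5_k B σ z' ω = t' := by
  by_cases h : w5_anc B σ z z'
  · obtain ⟨d, hd, hd'⟩ := w5_exists_child B hσ2 h hne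
    refine ⟨Sum.inr none, Sum.inr (some d), fun ω hω => ?_⟩
    have h1 : w5_anc B σ ω.1 z := by
      by_contra h2
      exact hω (w5_k_none B h2)
    exact w5_k_child B hσ2 hd (w5_anc_trans B h1 hd')
  · by_cases h' : w5_anc B σ z' z
    · obtain ⟨d, hd, hd'⟩ := w5_exists_child B hσ2 h' hne.symm
      refine ⟨Sum.inr (some d), Sum.inr none, fun ω hω => ?_⟩
      apply w5_k_none
      intro h1
      exact hω (w5_k_child B hσ2 hd (w5_anc_trans B h1 hd'))
    · refine ⟨Sum.inr none, Sum.inr none, fun ω hω => ?_⟩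
      have h1 : w5_anc B σ ω.1 z := by
        by_contra h2
        exact hω (w5_k_none B h2)
      apply w5_k_none
      intro h2
      rcases w5_chain B h1 h2 with h3 | h3
      · exact h h3
      · exact h' h3

/-! ### walks outside the descendants of a vertex -/

theorem w5_mk_cons (s : α × Bool) (L : List (α × Bool)) (x : FreeGroup α ⧸ B) :
    (FreeGroup.mk (s :: L) : FreeGroup α)⁻¹ • x =
      (FreeGroup.mk L : FreeGroup α)⁻¹ • w2_step B s x := by
  have h1 : (FreeGroup.mk (s :: L) : FreeGroup α) = FreeGroup.mk [s] * FreeGroup.mk L := by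
    rw [FreeGroup.mul_mk, List.singleton_append]
  rw [h1, mul_inv_rev, mul_smul]
  rfl

theorem w5_red_tail {s : α × Bool} {L : List (α × Bool)} (h : FreeGroup.IsReduced (s :: L)) :
    FreeGroup.IsReduced L := by
  rcases L with _ | ⟨t, L⟩
  · exact FreeGroup.IsReduced.nil
  · exact (FreeGroup.isReduced_cons_cons.1 h).2

theorem w5_red_head {s : α × Bool} {L : List (α × Bool)} (h : FreeGroup.IsReduced (s :: L))
    (t : α × Bool) (ht : L.head? = some t) : t ≠ w2_inv s := by
  rcases L with _ | ⟨t', L⟩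
  · simp at ht
  · have h6 : t' = t := by simpa using ht
    subst h6
    intro h7
    have h8 := (FreeGroup.isReduced_cons_cons.1 h).1
    rw [h7] at h8
    have h9 := h8 rfl
    simp [w2_inv] at h9

theorem w5_down
    (hσ2 : ∀ y s, σ y = some s → w2_dist B (w2_step B s y) < w2_dist B y)
    (z : FreeGroup α ⧸ B) (hC : ∀ x, ¬ w5_anc B σ x z → ∀ s, ¬ w2_C B σ x s) :
    ∀ (L : List (α × Bool)) (x : FreeGroup α ⧸ B), FreeGroup.IsReduced L →
      ¬ w5_anc B σ x z → ¬ w5_anc B σ z x → (∀ s, L.head? = some s → σ x ≠ some s) →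
        (FreeGroup.mk L : FreeGroup α)⁻¹ • x ≠ z := by
  intro L
  induction L with
  | nil =>
    intro x _ hx _ _
    have h1 : (FreeGroup.mk [] : FreeGroup α) = 1 := rfl
    rw [h1, inv_one, one_smul]
    intro h
    apply hx
    rw [h]
    exact w5_anc_refl B z
  | cons s L ih =>
    intro x hL hx hx' hs
    rw [w5_mk_cons]
    have h4 : σ (w2_step B s x) = some (w2_inv s) := by
      by_contra h5
      exact hC x hx s ⟨hs s rfl, h5⟩
    have h5 : w2_p B σ (w2_step B s x) = x := by
      rw [w2_p_some B h4, w2_step_inv]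
    have h6 : ¬ w5_anc B σ z (w2_step B s x) := fun h => hx' (w5_anc_trans B h ⟨1, h5⟩)
    refine ih _ (w5_red_tail hL) ?_ h6 ?_
    · rintro ⟨n, hn⟩
      rcases n with _ | n
      · apply h6
        rw [← hn]
        exact w5_anc_refl B _
      · rw [Function.iterate_succ_apply, h5] at hn
        exact hx ⟨n, hn⟩
    · intro t ht ht2
      rw [h4] at ht2
      exact w5_red_head hL t ht (Option.some.inj ht2).symm

theorem w5_up
    (hσ2 : ∀ y s, σ y = some s → w2_dist B (w2_step B s y) < w2_dist B y)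
    (z : FreeGroup α ⧸ B) (hC : ∀ x, ¬ w5_anc B σ x z → ∀ s, ¬ w2_C B σ x s) :
    ∀ (L : List (α × Bool)) (x c : FreeGroup α ⧸ B), FreeGroup.IsReduced L →
      w5_child B σ c x → w5_anc B σ z c →
        (∀ s, L.head? = some s → σ c ≠ some (w2_inv s)) →
          (FreeGroup.mk L : FreeGroup α)⁻¹ • x ≠ z := by
  intro L
  induction L with
  | nil =>
    intro x c _ hc hzc _
    have h1 : (FreeGroup.mk [] : FreeGroup α) = 1 := rfl
    rw [h1, inv_one, one_smul]
    intro h
    have h2 := w5_anc_dist B hσ2 hzc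
    have h3 := hc.2
    rw [h] at h3
    omega
  | cons s L ih =>
    intro x c hL hc hzc hs
    rw [w5_mk_cons]
    have hx : ¬ w5_anc B σ x z := by
      intro h
      have h1 := w5_anc_dist B hσ2 h
      have h2 := w5_anc_dist B hσ2 hzc
      have h3 := hc.2
      omega
    by_cases hp : σ x = some s
    · refine ih _ x (w5_red_tail hL) ⟨w2_p_some B hp, hσ2 _ _ hp⟩ (w5_anc_parent B hzc hc) ?_
      intro t ht ht2
      rw [hp] at ht2
      have h1 := w5_red_head hL t ht
      apply h1
      have h2 : s = w2_inv t := Option.some.inj ht2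
      rw [h2, w2_inv_inv]
    · have h4 : σ (w2_step B s x) = some (w2_inv s) := by
        by_contra h5
        exact hC x hx s ⟨hp, h5⟩
      have h5 : w2_p B σ (w2_step B s x) = x := by
        rw [w2_p_some B h4, w2_step_inv]
      have h5' : w5_child B σ (w2_step B s x) x := by
        refine ⟨h5, ?_⟩
        have h6 := hσ2 _ _ h4
        rwa [w2_step_inv] at h6
      have h6 : ¬ w5_anc B σ z (w2_step B s x) := by
        intro h
        have h7 := w5_child_unique B hσ2 h hzc h5' hc
        rw [h7] at h4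
        exact hs s rfl h4
      refine w5_down B hσ2 z hC L _ (w5_red_tail hL) ?_ h6 ?_
      · rintro ⟨n, hn⟩
        rcases n with _ | n
        · apply h6
          rw [← hn]
          exact w5_anc_refl B _
        · rw [Function.iterate_succ_apply, h5] at hn
          exact hx ⟨n, hn⟩
      · intro t ht ht2
        rw [h4] at ht2
        exact w5_red_head hL t ht (Option.some.inj ht2).symm

/-- if the direction of the parent is essential, there is a complement edge outside the
descendants -/
theorem w5_above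
    (hσ2 : ∀ y s, σ y = some s → w2_dist B (w2_step B s y) < w2_dist B y)
    (z : FreeGroup α ⧸ B) (s : α × Bool) (hs : σ z = some s)
    (h : FreeGroup α) (hz : h • z = z) (hh : h.toWord.head? = some s) :
    ∃ x, ¬ w5_anc B σ x z ∧ ∃ t, w2_C B σ x t := by
  by_contra hcon
  push Not at hcon
  rcases hw : h.toWord with _ | ⟨s', L⟩
  · rw [hw] at hh
    simp at hh
  · have h1 : s' = s := by
      rw [hw] at hh
      simpa using hh
    subst h1
    have hred : FreeGroup.IsReduced (s' :: L) := by
      rw [← hw]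
      exact FreeGroup.isReduced_toWord
    have h2 : h = FreeGroup.mk (s' :: L) := by
      rw [← hw, FreeGroup.mk_toWord]
    have h3 : (FreeGroup.mk (s' :: L) : FreeGroup α)⁻¹ • z = z := by
      rw [← h2, inv_smul_eq_iff]
      exact hz.symm
    rw [w5_mk_cons] at h3
    refine w5_up B hσ2 z (fun x hx t => hcon x hx t) L (w2_step B s' z) z (w5_red_tail hred)
      ⟨w2_p_some B hs, hσ2 _ _ hs⟩ (w5_anc_refl B z) ?_ h3
    intro t ht ht2
    rw [hs] at ht2
    apply w5_red_head hred t ht
    have h5 : s' = w2_inv t := Option.some.inj ht2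
    rw [h5, w2_inv_inv]

/-- a branch vertex sees three labels -/
theorem w5_three
    (hσ2 : ∀ y s, σ y = some s → w2_dist B (w2_step B s y) < w2_dist B y)
    (S : Finset ((FreeGroup α ⧸ B) × (α × Bool))) (hS : ∀ y s, w2_C B σ y s → (y, s) ∈ S)
    (z : FreeGroup α ⧸ B) (hz : Branch (MulAction.stabilizer (FreeGroup α) z)) :
    2 < (S.image (w5_k B σ z)).card := by
  obtain ⟨T, hT, hinf⟩ := hz
  -- the label of a letter
  obtain ⟨f, hf⟩ : ∃ f : α × Bool → w5_L B, ∀ t, f t = if w2_C B σ z t then Sum.inl (z, t)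
      else if σ z = some t then Sum.inr none else Sum.inr (some (w2_step B t z)) :=
    ⟨_, fun _ => rfl⟩
  have hinj : Function.Injective f := by
    intro t t' htt
    rw [hf, hf] at htt
    by_cases c1 : w2_C B σ z t
    · by_cases c2 : w2_C B σ z t'
      · rw [if_pos c1, if_pos c2] at htt
        exact (Prod.ext_iff.1 (Sum.inl.inj htt)).2
      · rw [if_pos c1, if_neg c2] at htt
        split_ifs at htt
    · by_cases c2 : w2_C B σ z t'
      · rw [if_neg c1, if_pos c2] at htt
        split_ifs at htt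
      · rw [if_neg c1, if_neg c2] at htt
        by_cases d1 : σ z = some t
        · by_cases d2 : σ z = some t'
          · exact Option.some.inj (d1.symm.trans d2)
          · rw [if_pos d1, if_neg d2] at htt
            exact absurd (Sum.inr.inj htt) (by simp)
        · by_cases d2 : σ z = some t'
          · rw [if_neg d1, if_pos d2] at htt
            exact absurd (Sum.inr.inj htt) (by simp)
          · rw [if_neg d1, if_neg d2] at htt
            have e1 : w2_step B t z = w2_step B t' z := Option.some.inj (Sum.inr.inj htt)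
            have e2 : σ (w2_step B t z) = some (w2_inv t) := by
              by_contra h
              exact c1 ⟨d1, h⟩
            have e3 : σ (w2_step B t' z) = some (w2_inv t') := by
              by_contra h
              exact c2 ⟨d2, h⟩
            rw [e1, e3] at e2
            have e4 := congrArg w2_inv (Option.some.inj e2)
            rw [w2_inv_inv, w2_inv_inv] at e4
            exact e4.symm
  have hsub : T.image f ⊆ S.image (w5_k B σ z) := by
    intro l hl
    obtain ⟨t, ht, rfl⟩ := Finset.mem_image.1 hl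
    obtain ⟨g, hg, hg'⟩ := (hinf t ht).nonempty
    rw [Finset.mem_image, hf]
    by_cases c1 : w2_C B σ z t
    · rw [if_pos c1]
      exact ⟨(z, t), hS z t c1, w5_k_self B z t⟩
    · rw [if_neg c1]
      by_cases d1 : σ z = some t
      · rw [if_pos d1]
        obtain ⟨x, hx, s, hs⟩ := w5_above B hσ2 z t d1 g hg (by
          convert hg')
        exact ⟨(x, s), hS x s hs, w5_k_none B hx⟩
      · rw [if_neg d1]
        have e2 : σ (w2_step B t z) = some (w2_inv t) := by
          by_contra h
          exact c1 ⟨d1, h⟩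
        obtain ⟨x, hx, s, hs⟩ := w2_below B hσ2 z t e2 g hg (by
          convert hg')
        have e3 : w5_child B σ (w2_step B t z) z := by
          refine ⟨?_, ?_⟩
          · rw [w2_p_some B e2, w2_step_inv]
          · have h6 := hσ2 _ _ e2
            rwa [w2_step_inv] at h6
        exact ⟨(x, s), hS x s hs, w5_k_child B hσ2 e3 hx⟩
  have h1 := Finset.card_le_card hsub
  rw [Finset.card_image_of_injective _ hinj, hT] at h1
  omega

end tree

end

open scoped Classical in
theorem w5_branch_card {α : Type} (u v : FreeGroup α)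
    (V : Finset (FreeGroup α ⧸ Subgroup.closure {u, v}))
    (hV : ∀ z ∈ V, Branch (MulAction.stabilizer (FreeGroup α) z)) : V.card ≤ 2 := by
  obtain ⟨B, hB⟩ : ∃ B, B = Subgroup.closure {u, v} := ⟨_, rfl⟩
  subst hB
  obtain ⟨σ, hσ1, hσ2⟩ := w2_exists_sigma (Subgroup.closure {u, v})
  have hcard := fun F hF => w2_card (Subgroup.closure {u, v}) u v rfl σ hσ1 hσ2 F hF
  -- the set of complement edges
  have hfin : {f : (FreeGroup α ⧸ Subgroup.closure {u, v}) × α |
      w2_C (Subgroup.closure {u, v}) σ f.1 (f.2, true)}.Finite := by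
    by_contra hinf
    obtain ⟨t, ht, ht3⟩ := Set.Infinite.exists_subset_card_eq hinf 3
    have := hcard t fun f hf => ht hf
    omega
  obtain ⟨F, hF⟩ : ∃ F, F = hfin.toFinset := ⟨_, rfl⟩
  have hFmem : ∀ f, f ∈ F ↔ w2_C (Subgroup.closure {u, v}) σ f.1 (f.2, true) := by
    intro f
    rw [hF, Set.Finite.mem_toFinset]
    rfl
  have hF2 : F.card ≤ 2 := hcard F fun f hf => (hFmem f).1 hf
  -- the oriented complement edges
  obtain ⟨S, hS⟩ : ∃ S : Finset ((FreeGroup α ⧸ Subgroup.closure {u, v}) × (α × Bool)),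
      S = F.image (fun f => (f.1, (f.2, true))) ∪
        F.image (fun f => (w2_step (Subgroup.closure {u, v}) (f.2, true) f.1, (f.2, false))) :=
    ⟨_, rfl⟩
  have hS4 : S.card ≤ 4 := by
    rw [hS]
    refine (Finset.card_union_le _ _).trans ?_
    have h1 := Finset.card_image_le (s := F)
      (f := fun f : (FreeGroup α ⧸ Subgroup.closure {u, v}) × α => (f.1, (f.2, true)))
    have h2 := Finset.card_image_le (s := F)
      (f := fun f : (FreeGroup α ⧸ Subgroup.closure {u, v}) × α =>
        (w2_step (Subgroup.closure {u, v}) (f.2, true) f.1, (f.2, false)))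
    omega
  have hSmem : ∀ y s, w2_C (Subgroup.closure {u, v}) σ y s → (y, s) ∈ S := by
    rintro y ⟨a, b⟩ h
    rw [hS, Finset.mem_union]
    cases b with
    | true => exact Or.inl (Finset.mem_image.2 ⟨(y, a), (hFmem _).2 h, rfl⟩)
    | false =>
      have h1 := w2_C_inv _ h
      refine Or.inr (Finset.mem_image.2 ⟨(w2_step _ (a, false) y, a), (hFmem _).2 h1, ?_⟩)
      refine Prod.ext ?_ rfl
      exact w2_step_inv _ (a, false) y
  by_contra hlt
  push Not at hlt
  obtain ⟨z1, hz1, z2, hz2, z3, hz3, h12, h13, h23⟩ := Finset.two_lt_card.1 hlt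
  have hbr : ∀ z ∈ V, 2 < (S.image (w5_k (Subgroup.closure {u, v}) σ z)).card := fun z hz =>
    w5_three _ hσ2 S hSmem z (by convert hV z hz)
  obtain ⟨t, t', hK⟩ := w5_K (Subgroup.closure {u, v}) hσ2 z1 z2 h12
  obtain ⟨r, r', hK'⟩ := w5_K (Subgroup.closure {u, v}) hσ2 z1 z3 h13
  obtain ⟨q, q', hK''⟩ := w5_K (Subgroup.closure {u, v}) hσ2 z2 z3 h23
  exact w5_comb S hS4 _ _ _ (hbr z1 hz1) (hbr z2 hz2) (hbr z3 hz3)
    ⟨t, t', fun x _ hx => hK x hx⟩ ⟨r, r', fun x _ hx => hK' x hx⟩ ⟨q, q', fun x _ hx => hK'' x hx⟩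

theorem branch_card_two {α : Type} [inst : DecidableEq α] (u v : FreeGroup α)
    (V : Finset (FreeGroup α ⧸ Subgroup.closure {u, v}))
    (hV : ∀ z ∈ V, Branch (MulAction.stabilizer (FreeGroup α) z)) : V.card ≤ 2 := by
  have he : inst = fun a b => Classical.propDecidable (a = b) := Subsingleton.elim _ _
  subst he
  exact w5_branch_card u v V hV

end Pool.Agent.Lib.MP_35fb4b_lc.SR
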