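import Pool.Agent.Lib.MP_35fb4b_lc.SR.W0

/-!
# A parity argument (MP_35fb4b_lc)
-/

set_option autoImplicit false

namespace Pool.Agent.Lib.MP_35fb4b_lc.SR

open FreeGroup

section W8

variable {α : Type} [DecidableEq α]

theorem w8_toWord_mk (L : List (α × Bool)) (h : IsReduced L) : (mk L).toWord = L := by
  rw [toWord_mk, h.reduce_eq]

/-- no cancellation in a product -/
theorem w8_mul_word (a b : FreeGroup α)
    (h : ∀ z ∈ a.toWord.getLast?, ∀ y ∈ b.toWord.head?, y ≠ (z.1, !z.2)) :
    (a * b).toWord = a.toWord ++ b.toWord := by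
  have h1 : IsReduced (a.toWord ++ b.toWord) := by
    rw [FreeGroup.IsReduced, List.isChain_append]
    refine ⟨isReduced_toWord, isReduced_toWord, ?_⟩
    intro z hz y hy h3
    by_contra h4
    refine h z hz y hy (Prod.ext h3.symm ?_)
    have h5 : z.2 ≠ y.2 := h4
    simpa using (Bool.eq_not_of_ne (Ne.symm h5))
  have h2 : a * b = mk (a.toWord ++ b.toWord) := by
    rw [← mul_mk, mk_toWord, mk_toWord]
  rw [h2, w8_toWord_mk _ h1]

end W8

/-- if three letters begin infinitely many elements of `H`, every direction in the hull of `H` is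
infinite -/
theorem inf_of_exists {α : Type} [DecidableEq α] (H : Subgroup (FreeGroup α)) (hH : Branch H)
    (x : FreeGroup α) (t : α × Bool) (h : FreeGroup α) (hh : h ∈ H)
    (ht : (x⁻¹ * h).toWord.head? = some t) :
    {k : FreeGroup α | k ∈ H ∧ (x⁻¹ * k).toWord.head? = some t}.Infinite := by
  obtain ⟨T, hT, hinf⟩ := hH
  have hne : (x⁻¹ * h).toWord ≠ [] := by
    intro h0
    rw [h0] at ht
    simp at ht
  set z := (x⁻¹ * h).toWord.getLast hne with hz
  obtain ⟨s, hsT, hs⟩ : ∃ s ∈ T, s ≠ (z.1, !z.2) := by
    by_contra hcon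
    push Not at hcon
    have h1 : T ⊆ {(z.1, !z.2)} := fun s hs => Finset.mem_singleton.2 (hcon s hs)
    have h2 := Finset.card_le_card h1
    rw [hT, Finset.card_singleton] at h2
    omega
  have h3 := (hinf s hsT).image (f := fun g => h * g) (mul_right_injective h).injOn
  refine h3.mono ?_
  rintro _ ⟨g, ⟨hgH, hg⟩, rfl⟩
  refine ⟨H.mul_mem hh hgH, ?_⟩
  have h4 : (x⁻¹ * h * g).toWord = (x⁻¹ * h).toWord ++ g.toWord := by
    refine w8_mul_word _ _ fun z' hz' y hy => ?_
    rw [List.getLast?_eq_getLast_of_ne_nil hne] at hz'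
    rw [hg] at hy
    have e1 : z = z' := by simpa using hz'
    have e2 : s = y := by simpa using hy
    rw [← e1, ← e2]
    exact hs
  change (x⁻¹ * (h * g)).toWord.head? = some t
  rw [← mul_assoc, h4]
  cases hw : (x⁻¹ * h).toWord with
  | nil => exact absurd hw hne
  | cons a L =>
    rw [hw] at ht
    simpa using ht

section W8b

variable {α : Type} [DecidableEq α]

/-- the elements of `H` whose proper prefixes are not in `H` -/
def w8FR (H : Subgroup (FreeGroup α)) (h : FreeGroup α) : Prop :=
  h ∈ H ∧ ∀ p q : List (α × Bool), h.toWord = p ++ q → p ≠ [] → q ≠ [] → mk p ∉ H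

theorem w8_exists (H : Subgroup (FreeGroup α)) (t : α × Bool) (h : FreeGroup α) (hh : h ∈ H)
    (ht : h.toWord.head? = some t) : ∃ g, w8FR H g ∧ g.toWord.head? = some t := by
  classical
  have hex : ∃ n, ∃ g ∈ H, g.toWord.head? = some t ∧ g.toWord.length = n := ⟨_, h, hh, ht, rfl⟩
  obtain ⟨g, hg, hgt, hgn⟩ := Nat.find_spec hex
  refine ⟨g, ⟨hg, fun p q hpq hp hq hpH => ?_⟩, hgt⟩
  have hred : IsReduced p := by
    have h1 : IsReduced g.toWord := isReduced_toWord
    rw [hpq] at h1
    exact (List.isChain_append.1 h1).1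
  have h2 : (mk p).toWord = p := w8_toWord_mk p hred
  have h3 : Nat.find hex ≤ p.length := by
    refine Nat.find_min' hex ⟨mk p, hpH, ?_, by rw [h2]⟩
    rw [h2]
    rw [hpq] at hgt
    cases p with
    | nil => exact absurd rfl hp
    | cons a L => simpa using hgt
  have h4 : g.toWord.length = p.length + q.length := by rw [hpq, List.length_append]
  have h5 : 0 < q.length := List.length_pos_iff.2 hq
  omega

theorem w8_prefix {β : Type} [DecidableEq β] (L : List β) : ∀ M : List β, ∃ c a b : List β,
    L = c ++ a ∧ M = c ++ b ∧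
      (a = [] ∨ b = [] ∨ ∃ u v a' b', a = u :: a' ∧ b = v :: b' ∧ u ≠ v) := by
  induction L with
  | nil => intro M; exact ⟨[], [], M, rfl, rfl, Or.inl rfl⟩
  | cons x L ih =>
    intro M
    cases M with
    | nil => exact ⟨[], x :: L, [], rfl, rfl, Or.inr (Or.inl rfl)⟩
    | cons y M =>
      by_cases hxy : x = y
      · subst hxy
        obtain ⟨c, a, b, h1, h2, h3⟩ := ih M
        exact ⟨x :: c, a, b, by rw [h1]; rfl, by rw [h2]; rfl, h3⟩
      · exact ⟨[], x :: L, y :: M, rfl, rfl, Or.inr (Or.inr ⟨x, y, L, M, rfl, rfl, hxy⟩)⟩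

theorem w8_unique (H : Subgroup (FreeGroup α)) (hH : Branch H)
    (hC : ∀ x : FreeGroup α, x ∉ H → ¬ ∃ T' : Finset (α × Bool), T'.card = 3 ∧
      ∀ t ∈ T', {h : FreeGroup α | h ∈ H ∧ (x⁻¹ * h).toWord.head? = some t}.Infinite)
    (h h' : FreeGroup α) (hf : w8FR H h) (hf' : w8FR H h') (t : α × Bool)
    (ht : h.toWord.head? = some t) (ht' : h'.toWord.head? = some t) : h = h' := by
  obtain ⟨c, a, b, h1, h2, h3⟩ := w8_prefix h.toWord h'.toWord
  by_cases hc : c = []
  · subst hc
    rw [List.nil_append] at h1 h2
    exfalso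
    rcases h3 with h3 | h3 | ⟨u, v, a', b', ha, hb, huv⟩
    · rw [h1, h3] at ht; simp at ht
    · rw [h2, h3] at ht'; simp at ht'
    · rw [h1, ha] at ht
      rw [h2, hb] at ht'
      apply huv
      have e1 : u = t := by simpa using ht
      have e2 : v = t := by simpa using ht'
      rw [e1, e2]
  · rcases h3 with h3 | h3 | ⟨u, v, a', b', ha, hb, huv⟩
    · subst h3
      rw [List.append_nil] at h1
      by_cases hb : b = []
      · subst hb
        rw [List.append_nil] at h2
        exact toWord_injective (by rw [h1, h2])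
      · exfalso
        refine hf'.2 c b h2 hc hb ?_
        rw [← h1, mk_toWord]
        exact hf.1
    · subst h3
      rw [List.append_nil] at h2
      by_cases ha : a = []
      · subst ha
        rw [List.append_nil] at h1
        exact toWord_injective (by rw [h1, h2])
      · exfalso
        refine hf.2 c a h1 hc ha ?_
        rw [← h2, mk_toWord]
        exact hf'.1
    · exfalso
      have hxH : mk c ∉ H := hf.2 c a h1 hc (by rw [ha]; simp)
      have hredh : IsReduced h.toWord := isReduced_toWord
      have hredh' : IsReduced h'.toWord := isReduced_toWord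
      rw [h1] at hredh
      rw [h2] at hredh'
      have hredc : IsReduced c := (List.isChain_append.1 hredh).1
      have hreda : IsReduced a := (List.isChain_append.1 hredh).2.1
      have hredb : IsReduced b := (List.isChain_append.1 hredh').2.1
      set z := c.getLast hc with hz
      have hzl : c.getLast? = some z := List.getLast?_eq_getLast_of_ne_nil hc
      -- the two letters are not the inverse of the last letter
      have hu : u ≠ (z.1, !z.2) := by
        rw [FreeGroup.IsReduced, List.isChain_append] at hredh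
        intro hcon
        have h5 := hredh.2.2 z hzl u (by rw [ha]; simp)
        rw [hcon] at h5
        simp at h5
      have hv : v ≠ (z.1, !z.2) := by
        rw [FreeGroup.IsReduced, List.isChain_append] at hredh'
        intro hcon
        have h5 := hredh'.2.2 z hzl v (by rw [hb]; simp)
        rw [hcon] at h5
        simp at h5
      have hxh : ((mk c)⁻¹ * h).toWord.head? = some u := by
        have h5 : (mk c)⁻¹ * h = mk a := by
          have : h = mk c * mk a := by rw [mul_mk, ← h1, mk_toWord]
          rw [this, inv_mul_cancel_left]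
        rw [h5, w8_toWord_mk a hreda, ha]
        rfl
      have hxh' : ((mk c)⁻¹ * h').toWord.head? = some v := by
        have h5 : (mk c)⁻¹ * h' = mk b := by
          have : h' = mk c * mk b := by rw [mul_mk, ← h2, mk_toWord]
          rw [this, inv_mul_cancel_left]
        rw [h5, w8_toWord_mk b hredb, hb]
        rfl
      have hx1 : ((mk c)⁻¹ * 1).toWord.head? = some (z.1, !z.2) := by
        rw [mul_one, toWord_inv, w8_toWord_mk c hredc, invRev, List.head?_reverse,
          List.getLast?_map, hzl]
        rfl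
      refine hC (mk c) hxH ⟨{u, v, (z.1, !z.2)}, ?_, ?_⟩
      · rw [Finset.card_insert_of_notMem, Finset.card_insert_of_notMem, Finset.card_singleton]
        · simpa using hv
        · simp only [Finset.mem_insert, Finset.mem_singleton, not_or]
          exact ⟨huv, hu⟩
      · intro s hs
        simp only [Finset.mem_insert, Finset.mem_singleton] at hs
        rcases hs with rfl | rfl | rfl
        · exact inf_of_exists H hH _ _ h hf.1 hxh
        · exact inf_of_exists H hH _ _ h' hf'.1 hxh'
        · exact inf_of_exists H hH _ _ 1 H.one_mem hx1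

theorem w8_inv (H : Subgroup (FreeGroup α)) (h : FreeGroup α) (hf : w8FR H h) : w8FR H h⁻¹ := by
  refine ⟨H.inv_mem hf.1, fun p q hpq hp hq hpH => ?_⟩
  have h1 : h.toWord = invRev q ++ invRev p := by
    rw [← invRev_append, ← hpq, toWord_inv, invRev_invRev]
  refine hf.2 (invRev q) (invRev p) h1 ?_ ?_ ?_
  · intro h0
    apply hq
    have := congrArg List.length h0
    rw [invRev_length] at this
    exact List.length_eq_zero_iff.1 this
  · intro h0
    apply hp
    have := congrArg List.length h0
    rw [invRev_length] at this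
    exact List.length_eq_zero_iff.1 this
  · have h2 : mk (invRev q) = h * mk p := by
      have h3 : h = mk (invRev q) * (mk p)⁻¹ := by
        rw [inv_mk, mul_mk, ← h1, mk_toWord]
      rw [h3, inv_mul_cancel_right]
    rw [h2]
    exact H.mul_mem hf.1 hpH

end W8b

/-- the core graph of a subgroup does not have exactly one branch vertex of degree three -/
theorem no_cubic {α : Type} [DecidableEq α] (H : Subgroup (FreeGroup α))
    (T : Finset (α × Bool)) (hT : T.card = 3)
    (hA : ∀ t ∈ T, {h : FreeGroup α | h ∈ H ∧ h.toWord.head? = some t}.Infinite)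
    (hB : ∀ h ∈ H, ∀ t, h.toWord.head? = some t → t ∈ T)
    (hC : ∀ x : FreeGroup α, x ∉ H → ¬ ∃ T' : Finset (α × Bool), T'.card = 3 ∧
      ∀ t ∈ T', {h : FreeGroup α | h ∈ H ∧ (x⁻¹ * h).toWord.head? = some t}.Infinite) : False := by
  have hH : Branch H := ⟨T, hT, hA⟩
  have hex : ∀ t ∈ T, ∃ g, w8FR H g ∧ g.toWord.head? = some t := by
    intro t ht
    obtain ⟨h, hh, hht⟩ := (hA t ht).nonempty
    exact w8_exists H t h hh hht
  choose! g hg hgt using hex
  have hne : ∀ t ∈ T, (g t)⁻¹.toWord ≠ [] := by
    intro t ht h0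
    rw [toWord_eq_nil_iff, inv_eq_one] at h0
    have := hgt t ht
    rw [h0] at this
    simp at this
  -- the involution
  have hex2 : ∀ t ∈ T, ∃ s, (g t)⁻¹.toWord.head? = some s := by
    intro t ht
    cases hw : (g t)⁻¹.toWord with
    | nil => exact absurd hw (hne t ht)
    | cons a L => exact ⟨a, rfl⟩
  choose! τ hτ using hex2
  have hτT : ∀ t ∈ T, τ t ∈ T := fun t ht => hB _ (H.inv_mem (hg t ht).1) _ (hτ t ht)
  have hgτ : ∀ t ∈ T, g (τ t) = (g t)⁻¹ := fun t ht =>
    w8_unique H hH hC _ _ (hg _ (hτT t ht)) (w8_inv H _ (hg t ht)) (τ t) (hgt _ (hτT t ht)) (hτ t ht)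
  have hττ : ∀ t ∈ T, τ (τ t) = t := by
    intro t ht
    have h1 := hτ _ (hτT t ht)
    rw [hgτ t ht, inv_inv, hgt t ht] at h1
    exact (Option.some.inj h1).symm
  have hfix : ∀ t ∈ T, τ t ≠ t := by
    intro t ht h0
    have h1 := hgτ t ht
    rw [h0] at h1
    have h2 : (g t) ^ 2 = 1 := by
      rw [pow_two]
      nth_rewrite 1 [h1]
      rw [inv_mul_cancel]
    have h3 : g t = 1 := by
      have : IsMulTorsionFree (FreeGroup α) := inferInstance
      exact (pow_eq_one_iff_left (by norm_num)).1 h2
    have h4 := hgt t ht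
    rw [h3] at h4
    simp at h4
  have hprod : ∏ t ∈ T, (-1 : ℤ) = 1 := by
    refine Finset.prod_involution (fun t _ => τ t) ?_ ?_ ?_ ?_
    · intro t ht; norm_num
    · intro t ht _; exact hfix t ht
    · intro t ht; exact hτT t ht
    · intro t ht; exact hττ t ht
  rw [Finset.prod_const, hT] at hprod
  norm_num at hprod

end Pool.Agent.Lib.MP_35fb4b_lc.SR
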