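import Pool.Agent.Lib.MP_35fb4b_lc.SR.W1
import Pool.Agent.Lib.MP_35fb4b_lc.SR.W5
import Pool.Agent.Lib.MP_35fb4b_lc.SR.W8

/-!
# Two-generator subgroups of free groups: conjugates by elements outside meet in commutative
groups (MP_35fb4b_lc)
-/

set_option autoImplicit false

namespace Pool.Agent.Lib.MP_35fb4b_lc.SR

noncomputable section

section tree
open scoped Classical

variable {α : Type} (B : Subgroup (FreeGroup α)) {σ : FreeGroup α ⧸ B → Option (α × Bool)}

/-- the letters that begin elements of the stabilizer of a vertex have different labels -/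
theorem w9_letters
    (hσ2 : ∀ y s, σ y = some s → w2_dist B (w2_step B s y) < w2_dist B y)
    (S : Finset ((FreeGroup α ⧸ B) × (α × Bool))) (hS : ∀ y s, w2_C B σ y s → (y, s) ∈ S)
    (z : FreeGroup α ⧸ B) (T : Finset (α × Bool))
    (hT : ∀ t ∈ T, ∃ g : FreeGroup α, g • z = z ∧ g.toWord.head? = some t) :
    T.card ≤ (S.image (w5_k B σ z)).card := by
  -- the label of a letter
  obtain ⟨f, hf⟩ : ∃ f : α × Bool → w5_L B, ∀ t, f t = if w2_C B σ z t then Sum.inl (z, t)
      else if σ z = some t then Sum.inr none else Sum.inr (some (w2_step B t z)) :=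
    ⟨_, fun _ => rfl⟩
  have hinj : Function.Injective f := by
    intro t t' htt
    rw [hf, hf] at htt
    by_cases c1 : w2_C B σ z t
    · by_cases c2 : w2_C B σ z t'
      · rw [if_pos c1, if_pos c2] at htt
        exact (Prod.ext_iff.1 (Sum.inl.inj htt)).2
      · rw [if_pos c1, if_neg c2] at htt
        split_ifs at htt
    · by_cases c2 : w2_C B σ z t'
      · rw [if_neg c1, if_pos c2] at htt
        split_ifs at htt
      · rw [if_neg c1, if_neg c2] at htt
        by_cases d1 : σ z = some t
        · by_cases d2 : σ z = some t'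
          · exact Option.some.inj (d1.symm.trans d2)
          · rw [if_pos d1, if_neg d2] at htt
            exact absurd (Sum.inr.inj htt) (by simp)
        · by_cases d2 : σ z = some t'
          · rw [if_neg d1, if_pos d2] at htt
            exact absurd (Sum.inr.inj htt) (by simp)
          · rw [if_neg d1, if_neg d2] at htt
            have e1 : w2_step B t z = w2_step B t' z := Option.some.inj (Sum.inr.inj htt)
            have e2 : σ (w2_step B t z) = some (w2_inv t) := by
              by_contra h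
              exact c1 ⟨d1, h⟩
            have e3 : σ (w2_step B t' z) = some (w2_inv t') := by
              by_contra h
              exact c2 ⟨d2, h⟩
            rw [e1, e3] at e2
            have e4 := congrArg w2_inv (Option.some.inj e2)
            rw [w2_inv_inv, w2_inv_inv] at e4
            exact e4.symm
  have hsub : T.image f ⊆ S.image (w5_k B σ z) := by
    intro l hl
    obtain ⟨t, ht, rfl⟩ := Finset.mem_image.1 hl
    obtain ⟨g, hg, hg'⟩ := hT t ht
    rw [Finset.mem_image, hf]
    by_cases c1 : w2_C B σ z t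
    · rw [if_pos c1]
      exact ⟨(z, t), hS z t c1, w5_k_self B z t⟩
    · rw [if_neg c1]
      by_cases d1 : σ z = some t
      · rw [if_pos d1]
        obtain ⟨x, hx, s, hs⟩ := w5_above B hσ2 z t d1 g hg (by
          convert hg')
        exact ⟨(x, s), hS x s hs, w5_k_none B hx⟩
      · rw [if_neg d1]
        have e2 : σ (w2_step B t z) = some (w2_inv t) := by
          by_contra h
          exact c1 ⟨d1, h⟩
        obtain ⟨x, hx, s, hs⟩ := w2_below B hσ2 z t e2 g hg (by
          convert hg')
        have e3 : w5_child B σ (w2_step B t z) z := by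
          refine ⟨?_, ?_⟩
          · rw [w2_p_some B e2, w2_step_inv]
          · have h6 := hσ2 _ _ e2
            rwa [w2_step_inv] at h6
        exact ⟨(x, s), hS x s hs, w5_k_child B hσ2 e3 hx⟩
  have h1 := Finset.card_le_card hsub
  rwa [Finset.card_image_of_injective _ hinj] at h1

end tree

open scoped Classical in
/-- if there are two branch vertices, at most three letters begin elements of the stabilizer of
one of them -/
theorem w9_exact {α : Type} (u v : FreeGroup α)
    (z z' : FreeGroup α ⧸ Subgroup.closure {u, v}) (hne : z ≠ z')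
    (hz : Branch (MulAction.stabilizer (FreeGroup α) z))
    (hz' : Branch (MulAction.stabilizer (FreeGroup α) z'))
    (T : Finset (α × Bool))
    (hT : ∀ t ∈ T, ∃ g : FreeGroup α, g • z = z ∧ g.toWord.head? = some t) : T.card ≤ 3 := by
  obtain ⟨B, hB⟩ : ∃ B, B = Subgroup.closure {u, v} := ⟨_, rfl⟩
  subst hB
  obtain ⟨σ, hσ1, hσ2⟩ := w2_exists_sigma (Subgroup.closure {u, v})
  have hcard := fun F hF => w2_card (Subgroup.closure {u, v}) u v rfl σ hσ1 hσ2 F hF
  -- the set of complement edges
  have hfin : {f : (FreeGroup α ⧸ Subgroup.closure {u, v}) × α |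
      w2_C (Subgroup.closure {u, v}) σ f.1 (f.2, true)}.Finite := by
    by_contra hinf
    obtain ⟨t, ht, ht3⟩ := Set.Infinite.exists_subset_card_eq hinf 3
    have := hcard t fun f hf => ht hf
    omega
  obtain ⟨F, hF⟩ : ∃ F, F = hfin.toFinset := ⟨_, rfl⟩
  have hFmem : ∀ f, f ∈ F ↔ w2_C (Subgroup.closure {u, v}) σ f.1 (f.2, true) := by
    intro f
    rw [hF, Set.Finite.mem_toFinset]
    rfl
  have hF2 : F.card ≤ 2 := hcard F fun f hf => (hFmem f).1 hf
  -- the oriented complement edges
  obtain ⟨S, hS⟩ : ∃ S : Finset ((FreeGroup α ⧸ Subgroup.closure {u, v}) × (α × Bool)),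
      S = F.image (fun f => (f.1, (f.2, true))) ∪
        F.image (fun f => (w2_step (Subgroup.closure {u, v}) (f.2, true) f.1, (f.2, false))) :=
    ⟨_, rfl⟩
  have hS4 : S.card ≤ 4 := by
    rw [hS]
    refine (Finset.card_union_le _ _).trans ?_
    have h1 := Finset.card_image_le (s := F)
      (f := fun f : (FreeGroup α ⧸ Subgroup.closure {u, v}) × α => (f.1, (f.2, true)))
    have h2 := Finset.card_image_le (s := F)
      (f := fun f : (FreeGroup α ⧸ Subgroup.closure {u, v}) × α =>
        (w2_step (Subgroup.closure {u, v}) (f.2, true) f.1, (f.2, false)))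
    omega
  have hSmem : ∀ y s, w2_C (Subgroup.closure {u, v}) σ y s → (y, s) ∈ S := by
    rintro y ⟨a, b⟩ h
    rw [hS, Finset.mem_union]
    cases b with
    | true => exact Or.inl (Finset.mem_image.2 ⟨(y, a), (hFmem _).2 h, rfl⟩)
    | false =>
      have h1 := w2_C_inv _ h
      refine Or.inr (Finset.mem_image.2 ⟨(w2_step _ (a, false) y, a), (hFmem _).2 h1, ?_⟩)
      refine Prod.ext ?_ rfl
      exact w2_step_inv _ (a, false) y
  have hk := w5_three _ hσ2 S hSmem z (by convert hz)
  have hk' := w5_three _ hσ2 S hSmem z' (by convert hz')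
  obtain ⟨t, t', hK⟩ := w5_K (Subgroup.closure {u, v}) hσ2 z z' hne
  obtain ⟨e1, -, -⟩ := w5_pair S hS4 _ _ hk hk' t t' fun x _ hx => hK x hx
  have h1 := w9_letters _ hσ2 S hSmem z T (by
    intro t ht
    obtain ⟨g, hg, hg'⟩ := hT t ht
    exact ⟨g, hg, by convert hg'⟩)
  have h2 : S.image (w5_k (Subgroup.closure {u, v}) σ z) ⊆
      insert t ((S.filter fun x => ¬ w5_k (Subgroup.closure {u, v}) σ z x = t).image
        (w5_k (Subgroup.closure {u, v}) σ z)) := by
    intro l hl
    obtain ⟨x, hx, rfl⟩ := Finset.mem_image.1 hl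
    rw [Finset.mem_insert]
    by_cases h : w5_k (Subgroup.closure {u, v}) σ z x = t
    · exact Or.inl h
    · exact Or.inr (Finset.mem_image_of_mem _ (Finset.mem_filter.2 ⟨hx, h⟩))
  have h3 := Finset.card_le_card h2
  have h4 := Finset.card_insert_le t
    ((S.filter fun x => ¬ w5_k (Subgroup.closure {u, v}) σ z x = t).image
        (w5_k (Subgroup.closure {u, v}) σ z))
  have h5 := Finset.card_image_le
    (s := S.filter fun x => ¬ w5_k (Subgroup.closure {u, v}) σ z x = t)
    (f := w5_k (Subgroup.closure {u, v}) σ z)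
  have h6 := Finset.card_filter_add_card_filter_not (s := S)
    (fun x => w5_k (Subgroup.closure {u, v}) σ z x = t)
  omega

theorem branch_exact {α : Type} [inst : DecidableEq α] (u v : FreeGroup α)
    (z z' : FreeGroup α ⧸ Subgroup.closure {u, v}) (hne : z ≠ z')
    (hz : Branch (MulAction.stabilizer (FreeGroup α) z))
    (hz' : Branch (MulAction.stabilizer (FreeGroup α) z'))
    (T : Finset (α × Bool))
    (hT : ∀ t ∈ T, ∃ g : FreeGroup α, g • z = z ∧ g.toWord.head? = some t) : T.card ≤ 3 := by
  have he : inst = fun a b => Classical.propDecidable (a = b) := Subsingleton.elim _ _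
  subst he
  exact w9_exact u v z z' hne hz hz' T hT

theorem w9_mono {α : Type} [DecidableEq α] {H K : Subgroup (FreeGroup α)} (hHK : H ≤ K)
    (h : Branch H) : Branch K := by
  obtain ⟨T, hT, h1⟩ := h
  exact ⟨T, hT, fun s hs => (h1 s hs).mono fun x hx => ⟨hHK hx.1, hx.2⟩⟩

/-- first letters and a subgroup of index at most two -/
theorem w9_index {α : Type} [DecidableEq α] [Finite α] (H K : Subgroup (FreeGroup α))
    (hHK : ∀ h k : FreeGroup α, h ∈ H → k ∈ H → h ∉ K → k ∉ K → h * k ∈ K)
    (x : FreeGroup α) (t : α × Bool)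
    (h : {k : FreeGroup α | k ∈ H ∧ (x⁻¹ * k).toWord.head? = some t}.Infinite) :
    {k : FreeGroup α | k ∈ K ∧ (x⁻¹ * k).toWord.head? = some t}.Infinite := by
  intro hfin
  have h1 := h.sdiff hfin
  obtain ⟨s, ⟨hsH, hs⟩, hs2⟩ := h1.nonempty
  have hsK : s ∉ K := fun hk => hs2 ⟨hk, hs⟩
  have hball : {k : FreeGroup α | FreeGroup.norm (x⁻¹ * k) ≤ FreeGroup.norm s}.Finite := by
    have h2 := W1_ball (α := α) (FreeGroup.norm s)
    refine Set.Finite.of_finite_image (f := fun k => x⁻¹ * k) (h2.subset ?_)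
      (mul_right_injective x⁻¹).injOn
    rintro _ ⟨k, hk, rfl⟩
    exact hk
  have h3 := h1.sdiff hball
  have h4 := h3.image (f := fun k => k * s) (mul_left_injective s).injOn
  refine h4 (hfin.subset ?_)
  rintro _ ⟨k, ⟨⟨⟨hkH, hk⟩, hk2⟩, hk3⟩, rfl⟩
  refine ⟨hHK k s hkH hsH (fun hkK => hk2 ⟨hkK, hk⟩) hsK, ?_⟩
  have h5 : s.toWord.length < FreeGroup.norm (x⁻¹ * k) := by
    have h6 : ¬ FreeGroup.norm (x⁻¹ * k) ≤ FreeGroup.norm s := hk3
    exact not_le.1 h6
  have h6 := W1_head_mul s.toWord (x⁻¹ * k) h5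
  rw [FreeGroup.mk_toWord] at h6
  show (x⁻¹ * (k * s)).toWord.head? = some t
  rw [← mul_assoc, h6]
  exact hk

/-- the elements that permute two points -/
def w9_H {G X : Type} [Group G] [MulAction G X] (p q : X) : Subgroup G where
  carrier := {h | ∀ z, (h • z = p ∨ h • z = q) ↔ (z = p ∨ z = q)}
  one_mem' := by
    intro z
    rw [one_smul]
  mul_mem' := by
    intro a b ha hb z
    rw [mul_smul]
    exact (ha (b • z)).trans (hb z)
  inv_mem' := by
    intro a ha z
    rw [← ha (a⁻¹ • z), smul_inv_smul]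

theorem w9_mem {G X : Type} [Group G] [MulAction G X] {p q : X} (hpq : p ≠ q) (h : G) :
    h ∈ (w9_H p q : Subgroup G) ↔ (h • p = p ∧ h • q = q) ∨ (h • p = q ∧ h • q = p) := by
  constructor
  · intro hh
    have h1 := (hh p).2 (Or.inl rfl)
    have h2 := (hh q).2 (Or.inr rfl)
    have h3 : h • p ≠ h • q := fun h4 => hpq (smul_left_cancel h h4)
    rcases h1 with h1 | h1
    · rcases h2 with h2 | h2
      · exact absurd (h1.trans h2.symm) h3
      · exact Or.inl ⟨h1, h2⟩
    · rcases h2 with h2 | h2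
      · exact Or.inr ⟨h1, h2⟩
      · exact absurd (h1.trans h2.symm) h3
  · rintro (⟨h1, h2⟩ | ⟨h1, h2⟩)
    · intro z
      constructor
      · rintro (h3 | h3)
        · exact Or.inl (smul_left_cancel h (h3.trans h1.symm))
        · exact Or.inr (smul_left_cancel h (h3.trans h2.symm))
      · rintro (rfl | rfl)
        · exact Or.inl h1
        · exact Or.inr h2
    · intro z
      constructor
      · rintro (h3 | h3)
        · exact Or.inr (smul_left_cancel h (h3.trans h2.symm))
        · exact Or.inl (smul_left_cancel h (h3.trans h1.symm))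
      · rintro (rfl | rfl)
        · exact Or.inr h1
        · exact Or.inl h2

/-- a two-generator subgroup `B` of a free group of finite rank: for `g` outside `B` the
intersection of `B` with its conjugate by `g` is commutative -/
theorem inter_comm_free {α : Type} [DecidableEq α] [Finite α] (u v : FreeGroup α)
    (y : FreeGroup α ⧸ Subgroup.closure {u, v})
    (hy : y ≠ ((1 : FreeGroup α) : FreeGroup α ⧸ Subgroup.closure {u, v}))
    (a b : FreeGroup α) (ha : a ∈ Subgroup.closure {u, v}) (hb : b ∈ Subgroup.closure {u, v})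
    (hay : a • y = y) (hby : b • y = y) : a * b = b * a := by
  by_contra hab
  obtain ⟨w, hw⟩ := exists_branch
    (Subgroup.closure {u, v} ⊓ MulAction.stabilizer (FreeGroup α) y) a b ⟨ha, hay⟩ ⟨hb, hby⟩ hab
  obtain ⟨p, hp⟩ : ∃ p, p = w • ((1 : FreeGroup α) : FreeGroup α ⧸ Subgroup.closure {u, v}) :=
    ⟨_, rfl⟩
  obtain ⟨q, hq⟩ : ∃ q, q = w • y := ⟨_, rfl⟩
  have hpq : p ≠ q := by
    rw [hp, hq]
    intro h
    exact hy (smul_left_cancel w h).symm
  obtain ⟨K, hK⟩ : ∃ K : Subgroup (FreeGroup α), K = MulAction.stabilizer (FreeGroup α) p ⊓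
      MulAction.stabilizer (FreeGroup α) q := ⟨_, rfl⟩
  have hKmem : ∀ k, k ∈ K ↔ k • p = p ∧ k • q = q := by
    intro k
    rw [hK, Subgroup.mem_inf]
    rfl
  have hKB : Branch K := by
    refine w9_mono ?_ hw
    rintro x ⟨k, hk, rfl⟩
    rw [hKmem, hp, hq]
    change (w * k * w⁻¹) • (w • _) = w • _ ∧ (w * k * w⁻¹) • (w • _) = w • _
    rw [mul_smul, inv_smul_smul, mul_smul, mul_smul, inv_smul_smul, mul_smul]
    refine ⟨?_, ?_⟩
    · congr 1
      change (((k * 1 : FreeGroup α)) : FreeGroup α ⧸ Subgroup.closure {u, v}) = _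
      rw [QuotientGroup.eq]
      simpa using hk.1
    · congr 1
      exact hk.2
  have hpB : Branch (MulAction.stabilizer (FreeGroup α) p) :=
    w9_mono (fun k hk => ((hKmem k).1 hk).1) hKB
  have hqB : Branch (MulAction.stabilizer (FreeGroup α) q) :=
    w9_mono (fun k hk => ((hKmem k).1 hk).2) hKB
  -- there is no third branch vertex
  have hthird : ∀ z, Branch (MulAction.stabilizer (FreeGroup α) z) → z = p ∨ z = q := by
    classical
    intro z hz
    by_contra hcon
    push Not at hcon
    have h1 := branch_card_two u v {z, p, q} (by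
      intro x hx
      simp only [Finset.mem_insert, Finset.mem_singleton] at hx
      rcases hx with rfl | rfl | rfl
      · exact hz
      · exact hpB
      · exact hqB)
    rw [Finset.card_eq_three.2 ⟨z, p, q, hcon.1, hcon.2, hpq, rfl⟩] at h1
    omega
  obtain ⟨T, hT3, hT⟩ := hKB
  have hHK : ∀ h k : FreeGroup α, h ∈ (w9_H p q : Subgroup (FreeGroup α)) →
      k ∈ (w9_H p q : Subgroup (FreeGroup α)) → h ∉ K → k ∉ K → h * k ∈ K := by
    intro h k hh hk hhK hkK
    rw [w9_mem hpq] at hh hk
    rw [hKmem] at hhK hkK ⊢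
    rcases hh with hh | hh
    · exact absurd hh hhK
    rcases hk with hk | hk
    · exact absurd hk hkK
    rw [mul_smul, mul_smul, hk.1, hk.2]
    exact ⟨hh.2, hh.1⟩
  have hKH : K ≤ (w9_H p q : Subgroup (FreeGroup α)) := by
    intro k hk
    rw [w9_mem hpq]
    exact Or.inl ((hKmem k).1 hk)
  refine no_cubic (w9_H p q : Subgroup (FreeGroup α)) T hT3
    (fun t ht => (hT t ht).mono fun x hx => ⟨hKH hx.1, hx.2⟩) ?_ ?_
  · intro h hh t ht
    have h1 : {k : FreeGroup α | k ∈ (w9_H p q : Subgroup (FreeGroup α)) ∧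
        ((1 : FreeGroup α)⁻¹ * k).toWord.head? = some t}.Infinite := by
      refine inf_of_exists _ ⟨T, hT3, fun t ht => (hT t ht).mono fun x hx => ⟨hKH hx.1, hx.2⟩⟩ 1 t h
        hh ?_
      rw [inv_one, one_mul]
      exact ht
    obtain ⟨k, hk, hk'⟩ := (w9_index _ K hHK 1 t h1).nonempty
    rw [inv_one, one_mul] at hk'
    by_contra htT
    classical
    have h2 := branch_exact u v p q hpq hpB hqB (insert t T) (by
      intro t' ht'
      rw [Finset.mem_insert] at ht'
      rcases ht' with rfl | ht'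
      · exact ⟨k, ((hKmem k).1 hk).1, hk'⟩
      · obtain ⟨k', hk1, hk2⟩ := (hT t' ht').nonempty
        exact ⟨k', ((hKmem k').1 hk1).1, hk2⟩)
    rw [Finset.card_insert_of_notMem htT, hT3] at h2
    omega
  · rintro x hx ⟨T', hT', hinf⟩
    apply hx
    have h1 : ∀ t ∈ T', {h : FreeGroup α | h ∈ K.map (MulAut.conj x⁻¹).toMonoidHom ∧
        h.toWord.head? = some t}.Infinite := by
      intro t ht
      exact W1_transport K x⁻¹ t (w9_index _ K hHK x t (hinf t ht))
    have h2 : Branch (MulAction.stabilizer (FreeGroup α) (x⁻¹ • p)) := by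
      refine ⟨T', hT', fun t ht => (h1 t ht).mono ?_⟩
      rintro k ⟨⟨k, hk, rfl⟩, hk'⟩
      refine ⟨?_, hk'⟩
      rw [MulAction.mem_stabilizer_iff]
      change (x⁻¹ * k * x⁻¹⁻¹) • (x⁻¹ • p) = x⁻¹ • p
      rw [mul_smul, inv_smul_smul, mul_smul, ((hKmem k).1 hk).1]
    have h3 : Branch (MulAction.stabilizer (FreeGroup α) (x⁻¹ • q)) := by
      refine ⟨T', hT', fun t ht => (h1 t ht).mono ?_⟩
      rintro k ⟨⟨k, hk, rfl⟩, hk'⟩
      refine ⟨?_, hk'⟩
      rw [MulAction.mem_stabilizer_iff]
      change (x⁻¹ * k * x⁻¹⁻¹) • (x⁻¹ • q) = x⁻¹ • q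
      rw [mul_smul, inv_smul_smul, mul_smul, ((hKmem k).1 hk).2]
    have h4 := hthird _ h2
    have h5 := hthird _ h3
    have h6 : x⁻¹ ∈ (w9_H p q : Subgroup (FreeGroup α)) := by
      rw [w9_mem hpq]
      have h7 : x⁻¹ • p ≠ x⁻¹ • q := fun h => hpq (smul_left_cancel x⁻¹ h)
      rcases h4 with h4 | h4
      · rcases h5 with h5 | h5
        · exact absurd (h4.trans h5.symm) h7
        · exact Or.inl ⟨h4, h5⟩
      · rcases h5 with h5 | h5
        · exact Or.inr ⟨h4, h5⟩
        · exact absurd (h4.trans h5.symm) h7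
    exact (Subgroup.inv_mem_iff _).1 h6

end

end Pool.Agent.Lib.MP_35fb4b_lc.SR
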